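import Pool.Agent.P.MP_677f70_an.AdDom

set_option autoImplicit false

open Complex Topology Filter Pool.Agent.P.MP_677f70_an.Sh

namespace Pool.Agent.P.MP_677f70_an.Ad

variable {u : ℕ → ℝ} {s : ℂ}

/-- separation of the scales -/
def Fast (u : ℕ → ℝ) : Prop := ∀ j, 1000 * 2 ^ (j + 1) * u j ^ 2 ≤ u (j + 1)

theorem a2_re (h : Gd u) (hs : St u s) (ht : |s.im| ≤ Real.pi / 2) :
    Real.exp s.re * (9 / 10 * Real.cos s.im) * G0 u s
      + Real.exp s.re * (9 / 5 * (s.im * Real.sin s.im)) * N3 u s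
      ≤ (exp s * Pm u (ca u) 2 s).re := by
  refine hasSum_le (fun k => ?_) (((h.okA.succ.sumN (hs.pos h)).mul_left _).add
    ((h.okA.succ.succ.sumN (hs.pos h)).mul_left _)) (h.okA.succ.sumRe (hs.pos h) _)
  obtain ⟨α, β, n, hn, h1, h2, h3, h4, h5, h6, h7, h8⟩ := hs.polar h k
  obtain ⟨t1, t2, -⟩ := trig ht
  have h9 := h.okA.a0 k
  rw [h8, ← hn, exp_mul_re, re_ofReal_mul, im_ofReal_mul, mul_assoc, mul_assoc (Real.exp s.re),
    ← mul_add]
  refine mul_le_mul_of_nonneg_left ?_ (Real.exp_pos _).le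
  have e1 : ((α - β * I : ℂ) ^ (1 + 1)).re = α ^ 2 - β ^ 2 := by simp [pow_succ]
  have e2 : ((α - β * I : ℂ) ^ (1 + 1)).im = -(2 * α * β) := by simp [pow_succ]; ring
  have e3 : Real.cos s.im * (ca u k / n ^ (1 + 1) * (α ^ 2 - β ^ 2))
      - Real.sin s.im * (ca u k / n ^ (1 + 1) * -(2 * α * β))
      = (α ^ 2 - β ^ 2) * Real.cos s.im * (ca u k / n ^ (1 + 1))
        + 2 * α * ((β * n) * Real.sin s.im) * (ca u k / n ^ (1 + 1 + 1)) := by
    have : n ≠ 0 := by linarith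
    field_simp
    ring
  rw [e1, e2, e3, h4]
  have h10 : 9 / 10 ≤ α ^ 2 - β ^ 2 := by nlinarith
  have h11 : 9 / 5 ≤ 2 * α := by linarith
  gcongr

theorem N3_ge (h : Gd u) (hs : St u s) : 2 ≤ s.re ^ 3 * N3 u s := by
  have h1 := h.okA.succ.succ.term_le_N (hs.pos h) 0
  have h2 := n0_le h hs
  have h3 := h.okT.npos (hs.pos h) 0
  have h4 := h.ge 0
  have h5 := hs.pos h
  have h6 : ‖s + u 0‖ ^ 3 ≤ (3 * s.re) ^ 3 := pow_le_pow_left₀ h3.le h2 3
  refine le_trans ?_ (mul_le_mul_of_nonneg_left h1 (by positivity))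
  rw [← mul_div_assoc, le_div_iff₀ (by positivity)]
  simp only [ca, pow_zero, one_mul]
  have h7 : 0 < s.re ^ 3 := by positivity
  have h8 := mul_le_mul_of_nonneg_left h4 h7.le
  norm_num only
  linarith

theorem nJ_le (h : Gd u) (hs : St u s) {J : ℕ} (hJ : s.re ≤ u J) :
    ‖s + u J‖ ≤ 201 / 100 * u J := by
  have h1 := nrm_le s (u J) (by linarith [hs.pos h, h.ge J]) hs.im
  linarith [h.ge J]

theorem G0_term (h : Gd u) (hs : St u s) {J : ℕ} (hJ : s.re ≤ u J) :
    1 ≤ 5 * 2 ^ J * u J * G0 u s := by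
  have h1 := h.okA.succ.term_le_N (hs.pos h) J
  have h2 := nJ_le h hs hJ
  have h3 := h.okT.npos (hs.pos h) J
  have h4 := h.ge J
  have h6 : ‖s + u J‖ ^ 2 ≤ (201 / 100 * u J) ^ 2 := pow_le_pow_left₀ h3.le h2 2
  refine le_trans ?_ (mul_le_mul_of_nonneg_left h1 (by positivity))
  have e : 5 * 2 ^ J * u J * (ca u J / ‖s + u J‖ ^ (1 + 1)) = 5 * u J ^ 2 / ‖s + u J‖ ^ 2 := by
    unfold ca; rw [one_div_pow]; field_simp
  rw [e, le_div_iff₀ (by positivity)]
  nlinarith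

theorem N3_term (h : Gd u) (hs : St u s) {J : ℕ} (hJ : s.re ≤ u J) :
    1 / (9 * (2 ^ J * u J ^ 2)) ≤ N3 u s := by
  have h1 := h.okA.succ.succ.term_le_N (hs.pos h) J
  have h2 := nJ_le h hs hJ
  have h3 := h.okT.npos (hs.pos h) J
  have h4 := h.ge J
  have h6 : ‖s + u J‖ ^ 3 ≤ (201 / 100 * u J) ^ 3 := pow_le_pow_left₀ h3.le h2 3
  refine le_trans ?_ h1
  have e : ca u J / ‖s + u J‖ ^ (1 + 1 + 1) = u J / (2 ^ J * ‖s + u J‖ ^ 3) := by
    unfold ca; rw [one_div_pow]; field_simp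
  rw [e, div_le_div_iff₀ (by positivity) (by positivity)]
  have h7 : (0 : ℝ) < 2 ^ J := by positivity
  have h8 : 0 < u J ^ 3 := by positivity
  have h9 : ‖s + u J‖ ^ 3 ≤ 9 * u J ^ 3 := by nlinarith
  have := mul_le_mul_of_nonneg_left h9 h7.le
  nlinarith

theorem tail (h : Gd u) (hf : Fast u) (hs : St u s) {J : ℕ} (hJ : ¬ Odd J)
    (h1 : u J / 8 ≤ s.re) (h2 : s.re ≤ u J) : B3 u s ≤ 1 / 10 * N3 u s := by
  have hu := h.ge J
  have hp := hs.pos h
  have h7 : (0 : ℝ) < 2 ^ J := by positivity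
  obtain ⟨X, hX⟩ : ∃ X : ℝ, X = 512 / (100000 * (2 ^ J * u J ^ 2)) := ⟨_, rfl⟩
  have hX0 : 0 < X := by rw [hX]; positivity
  have h3 : B3 u s ≤ X * 2 := by
    refine hasSum_le (fun k => ?_) ((okB h).sumN hp) (hasSum_geometric_two.mul_left X)
    have hk := h.ge k
    have hn := h.okT.npos hp k
    have hn1 := add_le_norm s (u k)
    have hc := cb_le (u := u) k
    have hq : (0 : ℝ) < (1 / 2) ^ k := by positivity
    rcases lt_trichotomy k J with hkJ | hkJ | hkJ
    · obtain ⟨j, rfl⟩ : ∃ j, J = j + 1 := ⟨J - 1, by omega⟩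
      have a1 : u k ≤ u j := h.mono (by omega)
      have a2 : u k ^ 2 ≤ u j ^ 2 := pow_le_pow_left₀ (by linarith) a1 2
      have a3 := hf j
      have a4 : (u (j + 1) / 8) ^ 3 ≤ ‖s + u k‖ ^ 3 :=
        pow_le_pow_left₀ (by linarith) (by linarith) 3
      have a5 : u k ^ 2 / 100 ≤ X * (u (j + 1) / 8) ^ 3 := by
        have e : X * (u (j + 1) / 8) ^ 3 = u (j + 1) / (100000 * 2 ^ (j + 1)) := by
          rw [hX]; field_simp; ring
        rw [e, div_le_div_iff₀ (by norm_num) (by positivity)]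
        have := mul_le_mul_of_nonneg_left a2 h7.le
        nlinarith
      rw [div_le_iff₀ (by positivity)]
      have a6 := mul_le_mul_of_nonneg_left a4 hX0.le
      have a7 := mul_le_mul_of_nonneg_left (a5.trans a6) hq.le
      linarith
    · subst hkJ
      rw [cb, if_neg hJ, zero_div]
      positivity
    · have a1 : u (J + 1) ≤ u k := h.mono hkJ
      have a3 := hf J
      have a4 : u k ^ 3 ≤ ‖s + u k‖ ^ 3 := pow_le_pow_left₀ (by linarith) (by linarith) 3
      have a5 : 1 / 100 ≤ X * u k := by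
        rw [hX, div_mul_eq_mul_div, div_le_div_iff₀ (by norm_num) (by positivity)]
        rw [pow_succ] at a3
        have : 0 < 2 ^ J * u J ^ 2 := by positivity
        nlinarith
      rw [div_le_iff₀ (by positivity)]
      have a6 := mul_le_mul_of_nonneg_left a4 hX0.le
      have a7 := mul_le_mul_of_nonneg_right a5 (sq_nonneg (u k))
      have a8 : u k ^ 2 / 100 ≤ X * ‖s + u k‖ ^ 3 := by nlinarith
      have a9 := mul_le_mul_of_nonneg_left a8 hq.le
      linarith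
  have h4 := N3_term h hs h2
  have h5 : X * 2 ≤ 1 / 10 * (1 / (9 * (2 ^ J * u J ^ 2))) := by
    have : 0 < 2 ^ J * u J ^ 2 := by positivity
    rw [hX, div_mul_eq_mul_div, ← mul_div_assoc, div_le_div_iff₀ (by positivity) (by positivity)]
    nlinarith
  linarith

theorem pos (h : Gd u) (hs : St u s) (ht : |s.im| ≤ Real.pi / 2)
    (hB : B3 u s ≤ 1 / 10 * N3 u s) :
    Real.exp s.re * (4 / 5 * Real.cos s.im * G0 u s + 9 / 10 * N3 u s) ≤ (Phi u s).re := by
  have h1 := a2_re h hs ht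
  obtain ⟨t1, t2, t3⟩ := trig ht
  have hE := Real.exp_pos s.re
  have e : (Phi u s).re = (exp s * Pm u (ca u) 2 s).re + (exp s * (I * Pm u (cb u) 3 s)).re := by
    rw [Phi, gg, mul_add, add_re]
  have h2 : -(Real.exp s.re * B3 u s) ≤ (exp s * (I * Pm u (cb u) 3 s)).re := by
    have a1 := (abs_le.1 (abs_re_le_norm (exp s * (I * Pm u (cb u) 3 s)))).1
    rw [norm_mul, norm_mul, norm_exp, norm_I, one_mul] at a1
    have a2 := mul_le_mul_of_nonneg_left (b_norm h hs) hE.le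
    linarith
  have h3 := N3_le' h hs
  have h4 := N3_nonneg h hs
  have h5 := G0_pos h hs
  have h6 : 4 / 5 * Real.cos s.im * G0 u s + 9 / 10 * N3 u s ≤ 9 / 10 * Real.cos s.im * G0 u s
      + 9 / 5 * (s.im * Real.sin s.im) * N3 u s - B3 u s := by
    have b1 := mul_nonneg t1 h5.le
    have b2 := mul_nonneg t2 h4
    rcases t3 with t3 | t3
    · have := mul_le_mul_of_nonneg_right t3 h5.le
      linarith
    · have := mul_le_mul_of_nonneg_right t3.2 h4
      linarith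
  have := mul_le_mul_of_nonneg_left h6 hE.le
  linarith

theorem lat (h : Gd u) (hs : St u s) (ht : |s.im| = Real.pi / 2)
    (hB : B3 u s ≤ 1 / 10 * N3 u s) : s.re * |(Phi u s).re| ≤ 6 * ‖Phi u s‖ := by
  have hc : Real.cos s.im = 0 := by rw [← Real.cos_abs, ht, Real.cos_pi_div_two]
  have hE := Real.exp_pos s.re
  have h1 := (gg_im h hs).2
  have h2 := N3_le h hs
  have h3 := gg_norm_ge h hs
  have h4 := G0_pos h hs
  have hp := hs.pos h
  have h5 : |Real.sin s.im * (gg u s).im| ≤ 5 * N3 u s := by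
    rw [abs_mul]
    have := mul_le_mul_of_nonneg_right (Real.abs_sin_le_one s.im) (abs_nonneg (gg u s).im)
    linarith [N3_nonneg h hs]
  rw [Phi_re, hc, zero_mul, zero_sub, abs_mul, abs_neg, abs_of_pos hE, norm_Phi]
  have h6 := mul_le_mul_of_nonneg_left h5 hp.le
  have h7 : s.re * |Real.sin s.im * (gg u s).im| ≤ 6 * ‖gg u s‖ := by linarith
  have := mul_le_mul_of_nonneg_left h7 hE.le
  linarith

theorem norm_Phi_le (h : Gd u) (hs : St u s) : ‖Phi u s‖ ≤ Real.exp s.re := by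
  have h1 := gg_norm h hs
  have h2 := mul_G0_le h hs
  have h3 := mul_le_mul_of_nonneg_right (hs.ge h) (G0_pos h hs).le
  have h4 : ‖gg u s‖ ≤ 1 := by linarith
  rw [norm_Phi]
  have := mul_le_mul_of_nonneg_left h4 (Real.exp_pos s.re).le
  linarith

theorem axis (h : Gd u) (hs : St u s) (ht : |s.im| ≤ Real.pi / 2) {J : ℕ} (hJ : Odd J)
    (hc : s.re * Real.cos s.im ≤ 80) :
    s.re * (Real.exp s.re * (u J ^ 2 / ‖s + u J‖ ^ 3))
      ≤ 125 * 2 ^ J * (s.re * |(Phi u s).re| + 100 * ‖Phi u s‖) := by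
  obtain ⟨t1, -, -⟩ := trig ht
  have hE := Real.exp_pos s.re
  have hp := hs.pos h
  have hσ := hs.ge h
  have h7 : (0 : ℝ) < 2 ^ J := by positivity
  have hn := h.okT.npos hp J
  have a0 : u J ^ 2 / ‖s + u J‖ ^ 3 ≤ 100 * 2 ^ J * B3 u s := by
    have b1 := (okB h).term_le_N hp J
    have e : u J ^ 2 / ‖s + u J‖ ^ 3 = 100 * 2 ^ J * (cb u J / ‖s + u J‖ ^ 3) := by
      rw [cb, if_pos hJ, one_div_pow]; field_simp
    rw [e]
    exact mul_le_mul_of_nonneg_left b1 (by positivity)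
  have a3 : Real.cos s.im ≤ 8 / 100 := by nlinarith
  have a4 : 9 / 10 ≤ |Real.sin s.im| := by
    have b1 := Real.sin_sq_add_cos_sq s.im
    have b2 : Real.cos s.im ^ 2 ≤ (8 / 100) ^ 2 := pow_le_pow_left₀ t1 a3 2
    refine le_of_sq_le_sq ?_ (abs_nonneg _)
    rw [sq_abs]
    linarith
  have a5 := (gg_im h hs).1.trans (le_abs_self _)
  have a6 := (abs_re_le_norm _).trans (gg_norm h hs)
  have a7 : 81 / 100 * B3 u s - 18 / 5 * N3 u s - Real.cos s.im * (102 / 100 * G0 u s)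
      ≤ |Real.cos s.im * (gg u s).re - Real.sin s.im * (gg u s).im| := by
    have b1 := abs_sub_abs_le_abs_sub (Real.sin s.im * (gg u s).im) (Real.cos s.im * (gg u s).re)
    rw [abs_sub_comm, abs_mul, abs_mul, abs_of_nonneg t1] at b1
    have b2 := mul_le_mul_of_nonneg_right a4 (abs_nonneg (gg u s).im)
    have b3 := mul_le_mul_of_nonneg_left a6 t1
    linarith
  have a8 := N3_le h hs
  have a9 := gg_norm_ge h hs
  have a10 := G0_pos h hs
  have a11 := mul_le_mul_of_nonneg_right hc a10.le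
  have a12 := mul_le_mul_of_nonneg_left a7 hp.le
  have a13 : s.re * (100 * B3 u s) ≤ 125 *
      (s.re * |Real.cos s.im * (gg u s).re - Real.sin s.im * (gg u s).im| + 100 * ‖gg u s‖) := by
    have := mul_nonneg hp.le (B3_nonneg h hs)
    linarith
  rw [Phi_re, abs_mul, abs_of_pos hE, norm_Phi]
  have a14 := mul_le_mul_of_nonneg_left a13 (mul_pos h7 hE).le
  have a15 := mul_le_mul_of_nonneg_left a0 (mul_pos hp hE).le
  linarith

end Pool.Agent.P.MP_677f70_an.Ad
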