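import Pool.Agent.P.MP_677f70_an.AdCyl
import Pool.Agent.P.MP_677f70_an.AdEst

set_option autoImplicit false

open InnerProductSpace Filter Pool.Agent.P.MP_677f70_an.Sh

namespace Pool.Agent.P.MP_677f70_an.Ad

variable {u : ℕ → ℝ} {n : ℕ}

/-- the real inequality behind the direction `e_0` -/
theorem ax_real {K N α μ σ v r x : ℝ} (hK : 0 ≤ K) (hN : 1 ≤ N) (hμ : 0 ≤ μ)
    (hK1 : 10000 * K ≤ N) (hK2 : 20000 * K ≤ N * |α|) (hσ : 200 * N ^ 3 * (μ + 1) ≤ σ)
    (hr : σ ≤ r) (hax : σ * v ≤ 125 * N * (σ * |x| + 100 * r)) :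
    80 * K * v ≤ N ^ 2 * max (|α * x| - μ) 0 + r := by
  have hN0 : 0 < N := by linarith
  have hN2 : N ^ 2 ≤ N ^ 3 := pow_le_pow_right₀ hN (by norm_num)
  have hN3 : 0 < N ^ 3 := by positivity
  have hm0 : 0 ≤ N ^ 3 * μ := by positivity
  have hσ0 : 0 < σ := by nlinarith
  have hx := abs_nonneg x
  have hA : 10000 * K * N ≤ N ^ 2 := by nlinarith
  -- `80 K v ≤ A |x| + r / 2`
  have h1 : 80 * K * v ≤ 10000 * K * N * |x| + r / 2 := by
    refine le_of_mul_le_mul_left ?_ hσ0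
    have a1 := mul_le_mul_of_nonneg_left hax (by positivity : 0 ≤ 80 * K)
    have a2 : 100 * (10000 * K * N) ≤ σ / 2 := by nlinarith
    have a3 := mul_le_mul_of_nonneg_right a2 (by linarith : 0 ≤ r)
    nlinarith
  have h2 : 10000 * K * N * |x| ≤ N ^ 2 * (|α| * |x|) / 2 := by
    have a1 := mul_le_mul_of_nonneg_right hK2 (by positivity : 0 ≤ N * |x|)
    nlinarith
  have h3 := mul_le_mul_of_nonneg_left (le_max_left (|α * x| - μ) 0) (by positivity : 0 ≤ N ^ 2)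
  have h4 := mul_le_mul_of_nonneg_left (le_max_right (|α * x| - μ) 0) (by positivity : 0 ≤ N ^ 2)
  rw [abs_mul] at h3 h4 ⊢
  rcases le_total (2 * μ) (|α| * |x|) with h5 | h5
  · have a1 := mul_le_mul_of_nonneg_left h5 (by positivity : 0 ≤ N ^ 2)
    nlinarith
  · have a1 := mul_le_mul_of_nonneg_left h5 (by positivity : 0 ≤ N ^ 2)
    have a2 := mul_le_mul_of_nonneg_right hN2 hμ
    nlinarith

theorem ax (h : Gd u) {J : ℕ} (hJ : Odd J) {K α μ : ℝ} (hK : 0 ≤ K) (hμ : 0 ≤ μ)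
    (hK1 : 10000 * K ≤ 2 ^ J) (hK2 : 20000 * K ≤ 2 ^ J * |α|)
    (hu : 2 ^ J * Real.exp (200 * (2 ^ J) ^ 3 * (μ + 1)) ≤ u J) {s : ℂ} {x : E n}
    (c : Cl u (u J) s x) :
    10 * K * (Real.exp s.re * |(s ^ 2 * (((1 : ℝ) : ℂ) / (s + u J) ^ 2)).im|)
      ≤ K * (Complex.exp s).re + ((2 ^ J) ^ 2 * max (|α * x 0| - μ) 0 + ‖pl 0 1 x‖) + 1 := by
  have hS := c.st
  obtain ⟨-, -, hq⟩ := q_term h hS J
  have hσ := hS.ge h
  have hT := h.ge J
  have hE := Real.exp_pos s.re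
  have hn := add_le_norm s (u J)
  have hN : (1 : ℝ) ≤ 2 ^ J := one_le_pow₀ (by norm_num)
  have hax := axis h hS c.im hJ
  have hr := re_le_norm_Phi h hS
  have hx : (Phi u s).re = x 0 := by rw [c.eq, pl_re]
  rw [hx, c.eq] at hax
  rw [c.eq] at hr
  obtain ⟨e0, -⟩ := exp_re_bounds c.im
  have hhi := c.hi
  have hm : (0 : ℝ) ≤ (2 ^ J) ^ 2 * max (|α * x 0| - μ) 0 :=
    mul_nonneg (by positivity) (le_max_right _ _)
  have hKe := mul_nonneg hK e0
  generalize ‖s + u J‖ = ρ at *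
  generalize |(s ^ 2 * (((1 : ℝ) : ℂ) / (s + u J) ^ 2)).im| = q at *
  generalize (2 : ℝ) ^ J = N at *
  have hρ : 0 < ρ := by linarith
  have hρ3 : 0 < ρ ^ 3 := by positivity
  have hKE : 0 ≤ 10 * K * Real.exp s.re := by positivity
  by_cases c1 : s.re * Real.cos s.im ≤ 80
  · by_cases c2 : 200 * N ^ 3 * (μ + 1) ≤ s.re
    · have a1 := ax_real hK hN hμ hK1 hK2 c2 hr (hax c1)
      have a2 : 8 * s.re * (u J / ρ ^ 3) ≤ 8 * (u J ^ 2 / ρ ^ 3) := by
        have : s.re * (u J / ρ ^ 3) ≤ u J * (u J / ρ ^ 3) :=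
          mul_le_mul_of_nonneg_right hhi (by positivity)
        have e : u J ^ 2 / ρ ^ 3 = u J * (u J / ρ ^ 3) := by ring
        rw [e]; linarith
      have a3 := mul_le_mul_of_nonneg_left (hq.trans a2) hKE
      nlinarith
    · have a1 : Real.exp s.re ≤ Real.exp (200 * N ^ 3 * (μ + 1)) :=
        Real.exp_le_exp.2 (not_le.1 c2).le
      have a2 : N * Real.exp s.re ≤ u J :=
        (mul_le_mul_of_nonneg_left a1 (by linarith)).trans hu
      have a3 : u J * (8 * s.re * (u J / ρ ^ 3)) ≤ 8 := by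
        have e : u J * (8 * s.re * (u J / ρ ^ 3)) = 8 * (s.re * u J * u J / ρ ^ 3) := by ring
        have b : s.re * u J * u J / ρ ^ 3 ≤ 1 := by
          rw [div_le_one hρ3]
          have b1 : s.re * u J ≤ ρ * ρ :=
            mul_le_mul (by linarith) (by linarith) (by linarith) hρ.le
          have b2 : s.re * u J * u J ≤ ρ * ρ * ρ :=
            mul_le_mul b1 (by linarith) (by linarith) (by positivity)
          calc _ ≤ ρ * ρ * ρ := b2
            _ = ρ ^ 3 := by ring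
        rw [e]; linarith
      have a4 : u J * q ≤ 8 := (mul_le_mul_of_nonneg_left hq (by linarith)).trans a3
      have a5 : 10 * K * (Real.exp s.re * q) ≤ 1 := by
        rcases le_total q 0 with hq0 | hq0
        · have := mul_nonpos_of_nonneg_of_nonpos hKE hq0
          nlinarith
        have b1 := mul_le_mul_of_nonneg_right a2 hq0
        have b2 : 0 ≤ Real.exp s.re * q := by positivity
        have b3 := mul_le_mul_of_nonneg_right hK1 b2
        nlinarith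
      linarith [norm_nonneg (pl (0 : Fin (n + 2)) 1 x)]
  · have a3 : s.re * (8 * s.re * (u J / ρ ^ 3)) ≤ 8 := by
      have e : s.re * (8 * s.re * (u J / ρ ^ 3)) = 8 * (s.re * s.re * u J / ρ ^ 3) := by ring
      have b : s.re * s.re * u J / ρ ^ 3 ≤ 1 := by
        rw [div_le_one hρ3]
        have b1 : s.re * s.re ≤ ρ * ρ :=
          mul_le_mul (by linarith) (by linarith) (by linarith) hρ.le
        have b2 : s.re * s.re * u J ≤ ρ * ρ * ρ :=
          mul_le_mul b1 (by linarith) (by linarith) (by positivity)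
        calc _ ≤ ρ * ρ * ρ := b2
          _ = ρ ^ 3 := by ring
      rw [e]; linarith
    have a4 : s.re * q ≤ 8 := (mul_le_mul_of_nonneg_left hq (by linarith)).trans a3
    have a5 : 10 * q ≤ Real.cos s.im := by
      refine le_of_mul_le_mul_left ?_ (by linarith : 0 < s.re)
      linarith [not_le.1 c1]
    have a6 := mul_le_mul_of_nonneg_left a5 (mul_nonneg hK hE.le)
    rw [Complex.exp_re] at hKe ⊢
    nlinarith [norm_nonneg (pl (0 : Fin (n + 2)) 1 x)]

theorem caseA (h : Gd u) {J : ℕ} (hJ : Odd J) {K α μ : ℝ} (hK : 0 ≤ K) (hμ : 0 ≤ μ)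
    (hK1 : 10000 * K ≤ 2 ^ J) (hK2 : 20000 * K ≤ 2 ^ J * |α|)
    (hK3 : 10 * K * (Real.exp (u 0 + 1 + 2) * (u 0 + 1 + 2) ^ 2) ≤ 2 ^ J)
    (hK4 : u 0 + 4 ≤ 2 ^ J)
    (hu : 2 ^ J * Real.exp (200 * (2 ^ J) ^ 3 * (μ + 1)) ≤ u J)
    {H : E n → ℝ} (hH : HarmonicOnNhd H (Dn u n))
    (hM : ∀ x ∈ Dn u n, (2 ^ J) ^ 2 * max (|α * x 0| - μ) 0 + ‖pl 0 1 x‖ ≤ H x)
    {x0 : E n} (hx0 : Phi u (u 0 + 1 + 2 : ℝ) = pl 0 1 x0) : K - 2 ≤ H x0 := by
  have hT := h.pow_le J
  have hN : (1 : ℝ) ≤ 2 ^ J := one_le_pow₀ (by norm_num)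
  obtain ⟨f, hf⟩ : ∃ f : ℂ → ℂ,
      f = fun s => Complex.exp s * (s ^ 2 * (((1 : ℝ) : ℂ) / (s + u J) ^ 2)) := ⟨_, rfl⟩
  have hw : ∀ s x, Cl u (u J) s x → -(10 * K) * lift u n f x - 1
      - ((2 ^ J) ^ 2 * max (|α * x 0| - μ) 0 + ‖pl 0 1 x‖) ≤ K * (Complex.exp s).re
        - 10 * K * ((Complex.exp s).re * (s ^ 2 * (((1 : ℝ) : ℂ) / (s + u J) ^ 2)).re) := by
    intro s x c
    have a1 := ax h hJ hK hμ hK1 hK2 hu c
    rw [lift_eq h c.so c.eq, hf]
    simp only []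
    rw [exp_mul_re]
    rw [Complex.exp_re] at a1 ⊢
    generalize (s ^ 2 * (((1 : ℝ) : ℂ) / (s + u J) ^ 2)) = q at *
    have a2 : Real.sin s.im * q.im ≤ |q.im| := by
      refine (le_abs_self _).trans ?_
      rw [abs_mul]
      exact mul_le_of_le_one_left (abs_nonneg _) (Real.abs_sin_le_one _)
    have a3 := mul_le_mul_of_nonneg_left a2
      (by have := Real.exp_pos s.re; positivity : 0 ≤ 10 * K * Real.exp s.re)
    nlinarith
  have key := test (n := n) h (T := u J) (K := K) (B := K * Real.exp (u J)) (by linarith) hK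
    (by have := Real.exp_pos (u J); positivity) (H := H)
    (w := fun x => -(10 * K) * lift u n f x - 1)
    (M := fun x => (2 ^ J) ^ 2 * max (|α * x 0| - μ) 0 + ‖pl 0 1 x‖) hH ?_ (by fun_prop) hM
    ?_ ?_ ?_ hx0
  · have hs0 := real_mem_sd (u := u) (t := u 0 + 1 + 2) (by linarith)
    rw [lift_eq h (sd_sub hs0) hx0, hf] at key
    have hu0 := h.ge 0
    have e : (Complex.exp ((u 0 + 1 + 2 : ℝ) : ℂ) * (((u 0 + 1 + 2 : ℝ) : ℂ) ^ 2
        * (((1 : ℝ) : ℂ) / (((u 0 + 1 + 2 : ℝ) : ℂ) + u J) ^ 2))).re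
        = Real.exp (u 0 + 1 + 2) * ((u 0 + 1 + 2) ^ 2 * (1 / (u 0 + 1 + 2 + u J) ^ 2)) := by
      rw [← Complex.ofReal_exp]
      norm_cast
    simp only [] at key
    rw [e] at key
    generalize u 0 + 1 + 2 = σ at *
    have a1 : 10 * K * (Real.exp σ * (σ ^ 2 * (1 / (σ + u J) ^ 2))) ≤ 1 := by
      have e2 : 10 * K * (Real.exp σ * (σ ^ 2 * (1 / (σ + u J) ^ 2)))
          = 10 * K * (Real.exp σ * σ ^ 2) / (σ + u J) ^ 2 := by ring
      have hσ : 0 < σ := by
        have := hs0.1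
        rw [Complex.ofReal_re] at this
        linarith
      have hp : 0 < σ + u J := by linarith
      rw [e2, div_le_one (by positivity)]
      nlinarith
    linarith
  · intro s x c
    refine (harmonicAt_mul _ (harm_lift h c.so c.eq ?_)).sub (harmonicAt_const 1)
    have hne : s + u J ≠ 0 := norm_pos_iff.1 (h.okT.npos (c.st.pos h) J)
    rw [hf]
    exact analyticAt_cexp.mul ((analyticAt_id.pow 2).mul (analyticAt_const.div
      ((analyticAt_id.add analyticAt_const).pow 2) (pow_ne_zero 2 hne)))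
  · intro s x c
    have a1 := hw s x c
    obtain ⟨e0, e1⟩ := exp_re_bounds c.im
    have a2 := mul_nonneg (by positivity : 0 ≤ 10 * K) (mul_nonneg e0 (q_term h c.st J).1)
    have a3 := mul_le_mul_of_nonneg_left (e1.trans (Real.exp_le_exp.2 c.hi)) hK
    have a4 : 0 ≤ K * Real.exp (u J) * ‖x‖ := by have := Real.exp_pos (u J); positivity
    linarith
  · intro s x c _
    have a1 := hw s x c
    obtain ⟨e0, e1⟩ := exp_re_bounds c.im
    have a2 := mul_nonneg (by positivity : 0 ≤ 10 * K) (mul_nonneg e0 (q_term h c.st J).1)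
    linarith
  · intro s x c hs
    have a1 := hw s x c
    obtain ⟨e0, e1⟩ := exp_re_bounds c.im
    have a2 := mul_le_mul_of_nonneg_left (mul_le_mul_of_nonneg_left
      ((q_term h c.st J).2.1 hs.ge) e0) (by positivity : 0 ≤ 10 * K)
    linarith

end Pool.Agent.P.MP_677f70_an.Ad
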