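import Pool.Agent.P.MP_677f70_an.Main

set_option autoImplicit false

open InnerProductSpace

namespace Pool.Agent.P.MP_677f70_an.Ad

/-- the planar point read off in the plane of `e_0` and `e` -/
noncomputable def zz {n : ℕ} (e x : E n) : ℂ := (x 0 : ℂ) + ((∑ i, e i * x i : ℝ) : ℂ) * Complex.I

theorem zz_re {n : ℕ} (e x : E n) : (zz e x).re = x 0 := by
  simp only [zz, Complex.add_re, Complex.ofReal_re, Complex.mul_re, Complex.ofReal_im,
    Complex.I_re, Complex.I_im]; ring

theorem zz_im {n : ℕ} (e x : E n) : (zz e x).im = ∑ i, e i * x i := by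
  simp only [zz, Complex.add_im, Complex.ofReal_re, Complex.mul_im, Complex.ofReal_im,
    Complex.I_re, Complex.I_im]; ring

/-- `zz e` as a continuous linear map -/
noncomputable def zL {n : ℕ} (e : E n) : E n →L[ℝ] ℂ :=
  Complex.ofRealCLM.comp (EuclideanSpace.proj 0) +
    (Complex.I • Complex.ofRealCLM).comp (∑ i, e i • EuclideanSpace.proj i)

theorem zL_apply {n : ℕ} (e x : E n) : zL e x = zz e x := by
  simp [zL, zz, mul_comm]

open Laplacian Topology in
theorem harm_dir {n : ℕ} {e : E n} (he0 : e 0 = 0) (he : ∑ i, e i ^ 2 = 1) {g : ℂ → ℂ} {x : E n}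
    (hg : AnalyticAt ℂ g (zz e x)) : HarmonicAt (fun y : E n => (g (zz e y)).re) x := by
  have hf : HarmonicAt (fun w => (g w).re) (zL e x) := by
    rw [zL_apply]; exact hg.harmonicAt_re
  have e1 : (fun y : E n => (g (zz e y)).re) = fun y => (fun w => (g w).re) (zL e y) := by
    ext y; rw [zL_apply]
  rw [e1]
  generalize (fun w => (g w).re) = f at hf
  refine ⟨hf.1.comp x (zL e).contDiff.contDiffAt, ?_⟩
  have h1 : ∀ᶠ z in 𝓝 x, HarmonicAt f (zL e z) :=
    (zL e).continuous.continuousAt.eventually hf.eventually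
  filter_upwards [h1] with z hz
  rw [laplacian_eq_iteratedFDeriv_orthonormalBasis _ (EuclideanSpace.basisFun (Fin (n + 2)) ℝ)]
  have h0 := hz.2.self_of_nhds
  rw [laplacian_eq_iteratedFDeriv_complexPlane] at h0
  simp only [iter2_comp (zL e) f z hz.1]
  have hb : ∀ k : Fin (n + 2), zL e (EuclideanSpace.basisFun (Fin (n + 2)) ℝ k)
      = (if k = 0 then 1 else 0) + e k • Complex.I := by
    intro k
    rw [zL_apply]
    apply Complex.ext
    · rw [zz_re]
      by_cases hk : k = 0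
      · simp [hk]
      · simp [hk, Ne.symm hk]
    · rw [zz_im]
      by_cases hk : k = 0
      · simp [hk]
      · simp [hk]
  have hk : ∀ k : Fin (n + 2), iteratedFDeriv ℝ 2 f (zL e z)
      ![zL e (EuclideanSpace.basisFun (Fin (n + 2)) ℝ k),
        zL e (EuclideanSpace.basisFun (Fin (n + 2)) ℝ k)]
      = (if k = 0 then iteratedFDeriv ℝ 2 f (zL e z) ![1, 1] else 0)
        + e k ^ 2 * iteratedFDeriv ℝ 2 f (zL e z) ![Complex.I, Complex.I] := by
    intro k
    rw [hb k]
    by_cases h : k = 0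
    · simp [h, he0]
    · simp only [h, if_false, zero_add, iteratedFDeriv_two_apply, Matrix.cons_val_zero,
        Matrix.cons_val_one, map_smul, smul_apply, smul_eq_mul]
      ring
  simp only [hk, Finset.sum_add_distrib, ← Finset.sum_mul, he, one_mul, Finset.sum_ite_eq',
    Finset.mem_univ, if_true]
  simpa using h0

noncomputable def Fl (la : ℝ) (z : ℂ) : ℂ := z - (z + la) * Complex.log ((z + la) / la)

theorem w_re (la : ℝ) (z : ℂ) : ((z + la) / la).re = (z.re + la) / la := by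
  rw [Complex.div_ofReal_re]; simp

theorem w_im (la : ℝ) (z : ℂ) : ((z + la) / la).im = z.im / la := by
  rw [Complex.div_ofReal_im]; simp

theorem Fl_an {la : ℝ} (hla : 0 < la) {z : ℂ} (hz : -(la / 2) ≤ z.re) : AnalyticAt ℂ (Fl la) z := by
  have h1 : AnalyticAt ℂ (fun z : ℂ => z + la) z := analyticAt_id.add analyticAt_const
  have h2 : AnalyticAt ℂ (fun z : ℂ => (z + la) / la) z := h1.div_const
  refine analyticAt_id.sub (h1.mul (h2.clog (Or.inl ?_)))
  rw [w_re]
  exact div_pos (by linarith) hla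

theorem Fl_re (la : ℝ) (z : ℂ) : (Fl la z).re
    = z.re - (z.re + la) * Real.log ‖(z + la) / la‖ + z.im * Complex.arg ((z + la) / la) := by
  simp only [Fl, Complex.sub_re, Complex.mul_re, Complex.log_re, Complex.log_im, Complex.add_re,
    Complex.add_im, Complex.ofReal_re, Complex.ofReal_im, add_zero]
  ring

theorem arg_term {la : ℝ} (hla : 0 < la) {z : ℂ} (hz : -(la / 2) ≤ z.re) :
    z.im * Complex.arg ((z + la) / la) ≤ min (2 * |z.im|) (4 * z.im ^ 2 / la) := by
  obtain ⟨w, hw⟩ : ∃ w : ℂ, w = (z + la) / la := ⟨_, rfl⟩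
  have h1 : 1 / 2 ≤ w.re := by
    rw [hw, w_re, le_div_iff₀ hla]; linarith
  have h2 : w.im = z.im / la := by rw [hw, w_im]
  rw [← hw]
  have h3 : |Complex.arg w| ≤ Real.pi / 2 := Complex.abs_arg_le_pi_div_two_iff.2 (by linarith)
  have h4 : z.im * Complex.arg w ≤ |z.im| * |Complex.arg w| := by
    rw [← abs_mul]; exact le_abs_self _
  have h5 := abs_nonneg z.im
  have hpi := Real.pi_lt_four
  refine le_min ?_ ?_
  · nlinarith
  · have h6 := Real.mul_abs_le_abs_sin h3
    have h7 : 1 / 2 ≤ ‖w‖ := h1.trans (Complex.re_le_norm w)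
    rw [Complex.sin_arg, abs_div, abs_norm, h2, abs_div, abs_of_pos hla] at h6
    have h8 : |z.im| / la / ‖w‖ ≤ 2 * (|z.im| / la) := by
      rw [div_le_iff₀ (by linarith)]
      have : 0 ≤ |z.im| / la := by positivity
      nlinarith
    have h9 : 1 / 2 ≤ 2 / Real.pi := by
      rw [le_div_iff₀ Real.pi_pos]; linarith
    have h10 := abs_nonneg (Complex.arg w)
    have h11 : |Complex.arg w| ≤ 4 * (|z.im| / la) := by nlinarith
    calc z.im * Complex.arg w ≤ |z.im| * (4 * (|z.im| / la)) :=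
          h4.trans (mul_le_mul_of_nonneg_left h11 h5)
      _ = 4 * z.im ^ 2 / la := by rw [← sq_abs z.im]; ring

theorem log_term {la : ℝ} (hla : 0 < la) {z : ℂ} (hz : -(la / 2) ≤ z.re) :
    Real.log ((z.re + la) / la) ≤ Real.log ‖(z + la) / la‖ := by
  refine Real.log_le_log (div_pos (by linarith) hla) ?_
  rw [← w_re]
  exact Complex.re_le_norm _

theorem Fl_le {la : ℝ} (hla : 0 < la) {z : ℂ} (hz : -(la / 2) ≤ z.re) :
    (Fl la z).re ≤ min (2 * |z.im|) (4 * z.im ^ 2 / la) := by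
  have h0 : 0 < z.re + la := by linarith
  have h1 := arg_term hla hz
  have h2 := (Real.one_sub_inv_le_log_of_pos (div_pos h0 hla)).trans (log_term hla hz)
  have h3 := mul_le_mul_of_nonneg_left h2 h0.le
  have h4 : (z.re + la) * (1 - ((z.re + la) / la)⁻¹) = z.re := by
    field_simp; ring
  rw [Fl_re]
  linarith

theorem Fl_far {la L : ℝ} (hla : 0 < la) (hL : 0 ≤ L) {z : ℂ} (hz : la * Real.exp L ≤ z.re) :
    (Fl la z).re ≤ min (2 * |z.im|) (4 * z.im ^ 2 / la) - z.re * (L - 1) := by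
  have hp : 0 < la * Real.exp L := mul_pos hla (Real.exp_pos L)
  have hz' : -(la / 2) ≤ z.re := by linarith
  have h0 : 0 < z.re + la := by linarith
  have h1 := arg_term hla hz'
  have h2 : L ≤ Real.log ((z.re + la) / la) := by
    rw [Real.le_log_iff_exp_le (div_pos h0 hla), le_div_iff₀ hla]
    linarith
  have h3 := mul_le_mul_of_nonneg_left (h2.trans (log_term hla hz')) h0.le
  have h4 := mul_nonneg hla.le hL
  rw [Fl_re]
  linarith

theorem Fl_ge {la : ℝ} (hla : 0 < la) {z : ℂ} (h0 : 0 ≤ z.re) (h1 : z.re ≤ la) :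
    -(2 * ‖z‖ ^ 2 / la) ≤ (Fl la z).re := by
  obtain ⟨w, hw⟩ : ∃ w : ℂ, w = (z + la) / la := ⟨_, rfl⟩
  obtain ⟨a, ha⟩ : ∃ a, a = z.re / la := ⟨_, rfl⟩
  obtain ⟨b, hb⟩ : ∃ b, b = z.im / la := ⟨_, rfl⟩
  have e1 : z.re = la * a := by rw [ha]; field_simp
  have e2 : z.im = la * b := by rw [hb]; field_simp
  have a0 : 0 ≤ a := by rw [ha]; positivity
  have a1 : a ≤ 1 := by rw [ha, div_le_one hla]; exact h1
  have r1 : w.re = a + 1 := by rw [hw, w_re, ha]; field_simp
  have r2 : w.im = b := by rw [hw, w_im, hb]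
  have hn : ‖w‖ ^ 2 = (a + 1) ^ 2 + b ^ 2 := by
    rw [Complex.sq_norm, Complex.normSq_apply, r1, r2]; ring
  have hz : ‖z‖ ^ 2 = la ^ 2 * (a ^ 2 + b ^ 2) := by
    rw [Complex.sq_norm, Complex.normSq_apply, e1, e2]; ring
  have hl : 2 * Real.log ‖w‖ ≤ (a + 1) ^ 2 + b ^ 2 - 1 := by
    have := Real.log_le_sub_one_of_pos (show 0 < ‖w‖ ^ 2 by rw [hn]; positivity)
    rw [Real.log_pow, hn] at this
    exact_mod_cast this
  have hs : 0 ≤ z.im * Complex.arg w := by
    rcases le_or_gt 0 b with h | h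
    · exact mul_nonneg (by rw [e2]; positivity) (Complex.arg_nonneg_iff.2 (by rwa [r2]))
    · exact mul_nonneg_of_nonpos_of_nonpos (by rw [e2]; nlinarith)
        (Complex.arg_neg_iff.2 (by rwa [r2])).le
  have hm : (a + 1) * Real.log ‖w‖ ≤ a + 2 * (a ^ 2 + b ^ 2) := by
    have h2 := mul_le_mul_of_nonneg_left hl (show 0 ≤ a + 1 by linarith)
    nlinarith [mul_nonneg (sub_nonneg.2 a1) (sq_nonneg a), mul_nonneg (sub_nonneg.2 a1) (sq_nonneg b),
      sq_nonneg b]
  have h3 := mul_le_mul_of_nonneg_left hm hla.le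
  have e3 : 2 * ‖z‖ ^ 2 / la = la * (2 * (a ^ 2 + b ^ 2)) := by
    rw [hz]; field_simp
  rw [Fl_re, ← hw, e3]
  rw [e1]
  linarith

end Pool.Agent.P.MP_677f70_an.Ad
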