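import Pool.Agent.P.MP_677f70_an.AdA
import Pool.Agent.P.MP_677f70_an.AdF

set_option autoImplicit false

open InnerProductSpace Filter Pool.Agent.P.MP_677f70_an.Sh

namespace Pool.Agent.P.MP_677f70_an.Ad

variable {u : ℕ → ℝ} {n : ℕ}

/-- where the transverse part dominates, the test function is paid for by the minorant -/
theorem q1 {K N α β μ la x y : ℝ} (hK : 0 ≤ K) (hN : 1 ≤ N) (hβ : 0 < β)
    (hla : 0 < la) (h1 : 200 * K ≤ N) (h2 : 1600 * K ≤ N * β) (h3 : 1 ≤ N * β ^ 2)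
    (h4 : 64 * N ^ 3 * μ ^ 2 ≤ la) (hy : 2 * |α| * |x| ≤ β * |y|) :
    200 * K * N * min (2 * |y|) (4 * y ^ 2 / la) ≤ N ^ 2 * max (|α * x + β * y| - μ) 0 + 1 := by
  have hc : 0 ≤ 200 * K * N := by positivity
  have hy0 := abs_nonneg y
  have a1 : β * |y| / 2 ≤ |α * x + β * y| := by
    have b1 := abs_sub (α * x + β * y) (α * x)
    rw [add_sub_cancel_left, abs_mul, abs_mul, abs_of_pos hβ] at b1
    linarith
  have a3 := mul_le_mul_of_nonneg_left (le_max_left (|α * x + β * y| - μ) 0)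
    (by positivity : 0 ≤ N ^ 2)
  have a4 := mul_le_mul_of_nonneg_left (le_max_right (|α * x + β * y| - μ) 0)
    (by positivity : 0 ≤ N ^ 2)
  rcases le_total (4 * μ) (β * |y|) with h5 | h5
  · have b1 := mul_le_mul_of_nonneg_left (min_le_left (2 * |y|) (4 * y ^ 2 / la)) hc
    have b2 := mul_le_mul_of_nonneg_right h2 (by positivity : 0 ≤ N * |y|)
    have b3 : N ^ 2 * (β * |y| / 4) ≤ N ^ 2 * (|α * x + β * y| - μ) :=
      mul_le_mul_of_nonneg_left (by linarith) (by positivity)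
    nlinarith
  · have b1 := mul_le_mul_of_nonneg_left (min_le_right (2 * |y|) (4 * y ^ 2 / la)) hc
    have b2 : (β * |y|) ^ 2 ≤ (4 * μ) ^ 2 := pow_le_pow_left₀ (by positivity) h5 2
    rw [mul_pow, sq_abs] at b2
    have b3 : y ^ 2 ≤ N * (4 * μ) ^ 2 := by
      have c1 := mul_le_mul_of_nonneg_right h3 (sq_nonneg y)
      have c2 := mul_le_mul_of_nonneg_left b2 (by linarith : 0 ≤ N)
      nlinarith
    have b4 : 200 * K * N * (4 * y ^ 2 / la) ≤ 1 := by
      rw [← mul_div_assoc, div_le_one hla]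
      have c1 : 200 * K * N ≤ N * N := mul_le_mul_of_nonneg_right h1 (by linarith)
      have c2 : 200 * K * N * (4 * y ^ 2) ≤ N * N * (4 * (N * (4 * μ) ^ 2)) :=
        mul_le_mul c1 (by linarith) (by positivity) (by positivity)
      nlinarith
    linarith

theorem big (h : Gd u) (J : ℕ) : 4000 ≤ u J ∧ u J ≤ Real.exp (u J / 8) := by
  have h1 : 4000 ≤ u J := by
    have a1 := h.big J
    have a2 : (1 : ℝ) ≤ 4 ^ (J + 1) := one_le_pow₀ (by norm_num)
    unfold bb at a1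
    linarith
  refine ⟨h1, le_trans ?_ (exp_ge (t := u J / 8) (by linarith))⟩
  have a1 : 64 ≤ u J * u J := by nlinarith
  nlinarith

/-- the shape of the closed cylinder up to an even scale -/
theorem geo (h : Gd u) (hf : Fast u) {J : ℕ} (hJ : ¬ Odd J) {s : ℂ} {x : E n}
    (c : Cl u (u J) s x) :
    -(Real.exp (u J / 8) ^ 3 / 2) ≤ x 0 ∧
    (s.re ≤ u J / 8 → |x 0| ≤ Real.exp (u J / 8)) ∧
    (u J / 8 ≤ s.re → |s.im| = Real.pi / 2 → u J * |x 0| ≤ 48 * ‖pl 0 1 x‖) ∧
    (s.re = u J → Real.exp (u J / 8) ^ 4 ≤ x 0 ∧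
      4 * (Complex.exp s).re ≤ 25 * 2 ^ J * u J * x 0) := by
  have hS := c.st
  obtain ⟨b1, b2⟩ := big h J
  have hx : (Phi u s).re = x 0 := by rw [c.eq, pl_re]
  have hcos := (trig c.im).1
  have hG := G0_pos h hS
  have hN3 := N3_nonneg h hS
  have hE := Real.exp_pos s.re
  have g2 : s.re ≤ u J / 8 → |x 0| ≤ Real.exp (u J / 8) := fun hs => by
    rw [← hx]
    exact (Complex.abs_re_le_norm _).trans ((norm_Phi_le h hS).trans (Real.exp_le_exp.2 hs))
  refine ⟨?_, g2, fun hs ht => ?_, fun hs => ?_⟩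
  · rcases le_total s.re (u J / 8) with hs | hs
    · have a1 := (abs_le.1 (g2 hs)).1
      generalize Real.exp (u J / 8) = X at *
      have a2 : 2 ≤ X * X := by nlinarith
      nlinarith
    · have a1 := pos h hS c.im (tail h hf hS hJ hs c.hi)
      have a2 : 0 ≤ Real.exp s.re * (4 / 5 * Real.cos s.im * G0 u s + 9 / 10 * N3 u s) := by
        positivity
      have a3 : 0 < Real.exp (u J / 8) ^ 3 := by positivity
      linarith
  · have a1 := lat h hS ht (tail h hf hS hJ hs c.hi)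
    rw [hx, c.eq] at a1
    have a2 := mul_le_mul_of_nonneg_right hs (abs_nonneg (x 0))
    linarith
  · have a1 := pos h hS c.im (tail h hf hS hJ (by linarith) c.hi)
    have a2 := N3_ge h hS
    have a3 := G0_term h hS c.hi
    have e : Real.exp s.re = Real.exp (u J / 8) ^ 8 := by
      rw [← Real.exp_nat_mul, hs]; congr 1; push_cast; ring
    rw [hx] at a1
    have p1 : 0 ≤ Real.exp s.re * (4 / 5 * Real.cos s.im * G0 u s) := by positivity
    have p2 : 0 ≤ Real.exp s.re * (9 / 10 * N3 u s) := by positivity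
    constructor
    · have a4 : Real.exp s.re * (9 / 10 * N3 u s) ≤ x 0 := by linarith
      rw [e] at a4
      rw [hs] at a2
      generalize Real.exp (u J / 8) = X at *
      have hX : 1 ≤ X := by linarith
      have a5 : u J ^ 3 ≤ X ^ 4 :=
        (pow_le_pow_left₀ (by linarith) b2 3).trans (pow_le_pow_right₀ hX (by norm_num))
      have a6 : 2 ≤ X ^ 4 * N3 u s := a2.trans (mul_le_mul_of_nonneg_right a5 hN3)
      have a7 := mul_le_mul_of_nonneg_left a6 (by positivity : 0 ≤ X ^ 4)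
      have a8 : 0 ≤ X ^ 4 := by positivity
      have e2 : X ^ 8 * (9 / 10 * N3 u s) = 9 / 10 * (X ^ 4 * (X ^ 4 * N3 u s)) := by ring
      linarith
    · have a4 : Real.exp s.re * (4 / 5 * Real.cos s.im * G0 u s) ≤ x 0 := by linarith
      have a5 := mul_le_mul_of_nonneg_left a4 (by positivity : 0 ≤ 25 * 2 ^ J * u J)
      have a6 := mul_le_mul_of_nonneg_left a3
        (by positivity : 0 ≤ 4 * (Real.exp s.re * Real.cos s.im))
      rw [Complex.exp_re]
      nlinarith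

theorem abs_dir_le {e : E n} (he : ∑ i, e i ^ 2 = 1) (x : E n) : |∑ i, e i * x i| ≤ ‖x‖ := by
  have h1 := Finset.sum_mul_sq_le_sq_mul_sq Finset.univ (fun i => e i) (fun i => x i)
  rw [he, one_mul, ← EuclideanSpace.real_norm_sq_eq] at h1
  exact abs_le_of_sq_le_sq h1 (norm_nonneg _)

theorem caseB (h : Gd u) (hf : Fast u) {J : ℕ} (hJ : ¬ Odd J) {K α β κ μ : ℝ} (hK : 0 ≤ K)
    (hβ : 0 < β) (hκ : 0 ≤ κ) (hαβ : 2 * |α| ≤ κ * β) {e : E n} (he0 : e 0 = 0)
    (he : ∑ i, e i ^ 2 = 1)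
    (h1 : 200 * K ≤ 2 ^ J) (h2 : 1600 * K ≤ 2 ^ J * β) (h3 : 1 ≤ 2 ^ J * β ^ 2)
    (h4 : κ ^ 2 ≤ 2 ^ J) (h5 : u 0 + 4 ≤ 2 ^ J)
    (hu : 100 * (2 ^ J) ^ 4 * (μ ^ 2 + 1) ≤ u J)
    {H : E n → ℝ} (hH : HarmonicOnNhd H (Dn u n))
    (hM : ∀ x ∈ Dn u n,
      (2 ^ J) ^ 2 * max (|α * x 0 + β * ∑ i, e i * x i| - μ) 0 + ‖pl 0 1 x‖ ≤ H x)
    {x0 : E n} (hx0 : Phi u (u 0 + 1 + 2 : ℝ) = pl 0 1 x0) (h6 : ‖x0‖ ^ 2 ≤ 2 ^ J) :
    K - 2 ≤ H x0 := by
  have hT := h.pow_le J
  have hN : (1 : ℝ) ≤ 2 ^ J := one_le_pow₀ (by norm_num)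
  obtain ⟨b1, b2⟩ := big h J
  have hgeo := fun s (x : E n) (c : Cl u (u J) s x) => geo h hf hJ c
  obtain ⟨X, hX⟩ : ∃ X, X = Real.exp (u J / 8) := ⟨_, rfl⟩
  rw [← hX] at b2 hgeo
  generalize (2 : ℝ) ^ J = N at *
  have hX1 : 1 ≤ X := by linarith
  have hla : 0 < X ^ 3 := by positivity
  have hXla : X ≤ X ^ 3 := le_self_pow₀ hX1 (by norm_num)
  have hN34 : N ^ 3 ≤ N ^ 4 := pow_le_pow_right₀ hN (by norm_num)
  have hN3 : 0 < N ^ 3 := by positivity
  have hTN : 100 * N ^ 3 ≤ u J := by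
    have : 0 ≤ N ^ 4 * μ ^ 2 := by positivity
    nlinarith
  have hTμ : 64 * N ^ 3 * μ ^ 2 ≤ X ^ 3 := by
    have a1 := mul_le_mul_of_nonneg_right hN34 (sq_nonneg μ)
    have a2 : 0 ≤ N ^ 3 * μ ^ 2 := by positivity
    nlinarith
  have hκN : κ ≤ N := by nlinarith
  have hc : 0 ≤ 200 * K * N := by positivity
  have hcN : 200 * K * N ≤ N * N := mul_le_mul_of_nonneg_right h1 (by linarith)
  -- the bound for `Q`
  have hQ : ∀ x : E n, 200 * K * N * min (2 * |∑ i, e i * x i|) (4 * (∑ i, e i * x i) ^ 2 / X ^ 3)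
      ≤ N ^ 2 * max (|α * x 0 + β * ∑ i, e i * x i| - μ) 0 + 1 ∨
      |∑ i, e i * x i| ≤ κ * |x 0| := by
    intro x
    rcases le_total (κ * |x 0|) |∑ i, e i * x i| with c | c
    · refine Or.inl (q1 hK hN hβ hla h1 h2 h3 hTμ ?_)
      have a1 := mul_le_mul_of_nonneg_right hαβ (abs_nonneg (x 0))
      have a2 := mul_le_mul_of_nonneg_left c hβ.le
      linarith
    · exact Or.inr c
  have hm : ∀ x : E n, 0 ≤ N ^ 2 * max (|α * x 0 + β * ∑ i, e i * x i| - μ) 0 :=
    fun x => mul_nonneg (by positivity) (le_max_right _ _)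
  have hle : ∀ s (x : E n), Cl u (u J) s x → 200 * K * N * (Fl (X ^ 3) (zz e x)).re
      ≤ 200 * K * N * min (2 * |∑ i, e i * x i|) (4 * (∑ i, e i * x i) ^ 2 / X ^ 3) := by
    intro s x c
    have a1 := Fl_le hla (z := zz e x) (by rw [zz_re]; exact (hgeo s x c).1)
    rw [zz_im] at a1
    exact mul_le_mul_of_nonneg_left a1 hc
  have key := test (n := n) h (T := u J) (K := K) (B := 2 * (200 * K * N)) (by linarith) hK
    (by positivity) (H := H) (w := fun x => 200 * K * N * (Fl (X ^ 3) (zz e x)).re - 1)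
    (M := fun x => N ^ 2 * max (|α * x 0 + β * ∑ i, e i * x i| - μ) 0 + ‖pl 0 1 x‖) hH ?_
    (by fun_prop) hM ?_ ?_ ?_ hx0
  · have hs0 := real_mem_sd (u := u) (t := u 0 + 1 + 2) (by linarith)
    have hS := st_of_so (sd_sub hs0)
    have a0 : 0 ≤ x0 0 := by
      rw [← pl_re 0 1 x0, ← hx0, Phi_re, Complex.ofReal_im, Real.cos_zero, Real.sin_zero]
      have := gg_re h hS
      have := G0_pos h hS
      exact mul_nonneg (Real.exp_pos _).le (by linarith)
    have a1 : |x0 0| ≤ ‖x0‖ := by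
      rw [← pl_re 0 1 x0]
      exact (Complex.abs_re_le_norm _).trans (norm_pl_le x0)
    have a2 := abs_dir_le he x0
    have a3 : ‖zz e x0‖ ^ 2 ≤ 2 * N := by
      rw [Complex.sq_norm, Complex.normSq_apply, zz_re, zz_im]
      have c1 := pow_le_pow_left₀ (abs_nonneg _) a1 2
      have c2 := pow_le_pow_left₀ (abs_nonneg _) a2 2
      rw [sq_abs] at c1 c2
      nlinarith
    have a4 : ‖x0‖ ≤ N := by nlinarith [norm_nonneg x0]
    have a5 := Fl_ge hla (z := zz e x0) (by rwa [zz_re])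
      (by rw [zz_re]; linarith [le_abs_self (x0 0)])
    have a6 := mul_le_mul_of_nonneg_left a5 hc
    have a7 : 200 * K * N * (2 * ‖zz e x0‖ ^ 2 / X ^ 3) ≤ 1 := by
      rw [← mul_div_assoc, div_le_one hla]
      have c2 : 200 * K * N * (2 * ‖zz e x0‖ ^ 2) ≤ N * N * (2 * (2 * N)) :=
        mul_le_mul hcN (by linarith) (by positivity) (by positivity)
      linarith
    linarith
  · intro s x c
    exact (harmonicAt_mul _ (harm_dir he0 he
      (Fl_an hla (by rw [zz_re]; exact (hgeo s x c).1)))).sub (harmonicAt_const 1)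
  · intro s x c
    have a1 := hle s x c
    have a2 := mul_le_mul_of_nonneg_left ((min_le_left (2 * |∑ i, e i * x i|)
      (4 * (∑ i, e i * x i) ^ 2 / X ^ 3)).trans
        (mul_le_mul_of_nonneg_left (abs_dir_le he x) (by norm_num))) hc
    linarith [hm x, norm_nonneg (pl (0 : Fin (n + 2)) 1 x)]
  · intro s x c hs
    have a1 := hle s x c
    have a2 := mul_nonneg hK (exp_re_bounds c.im).1
    have a3 := hm x
    have a4 := norm_nonneg (pl (0 : Fin (n + 2)) 1 x)
    obtain ⟨-, g2, g3, -⟩ := hgeo s x c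
    rcases hQ x with q | q
    · linarith
    generalize ∑ i, e i * x i = y at *
    rcases le_or_gt s.re (u J / 8) with c1 | c1
    · have d1 := mul_le_mul_of_nonneg_left (min_le_right (2 * |y|) (4 * y ^ 2 / X ^ 3)) hc
      have d2 : |y| ≤ κ * X := q.trans (mul_le_mul_of_nonneg_left (g2 c1) hκ)
      have d3 : y ^ 2 ≤ N * X ^ 2 := by
        have e1 := pow_le_pow_left₀ (abs_nonneg _) d2 2
        rw [sq_abs, mul_pow] at e1
        exact e1.trans (mul_le_mul_of_nonneg_right h4 (sq_nonneg X))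
      have d4 : 200 * K * N * (4 * y ^ 2 / X ^ 3) ≤ 1 := by
        rw [← mul_div_assoc, div_le_one hla]
        have e1 : 200 * K * N * (4 * y ^ 2) ≤ N * N * (4 * (N * X ^ 2)) :=
          mul_le_mul hcN (by linarith) (by positivity) (by positivity)
        have e2 : 4 * N ^ 3 * X ^ 2 ≤ X * X ^ 2 :=
          mul_le_mul_of_nonneg_right (by linarith) (sq_nonneg X)
        linarith
      linarith
    · have ht : |s.im| = Real.pi / 2 := hs.resolve_left fun e1 => by
        have : N ≤ N ^ 3 := le_self_pow₀ hN (by norm_num)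
        linarith
      have d0 := g3 c1.le ht
      have d1 := mul_le_mul_of_nonneg_left (min_le_left (2 * |y|) (4 * y ^ 2 / X ^ 3)) hc
      have d2 : |y| ≤ N * |x 0| := q.trans (mul_le_mul_of_nonneg_right hκN (abs_nonneg _))
      have d3 : 200 * K * N * (2 * |y|) ≤ N * N * (2 * (N * |x 0|)) :=
        mul_le_mul hcN (by linarith) (by positivity) (by positivity)
      have d4 := mul_le_mul_of_nonneg_right hTN (abs_nonneg (x 0))
      have d5 : 0 ≤ N ^ 3 * |x 0| := by positivity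
      linarith
  · intro s x c hs
    obtain ⟨g1, -, -, g4⟩ := hgeo s x c
    obtain ⟨g4, g5⟩ := g4 hs
    have hx : 0 ≤ x 0 := le_trans (by positivity) g4
    have a1 := Fl_far hla (L := u J / 8) (by linarith) (z := zz e x)
      (by rw [zz_re, ← hX]; linarith)
    rw [zz_re, zz_im] at a1
    have a2 := mul_le_mul_of_nonneg_left a1 hc
    have a3 := hm x
    have a4 := norm_nonneg (pl (0 : Fin (n + 2)) 1 x)
    have a5 := mul_le_mul_of_nonneg_left g5 hK
    have a6 : 200 * K * N * (x 0 * (u J / 10)) ≤ 200 * K * N * (x 0 * (u J / 8 - 1)) :=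
      mul_le_mul_of_nonneg_left (mul_le_mul_of_nonneg_left (by linarith) hx) hc
    have a7 : 0 ≤ K * N * u J * x 0 := by
      have : 0 ≤ u J := by linarith
      positivity
    rcases hQ x with q | q
    · linarith
    generalize ∑ i, e i * x i = y at *
    have d1 := mul_le_mul_of_nonneg_left (min_le_left (2 * |y|) (4 * y ^ 2 / X ^ 3)) hc
    rw [abs_of_nonneg hx] at q
    have d2 : 2 * |y| ≤ x 0 * (u J / 20) := by
      have e1 : κ * x 0 ≤ u J / 40 * x 0 := mul_le_mul_of_nonneg_right (by linarith) hx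
      linarith
    have d3 := mul_le_mul_of_nonneg_left d2 hc
    linarith

end Pool.Agent.P.MP_677f70_an.Ad
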