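import Pool.Agent.P.MP_677f70_an.ShMain

set_option autoImplicit false

open Complex Topology Filter Pool.Agent.P.MP_677f70_an.Sh

namespace Pool.Agent.P.MP_677f70_an.Ad

/-- coefficients of the turning term: only the odd scales turn -/
noncomputable def cb (u : ℕ → ℝ) (k : ℕ) : ℝ :=
  if Odd k then (1 / 2) ^ k * u k ^ 2 / 100 else 0

noncomputable def gg (u : ℕ → ℝ) (s : ℂ) : ℂ := Pm u (ca u) 2 s + I * Pm u (cb u) 3 s
noncomputable def Phi (u : ℕ → ℝ) (s : ℂ) : ℂ := exp s * gg u s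
noncomputable def Lg (u : ℕ → ℝ) (s : ℂ) : ℂ := s + log (gg u s)
noncomputable def Inv (u : ℕ → ℝ) : ℂ → ℂ := Function.invFunOn (Phi u) (So u)
noncomputable def N3 (u : ℕ → ℝ) (s : ℂ) : ℝ := Nm u (ca u) 3 s
noncomputable def B3 (u : ℕ → ℝ) (s : ℂ) : ℝ := Nm u (cb u) 3 s

variable {u : ℕ → ℝ} {s : ℂ}

theorem cb_nonneg (k : ℕ) : 0 ≤ cb u k := by
  unfold cb
  split_ifs
  · positivity
  · exact le_rfl

theorem cb_le (k : ℕ) : cb u k ≤ (1 / 2) ^ k * u k ^ 2 / 100 := by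
  unfold cb
  split_ifs
  · exact le_rfl
  · positivity

theorem okB (h : Gd u) : Ok u (cb u) 3 := by
  refine ⟨cb_nonneg, fun k => by linarith [h.ge k], ?_⟩
  refine summable_geometric_two.of_nonneg_of_le (fun k => ?_) fun k => ?_
  · have := h.ge k
    have := cb_nonneg (u := u) k
    positivity
  · have h1 := h.ge k
    have h2 := cb_le (u := u) k
    have h3 : (0 : ℝ) < (1 / 2) ^ k * u k ^ 2 := by positivity
    rw [div_le_iff₀ (by positivity)]
    have : (1 / 2 : ℝ) ^ k * u k ^ 3 = (1 / 2) ^ k * u k ^ 2 * u k := by ring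
    nlinarith

theorem B3_le (h : Gd u) (hs : St u s) : B3 u s ≤ 1 / 100 * G0 u s := by
  refine hasSum_le (fun k => ?_) ((okB h).sumN (hs.pos h))
    ((h.okA.succ.sumN (hs.pos h)).mul_left _)
  have h1 := h.ge k
  have h2 := cb_le (u := u) k
  have h3 := add_le_norm s (u k)
  have h4 := hs.pos h
  have h5 := h.okT.npos h4 k
  have h6 : (0 : ℝ) < (1 / 2) ^ k * u k := by positivity
  rw [div_le_iff₀ (by positivity)]
  have e : 1 / 100 * (ca u k / ‖s + u k‖ ^ (1 + 1)) * ‖s + u k‖ ^ 3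
      = (1 / 2) ^ k * u k * ‖s + u k‖ / 100 := by
    unfold ca; field_simp
  rw [e]
  have : (1 / 2 : ℝ) ^ k * u k * u k ≤ (1 / 2) ^ k * u k * ‖s + u k‖ :=
    mul_le_mul_of_nonneg_left (by linarith) h6.le
  nlinarith

theorem B3_nonneg (h : Gd u) (hs : St u s) : 0 ≤ B3 u s := (okB h).N_nonneg (hs.pos h)

theorem N3_nonneg (h : Gd u) (hs : St u s) : 0 ≤ N3 u s := h.okA.succ.succ.N_nonneg (hs.pos h)

theorem N3_le (h : Gd u) (hs : St u s) : s.re * N3 u s ≤ G0 u s := h.okA.succ.N_succ (hs.pos h)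

theorem N3_le' (h : Gd u) (hs : St u s) : 1000 * N3 u s ≤ G0 u s :=
  (mul_le_mul_of_nonneg_right (hs.ge h) (N3_nonneg h hs)).trans (N3_le h hs)

theorem b_norm (h : Gd u) (hs : St u s) : ‖Pm u (cb u) 3 s‖ ≤ B3 u s := (okB h).norm_le (hs.pos h)

theorem gg_re (h : Gd u) (hs : St u s) : 88 / 100 * G0 u s ≤ (gg u s).re := by
  have h1 := g0_re h hs
  have h2 := (abs_le.1 ((abs_im_le_norm _).trans (b_norm h hs))).2
  have h3 := B3_le h hs
  have h4 := G0_pos h hs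
  have e : (gg u s).re = (Pm u (ca u) 2 s).re - (Pm u (cb u) 3 s).im := by simp [gg]; ring
  linarith

theorem gg_norm (h : Gd u) (hs : St u s) : ‖gg u s‖ ≤ 102 / 100 * G0 u s := by
  have h1 : ‖Pm u (ca u) 2 s‖ ≤ G0 u s := h.okA.succ.norm_le (hs.pos h)
  have h2 := b_norm h hs
  have h3 := B3_le h hs
  have h4 := G0_pos h hs
  have h5 := norm_add_le (Pm u (ca u) 2 s) (I * Pm u (cb u) 3 s)
  have e : ‖I * Pm u (cb u) 3 s‖ = ‖Pm u (cb u) 3 s‖ := by simp
  unfold gg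
  linarith

theorem a_im (h : Gd u) (hs : St u s) : |(Pm u (ca u) 2 s).im| ≤ 4 * N3 u s := by
  refine (hasSum_im (h.okA.succ.sumP (hs.pos h))).norm_le_of_bounded
    ((h.okA.succ.succ.sumN (hs.pos h)).mul_left _) fun k => ?_
  obtain ⟨α, β, n, hn, h1, h2, h3, h4, h5, h6, h7, h8⟩ := hs.polar h k
  rw [h8, ← hn]
  have e : ((α - β * I : ℂ) ^ (1 + 1)).im = -(2 * α * β) := by simp [pow_succ]; ring
  have h11 := h.okA.a0 k
  have h12 : |β| * n ≤ 2 := by
    have := hs.im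
    rwa [← h4, abs_mul, abs_of_pos (by linarith : 0 < n)] at this
  rw [im_ofReal_mul, e, Real.norm_eq_abs, abs_mul, abs_neg, abs_mul, abs_of_nonneg (by positivity),
    abs_of_nonneg (by linarith : 0 ≤ 2 * α)]
  have h13 : 2 * α * |β| ≤ 4 / n := by
    rw [le_div_iff₀ (by linarith)]
    nlinarith [abs_nonneg β]
  calc ca u k / n ^ (1 + 1) * (2 * α * |β|) ≤ ca u k / n ^ (1 + 1) * (4 / n) := by
        gcongr
    _ = 4 * (ca u k / n ^ (1 + 1 + 1)) := by field_simp; ring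

theorem b_re (h : Gd u) (hs : St u s) : 9 / 10 * B3 u s ≤ (Pm u (cb u) 3 s).re := by
  refine hasSum_le (fun k => ?_) (((okB h).sumN (hs.pos h)).mul_left _)
    (hasSum_re ((okB h).sumP (hs.pos h)))
  obtain ⟨α, β, n, hn, h1, h2, h3, h4, h5, h6, h7, h8⟩ := hs.polar h k
  have h9 := (okB h).term_nonneg s k
  rw [h8, ← hn] at *
  have e : ((α - β * I : ℂ) ^ 3).re = α * (α ^ 2 - 3 * β ^ 2) := by simp [pow_succ]; ring
  rw [re_ofReal_mul, e]
  have h10 : 92 / 100 ≤ α ^ 2 - 3 * β ^ 2 := by nlinarith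
  have : 9 / 10 ≤ α * (α ^ 2 - 3 * β ^ 2) := by nlinarith
  nlinarith

theorem gg_im (h : Gd u) (hs : St u s) :
    9 / 10 * B3 u s - 4 * N3 u s ≤ (gg u s).im ∧ |(gg u s).im| ≤ B3 u s + 4 * N3 u s := by
  have h1 := abs_le.1 (a_im h hs)
  have h2 := b_re h hs
  have h3 := abs_le.1 ((abs_re_le_norm _).trans (b_norm h hs))
  have e : (gg u s).im = (Pm u (ca u) 2 s).im + (Pm u (cb u) 3 s).re := by simp [gg]
  refine ⟨by linarith [h1.1], abs_le.2 ⟨?_, ?_⟩⟩ <;> linarith [h1.1, h1.2, h3.1, h3.2]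

theorem gg_norm_ge (h : Gd u) (hs : St u s) : 88 / 100 * G0 u s ≤ ‖gg u s‖ :=
  (gg_re h hs).trans (re_le_norm _)

theorem gg_slit (h : Gd u) (hs : St u s) : gg u s ∈ slitPlane :=
  Or.inl (by linarith [gg_re h hs, G0_pos h hs])

theorem gg_ne (h : Gd u) (hs : St u s) : gg u s ≠ 0 := slitPlane_ne_zero (gg_slit h hs)

theorem gg_deriv (h : Gd u) (hs : St u s) :
    ∃ g' : ℂ, HasDerivAt (gg u) g' s ∧ ‖g'‖ ≤ 1 / 10 * ‖gg u s‖ := by
  have hp := hs.pos h
  refine ⟨_, (h.okA.succ.hasDerivAt hp).add (((okB h).hasDerivAt hp).const_mul I), ?_⟩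
  have h1 := h.okA.succ.succ.norm_le hp
  have h2 := (okB h).succ.norm_le hp
  have h3 : s.re * Nm u (ca u) (1 + 1 + 1) s ≤ G0 u s := h.okA.succ.N_succ hp
  have h4 : s.re * Nm u (cb u) (3 + 1) s ≤ B3 u s := (okB h).N_succ hp
  have h5 := mul_le_mul_of_nonneg_right (hs.ge h) (h.okA.succ.succ.N_nonneg hp)
  have h6 := mul_le_mul_of_nonneg_right (hs.ge h) ((okB h).succ.N_nonneg hp)
  have h7 := B3_le h hs
  have h8 := gg_norm_ge h hs
  have h9 := G0_pos h hs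
  refine (norm_add_le _ _).trans ?_
  have e1 : ‖-((1 + 1 : ℕ) : ℂ) * Pm u (ca u) (1 + 1 + 1) s‖ = 2 * ‖Pm u (ca u) (1 + 1 + 1) s‖ := by
    simp
  have e2 : ‖I * (-((3 : ℕ) : ℂ) * Pm u (cb u) (3 + 1) s)‖ = 3 * ‖Pm u (cb u) (3 + 1) s‖ := by
    simp
  rw [e1, e2]
  linarith

theorem analyticAt_gg (h : Gd u) (hs : St u s) : AnalyticAt ℂ (gg u) s :=
  (h.okA.succ.analyticAt (hs.pos h)).add (analyticAt_const.mul ((okB h).analyticAt (hs.pos h)))

theorem analyticAt_Phi (h : Gd u) (hs : St u s) : AnalyticAt ℂ (Phi u) s :=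
  analyticAt_cexp.mul (analyticAt_gg h hs)

theorem analyticAt_Lg (h : Gd u) (hs : St u s) : AnalyticAt ℂ (Lg u) s :=
  analyticAt_id.add ((analyticAt_gg h hs).clog (gg_slit h hs))

theorem exp_Lg (h : Gd u) (hs : St u s) : exp (Lg u s) = Phi u s := by
  rw [Lg, exp_add, exp_log (gg_ne h hs), Phi]

theorem log_lip (h : Gd u) {s t : ℂ} (hs : s ∈ So u) (ht : t ∈ So u) :
    ‖log (gg u t) - log (gg u s)‖ ≤ 1 / 10 * ‖t - s‖ := by
  refine Convex.norm_image_sub_le_of_norm_deriv_le (𝕜 := ℂ) (f := fun z => log (gg u z))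
    (fun z hz => ?_) (fun z hz => ?_) convex_so hs ht
  · exact ((analyticAt_gg h (st_of_so hz)).clog (gg_slit h (st_of_so hz))).differentiableAt
  · obtain ⟨g', h1, h2⟩ := gg_deriv h (st_of_so hz)
    rw [(h1.clog (gg_slit h (st_of_so hz))).deriv, norm_div,
      div_le_iff₀ (norm_pos_iff.2 (gg_ne h (st_of_so hz)))]
    exact h2

theorem injOn_Phi (h : Gd u) : Set.InjOn (Phi u) (So u) := by
  intro s hs t ht hst
  rw [← exp_Lg h (st_of_so hs), ← exp_Lg h (st_of_so ht)] at hst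
  obtain ⟨n, hn⟩ := exp_eq_exp_iff_exists_int.1 hst
  have h1 := log_lip h hs ht
  obtain ⟨e, he⟩ : ∃ e, e = log (gg u t) - log (gg u s) := ⟨_, rfl⟩
  obtain ⟨d, hd⟩ : ∃ d, d = t - s := ⟨_, rfl⟩
  rw [← he, ← hd] at h1
  have h2 : d + e = -(n * (2 * Real.pi * I)) := by
    rw [he, hd]; unfold Lg at hn; linear_combination -hn
  have h3 : d.re = -e.re := by
    have := congrArg re h2
    simp at this
    linarith
  have h4 : |d.im| ≤ 4 := by
    have a1 := abs_lt.1 hs.2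
    have a2 := abs_lt.1 ht.2
    rw [hd, sub_im, abs_le]
    constructor <;> linarith [a1.1, a1.2, a2.1, a2.2]
  have h5 := norm_le_abs_re_add_abs_im d
  have h6 := abs_re_le_norm e
  rw [h3, abs_neg] at h5
  have h7 : ‖d + e‖ = |(n : ℝ)| * (2 * Real.pi) := by
    rw [h2]; simp [abs_of_pos Real.pi_pos]
  have h8 := norm_add_le d e
  have h9 : |(n : ℝ)| < 1 := by
    by_contra hh
    have := mul_le_mul_of_nonneg_right (not_lt.1 hh) (by positivity : 0 ≤ 2 * Real.pi)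
    linarith [Real.pi_gt_three]
  have h10 : n = 0 := by
    have : |n| < 1 := by exact_mod_cast h9
    exact Int.abs_lt_one_iff.1 this
  have h11 : d = -e := by rw [h10] at h2; simp at h2; linear_combination h2
  have h12 : ‖d‖ = ‖e‖ := by rw [h11, norm_neg]
  have h13 : ‖d‖ = 0 := by linarith [norm_nonneg d]
  rw [norm_eq_zero, hd, sub_eq_zero] at h13
  exact h13.symm

theorem Phi_strict (h : Gd u) (hs : St u s) :
    ∃ f' : ℂ, f' ≠ 0 ∧ HasStrictDerivAt (Phi u) f' s := by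
  obtain ⟨g', h1, h2⟩ := gg_deriv h hs
  have h3 : HasDerivAt (Phi u) (exp s * gg u s + exp s * g') s := (hasDerivAt_exp s).mul h1
  refine ⟨_, ?_, h3.deriv ▸ (analyticAt_Phi h hs).hasStrictDerivAt⟩
  rw [← mul_add]
  refine mul_ne_zero (exp_ne_zero s) fun h4 => ?_
  have h5 : g' = -gg u s := by linear_combination h4
  rw [h5, norm_neg] at h2
  linarith [norm_pos_iff.2 (gg_ne h hs)]

theorem inv_Phi (h : Gd u) (hs : s ∈ So u) : Inv u (Phi u s) = s :=
  (injOn_Phi h).leftInvOn_invFunOn hs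

theorem isOpen_image (h : Gd u) {V : Set ℂ} (hV : IsOpen V) (hVS : V ⊆ So u) :
    IsOpen (Phi u '' V) := by
  rw [isOpen_iff_mem_nhds]
  rintro _ ⟨s, hs, rfl⟩
  obtain ⟨f', h1, h2⟩ := Phi_strict h (st_of_so (hVS hs))
  rw [← h2.map_nhds_eq h1]
  exact image_mem_map (hV.mem_nhds hs)

theorem analyticAt_inv (h : Gd u) (hs : s ∈ So u) : AnalyticAt ℂ (Inv u) (Phi u s) := by
  have hO := isOpen_image h isOpen_so subset_rfl
  refine DifferentiableOn.analyticAt (s := Phi u '' So u) ?_ (hO.mem_nhds ⟨s, hs, rfl⟩)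
  rintro _ ⟨t, ht, rfl⟩
  obtain ⟨f', h1, h2⟩ := Phi_strict h (st_of_so ht)
  have h3 := h2.to_local_left_inverse h1 (g := Inv u)
    (by filter_upwards [isOpen_so.mem_nhds ht] with x hx using inv_Phi h hx)
  exact h3.hasDerivAt.differentiableAt.differentiableWithinAt

theorem analyticAt_comp_inv (h : Gd u) (hs : s ∈ So u) {f : ℂ → ℂ} (hf : AnalyticAt ℂ f s) :
    AnalyticAt ℂ (fun w => f (Inv u w)) (Phi u s) :=
  AnalyticAt.comp (g := f) (by rwa [inv_Phi h hs]) (analyticAt_inv h hs)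

theorem norm_Phi (u : ℕ → ℝ) (s : ℂ) : ‖Phi u s‖ = Real.exp s.re * ‖gg u s‖ := by
  rw [Phi, norm_mul, norm_exp]

theorem re_le_norm_Phi (h : Gd u) (hs : St u s) : s.re ≤ ‖Phi u s‖ := by
  have h1 := gg_norm_ge h hs
  have h2 := G0_ge h hs
  have h3 := exp_ge (t := s.re) (by linarith [hs.ge h])
  have h4 := G0_pos h hs
  have h5 := hs.pos h
  rw [norm_Phi]
  calc s.re ≤ 8 * s.re * (88 / 100) * (s.re ^ 2 * G0 u s) := by nlinarith
    _ = 8 * s.re ^ 3 * (88 / 100 * G0 u s) := by ring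
    _ ≤ _ := by gcongr

theorem E1 (h : Gd u) (hs : St u s) (ht : |s.im| ≤ Real.pi / 2) :
    ‖Phi u s‖ ≤ 2 * (exp s * Pm u (ca u) 1 s).re := by
  have h1 := A_re h hs ht
  have h2 := mul_le_mul_of_nonneg_left (gg_norm h hs) (Real.exp_pos s.re).le
  have h3 := mul_pos (Real.exp_pos s.re) (G0_pos h hs)
  rw [norm_Phi]
  linarith

theorem Phi_re (u : ℕ → ℝ) (s : ℂ) : (Phi u s).re
    = Real.exp s.re * (Real.cos s.im * (gg u s).re - Real.sin s.im * (gg u s).im) :=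
  exp_mul_re _ _

theorem E4 (h : Gd u) (hs : St u s) (ht : |s.im| ≤ Real.pi / 2) :
    -(‖Phi u s‖ / 2) ≤ (Phi u s).re := by
  obtain ⟨t1, -, -⟩ := trig ht
  have h1 := gg_re h hs
  have h2 := gg_norm_ge h hs
  have h3 := (gg_im h hs).2
  have h4 := B3_le h hs
  have h5 := N3_le' h hs
  have h0 := G0_pos h hs
  have h6 : 0 ≤ Real.cos s.im * (gg u s).re := mul_nonneg t1 (by linarith)
  have h7 : Real.sin s.im * (gg u s).im ≤ |(gg u s).im| := by
    refine (le_abs_self _).trans ?_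
    rw [abs_mul]
    have := mul_le_mul_of_nonneg_right (Real.abs_sin_le_one s.im) (abs_nonneg (gg u s).im)
    linarith
  have h8 : -(‖gg u s‖ / 2) ≤ Real.cos s.im * (gg u s).re - Real.sin s.im * (gg u s).im := by
    linarith
  have := mul_le_mul_of_nonneg_left h8 (Real.exp_pos s.re).le
  rw [norm_Phi, Phi_re]
  linarith

theorem E5 (h : Gd u) (hs : St u s) :
    (Phi u s).re * Real.log ‖Phi u s‖ ≤ (Phi u s * Lg u s).re + 6 * ‖Phi u s‖ := by
  have h1 : (Lg u s).re = Real.log ‖Phi u s‖ := by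
    rw [← exp_Lg h hs, norm_exp, Real.log_exp]
  have h2 : |(Lg u s).im| ≤ 6 := by
    have a1 := abs_arg_le_pi (gg u s)
    have a2 := hs.im
    have a3 := abs_add_le s.im (arg (gg u s))
    rw [Lg, add_im, log_im]
    linarith [Real.pi_lt_four]
  have h3 : (Phi u s).im * (Lg u s).im ≤ ‖Phi u s‖ * 6 := by
    refine (le_abs_self _).trans ?_
    rw [abs_mul]
    exact mul_le_mul (abs_im_le_norm _) h2 (abs_nonneg _) (norm_nonneg _)
  rw [mul_re, h1]
  linarith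

end Pool.Agent.P.MP_677f70_an.Ad
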