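import Pool.Agent.P.MP_677f70_an.AdB

set_option autoImplicit false

open InnerProductSpace Filter Pool.Agent.P.MP_677f70_an.Sh

namespace Pool.Agent.P.MP_677f70_an.Ad

theorem exists_seq {ψ : ℝ → ℝ} (hψ : Tendsto ψ atTop atTop) :
    ∃ u μ : ℕ → ℝ, Gd u ∧ Fast u ∧ ∀ J, 0 ≤ μ J ∧ (∀ t, μ J ≤ t → (2 ^ J) ^ 2 ≤ ψ t) ∧
      2 ^ J * Real.exp (200 * (2 ^ J) ^ 3 * (μ J + 1)) ≤ u J ∧
      100 * (2 ^ J) ^ 4 * (μ J ^ 2 + 1) ≤ u J := by
  have h1 : ∀ j : ℕ, ∃ m : ℝ, 0 ≤ m ∧ ∀ t, m ≤ t → (2 ^ j) ^ 2 ≤ ψ t := by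
    intro j
    obtain ⟨a, ha⟩ := eventually_atTop.1 (hψ.eventually_ge_atTop ((2 ^ j) ^ 2))
    exact ⟨max a 0, le_max_right _ _, fun t ht => ha t ((le_max_left _ _).trans ht)⟩
  choose μ hμ1 hμ2 using h1
  obtain ⟨a, ha⟩ : ∃ a : ℕ → ℝ, ∀ j, a j = max (1000 * bb j)
      (max (2 ^ j * Real.exp (200 * (2 ^ j) ^ 3 * (μ j + 1))) (100 * (2 ^ j) ^ 4 * (μ j ^ 2 + 1))) :=
    ⟨_, fun _ => rfl⟩
  let u : ℕ → ℝ := fun j =>
    Nat.rec (a 0) (fun j x => max (1000 * 2 ^ (j + 1) * x ^ 2) (a (j + 1))) j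
  have h2 : ∀ j, a j ≤ u j := by
    intro j
    cases j with
    | zero => exact le_rfl
    | succ j => exact le_max_right _ _
  have h3 : ∀ j, 1000 * bb j ≤ u j := fun j => le_trans (by rw [ha]; exact le_max_left _ _) (h2 j)
  have h4 : Fast u := fun j => le_max_left _ _
  refine ⟨u, μ, ⟨h3, fun j => le_trans ?_ (h4 j)⟩, h4, fun j => ⟨hμ1 j, hμ2 j, ?_, ?_⟩⟩
  · have a1 := h3 j
    have a2 : (1 : ℝ) ≤ 4 ^ (j + 1) := one_le_pow₀ (by norm_num)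
    have a3 : (1 : ℝ) ≤ 2 ^ (j + 1) := one_le_pow₀ (by norm_num)
    unfold bb at a1
    have a4 := mul_le_mul_of_nonneg_right a3 (sq_nonneg (u j))
    nlinarith
  · exact le_trans (by rw [ha]; exact (le_max_left _ _).trans (le_max_right _ _)) (h2 j)
  · exact le_trans (by rw [ha]; exact (le_max_right _ _).trans (le_max_right _ _)) (h2 j)

theorem exists_odd (A : ℝ) : ∃ J : ℕ, Odd J ∧ A ≤ 2 ^ J := by
  obtain ⟨k, hk⟩ := pow_unbounded_of_one_lt A (by norm_num : (1 : ℝ) < 2)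
  exact ⟨2 * k + 1, odd_two_mul_add_one k,
    hk.le.trans (pow_le_pow_right₀ (by norm_num) (by omega))⟩

theorem exists_even (A : ℝ) : ∃ J : ℕ, ¬ Odd J ∧ A ≤ 2 ^ J := by
  obtain ⟨k, hk⟩ := pow_unbounded_of_one_lt A (by norm_num : (1 : ℝ) < 2)
  exact ⟨2 * k, Nat.not_odd_iff_even.2 (even_two_mul k),
    hk.le.trans (pow_le_pow_right₀ (by norm_num) (by omega))⟩

theorem minor {ψ : ℝ → ℝ} (h0 : ∀ t, 0 ≤ ψ t) {A μ : ℝ} (hA : 0 ≤ A) (hμ : 0 ≤ μ)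
    (h : ∀ t, μ ≤ t → A ≤ ψ t) (y : ℝ) : A * max (|y| - μ) 0 ≤ |y| * ψ |y| := by
  have hy := abs_nonneg y
  rcases le_total |y| μ with c | c
  · rw [max_eq_right (by linarith), mul_zero]
    exact mul_nonneg hy (h0 _)
  · rw [max_eq_left (by linarith)]
    have a1 := mul_le_mul_of_nonneg_left (h _ c) hy
    have a2 := mul_nonneg hA hμ
    linarith

theorem split {n : ℕ} (a : E n) :
    (∀ x : E n, inner ℝ a x = a 0 * x 0) ∨ ∃ (β : ℝ) (e : E n), 0 < β ∧ e 0 = 0 ∧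
      ∑ i, e i ^ 2 = 1 ∧ ∀ x : E n, inner ℝ a x = a 0 * x 0 + β * ∑ i, e i * x i := by
  obtain ⟨b, hb⟩ : ∃ b : E n, b = a - EuclideanSpace.single 0 (a 0) := ⟨_, rfl⟩
  have hb0 : b 0 = 0 := by simp [hb]
  have hi : ∀ x : E n, inner ℝ a x = a 0 * x 0 + ∑ i, b i * x i := by
    intro x
    have e1 : a = EuclideanSpace.single 0 (a 0) + b := by rw [hb]; abel
    have e2 : inner ℝ b x = ∑ i, b i * x i := by
      simp [PiLp.inner_apply, mul_comm]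
    conv_lhs => rw [e1]
    rw [inner_add_left, e2, EuclideanSpace.inner_single_left]
    simp
  by_cases c : b = 0
  · exact Or.inl fun x => by simp [hi, c]
  · have hn : 0 < ‖b‖ := norm_pos_iff.2 c
    refine Or.inr ⟨‖b‖, ‖b‖⁻¹ • b, hn, by simp [hb0], ?_, fun x => ?_⟩
    · rw [← EuclideanSpace.real_norm_sq_eq, norm_smul, norm_inv, norm_norm,
        inv_mul_cancel₀ hn.ne', one_pow]
    · rw [hi, Finset.mul_sum]
      congr 1
      refine Finset.sum_congr rfl fun i _ => ?_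
      rw [PiLp.smul_apply, smul_eq_mul]
      field_simp

theorem allDir (n : ℕ) (ψ : ℝ → ℝ) (h0 : ∀ t, 0 ≤ ψ t) (hψ : Tendsto ψ atTop atTop) :
    ∃ D : Set (E n), IsOpen D ∧ IsConnected D ∧ ¬ Bornology.IsBounded D ∧
      (∃ h : E n → ℝ, HarmonicOnNhd h D ∧ ∀ x ∈ D, ‖x‖ ≤ h x) ∧
      ∀ a : E n, a ≠ 0 → ¬ ∃ h : E n → ℝ, HarmonicOnNhd h D ∧
        ∀ x ∈ D, |inner ℝ a x| * ψ |inner ℝ a x| ≤ h x := by
  obtain ⟨u, μ, h, hf, hJ⟩ := exists_seq hψ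
  refine ⟨Dn u n, isOpen_dn h, isConnected_dn h, not_bounded_dn h, major_norm h, ?_⟩
  rintro a ha ⟨H, hH, hHψ⟩
  obtain ⟨G, hG, hGn⟩ := major_norm (n := n) h
  obtain ⟨x0, hx0⟩ : ∃ x0 : E n, Phi u (u 0 + 1 + 2 : ℝ) = pl 0 1 x0 := ⟨_, (pl_put _ 0).symm⟩
  obtain ⟨K, hK⟩ : ∃ K, K = |H x0 + G x0| + 3 := ⟨_, rfl⟩
  have hK0 : 0 ≤ K := by rw [hK]; positivity
  have hHG : HarmonicOnNhd (fun x => H x + G x) (Dn u n) := fun x hx => (hH x hx).add (hG x hx)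
  have hM : ∀ J, ∀ x ∈ Dn u n,
      (2 ^ J) ^ 2 * max (|inner ℝ a x| - μ J) 0 + ‖pl 0 1 x‖ ≤ H x + G x := fun J x hx =>
    add_le_add ((minor h0 (by positivity) (hJ J).1 (hJ J).2.1 _).trans (hHψ x hx))
      ((norm_pl_le x).trans (hGn x hx))
  have hu0 := h.ge 0
  suffices K - 2 ≤ H x0 + G x0 by linarith [le_abs_self (H x0 + G x0)]
  rcases split a with c | ⟨β, e, hβ, he0, he, c⟩
  · have hα : 0 < |a 0| := by
      refine abs_pos.2 fun e => ha ?_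
      rw [← inner_self_eq_zero (𝕜 := ℝ), c, e, zero_mul]
    obtain ⟨J, j1, j2⟩ := exists_odd (10000 * K + 20000 * K / |a 0|
      + 10 * K * (Real.exp (u 0 + 1 + 2) * (u 0 + 1 + 2) ^ 2) + (u 0 + 4))
    have p1 : 0 ≤ 20000 * K / |a 0| := by positivity
    have p2 : 0 ≤ 10 * K * (Real.exp (u 0 + 1 + 2) * (u 0 + 1 + 2) ^ 2) := by positivity
    refine caseA (α := a 0) h j1 hK0 (hJ J).1 (by linarith) ?_ (by linarith) (by linarith)
      (hJ J).2.2.1 hHG (fun x hx => ?_) hx0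
    · exact (div_le_iff₀ hα).1 (by linarith)
    · rw [← c]; exact hM J x hx
  · obtain ⟨J, j1, j2⟩ := exists_even (200 * K + 1600 * K / β + 1 / β ^ 2
      + (2 * |a 0| / β) ^ 2 + (u 0 + 4) + ‖x0‖ ^ 2)
    have p1 : 0 ≤ 1600 * K / β := by positivity
    have p2 : 0 ≤ 1 / β ^ 2 := by positivity
    have p3 := sq_nonneg (2 * |a 0| / β)
    have p4 := sq_nonneg ‖x0‖
    refine caseB (α := a 0) (κ := 2 * |a 0| / β) h hf j1 hK0 hβ (by positivity)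
      (div_mul_cancel₀ _ hβ.ne').ge he0 he (by linarith) ?_ ?_ (by linarith) (by linarith)
      (hJ J).2.2.2 hHG (fun x hx => ?_) hx0 (by linarith)
    · exact (div_le_iff₀ hβ).1 (by linarith)
    · exact (div_le_iff₀ (by positivity)).1 (by linarith)
    · rw [← c]; exact hM J x hx

end Pool.Agent.P.MP_677f70_an.Ad
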