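import Mathlib

set_option autoImplicit false

open Real

namespace Pool.Agent.P.MP_677f70_an

noncomputable def fA (w : ℂ) : ℂ := w * Complex.log w
noncomputable def fQ (w : ℂ) : ℂ := w * Complex.log w ^ 2
noncomputable def fS (w : ℂ) : ℂ := Complex.log w ^ (2⁻¹ : ℂ)
noncomputable def fM (w : ℂ) : ℂ := w * fS w ^ 3

theorem im_arg_eq (w : ℂ) : w.im * Complex.arg w = |w.im| * |Complex.arg w| := by
  rcases le_or_gt 0 w.im with h | h
  · rw [abs_of_nonneg h, abs_of_nonneg (Complex.arg_nonneg_iff.2 h)]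
  · rw [abs_of_neg h, abs_of_neg (Complex.arg_neg_iff.2 h)]
    ring

theorem im_arg_nonneg (w : ℂ) : 0 ≤ w.im * Complex.arg w := by
  rw [im_arg_eq]; positivity

theorem abs_arg_le {w : ℂ} (h : 0 < w.re) : |Complex.arg w| ≤ π / 2 :=
  (Complex.abs_arg_lt_pi_div_two_iff.2 (Or.inl h)).le

theorem im_arg_le {w : ℂ} (h : 0 < w.re) : w.im * Complex.arg w ≤ π / 2 * |w.im| := by
  rw [im_arg_eq, mul_comm]
  exact mul_le_mul_of_nonneg_right (abs_arg_le h) (abs_nonneg _)

theorem le_im_arg {w : ℂ} (h : 0 < w.re) : π / 2 * (|w.im| - w.re) ≤ w.im * Complex.arg w := by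
  have hw : w ≠ 0 := by
    intro h0; rw [h0] at h; simp at h
  have hn : 0 < ‖w‖ := norm_pos_iff.2 hw
  have h1 := abs_arg_le h
  have h2 : 2 / π * (π / 2 - |Complex.arg w|) ≤ sin (π / 2 - |Complex.arg w|) :=
    mul_le_sin (by linarith) (by linarith [abs_nonneg (Complex.arg w)])
  rw [sin_pi_div_two_sub, cos_abs, Complex.cos_arg hw] at h2
  have hpi := pi_pos
  have h3 : π / 2 - |Complex.arg w| ≤ π / 2 * (w.re / ‖w‖) := by
    have := mul_le_mul_of_nonneg_left h2 (show 0 ≤ π / 2 by positivity)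
    have e : π / 2 * (2 / π * (π / 2 - |Complex.arg w|)) = π / 2 - |Complex.arg w| := by
      field_simp
    linarith
  have h4 : |w.im| * (w.re / ‖w‖) ≤ w.re := by
    rw [← mul_div_assoc, div_le_iff₀ hn]
    nlinarith [Complex.abs_im_le_norm w]
  rw [im_arg_eq]
  have h5 := mul_le_mul_of_nonneg_left h3 (abs_nonneg w.im)
  nlinarith

theorem fA_re (w : ℂ) : (fA w).re = w.re * log ‖w‖ - w.im * Complex.arg w := by
  simp [fA, Complex.log_re, Complex.log_im]

theorem fQ_re (w : ℂ) : (fQ w).re = w.re * (log ‖w‖ ^ 2 - Complex.arg w ^ 2)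
    - 2 * log ‖w‖ * (w.im * Complex.arg w) := by
  simp [fQ, pow_two, Complex.log_re, Complex.log_im]
  ring

theorem fM_re (w : ℂ) : (fM w).re = w.re * ((fS w).re * ((fS w).re ^ 2 - 3 * (fS w).im ^ 2))
    - w.im * (fS w).im * (3 * (fS w).re ^ 2 - (fS w).im ^ 2) := by
  simp [fM, pow_succ]
  ring

theorem fS_sq (w : ℂ) : fS w ^ 2 = Complex.log w := by
  have := Complex.cpow_nat_inv_pow (Complex.log w) (n := 2) (by norm_num)
  simpa [fS] using this

theorem fS_re_sq (w : ℂ) : (fS w).re ^ 2 - (fS w).im ^ 2 = log ‖w‖ := by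
  have := congrArg Complex.re (fS_sq w)
  rw [Complex.log_re] at this
  rw [← this]
  simp [pow_two]

theorem fS_mul (w : ℂ) : 2 * (fS w).re * (fS w).im = Complex.arg w := by
  have := congrArg Complex.im (fS_sq w)
  rw [Complex.log_im] at this
  rw [← this]
  simp [pow_two]
  ring

theorem fS_re_nonneg (w : ℂ) : 0 ≤ (fS w).re := by
  rw [fS, Complex.cpow_inv_two_re]
  exact sqrt_nonneg _

theorem log_re_le {w : ℂ} (h : 0 < w.re) : log w.re ≤ log ‖w‖ :=
  log_le_log h ((le_abs_self _).trans (Complex.abs_re_le_norm w))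

theorem analyticAt_log' {w : ℂ} (h : 0 < w.re) : AnalyticAt ℂ Complex.log w :=
  analyticAt_clog (Or.inl h)

theorem analyticAt_fA {w : ℂ} (h : 0 < w.re) : AnalyticAt ℂ fA w :=
  analyticAt_id.mul (analyticAt_log' h)

theorem analyticAt_fQ {w : ℂ} (h : 0 < w.re) : AnalyticAt ℂ fQ w :=
  analyticAt_id.mul ((analyticAt_log' h).pow 2)

theorem analyticAt_fM {w : ℂ} (h : 1 < w.re) : AnalyticAt ℂ fM w := by
  have h0 : 0 < w.re := by linarith
  have h1 : AnalyticAt ℂ fS w := by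
    apply (analyticAt_log' h0).cpow analyticAt_const
    left
    rw [Complex.log_re]
    exact (log_pos h).trans_le (log_re_le h0)
  exact analyticAt_id.mul (h1.pow 3)

/-- lower bounds for `Re (w log w)` in the domain -/
theorem fA_lower {w : ℂ} (h : 0 < w.re) (hD : 2 * |w.im| ≤ w.re * log w.re) :
    w.re * log w.re ≤ 5 * (fA w).re := by
  rw [fA_re]
  have h1 := im_arg_le h
  have h2 := log_re_le h
  have h3 : π / 2 * |w.im| ≤ 1.6 * |w.im| :=
    mul_le_mul_of_nonneg_right (by linarith [pi_lt_d2]) (abs_nonneg _)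
  nlinarith

theorem abs_im_le_fA {w : ℂ} (h : 0 < w.re) (h1 : 1 ≤ log w.re) :
    |w.im| ≤ -2 * (fA w).re + 12 * (w.re * log w.re) := by
  rw [fA_re]
  have h2 := le_im_arg h
  have hn : 0 < ‖w‖ := h.trans_le ((le_abs_self _).trans (Complex.abs_re_le_norm w))
  have h3 : log ‖w‖ ≤ log w.re + ‖w‖ / (4 * w.re) + 2 := by
    have e : log ‖w‖ = log w.re + log (‖w‖ / (4 * w.re)) + log 4 := by
      rw [log_div hn.ne' (by positivity), log_mul (by norm_num) h.ne']
      ring
    have a1 := log_le_sub_one_of_pos (show 0 < ‖w‖ / (4 * w.re) by positivity)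
    have a2 := log_le_sub_one_of_pos (show (0 : ℝ) < 4 by norm_num)
    linarith
  have h4 : w.re * log ‖w‖ ≤ w.re * log w.re + ‖w‖ / 4 + 2 * w.re := by
    have := mul_le_mul_of_nonneg_left h3 h.le
    have e : w.re * (‖w‖ / (4 * w.re)) = ‖w‖ / 4 := by field_simp
    nlinarith
  have h5 : ‖w‖ ≤ w.re + |w.im| := by
    have := Complex.norm_le_abs_re_add_abs_im w
    rwa [abs_of_pos h] at this
  have h6 : w.re ≤ w.re * log w.re := by nlinarith
  have h7 : 1.5 * |w.im| ≤ π / 2 * |w.im| :=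
    mul_le_mul_of_nonneg_right (by linarith [pi_gt_three]) (abs_nonneg _)
  have h8 : π / 2 * w.re ≤ 2 * w.re :=
    mul_le_mul_of_nonneg_right (by linarith [pi_le_four]) h.le
  nlinarith [abs_nonneg w.im]

/-- upper bound for `- Re (w log^2 w)` -/
theorem neg_fQ_le {w : ℂ} (h : 0 < w.re) (h1 : 10 ≤ log w.re) :
    -(fQ w).re ≤ 8 * (|w.im| * max (log |w.im|) 0) - w.re * log w.re ^ 2 / 2 := by
  rw [fQ_re]
  have h2 := log_re_le h
  have h3 := im_arg_le h
  have h4 := abs_arg_le h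
  have h5 : Complex.arg w ^ 2 ≤ 4 := by
    have : |Complex.arg w| ≤ 2 := by linarith [pi_le_four]
    nlinarith [sq_abs (Complex.arg w), abs_nonneg (Complex.arg w)]
  set ξ := log ‖w‖ with hξ
  have hξ0 : 10 ≤ ξ := by linarith
  have h6 : π / 2 * |w.im| ≤ 2 * |w.im| :=
    mul_le_mul_of_nonneg_right (by linarith [pi_le_four]) (abs_nonneg _)
  have h7 : 2 * ξ * (w.im * Complex.arg w) ≤ 4 * ξ * |w.im| := by nlinarith
  have h8 : w.re * log w.re ^ 2 ≤ w.re * ξ ^ 2 :=
    mul_le_mul_of_nonneg_left (by nlinarith) h.le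
  have h9 : w.re * Complex.arg w ^ 2 ≤ w.re * 4 := mul_le_mul_of_nonneg_left h5 h.le
  have h10 : 0 ≤ |w.im| * max (log |w.im|) 0 := mul_nonneg (abs_nonneg _) (le_max_right _ _)
  rcases le_or_gt |w.im| w.re with hc | hc
  · have a1 : 4 * ξ * |w.im| ≤ 4 * ξ * w.re := mul_le_mul_of_nonneg_left hc (by linarith)
    have a2 : w.re * (4 + 4 * ξ) ≤ w.re * (ξ ^ 2 / 2) :=
      mul_le_mul_of_nonneg_left (by nlinarith) h.le
    nlinarith
  · have hy : 0 < |w.im| := h.trans hc
    have a0 : log w.re ≤ log |w.im| := log_le_log h hc.le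
    have a1 : ξ ≤ 2 * log |w.im| := by
      have hn : 0 < ‖w‖ := h.trans_le ((le_abs_self _).trans (Complex.abs_re_le_norm w))
      have b1 : ‖w‖ ≤ 2 * |w.im| := by
        have := Complex.norm_le_abs_re_add_abs_im w
        rw [abs_of_pos h] at this
        linarith
      have b2 := log_le_log hn b1
      rw [log_mul (by norm_num) hy.ne'] at b2
      have b3 := log_le_sub_one_of_pos (show (0 : ℝ) < 2 by norm_num)
      linarith
    have a2 : log |w.im| ≤ max (log |w.im|) 0 := le_max_left _ _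
    have a3 : 4 * ξ * |w.im| ≤ 8 * (|w.im| * max (log |w.im|) 0) := by nlinarith
    have a4 : w.re * 4 ≤ w.re * (ξ ^ 2 / 2) :=
      mul_le_mul_of_nonneg_left (by nlinarith) h.le
    nlinarith

theorem fS_facts {w : ℂ} (h : 0 < w.re) (h1 : 10 ≤ log w.re) :
    1 ≤ (fS w).re ∧ (fS w).im ^ 2 ≤ 1 ∧ log w.re ≤ (fS w).re ^ 2 := by
  have h2 := log_re_le h
  have h3 := fS_re_sq w
  have h4 := fS_mul w
  have h5 := fS_re_nonneg w
  have h6 : log w.re ≤ (fS w).re ^ 2 := by nlinarith [sq_nonneg (fS w).im]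
  have h7 : 1 ≤ (fS w).re := by nlinarith
  have h8 : Complex.arg w ^ 2 ≤ 4 := by
    have : |Complex.arg w| ≤ 2 := by linarith [pi_le_four, abs_arg_le h]
    nlinarith [sq_abs (Complex.arg w), abs_nonneg (Complex.arg w)]
  refine ⟨h7, ?_, h6⟩
  rw [← h4] at h8
  nlinarith [sq_nonneg (fS w).im]

theorem im_mul_fS_im {w : ℂ} (h : 0 < w.re) (h1 : 10 ≤ log w.re) :
    2 * (fS w).re * (w.im * (fS w).im) = w.im * Complex.arg w := by
  rw [← fS_mul w]; ring

theorem fM_le {w : ℂ} (h : 0 < w.re) (h1 : 10 ≤ log w.re) :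
    (fM w).re ≤ w.re * (fS w).re ^ 3 := by
  obtain ⟨a1, a2, a3⟩ := fS_facts h h1
  have a4 := im_mul_fS_im h h1
  have a5 := im_arg_nonneg w
  have a6 : 0 ≤ w.im * (fS w).im := by
    by_contra hneg
    push Not at hneg
    nlinarith
  rw [fM_re]
  have a7 : 0 ≤ w.im * (fS w).im * (3 * (fS w).re ^ 2 - (fS w).im ^ 2) :=
    mul_nonneg a6 (by nlinarith)
  have a8 : 0 ≤ w.re * ((fS w).re * (fS w).im ^ 2) := by positivity
  nlinarith

theorem fS_re_sq_le {w : ℂ} (h : 0 < w.re) (h1 : 10000 ≤ log w.re)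
    (hD : 2 * |w.im| ≤ w.re * log w.re) : (fS w).re ^ 2 ≤ 1.02 * log w.re := by
  obtain ⟨a1, a2, a3⟩ := fS_facts h (by linarith)
  have h3 := fS_re_sq w
  have hn : 0 < ‖w‖ := h.trans_le ((le_abs_self _).trans (Complex.abs_re_le_norm w))
  have b1 : ‖w‖ ≤ w.re * log w.re := by
    have := Complex.norm_le_abs_re_add_abs_im w
    rw [abs_of_pos h] at this
    nlinarith
  have b2 := log_le_log hn b1
  rw [log_mul h.ne' (by linarith)] at b2
  have b3 : log (log w.re) ≤ log w.re / 100 + 98 := by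
    have e : log (log w.re) = log (log w.re / 100) + log 100 := by
      rw [log_div (by linarith) (by norm_num)]; ring
    have c1 := log_le_sub_one_of_pos (show 0 < log w.re / 100 by linarith)
    have c2 := log_le_sub_one_of_pos (show (0 : ℝ) < 100 by norm_num)
    linarith
  linarith

/-- on the lateral boundary the function is nonpositive -/
theorem fM_lateral {w : ℂ} (h : 0 < w.re) (h1 : 10000 ≤ log w.re)
    (hD : 2 * |w.im| = w.re * log w.re) : (fM w).re ≤ 0 := by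
  obtain ⟨a1, a2, a3⟩ := fS_facts h (by linarith)
  have a4 := im_mul_fS_im h (by linarith)
  have a5 := fS_re_sq_le h h1 hD.le
  have a6 := le_im_arg h
  set p := (fS w).re
  set q := (fS w).im
  set l := log w.re
  set t := w.re
  have a7 : 0.78 * (t * l) ≤ w.im * Complex.arg w := by
    have b1 : 0.4999 * (t * l) ≤ |w.im| - t := by nlinarith
    have b2 : 1.57 * (|w.im| - t) ≤ π / 2 * (|w.im| - t) :=
      mul_le_mul_of_nonneg_right (by linarith [pi_gt_d2]) (by nlinarith)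
    nlinarith
  have a8 : 2.9 * p ^ 2 ≤ 3 * p ^ 2 - q ^ 2 := by nlinarith
  have hp : 0 < p := by linarith
  have key : 2 * p * (fM w).re ≤ 0 := by
    rw [fM_re]
    have e : 2 * p * (t * (p * (p ^ 2 - 3 * q ^ 2)) - w.im * q * (3 * p ^ 2 - q ^ 2))
        = 2 * t * p ^ 2 * (p ^ 2 - 3 * q ^ 2)
          - (2 * p * (w.im * q)) * (3 * p ^ 2 - q ^ 2) := by ring
    rw [e, a4]
    have c1 : 2 * t * p ^ 2 * (p ^ 2 - 3 * q ^ 2) ≤ 2 * t * p ^ 2 * (1.02 * l) :=
      mul_le_mul_of_nonneg_left (by nlinarith [sq_nonneg q]) (by positivity)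
    have c2 : 0.78 * (t * l) * (2.9 * p ^ 2) ≤ w.im * Complex.arg w * (3 * p ^ 2 - q ^ 2) :=
      mul_le_mul a7 a8 (by positivity) (im_arg_nonneg w)
    have c3 : 0 ≤ t * l * p ^ 2 := by
      have : 0 ≤ l := by linarith
      positivity
    nlinarith
  by_contra hpos
  push Not at hpos
  nlinarith

theorem fM_axis {w : ℂ} (h : 0 < w.re) (h1 : 10 ≤ log w.re) (him : w.im = 0) :
    w.re ≤ (fM w).re := by
  obtain ⟨a1, a2, a3⟩ := fS_facts h h1
  have a4 := fS_mul w
  have a5 : Complex.arg w = 0 := Complex.arg_eq_zero_iff.2 ⟨h.le, him⟩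
  rw [a5] at a4
  have a6 : (fS w).im = 0 := by
    rcases mul_eq_zero.1 a4 with h' | h'
    · linarith
    · exact h'
  rw [fM_re, a6, him]
  have : 1 ≤ (fS w).re * (fS w).re ^ 2 := by nlinarith
  nlinarith

end Pool.Agent.P.MP_677f70_an
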