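import Mathlib

set_option autoImplicit false

open Complex

namespace Pool.Agent.P.MP_677f70_an.Sh

/-- series of Stieltjes type -/
noncomputable def Pm (u a : ℕ → ℝ) (m : ℕ) (s : ℂ) : ℂ := ∑' k, (a k : ℂ) / (s + u k) ^ m

/-- the series of the moduli -/
noncomputable def Nm (u a : ℕ → ℝ) (m : ℕ) (s : ℂ) : ℝ := ∑' k, a k / ‖s + u k‖ ^ m

structure Ok (u a : ℕ → ℝ) (m : ℕ) : Prop where
  a0 : ∀ k, 0 ≤ a k
  u1 : ∀ k, 1 ≤ u k
  sm : Summable fun k => a k / u k ^ m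

theorem add_le_norm (s : ℂ) (t : ℝ) : s.re + t ≤ ‖s + t‖ := by
  have := re_le_norm (s + t)
  simpa using this

variable {u a : ℕ → ℝ} {m : ℕ} {s : ℂ}

theorem Ok.succ (h : Ok u a m) : Ok u a (m + 1) := by
  refine ⟨h.a0, h.u1, h.sm.of_nonneg_of_le (fun k => ?_) fun k => ?_⟩
  · have := h.a0 k
    have := h.u1 k
    positivity
  · have h1 := h.u1 k
    exact div_le_div_of_nonneg_left (h.a0 k) (by positivity)
      (pow_le_pow_right₀ h1 (Nat.le_succ m))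

theorem Ok.npos (h : Ok u a m) (hs : 0 < s.re) (k : ℕ) : 0 < ‖s + u k‖ := by
  have := add_le_norm s (u k)
  have := h.u1 k
  linarith

theorem Ok.term_le (h : Ok u a m) (hs : 0 < s.re) (k : ℕ) :
    a k / ‖s + u k‖ ^ m ≤ a k / u k ^ m := by
  have h1 := add_le_norm s (u k)
  have h2 := h.u1 k
  exact div_le_div_of_nonneg_left (h.a0 k) (by positivity)
    (pow_le_pow_left₀ (by linarith) (by linarith) m)

theorem Ok.term_nonneg (h : Ok u a m) (s : ℂ) (k : ℕ) : 0 ≤ a k / ‖s + u k‖ ^ m := by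
  have := h.a0 k
  positivity

theorem Ok.norm_term (h : Ok u a m) (s : ℂ) (k : ℕ) :
    ‖(a k : ℂ) / (s + u k) ^ m‖ = a k / ‖s + u k‖ ^ m := by
  rw [norm_div, norm_pow, norm_real, Real.norm_of_nonneg (h.a0 k)]

theorem Ok.sumN (h : Ok u a m) (hs : 0 < s.re) :
    HasSum (fun k => a k / ‖s + u k‖ ^ m) (Nm u a m s) :=
  (h.sm.of_nonneg_of_le (h.term_nonneg s) (h.term_le hs)).hasSum

theorem Ok.sumP (h : Ok u a m) (hs : 0 < s.re) :
    HasSum (fun k => (a k : ℂ) / (s + u k) ^ m) (Pm u a m s) := by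
  apply Summable.hasSum
  apply Summable.of_norm
  simp only [h.norm_term]
  exact (h.sumN hs).summable

theorem Ok.sumRe (h : Ok u a m) (hs : 0 < s.re) (c : ℂ) :
    HasSum (fun k => (c * ((a k : ℂ) / (s + u k) ^ m)).re) (c * Pm u a m s).re :=
  hasSum_re ((h.sumP hs).mul_left c)

theorem Ok.sumIm (h : Ok u a m) (hs : 0 < s.re) (c : ℂ) :
    HasSum (fun k => (c * ((a k : ℂ) / (s + u k) ^ m)).im) (c * Pm u a m s).im :=
  hasSum_im ((h.sumP hs).mul_left c)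

theorem Ok.norm_le (h : Ok u a m) (hs : 0 < s.re) : ‖Pm u a m s‖ ≤ Nm u a m s :=
  (h.sumP hs).norm_le_of_bounded (h.sumN hs) fun k => (h.norm_term s k).le

theorem Ok.term_le_N (h : Ok u a m) (hs : 0 < s.re) (k : ℕ) :
    a k / ‖s + u k‖ ^ m ≤ Nm u a m s :=
  le_hasSum (h.sumN hs) k fun j _ => h.term_nonneg s j

theorem Ok.N_nonneg (h : Ok u a m) (hs : 0 < s.re) : 0 ≤ Nm u a m s :=
  (h.term_nonneg s 0).trans (h.term_le_N hs 0)

theorem Ok.N_succ (h : Ok u a m) (hs : 0 < s.re) : s.re * Nm u a (m + 1) s ≤ Nm u a m s := by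
  refine hasSum_le (fun k => ?_) ((h.succ.sumN hs).mul_left s.re) (h.sumN hs)
  have h1 := add_le_norm s (u k)
  have h2 := h.u1 k
  have h3 := h.npos hs k
  have h4 := h.a0 k
  rw [pow_succ, ← div_div, mul_comm, div_mul_eq_mul_div, div_le_iff₀ h3]
  exact mul_le_mul_of_nonneg_left (by linarith) (h.term_nonneg s k)

theorem Ok.hasDerivAt (h : Ok u a m) (hs : 0 < s.re) :
    HasDerivAt (Pm u a m) (-(m : ℂ) * Pm u a (m + 1) s) s := by
  have hU : IsOpen {w : ℂ | 0 < w.re} := isOpen_lt continuous_const continuous_re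
  have hne : ∀ k, ∀ w : ℂ, 0 < w.re → w + u k ≠ 0 := fun k w hw => norm_pos_iff.1 (h.npos hw k)
  have hd : ∀ k, ∀ w : ℂ, 0 < w.re → HasDerivAt (fun w : ℂ => (a k : ℂ) / (w + u k) ^ m)
      (-(m : ℂ) * ((a k : ℂ) / (w + u k) ^ (m + 1))) w := by
    intro k w hw
    have h1 : HasDerivAt (fun w : ℂ => (w + u k) ^ m) ((m : ℂ) * (w + u k) ^ (m - 1) * 1) w :=
      ((hasDerivAt_id w).add_const (u k : ℂ)).pow m
    have h2 := (h1.inv (pow_ne_zero m (hne k w hw))).const_mul (a k : ℂ)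
    have h3 := hne k w hw
    refine (h2.congr_deriv ?_).congr_of_eventuallyEq (Filter.Eventually.of_forall fun y => ?_)
    · cases m with
      | zero => simp
      | succ m =>
        simp only [Nat.add_sub_cancel]
        field_simp
        ring
    · simp [div_eq_mul_inv]
  have hD : ∀ k, DifferentiableOn ℂ (fun w : ℂ => (a k : ℂ) / (w + u k) ^ m) {w : ℂ | 0 < w.re} :=
    fun k w hw => (hd k w hw).differentiableAt.differentiableWithinAt
  have hb : ∀ k, ∀ w : ℂ, w ∈ {w : ℂ | 0 < w.re} → ‖(a k : ℂ) / (w + u k) ^ m‖ ≤ a k / u k ^ m :=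
    fun k w hw => (h.norm_term w k).le.trans (h.term_le hw k)
  have h1 := differentiableOn_tsum_of_summable_norm h.sm hD hU hb
  have h2 := hasSum_deriv_of_summable_norm h.sm hD hU hb hs
  have h3 : HasSum (fun k => deriv (fun w : ℂ => (a k : ℂ) / (w + u k) ^ m) s)
      (-(m : ℂ) * Pm u a (m + 1) s) := by
    simp only [fun k => (hd k s hs).deriv]
    exact (h.succ.sumP hs).mul_left _
  rw [← h2.unique h3]
  exact (h1.differentiableAt (hU.mem_nhds hs)).hasDerivAt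

theorem Ok.analyticAt (h : Ok u a m) (hs : 0 < s.re) : AnalyticAt ℂ (Pm u a m) s := by
  have hU : IsOpen {w : ℂ | 0 < w.re} := isOpen_lt continuous_const continuous_re
  have h1 : DifferentiableOn ℂ (Pm u a m) {w : ℂ | 0 < w.re} :=
    fun w hw => (h.hasDerivAt hw).differentiableAt.differentiableWithinAt
  exact h1.analyticAt (hU.mem_nhds hs)

/-- polar form of the inverse -/
theorem polar {z : ℂ} (hx : 1000 ≤ z.re) (ht : |z.im| ≤ 2) :
    ∃ α β : ℝ, α ^ 2 + β ^ 2 = 1 ∧ 99 / 100 ≤ α ∧ α ≤ 1 ∧ β * ‖z‖ = z.im ∧ α * ‖z‖ = z.re ∧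
      |β| ≤ 1 / 500 ∧ 1000 ≤ ‖z‖ ∧
      ∀ (c : ℝ) (m : ℕ), (c : ℂ) / z ^ m = ((c / ‖z‖ ^ m : ℝ) : ℂ) * (α - β * I) ^ m := by
  have hn : 1000 ≤ ‖z‖ := hx.trans (re_le_norm z)
  have hn0 : 0 < ‖z‖ := by linarith
  have hsq : ‖z‖ ^ 2 = z.re ^ 2 + z.im ^ 2 := by
    rw [Complex.sq_norm, normSq_apply]; ring
  have hβ : |z.im / ‖z‖| ≤ 1 / 500 := by
    rw [abs_div, abs_of_pos hn0, div_le_iff₀ hn0]; linarith
  have h1 : (z.re / ‖z‖) ^ 2 + (z.im / ‖z‖) ^ 2 = 1 := by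
    rw [div_pow, div_pow, ← add_div, ← hsq, div_self (by positivity)]
  have h2 : 0 ≤ z.re / ‖z‖ := by positivity
  have h3 : (z.im / ‖z‖) ^ 2 ≤ (1 / 500) ^ 2 := by
    rw [← sq_abs]; exact pow_le_pow_left₀ (abs_nonneg _) hβ 2
  refine ⟨z.re / ‖z‖, z.im / ‖z‖, h1, by nlinarith, by nlinarith [sq_nonneg (z.im / ‖z‖)],
    by field_simp, by field_simp, hβ, hn, fun c m => ?_⟩
  have hz : z ≠ 0 := norm_pos_iff.1 hn0
  have hn1 : (‖z‖ : ℂ) ≠ 0 := by exact_mod_cast hn0.ne'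
  have e : ((z.re / ‖z‖ : ℝ) : ℂ) - ((z.im / ‖z‖ : ℝ) : ℂ) * I = (‖z‖ : ℂ) / z := by
    rw [eq_div_iff hz]
    have h5 : ((‖z‖ : ℂ)) ^ 2 = (z.re : ℂ) ^ 2 + (z.im : ℂ) ^ 2 := by exact_mod_cast hsq
    have h6 := re_add_im z
    push_cast
    field_simp
    linear_combination (-1 : ℂ) * h5 - ((z.re : ℂ) - z.im * I) * h6 - (z.im : ℂ) ^ 2 * I_sq
  rw [e, div_pow]
  push_cast
  field_simp

end Pool.Agent.P.MP_677f70_an.Sh
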