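import Pool.Agent.P.MP_677f70_an.Main
import Pool.Agent.P.MP_677f70_an.ShSer

set_option autoImplicit false

open InnerProductSpace Metric Filter Topology

namespace Pool.Agent.P.MP_677f70_an.Ga

/-- continuous and below every harmonic function that dominates it on a sphere -/
def Sub {n : ℕ} (D : Set (E n)) (s : E n → ℝ) : Prop :=
  ContinuousOn s D ∧ ∀ (c : E n) (r : ℝ), 0 < r → closedBall c r ⊆ D → ∀ g : E n → ℝ,
    ContinuousOn g (closedBall c r) → HarmonicOnNhd g (ball c r) →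
    (∀ x ∈ sphere c r, s x ≤ g x) → ∀ x ∈ ball c r, s x ≤ g x

/-- above every harmonic function that it dominates on a sphere -/
def Sup {n : ℕ} (D : Set (E n)) (v : E n → ℝ) : Prop :=
  ∀ (c : E n) (r : ℝ), 0 < r → closedBall c r ⊆ D → ∀ g : E n → ℝ,
    ContinuousOn g (closedBall c r) → HarmonicOnNhd g (ball c r) →
    (∀ x ∈ sphere c r, g x ≤ v x) → ∀ x ∈ ball c r, g x ≤ v x

def LIM (n : ℕ) : Prop :=
  ∀ (c : E n) (R B : ℝ) (f : ℕ → E n → ℝ) (g : E n → ℝ),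
    (∀ k, HarmonicOnNhd (f k) (ball c R)) → (∀ k, ∀ x ∈ ball c R, |f k x| ≤ B) →
    (∀ x ∈ ball c R, Tendsto (fun k => f k x) atTop (𝓝 (g x))) → HarmonicOnNhd g (ball c R)

def DIR (n : ℕ) : Prop :=
  ∀ (c : E n) (r : ℝ), 0 < r → ∀ f : E n → ℝ, ContinuousOn f (sphere c r) →
    ∃ U : E n → ℝ, ContinuousOn U (closedBall c r) ∧ HarmonicOnNhd U (ball c r) ∧
      ∀ x ∈ sphere c r, U x = f x

def LHM (n : ℕ) : Prop :=
  ∀ D : Set (E n), IsOpen D → ∀ s v0 M : E n → ℝ, Sub D s → Sup D v0 → (∀ x ∈ D, s x ≤ v0 x) →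
    ContinuousOn M D → (∀ x ∈ D, v0 x ≤ M x) →
    ∃ H : E n → ℝ, HarmonicOnNhd H D ∧ (∀ x ∈ D, s x ≤ H x) ∧
      ∀ v : E n → ℝ, Sup D v → (∀ x ∈ D, s x ≤ v x) → ∀ x ∈ D, H x ≤ v x

/-- weak maximum principle on a bounded set -/
theorem mp {n : ℕ} {Ω F : Set (E n)} (hΩ : IsOpen Ω) (hF : IsClosed F)
    (hb : Bornology.IsBounded F) (hΩF : Ω ⊆ F) {u : E n → ℝ} (hu : HarmonicOnNhd u Ω)
    (hc : ContinuousOn u F) (h0 : ∀ x ∈ F, x ∉ Ω → u x ≤ 0) : ∀ x ∈ Ω, u x ≤ 0 := by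
  obtain ⟨R, hR⟩ := hb.exists_norm_le
  refine max_principle (0 : Fin (n + 2)) hΩ hF hΩF (R := R ^ 2) (fun x hx => ?_) hu hc
    (fun _ _ => le_rfl) h0 (fun η _ => hb.subset fun x hx => hx.1)
  have h1 : |x 0| ≤ R := (PiLp.norm_apply_le x 0).trans (hR x (hΩF hx))
  rw [← sq_abs]
  exact pow_le_pow_left₀ (abs_nonneg _) h1 2

noncomputable def II (φ : ℝ → ℝ) (t : ℝ) : ℝ := ∫ s in (1 : ℝ)..t, 1 / (s * φ s)

noncomputable def uu (k : ℕ) : ℝ := 1000 * 2 ^ k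

noncomputable def Lam (φ : ℝ → ℝ) (k : ℕ) : ℝ :=
  ∑ i ∈ Finset.range (k + 1), uu i / φ (Real.exp (uu i / 2))

noncomputable def uK (φ : ℝ → ℝ) (K : ℕ) (y : ℝ) : ℝ :=
  ∑ k ∈ Finset.range K, 1 / φ (4 ^ k) * max (y - 4 ^ k) 0

/-- the barrier of the strip -/
noncomputable def qf (c : ℝ) (s : ℂ) : ℂ :=
  (Complex.log (1 + Complex.exp (s - c)) - Complex.log (1 + Complex.exp (s - 2 * c))) / (2 * c)

end Pool.Agent.P.MP_677f70_an.Ga
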