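import Pool.Agent.P.MP_677f70_an.GaDefs
import Pool.Agent.P.MP_a2f83a_an.SdExt

set_option autoImplicit false

open InnerProductSpace Metric Filter Topology

namespace Pool.Agent.P.MP_677f70_an.Ga

open Pool.Agent.P.MP_a2f83a_an (ev)
open Pool.Agent.P.MP_a2f83a_an.Sd (Sp ext_poly)

theorem dir_smul {n : ℕ} (a : ℝ) {u : E n → ℝ} {x : E n} (hu : HarmonicAt u (a • x)) :
    HarmonicAt (fun y => u (a • y)) x := by
  let L : E n →L[ℝ] E n := a • ContinuousLinearMap.id ℝ (E n)
  have hL : ∀ y, L y = a • y := fun _ => rfl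
  have hu' : HarmonicAt u (L x) := hu
  change HarmonicAt (fun y => u (L y)) x
  refine ⟨hu'.1.comp x L.contDiff.contDiffAt, ?_⟩
  have h1 : ∀ᶠ z in 𝓝 x, HarmonicAt u (L z) := L.continuous.continuousAt.eventually hu'.eventually
  filter_upwards [h1] with z hz
  have h0 := hz.2.self_of_nhds
  rw [laplacian_eq_iteratedFDeriv_orthonormalBasis _ (EuclideanSpace.basisFun (Fin (n + 2)) ℝ)]
    at h0 ⊢
  simp only [Pi.zero_apply] at h0 ⊢
  simp_rw [iter2_comp L u z hz.1]
  have h2 : ∀ v : E n, iteratedFDeriv ℝ 2 u (L z) ![L v, L v]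
      = a * a * iteratedFDeriv ℝ 2 u (L z) ![v, v] := by
    intro v
    rw [iteratedFDeriv_two_apply, iteratedFDeriv_two_apply]
    simp only [Matrix.cons_val_zero, Matrix.cons_val_one, hL v, map_smul,
      smul_apply, smul_eq_mul]
    ring
  simp_rw [h2]
  rw [← Finset.mul_sum, h0, mul_zero]

theorem dir_sub {n : ℕ} (c : E n) {u : E n → ℝ} {x : E n} (hu : HarmonicAt u (x - c)) :
    HarmonicAt (fun y => u (y - c)) x := by
  refine ⟨hu.1.comp x (f := fun y => y - c) (by fun_prop), ?_⟩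
  have hc : ContinuousAt (fun y : E n => y - c) x := by fun_prop
  have h1 : ∀ᶠ z in 𝓝 x, HarmonicAt u (z - c) := hc.eventually hu.eventually
  filter_upwards [h1] with z hz
  have h0 := hz.2.self_of_nhds
  rw [laplacian_eq_iteratedFDeriv_orthonormalBasis _ (EuclideanSpace.basisFun (Fin (n + 2)) ℝ)]
    at h0 ⊢
  simp only [Pi.zero_apply] at h0 ⊢
  simp_rw [iteratedFDeriv_comp_sub]
  exact h0

/-- restriction of polynomials to the sphere of radius one half -/
noncomputable def dir_RR (n : ℕ) : MvPolynomial (Fin n) ℝ →ₐ[ℝ] C(Sp n, ℝ) :=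
  MvPolynomial.aeval fun i =>
    ⟨fun θ => ((1 / 2 : ℝ) • (θ : EuclideanSpace ℝ (Fin n))) i, by fun_prop⟩

theorem dir_RR_apply {n : ℕ} (p : MvPolynomial (Fin n) ℝ) (θ : Sp n) :
    dir_RR n p θ = ev p ((1 / 2 : ℝ) • (θ : EuclideanSpace ℝ (Fin n))) := by
  induction p using MvPolynomial.induction_on with
  | C a => simp [dir_RR, ev]
  | add p q hp hq => simp only [map_add, ContinuousMap.add_apply, hp, hq, ev]
  | mul_X p j hp =>
    rw [map_mul, ContinuousMap.mul_apply, hp]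
    simp [dir_RR, ev]

theorem dir_RR_dense (n : ℕ) : DenseRange (dir_RR n) := by
  have h := ContinuousMap.subalgebra_topologicalClosure_eq_top_of_separatesPoints
    (dir_RR n).range (by
    intro x y hxy
    obtain ⟨i, hi⟩ : ∃ i, (x : EuclideanSpace ℝ (Fin n)) i ≠ (y : EuclideanSpace ℝ (Fin n)) i := by
      by_contra hc
      push Not at hc
      exact hxy (Subtype.ext (PiLp.ext hc))
    refine ⟨_, ⟨dir_RR n (MvPolynomial.X i), ⟨MvPolynomial.X i, rfl⟩, rfl⟩, ?_⟩
    simpa [dir_RR] using hi)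
  have h2 := congrArg (fun A : Subalgebra ℝ C(Sp n, ℝ) => (A : Set C(Sp n, ℝ))) h
  simp only [Subalgebra.topologicalClosure_coe, Algebra.coe_top] at h2
  exact dense_iff_closure_eq.2 h2

theorem dir_approx {n : ℕ} (c : E n) {r : ℝ} (hr : 0 < r) {f : E n → ℝ}
    (hf : ContinuousOn f (sphere c r)) {ε : ℝ} (hε : 0 < ε) :
    ∃ V : E n → ℝ, ContinuousOn V (closedBall c r) ∧ HarmonicOnNhd V (ball c r) ∧
      ∀ y ∈ sphere c r, |V y - f y| ≤ ε := by
  have hmem : ∀ θ : Sp (n + 2), c + r • (θ : E n) ∈ sphere c r := by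
    intro θ
    rw [mem_sphere_iff_norm, add_sub_cancel_left, norm_smul, Pool.Agent.P.MP_a2f83a_an.Sd.norm_sp,
      Real.norm_eq_abs, abs_of_pos hr, mul_one]
  let F : C(Sp (n + 2), ℝ) := ⟨fun θ => f (c + r • (θ : E n)),
    hf.comp_continuous (by fun_prop) hmem⟩
  obtain ⟨p, hp⟩ := (dir_RR_dense (n + 2)).exists_dist_lt F hε
  obtain ⟨u, hu, hu2⟩ := ext_poly (m := n + 1) (v := fun _ => (1 : ℝ)) (R := 1)
    (harmonicOnNhd_const 1) p
  have hV : HarmonicOnNhd (fun y : E n => u ((2 * r)⁻¹ • (y - c))) (ball c (2 * r)) := by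
    intro x hx
    refine dir_sub c (u := fun y => u ((2 * r)⁻¹ • y)) (dir_smul _ (hu _ ?_))
    rw [mem_ball_iff_norm] at hx
    rw [mem_ball_zero_iff, norm_smul, Real.norm_eq_abs, abs_of_pos (by positivity),
      inv_mul_lt_iff₀ (by positivity), mul_one]
    exact hx
  refine ⟨_, (hV.mono (closedBall_subset_ball (by linarith))).continuousOn,
    hV.mono (ball_subset_ball (by linarith)), fun y hy => ?_⟩
  rw [mem_sphere_iff_norm] at hy
  have hθ : r⁻¹ • (y - c) ∈ sphere (0 : E n) 1 := by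
    rw [mem_sphere_zero_iff_norm, norm_smul, Real.norm_eq_abs, abs_of_pos (by positivity), hy,
      inv_mul_cancel₀ hr.ne']
  have h1 : dist (F ⟨_, hθ⟩) (dir_RR (n + 2) p ⟨_, hθ⟩) ≤ ε :=
    (ContinuousMap.dist_apply_le_dist _).trans hp.le
  have h2 : F ⟨_, hθ⟩ = f y := by
    change f (c + r • r⁻¹ • (y - c)) = f y
    rw [smul_smul, mul_inv_cancel₀ hr.ne', one_smul, add_sub_cancel]
  have h3 : (1 / 2 : ℝ) • r⁻¹ • (y - c) = (2 * r)⁻¹ • (y - c) := by
    rw [smul_smul, mul_inv, one_div]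
  have h4 : ‖(2 * r)⁻¹ • (y - c)‖ = 1 / 2 := by
    rw [norm_smul, Real.norm_eq_abs, abs_of_pos (by positivity), hy]
    field_simp
  rw [h2, dir_RR_apply, Real.dist_eq, abs_sub_comm] at h1
  change |ev p ((1 / 2 : ℝ) • r⁻¹ • (y - c)) - f y| ≤ ε at h1
  rw [h3] at h1
  rw [hu2 _ h4, mul_one]
  exact h1

theorem dir_cmp {n : ℕ} {c : E n} {r : ℝ} {V W : E n → ℝ} {δ : ℝ}
    (hV : ContinuousOn V (closedBall c r)) (hV' : HarmonicOnNhd V (ball c r))
    (hW : ContinuousOn W (closedBall c r)) (hW' : HarmonicOnNhd W (ball c r))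
    (h : ∀ y ∈ sphere c r, V y - W y ≤ δ) : ∀ y ∈ closedBall c r, V y - W y ≤ δ := by
  have hs : ∀ y ∈ closedBall c r, y ∉ ball c r → y ∈ sphere c r := by
    intro y h1 h2
    rw [mem_closedBall] at h1
    rw [mem_ball, not_lt] at h2
    exact le_antisymm h1 h2
  have h1 := mp (u := V - W - fun _ => δ) isOpen_ball isClosed_closedBall isBounded_closedBall
    ball_subset_closedBall ((hV'.sub hW').sub (harmonicOnNhd_const δ))
    ((hV.sub hW).sub continuousOn_const) (fun y hy hy' => by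
      have := h y (hs y hy hy')
      simp only [Pi.sub_apply]
      linarith)
  intro y hy
  by_cases hb : y ∈ ball c r
  · have := h1 y hb
    simp only [Pi.sub_apply] at this
    linarith
  · exact h y (hs y hy hb)

theorem dir (n : ℕ) (hL : LIM n) : DIR n := by
  intro c r hr f hf
  have hpos : ∀ k : ℕ, (0 : ℝ) < 1 / ((k : ℝ) + 1) := fun k => Nat.one_div_pos_of_nat
  choose V hc hh hb using fun k : ℕ => dir_approx c hr hf (hpos k)
  have hd : ∀ j k : ℕ, ∀ y ∈ closedBall c r,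
      V j y - V k y ≤ 1 / ((j : ℝ) + 1) + 1 / ((k : ℝ) + 1) := by
    intro j k
    refine dir_cmp (hc j) (hh j) (hc k) (hh k) fun y hy => ?_
    have h1 := abs_le.1 (hb j y hy)
    have h2 := abs_le.1 (hb k y hy)
    linarith [h1.2, h2.1]
  have hd' : ∀ j k : ℕ, ∀ y ∈ closedBall c r,
      |V j y - V k y| ≤ 1 / ((j : ℝ) + 1) + 1 / ((k : ℝ) + 1) := by
    intro j k y hy
    have h1 := hd j k y hy
    have h2 := hd k j y hy
    rw [abs_le]
    constructor <;> linarith
  have hU : UniformCauchySeqOn V atTop (closedBall c r) := by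
    rw [Metric.uniformCauchySeqOn_iff]
    intro ε hε
    obtain ⟨N, hN⟩ := exists_nat_one_div_lt (K := ℝ) (half_pos hε)
    refine ⟨N, fun j hj k hk y hy => ?_⟩
    have h1 : 1 / ((j : ℝ) + 1) ≤ 1 / ((N : ℝ) + 1) := Nat.one_div_le_one_div hj
    have h2 : 1 / ((k : ℝ) + 1) ≤ 1 / ((N : ℝ) + 1) := Nat.one_div_le_one_div hk
    rw [Real.dist_eq]
    linarith [hd' j k y hy]
  have ht : ∀ y ∈ closedBall c r,
      Tendsto (fun k => V k y) atTop (𝓝 (limUnder atTop fun k => V k y)) :=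
    fun y hy => (hU.cauchySeq hy).tendsto_limUnder
  obtain ⟨B, hB⟩ := (isCompact_closedBall c r).exists_bound_of_continuousOn (hc 0)
  refine ⟨fun y => limUnder atTop fun k => V k y,
    (hU.tendstoUniformlyOn_of_tendsto ht).continuousOn (Frequently.of_forall hc),
    hL c r (B + 2) V _ hh (fun k y hy => ?_) (fun y hy => ht y (ball_subset_closedBall hy)),
    fun y hy => ?_⟩
  · have h1 := hd' k 0 y (ball_subset_closedBall hy)
    have h2 := hB y (ball_subset_closedBall hy)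
    have h3 : 1 / ((k : ℝ) + 1) ≤ 1 / (((0 : ℕ) : ℝ) + 1) := Nat.one_div_le_one_div (Nat.zero_le k)
    rw [Real.norm_eq_abs] at h2
    have h4 := abs_sub_abs_le_abs_sub (V k y) (V 0 y)
    simp only [Nat.cast_zero, zero_add, div_one] at h1 h3
    linarith
  · refine tendsto_nhds_unique (ht y (sphere_subset_closedBall hy)) ?_
    rw [tendsto_iff_dist_tendsto_zero]
    exact squeeze_zero (fun _ => dist_nonneg) (fun k => by rw [Real.dist_eq]; exact hb k y hy)
      tendsto_one_div_add_atTop_nhds_zero_nat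

end Pool.Agent.P.MP_677f70_an.Ga
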