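import Pool.Agent.P.MP_677f70_an.GaPos

set_option autoImplicit false

open InnerProductSpace Metric Filter Topology

namespace Pool.Agent.P.MP_677f70_an.Ga

theorem fin_coef {φ : ℝ → ℝ} (h1 : ∀ t, 1 ≤ φ t) (t : ℝ) : 0 ≤ 1 / φ t :=
  one_div_nonneg.2 (zero_le_one.trans (h1 t))

theorem fin_nonneg {φ : ℝ → ℝ} (h1 : ∀ t, 1 ≤ φ t) (K : ℕ) (y : ℝ) : 0 ≤ uK φ K y :=
  Finset.sum_nonneg fun _ _ => mul_nonneg (fin_coef h1 _) (le_max_right _ _)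

theorem fin_succ {φ : ℝ → ℝ} (h1 : ∀ t, 1 ≤ φ t) (K : ℕ) (y : ℝ) :
    uK φ K y ≤ uK φ (K + 1) y := by
  unfold uK
  rw [Finset.sum_range_succ]
  exact le_add_of_nonneg_right (mul_nonneg (fin_coef h1 _) (le_max_right _ _))

theorem fin_sub {n : ℕ} (hD : DIR n) {φ : ℝ → ℝ} (h1 : ∀ t, 1 ≤ φ t) (D : Set (E n)) (K : ℕ) :
    Sub D fun x => uK φ K |x 0| :=
  Sub.sum hD (Finset.range K) (s := fun k x => 1 / φ (4 ^ k) * max (|x 0| - 4 ^ k) 0)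
    fun k _ => Sub.mul (fin_coef h1 _) (pos_sub (4 ^ k) (by positivity))

theorem fin_pow (k0 : ℕ) (t : ℝ) : ∃ m : ℕ, k0 ≤ m ∧ t < 4 ^ m := by
  obtain ⟨m, hm⟩ := pow_unbounded_of_one_lt t (by norm_num : (1 : ℝ) < 4)
  exact ⟨max k0 m, le_max_left _ _,
    hm.trans_le (pow_le_pow_right₀ (by norm_num) (le_max_right _ _))⟩

theorem pos {n : ℕ} (hL : LIM n) (hD : DIR n) (hH : LHM n) {φ : ℝ → ℝ} (h1 : ∀ t, 1 ≤ φ t)
    {D : Set (E n)} (hO : IsOpen D) {h Ψ : E n → ℝ} (hh : HarmonicOnNhd h D)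
    (hn : ∀ x ∈ D, ‖x‖ ≤ h x) (hΨ : HarmonicOnNhd Ψ D) (hb0 : ∀ x ∈ D, |x 0| ≤ Ψ x)
    {C R : ℝ} (hb : ∀ x ∈ D, R ≤ ‖x‖ → Ψ x ≤ C * (‖x‖ * φ ‖x‖)) :
    ∃ L : E n → ℝ, HarmonicOnNhd L D ∧ ∀ K, ∀ x ∈ D, uK φ K |x 0| ≤ L x := by
  obtain ⟨k0, -, hk0⟩ := fin_pow 0 R
  have hb' : ∀ x ∈ D, 4 ^ k0 ≤ ‖x‖ → Ψ x ≤ |C| * (‖x‖ * φ ‖x‖) := fun x hx hr =>
    (hb x hx (hk0.le.trans hr)).trans (mul_le_mul_of_nonneg_right (le_abs_self C)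
      (mul_nonneg (norm_nonneg _) (zero_le_one.trans (h1 _))))
  choose G hG hG' using stage hD hH h1 hO hh hn hΨ (abs_nonneg C) hb0 hb'
  have hex : ∀ K : ℕ, ∃ H : E n → ℝ, HarmonicOnNhd H D ∧ (∀ x ∈ D, uK φ K |x 0| ≤ H x) ∧
      ∀ v : E n → ℝ, Sup D v → (∀ x ∈ D, uK φ K |x 0| ≤ v x) → ∀ x ∈ D, H x ≤ v x := fun K =>
    hH D hO (fun x => uK φ K |x 0|) (G K) (G K) (fin_sub hD h1 D K) (harm_sup (hG K))
      (fun x hx => (hG' K x hx).1)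
      (fun x hx => (hG K x hx).1.continuousAt.continuousWithinAt) (fun _ _ => le_rfl)
  choose L hL1 hL2 hL3 using hex
  have hmono : ∀ x ∈ D, Monotone fun K => L K x := fun x hx =>
    monotone_nat_of_le_succ fun K => hL3 K (L (K + 1)) (harm_sup (hL1 (K + 1)))
      (fun y hy => (fin_succ h1 K _).trans (hL2 (K + 1) y hy)) x hx
  have hup : ∀ K, ∀ x ∈ D, ∀ m : ℕ, k0 ≤ m → ‖x‖ < 4 ^ m →
      L K x ≤ m * Ψ x + 32 * |C| * (n + 2) ^ 2 * h x := fun K x hx m hm hxm =>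
    (hL3 K (G K) (harm_sup (hG K)) (fun y hy => (hG' K y hy).1) x hx).trans
      ((hG' K x hx).2 m hm hxm)
  have hbdd : ∀ x ∈ D, BddAbove (Set.range fun K => L K x) := fun x hx => by
    obtain ⟨m, hm, hxm⟩ := fin_pow k0 ‖x‖
    exact ⟨_, by rintro _ ⟨K, rfl⟩; exact hup K x hx m hm hxm⟩
  refine ⟨fun x => ⨆ K, L K x, fun x hx => ?_,
    fun K x hx => (hL2 K x hx).trans (le_ciSup (hbdd x hx) K)⟩
  obtain ⟨m, hm, hxm⟩ := fin_pow k0 ‖x‖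
  have hc : ContinuousAt (fun y => (m : ℝ) * Ψ y + 32 * |C| * (n + 2) ^ 2 * h y) x :=
    (continuousAt_const.mul (hΨ x hx).1.continuousAt).add
      (continuousAt_const.mul (hh x hx).1.continuousAt)
  have e1 : ∀ᶠ y in 𝓝 x, y ∈ D := hO.mem_nhds hx
  have e2 : ∀ᶠ y in 𝓝 x, ‖y‖ < 4 ^ m :=
    continuous_norm.continuousAt.eventually_lt continuousAt_const hxm
  have e3 : ∀ᶠ y in 𝓝 x, (m : ℝ) * Ψ y + 32 * |C| * (n + 2) ^ 2 * h y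
      < (m : ℝ) * Ψ x + 32 * |C| * (n + 2) ^ 2 * h x + 1 :=
    hc.eventually_lt continuousAt_const (lt_add_one _)
  obtain ⟨ε, hε, hB⟩ := Metric.eventually_nhds_iff_ball.1 (e1.and (e2.and e3))
  refine hL x ε ((m : ℝ) * Ψ x + 32 * |C| * (n + 2) ^ 2 * h x + 1) L (fun y => ⨆ K, L K y)
    (fun K y hy => hL1 K y (hB y hy).1) (fun K y hy => ?_)
    (fun y hy => tendsto_atTop_ciSup (hmono y (hB y hy).1) (hbdd y (hB y hy).1)) x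
    (mem_ball_self hε)
  rw [abs_of_nonneg ((fin_nonneg h1 K _).trans (hL2 K y (hB y hy).1))]
  exact (hup K y (hB y hy).1 m hm (hB y hy).2.1).trans (hB y hy).2.2.le

end Pool.Agent.P.MP_677f70_an.Ga
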