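import Pool.Agent.P.MP_677f70_an.GaDefs

set_option autoImplicit false

open InnerProductSpace Metric Filter Topology

namespace Pool.Agent.P.MP_677f70_an.Ga

variable {φ ψ : ℝ → ℝ}

theorem Int_int (hφ : Monotone φ) (h1 : ∀ t, 1 ≤ φ t) {a b : ℝ} (ha : 1 ≤ a) (hab : a ≤ b) :
    IntervalIntegrable (fun s => 1 / (s * φ s)) MeasureTheory.volume a b := by
  refine AntitoneOn.intervalIntegrable ?_
  rw [Set.uIcc_of_le hab]
  intro x hx y _ hxy
  have hx0 : 0 < x := by linarith [hx.1]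
  have hp : 0 < φ x := by linarith [h1 x]
  exact one_div_le_one_div_of_le (mul_pos hx0 hp)
    (mul_le_mul hxy (hφ hxy) hp.le (by linarith))

theorem Int_sub (hφ : Monotone φ) (h1 : ∀ t, 1 ≤ φ t) {a b : ℝ} (ha : 1 ≤ a) (hab : a ≤ b) :
    II φ b - II φ a = ∫ s in a..b, 1 / (s * φ s) :=
  intervalIntegral.integral_interval_sub_left (Int_int hφ h1 le_rfl (ha.trans hab))
    (Int_int hφ h1 le_rfl ha)

theorem Int_const {a b c : ℝ} (ha : 1 ≤ a) (hab : a ≤ b) :
    ∫ s in a..b, 1 / (s * c) = Real.log (b / a) / c := by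
  have e : (fun s : ℝ => 1 / (s * c)) = fun s => 1 / s / c := by
    funext s
    rw [div_div]
  rw [e, intervalIntegral.integral_div, integral_one_div_of_pos (by linarith) (by linarith)]

theorem II_le (hφ : Monotone φ) (h1 : ∀ t, 1 ≤ φ t) {a b : ℝ} (ha : 1 ≤ a) (hab : a ≤ b) :
    II φ b - II φ a ≤ Real.log (b / a) / φ a := by
  rw [Int_sub hφ h1 ha hab, ← Int_const ha hab]
  refine intervalIntegral.integral_mono_on hab (Int_int hφ h1 ha hab)
    (Int_int (φ := fun _ => φ a) monotone_const (fun _ => h1 a) ha hab) fun x hx => ?_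
  have hx0 : 0 < x := by linarith [hx.1]
  have hp : 0 < φ a := by linarith [h1 a]
  exact one_div_le_one_div_of_le (mul_pos hx0 hp) (mul_le_mul_of_nonneg_left (hφ hx.1) hx0.le)

theorem II_ge (hφ : Monotone φ) (h1 : ∀ t, 1 ≤ φ t) {a b : ℝ} (ha : 1 ≤ a) (hab : a ≤ b) :
    Real.log (b / a) / φ b ≤ II φ b - II φ a := by
  rw [Int_sub hφ h1 ha hab, ← Int_const ha hab]
  refine intervalIntegral.integral_mono_on hab
    (Int_int (φ := fun _ => φ b) monotone_const (fun _ => h1 b) ha hab)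
    (Int_int hφ h1 ha hab) fun x hx => ?_
  have hx0 : 0 < x := by linarith [hx.1]
  have hp : 0 < φ x := by linarith [h1 x]
  exact one_div_le_one_div_of_le (mul_pos hx0 hp) (mul_le_mul_of_nonneg_left (hφ hx.2) hx0.le)

theorem Int_one : II φ 1 = 0 := intervalIntegral.integral_same

theorem Int_mono (hφ : Monotone φ) (h1 : ∀ t, 1 ≤ φ t) {a b : ℝ} (ha : 1 ≤ a) (hab : a ≤ b) :
    II φ a ≤ II φ b := by
  have h := II_ge hφ h1 ha hab
  have h2 : 0 ≤ Real.log (b / a) / φ b :=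
    div_nonneg (Real.log_nonneg ((one_le_div (by linarith)).2 hab)) (by linarith [h1 b])
  linarith

theorem II_nonneg (hφ : Monotone φ) (h1 : ∀ t, 1 ≤ φ t) {t : ℝ} (ht : 1 ≤ t) : 0 ≤ II φ t := by
  have h := Int_mono hφ h1 le_rfl ht
  rwa [Int_one] at h

theorem Int_log4 : Real.log 4 ≤ 2 := by
  have h : Real.log 4 = 2 * Real.log 2 := by
    rw [show (4 : ℝ) = 2 ^ 2 by norm_num, Real.log_pow]
    norm_num
  have h2 := Real.log_le_sub_one_of_pos (show (0 : ℝ) < 2 by norm_num)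
  linarith

theorem Int_step (hφ : Monotone φ) (h1 : ∀ t, 1 ≤ φ t) {a b : ℝ} (ha : 1 ≤ a) (hab : a ≤ b)
    (hb : b ≤ 4 * a) : II φ b - II φ a ≤ 2 * (1 / φ a) := by
  refine (II_le hφ h1 ha hab).trans ?_
  have h0 : 0 < a := by linarith
  have h2 : Real.log (b / a) ≤ 2 :=
    (Real.log_le_log (div_pos (by linarith) h0) ((div_le_iff₀ h0).2 hb)).trans Int_log4
  rw [mul_one_div]
  exact div_le_div_of_nonneg_right h2 (by linarith [h1 a])

theorem Int_pow (hφ : Monotone φ) (h1 : ∀ t, 1 ≤ φ t) (m : ℕ) :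
    II φ (4 ^ m) ≤ 2 * ∑ k ∈ Finset.range m, 1 / φ (4 ^ k) := by
  induction m with
  | zero => rw [pow_zero, Int_one, Finset.sum_range_zero, mul_zero]
  | succ m ih =>
    have h0 : (1 : ℝ) ≤ 4 ^ m := one_le_pow₀ (by norm_num)
    have h := Int_step hφ h1 (a := 4 ^ m) (b := 4 ^ (m + 1)) h0
      (by rw [pow_succ]; linarith) (by rw [pow_succ]; linarith)
    rw [Finset.sum_range_succ]
    linarith

theorem gauge_le (hφ : Monotone φ) (h1 : ∀ t, 1 ≤ φ t) {y : ℝ} (hy : 1 ≤ y) :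
    ∃ K, y * II φ y ≤ 2 * y + 4 * uK φ K y := by
  obtain ⟨m, a1, a2⟩ := exists_nat_pow_near hy (show (1 : ℝ) < 4 by norm_num)
  refine ⟨m, ?_⟩
  have h0 : (1 : ℝ) ≤ 4 ^ m := one_le_pow₀ (by norm_num)
  have b1 := Int_step hφ h1 h0 a1 (by rw [pow_succ] at a2; linarith)
  have b2 : 1 / φ (4 ^ m) ≤ 1 := (div_le_one (by linarith [h1 (4 ^ m)])).2 (h1 _)
  have b3 := Int_pow hφ h1 m
  have b4 : y * ∑ k ∈ Finset.range m, 1 / φ (4 ^ k) ≤ 2 * uK φ m y := by
    unfold uK
    rw [Finset.mul_sum, Finset.mul_sum]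
    refine Finset.sum_le_sum fun k hk => ?_
    have c1 : (4 : ℝ) ^ (k + 1) ≤ 4 ^ m :=
      pow_le_pow_right₀ (by norm_num) (Finset.mem_range.1 hk)
    rw [pow_succ] at c1
    have c2 : y ≤ 2 * max (y - 4 ^ k) 0 := by
      have := le_max_left (y - 4 ^ k) 0
      linarith
    have c3 : 0 ≤ 1 / φ (4 ^ k) := div_nonneg zero_le_one (by linarith [h1 (4 ^ k)])
    have c4 := mul_le_mul_of_nonneg_left c2 c3
    linarith
  have b5 : II φ y ≤ 2 + 2 * ∑ k ∈ Finset.range m, 1 / φ (4 ^ k) := by linarith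
  have b6 := mul_le_mul_of_nonneg_left b5 (show 0 ≤ y by linarith)
  linarith

theorem Int_uu_pos (k : ℕ) : 0 < uu k := by
  unfold uu
  positivity

theorem Int_uu_succ (k : ℕ) : uu (k + 1) = 2 * uu k := by
  unfold uu
  ring

theorem Int_tile (hφ : Monotone φ) (h1 : ∀ t, 1 ≤ φ t) (m : ℕ) :
    ∑ i ∈ Finset.range m, uu i / φ (Real.exp (uu i / 2)) ≤ 48 * II φ (Real.exp (uu m / 48)) := by
  induction m with
  | zero =>
    have := II_nonneg hφ h1 (t := Real.exp (uu 0 / 48))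
      (Real.one_le_exp (by have := Int_uu_pos 0; positivity))
    rw [Finset.sum_range_zero]
    linarith
  | succ m ih =>
    have h0 := Int_uu_pos m
    have hs := Int_uu_succ m
    have h := II_ge hφ h1 (a := Real.exp (uu m / 48)) (b := Real.exp (uu (m + 1) / 48))
      (Real.one_le_exp (by positivity)) (Real.exp_le_exp.2 (by linarith))
    rw [← Real.exp_sub, Real.log_exp] at h
    have h2 : uu m / 48 / φ (Real.exp (uu m / 2)) ≤
        (uu (m + 1) / 48 - uu m / 48) / φ (Real.exp (uu (m + 1) / 48)) := by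
      rw [show uu (m + 1) / 48 - uu m / 48 = uu m / 48 by linarith]
      exact div_le_div_of_nonneg_left (by positivity)
        (by linarith [h1 (Real.exp (uu (m + 1) / 48))])
        (hφ (Real.exp_le_exp.2 (by linarith)))
    have h3 : uu m / φ (Real.exp (uu m / 2)) = 48 * (uu m / 48 / φ (Real.exp (uu m / 2))) := by
      ring
    rw [Finset.sum_range_succ]
    linarith

theorem lam_le (hφ : Monotone φ) (h1 : ∀ t, 1 ≤ φ t) (hψ : Monotone ψ) {A : ℝ}
    (hA : ∀ k, ψ (Real.exp (uu k / 12)) ≤ A * Lam φ k) :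
    ∃ C, ∀ t, 1 ≤ t → ψ t ≤ C * (1 + II φ t) := by
  classical
  refine ⟨|A| * 1000, fun t ht => ?_⟩
  have hI := II_nonneg hφ h1 ht
  have hex : ∃ k, t ≤ Real.exp (uu k / 12) := by
    obtain ⟨k, hk⟩ := pow_unbounded_of_one_lt t (show (1 : ℝ) < 2 by norm_num)
    refine ⟨k, le_trans ?_ (Real.add_one_le_exp _)⟩
    unfold uu
    linarith
  have hL0 : ∀ k, 0 ≤ Lam φ k := fun k =>
    Finset.sum_nonneg fun i _ => div_nonneg (Int_uu_pos i).le (by linarith [h1 (Real.exp (uu i / 2))])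
  have hL : Lam φ (Nat.find hex) ≤ 1000 * (1 + II φ t) := by
    rcases hk : Nat.find hex with _ | k
    · have e : Lam φ 0 = uu 0 / φ (Real.exp (uu 0 / 2)) := Finset.sum_range_one _
      have e2 : uu 0 = 1000 := by
        unfold uu
        norm_num
      have := div_le_self (Int_uu_pos 0).le (h1 (Real.exp (uu 0 / 2)))
      linarith
    · have a1 := not_le.1 (Nat.find_min hex (m := k) (by omega))
      have a2 := Int_tile hφ h1 (k + 1 + 1)
      have a3 : uu (k + 1 + 1) / 48 = uu k / 12 := by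
        rw [Int_uu_succ, Int_uu_succ]
        ring
      rw [a3] at a2
      have a4 := Int_mono hφ h1 (Real.one_le_exp (by have := Int_uu_pos k; positivity)) a1.le
      have a5 : Lam φ (k + 1) ≤ 48 * II φ (Real.exp (uu k / 12)) := a2
      linarith
  calc ψ t ≤ ψ (Real.exp (uu (Nat.find hex) / 12)) := hψ (Nat.find_spec hex)
    _ ≤ A * Lam φ (Nat.find hex) := hA _
    _ ≤ |A| * Lam φ (Nat.find hex) := mul_le_mul_of_nonneg_right (le_abs_self A) (hL0 _)
    _ ≤ |A| * (1000 * (1 + II φ t)) := mul_le_mul_of_nonneg_left hL (abs_nonneg A)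
    _ = _ := by ring

end Pool.Agent.P.MP_677f70_an.Ga
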