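import Pool.Agent.P.MP_677f70_an.GaMain

set_option autoImplicit false

open InnerProductSpace Metric Filter Topology

namespace Pool.Agent.P.MP_677f70_an.Ga

/-- a least harmonic majorant of the first coordinate exists as soon as one exists -/
theorem least_exists (n : ℕ) {D : Set (E n)} (hO : IsOpen D) {Ψ : E n → ℝ}
    (hΨ : HarmonicOnNhd Ψ D) (hb : ∀ x ∈ D, |x 0| ≤ Ψ x) :
    ∃ Ψ0 : E n → ℝ, HarmonicOnNhd Ψ0 D ∧ (∀ x ∈ D, |x 0| ≤ Ψ0 x) ∧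
      ∀ H : E n → ℝ, HarmonicOnNhd H D → (∀ x ∈ D, |x 0| ≤ H x) → ∀ x ∈ D, Ψ0 x ≤ H x := by
  have e : ∀ x : E n, max (|x 0| - 0) 0 = |x 0| := fun x => by
    rw [sub_zero, max_eq_left (abs_nonneg _)]
  obtain ⟨Ψ0, h1, h2, h3⟩ := lhm n (lim n) (dir n (lim n)) D hO _ Ψ Ψ (pos_sub 0 le_rfl)
    (harm_sup hΨ) (fun x hx => (e x).trans_le (hb x hx)) (harm_sub hΨ).1 fun _ _ => le_rfl
  exact ⟨Ψ0, h1, fun x hx => (e x).symm.trans_le (h2 x hx),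
    fun H hH hle => h3 H (harm_sup hH) fun x hx => (e x).trans_le (hle x hx)⟩

end Pool.Agent.P.MP_677f70_an.Ga
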