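import Pool.Agent.P.MP_677f70_an.GaDefs

set_option autoImplicit false

open InnerProductSpace Metric Filter Topology

namespace Pool.Agent.P.MP_677f70_an.Ga

/-- the Perron family -/
def LhmF {n : ℕ} (D : Set (E n)) (s w : E n → ℝ) : Prop :=
  Sub D w ∧ (∀ x ∈ D, s x ≤ w x) ∧
    ∀ v : E n → ℝ, Sup D v → (∀ x ∈ D, s x ≤ v x) → ∀ x ∈ D, w x ≤ v x

theorem lhm_self {n : ℕ} {D : Set (E n)} {s : E n → ℝ} (hs : Sub D s) : LhmF D s s :=
  ⟨hs, fun _ _ => le_rfl, fun _ _ h => h⟩

theorem lhm_max {n : ℕ} {D : Set (E n)} {s w1 w2 : E n → ℝ} (h1 : LhmF D s w1)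
    (h2 : LhmF D s w2) : LhmF D s fun x => max (w1 x) (w2 x) := by
  refine ⟨⟨h1.1.1.sup h2.1.1, fun c r hr hsub g hg hh hle x hx => max_le ?_ ?_⟩,
    fun x hx => (h1.2.1 x hx).trans (le_max_left _ _),
    fun v hv hsv x hx => max_le (h1.2.2 v hv hsv x hx) (h2.2.2 v hv hsv x hx)⟩
  · exact h1.1.2 c r hr hsub g hg hh (fun y hy => (le_max_left _ _).trans (hle y hy)) x hx
  · exact h2.1.2 c r hr hsub g hg hh (fun y hy => (le_max_right _ _).trans (hle y hy)) x hx

theorem lhm_sphere {n : ℕ} {c x : E n} {r : ℝ} (h1 : x ∈ closedBall c r) (h2 : x ∉ ball c r) :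
    x ∈ sphere c r :=
  mem_sphere.2 (le_antisymm (mem_closedBall.1 h1) (not_lt.1 fun h => h2 (mem_ball.2 h)))

theorem lhm_cmp {n : ℕ} {c : E n} {r : ℝ} {U V : E n → ℝ}
    (hU : ContinuousOn U (closedBall c r)) (hU' : HarmonicOnNhd U (ball c r))
    (hV : ContinuousOn V (closedBall c r)) (hV' : HarmonicOnNhd V (ball c r))
    (h : ∀ x ∈ sphere c r, U x ≤ V x) : ∀ x ∈ ball c r, U x ≤ V x := by
  intro x hx
  have := mp (u := U - V) isOpen_ball isClosed_closedBall isBounded_closedBall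
    ball_subset_closedBall (hU'.sub hV') (hU.sub hV)
    (fun y hy hy' => sub_nonpos.2 (h y (lhm_sphere hy hy'))) x hx
  exact sub_nonpos.1 this

open Classical in
theorem lhm_lift {n : ℕ} (hD : DIR n) {D : Set (E n)} {s w : E n → ℝ} (hw : LhmF D s w)
    {c : E n} {r : ℝ} (hr : 0 < r) (hsub : closedBall c r ⊆ D) :
    ∃ U : E n → ℝ, ContinuousOn U (closedBall c r) ∧ HarmonicOnNhd U (ball c r) ∧
      (∀ x ∈ sphere c r, U x = w x) ∧ (∀ x ∈ ball c r, w x ≤ U x) ∧
      ∃ W : E n → ℝ, LhmF D s W ∧ ∀ x ∈ ball c r, W x = U x := by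
  obtain ⟨U, hUc, hUh, hUe⟩ := hD c r hr w
    (hw.1.1.mono (sphere_subset_closedBall.trans hsub))
  have hwU : ∀ x ∈ ball c r, w x ≤ U x :=
    hw.1.2 c r hr hsub U hUc hUh fun y hy => (hUe y hy).ge
  have hwW : ∀ x, w x ≤ if x ∈ ball c r then U x else w x := by
    intro x
    split_ifs with hx
    · exact hwU x hx
    · exact le_rfl
  refine ⟨U, hUc, hUh, hUe, hwU, fun x => if x ∈ ball c r then U x else w x,
    ⟨⟨?_, ?_⟩, fun x hx => (hw.2.1 x hx).trans (hwW x), ?_⟩, fun x hx => if_pos hx⟩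
  · refine ContinuousOn.if (fun a ha => hUe a ?_) (hUc.mono fun a ha => ?_)
      (hw.1.1.mono Set.inter_subset_left)
    · have := ha.2
      rwa [show {a | a ∈ ball c r} = ball c r from rfl, frontier_ball c hr.ne'] at this
    · have := ha.2
      rwa [show {a | a ∈ ball c r} = ball c r from rfl, closure_ball c hr.ne'] at this
  · intro c' r' hr' hsub' g hg hgh hle x hx
    have hwg : ∀ y ∈ closedBall c' r', w y ≤ g y := by
      intro y hy
      by_cases hy' : y ∈ ball c' r'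
      · exact hw.1.2 c' r' hr' hsub' g hg hgh (fun z hz => (hwW z).trans (hle z hz)) y hy'
      · exact (hwW y).trans (hle y (lhm_sphere hy hy'))
    by_cases hxb : x ∈ ball c r
    · have := mp (u := U - g) (Ω := ball c r ∩ ball c' r')
        (F := closedBall c r ∩ closedBall c' r') (isOpen_ball.inter isOpen_ball)
        (isClosed_closedBall.inter isClosed_closedBall)
        (isBounded_closedBall.subset Set.inter_subset_left)
        (Set.inter_subset_inter ball_subset_closedBall ball_subset_closedBall)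
        ((hUh.mono Set.inter_subset_left).sub (hgh.mono Set.inter_subset_right))
        ((hUc.mono Set.inter_subset_left).sub (hg.mono Set.inter_subset_right))
        (fun y hy hy' => by
          refine sub_nonpos.2 ?_
          by_cases hyb : y ∈ ball c r
          · have h1 := hle y (lhm_sphere hy.2 fun h => hy' ⟨hyb, h⟩)
            simp only [if_pos hyb] at h1
            exact h1
          · rw [hUe y (lhm_sphere hy.1 hyb)]
            exact hwg y hy.2) x ⟨hxb, hx⟩
      simp only [if_pos hxb]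
      exact sub_nonpos.1 this
    · simp only [if_neg hxb]
      exact hwg x (ball_subset_closedBall hx)
  · intro v hv hsv x hx
    by_cases hxb : x ∈ ball c r
    · simp only [if_pos hxb]
      exact hv c r hr hsub U hUc hUh (fun y hy => (hUe y hy).le.trans
        (hw.2.2 v hv hsv y (hsub (sphere_subset_closedBall hy)))) x hxb
    · simp only [if_neg hxb]
      exact hw.2.2 v hv hsv x hx

/-- an increasing sequence in the family that exhausts `H` along a sequence of points -/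
theorem lhm_seq {n : ℕ} {D : Set (E n)} {s H : E n → ℝ} (hs : Sub D s) (q : ℕ → E n)
    (hH : ∀ x ∈ D, ∀ ε > 0, ∃ w, LhmF D s w ∧ H x - ε < w x) :
    ∃ W : ℕ → E n → ℝ, (∀ k, LhmF D s (W k)) ∧ (∀ k x, W k x ≤ W (k + 1) x) ∧
      ∀ k j : ℕ, j ≤ k → q j ∈ D → H (q j) - 1 / ((k : ℝ) + 1) < W k (q j) := by
  have h1 : ∀ ε > 0, ∀ m : ℕ, ∃ w, LhmF D s w ∧ ∀ j < m, q j ∈ D → H (q j) - ε < w (q j) := by
    intro ε hε m
    induction m with
    | zero => exact ⟨s, lhm_self hs, fun j hj => absurd hj (Nat.not_lt_zero j)⟩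
    | succ m ih =>
      obtain ⟨w, hw, hw'⟩ := ih
      by_cases hq : q m ∈ D
      · obtain ⟨w2, hw2, hw2'⟩ := hH _ hq ε hε
        refine ⟨_, lhm_max hw hw2, fun j hj hjD => ?_⟩
        rcases Nat.lt_succ_iff_lt_or_eq.1 hj with h | h
        · exact (hw' j h hjD).trans_le (le_max_left _ _)
        · subst h
          exact hw2'.trans_le (le_max_right _ _)
      · refine ⟨w, hw, fun j hj hjD => ?_⟩
        rcases Nat.lt_succ_iff_lt_or_eq.1 hj with h | h
        · exact hw' j h hjD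
        · subst h
          exact absurd hjD hq
  have h2 : ∀ k : ℕ, ∃ w, LhmF D s w ∧
      ∀ j < k + 1, q j ∈ D → H (q j) - 1 / ((k : ℝ) + 1) < w (q j) :=
    fun k => h1 _ Nat.one_div_pos_of_nat (k + 1)
  choose A hA hA' using h2
  let W : ℕ → E n → ℝ := fun k =>
    Nat.rec (A 0) (fun k w => fun x => max (w x) (A (k + 1) x)) k
  have hW0 : W 0 = A 0 := rfl
  have hWs : ∀ k, W (k + 1) = fun x => max (W k x) (A (k + 1) x) := fun _ => rfl
  refine ⟨W, fun k => ?_, fun k x => ?_, fun k j hj hq => ?_⟩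
  · induction k with
    | zero => exact hA 0
    | succ k ih =>
      rw [hWs]
      exact lhm_max ih (hA _)
  · rw [hWs]
    exact le_max_left _ _
  · refine (hA' k j (Nat.lt_succ_of_le hj) hq).trans_le ?_
    cases k with
    | zero => exact le_rfl
    | succ k =>
      rw [hWs]
      exact le_max_right _ _

theorem lhm (n : ℕ) (hL : LIM n) (hD : DIR n) : LHM n := by
  intro D hO s v0 M hs hv0 hsv hM hvM
  let H : E n → ℝ := fun x => sSup {t | ∃ w, LhmF D s w ∧ w x = t}
  have hne : ∀ x, {t | ∃ w, LhmF D s w ∧ w x = t}.Nonempty :=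
    fun x => ⟨s x, s, lhm_self hs, rfl⟩
  have hle : ∀ w, LhmF D s w → ∀ x ∈ D, w x ≤ H x := by
    intro w hw x hx
    refine le_csSup ⟨v0 x, ?_⟩ ⟨w, hw, rfl⟩
    rintro t ⟨w', hw', rfl⟩
    exact hw'.2.2 v0 hv0 hsv x hx
  have hub : ∀ x b, (∀ w, LhmF D s w → w x ≤ b) → H x ≤ b := by
    intro x b h
    refine csSup_le (hne x) ?_
    rintro t ⟨w, hw, rfl⟩
    exact h w hw
  refine ⟨H, fun c hc => ?_, hle s (lhm_self hs),
    fun v hv hsv' x hx => hub x _ fun w hw => hw.2.2 v hv hsv' x hx⟩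
  obtain ⟨r, hr, hsub⟩ := nhds_basis_closedBall.mem_iff.1 (hO.mem_nhds hc)
  have hbD : ∀ x ∈ ball c r, x ∈ D := fun x hx => hsub (ball_subset_closedBall hx)
  obtain ⟨W, hW, hWm, hWq⟩ := lhm_seq (H := H) hs (TopologicalSpace.denseSeq (E n))
    (fun x _ ε hε => by
      obtain ⟨t, ⟨w, hw, rfl⟩, ht⟩ := exists_lt_of_lt_csSup (hne x) (sub_lt_self (H x) hε)
      exact ⟨w, hw, ht⟩)
  choose U hUc hUh hUe hUw V hV hVU using fun k => lhm_lift hD (hW k) hr hsub
  obtain ⟨B1, hB1⟩ := (isCompact_closedBall c r).exists_bound_of_continuousOn (hs.1.mono hsub)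
  obtain ⟨B2, hB2⟩ := (isCompact_closedBall c r).exists_bound_of_continuousOn (hM.mono hsub)
  have hUH : ∀ k, ∀ x ∈ ball c r, U k x ≤ H x := fun k x hx =>
    (hVU k x hx).symm.le.trans (hle _ (hV k) x (hbD x hx))
  have hB : ∀ k, ∀ x ∈ ball c r, |U k x| ≤ max B1 B2 := by
    intro k x hx
    have h1 := abs_le.1 (show |s x| ≤ B1 from hB1 x (ball_subset_closedBall hx))
    have h2 := abs_le.1 (show |M x| ≤ B2 from hB2 x (ball_subset_closedBall hx))
    have h3 := (hW k).2.1 x (hbD x hx)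
    have h4 := hUw k x hx
    have h5 := (hV k).2.2 v0 hv0 hsv x (hbD x hx)
    have h6 := hvM x (hbD x hx)
    have h7 := hVU k x hx
    have h8 := le_max_left B1 B2
    have h9 := le_max_right B1 B2
    exact abs_le.2 ⟨by linarith, by linarith⟩
  have hmono : ∀ x ∈ ball c r, Monotone fun k => U k x := fun x hx =>
    monotone_nat_of_le_succ fun k => lhm_cmp (hUc k) (hUh k) (hUc (k + 1)) (hUh (k + 1))
      (fun y hy => by rw [hUe k y hy, hUe (k + 1) y hy]; exact hWm k y) x hx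
  have hbdd : ∀ x ∈ ball c r, BddAbove (Set.range fun k => U k x) := by
    intro x hx
    refine ⟨H x, ?_⟩
    rintro t ⟨k, rfl⟩
    exact hUH k x hx
  have hG : HarmonicOnNhd (fun x => ⨆ k, U k x) (ball c r) :=
    hL c r _ U _ hUh hB fun x hx => tendsto_atTop_ciSup (hmono x hx) (hbdd x hx)
  have hq : ∀ j, TopologicalSpace.denseSeq (E n) j ∈ ball c r →
      H (TopologicalSpace.denseSeq (E n) j) ≤ ⨆ k, U k (TopologicalSpace.denseSeq (E n) j) := by
    intro j hj
    refine le_of_forall_pos_le_add fun ε hε => ?_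
    obtain ⟨k0, hk0⟩ := exists_nat_one_div_lt hε
    have h1 := hWq (max k0 j) j (le_max_right _ _) (hbD _ hj)
    have h2 := hUw (max k0 j) _ hj
    have h3 := le_ciSup (hbdd _ hj) (max k0 j)
    have h4 : 1 / (((max k0 j : ℕ) : ℝ) + 1) ≤ 1 / ((k0 : ℝ) + 1) :=
      Nat.one_div_le_one_div (le_max_left _ _)
    linarith
  have hHG : ∀ x ∈ ball c r, H x = ⨆ k, U k x := by
    intro x hx
    refine le_antisymm (hub x _ fun w hw => ?_) (ciSup_le fun k => hUH k x hx)
    obtain ⟨U', -, hU'h, -, hU'w, V', hV', hV'U⟩ := lhm_lift hD hw hr hsub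
    refine (hU'w x hx).trans (not_lt.1 fun hlt => ?_)
    have h1 : ∀ᶠ y in 𝓝 x, (⨆ k, U k y) < U' y :=
      (hG x hx).1.continuousAt.eventually_lt (hU'h x hx).1.continuousAt hlt
    obtain ⟨j, hj1, hj2⟩ := (TopologicalSpace.denseRange_denseSeq (E n)).mem_nhds
      (h1.and (isOpen_ball.mem_nhds hx))
    have h2 := hq j hj2
    have h3 := hle _ hV' _ (hbD _ hj2)
    have h4 := hV'U _ hj2
    linarith
  refine (harmonicAt_congr_nhds ?_).2 (hG c (mem_ball_self hr))
  filter_upwards [ball_mem_nhds c hr] with y hy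
  exact hHG y hy

end Pool.Agent.P.MP_677f70_an.Ga
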