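import Pool.Agent.P.MP_677f70_an.GaDefs
import Pool.Agent.P.MP_a2f83a_an.SdSmooth

set_option autoImplicit false

open InnerProductSpace Metric Filter Topology MeasureTheory Laplacian
open scoped Convolution

namespace Pool.Agent.P.MP_677f70_an.Ga

open Pool.Agent.P.MP_a2f83a_an

theorem lim_cut {n : ℕ} {u : E n → ℝ} {c : E n} {R ρ : ℝ} (h0 : 0 < ρ) (hR : ρ < R)
    (hu : ∀ x ∈ ball c R, ContDiffAt ℝ 2 u x) :
    ∃ U : E n → ℝ, ContDiff ℝ 2 U ∧ ∀ x ∈ ball c ρ, U =ᶠ[𝓝 x] u := by
  let χ : ContDiffBump c := ⟨ρ, (ρ + R) / 2, h0, by linarith⟩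
  refine ⟨fun x => χ x * u x, contDiff_iff_contDiffAt.2 fun x => ?_, fun x hx => ?_⟩
  · by_cases hx : x ∈ ball c R
    · exact (χ.contDiffAt (n := 2)).mul (hu x hx)
    · have h1 : x ∉ tsupport χ := by
        rw [χ.tsupport_eq]
        intro h
        exact hx (closedBall_subset_ball (show (ρ + R) / 2 < R by linarith) h)
      refine (contDiffAt_const (c := (0 : ℝ))).congr_of_eventuallyEq ?_
      filter_upwards [notMem_tsupport_iff_eventuallyEq.1 h1] with y hy
      simp [hy]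
  · filter_upwards [χ.eventuallyEq_one_of_mem_ball hx] with y hy
    simp [hy]

/-- the mean value property as a convolution -/
theorem lim_mean {n : ℕ} {u : E n → ℝ} {x y : E n} {δ : ℝ} (hδ : 0 < δ)
    (hu : HarmonicOnNhd u (ball x (3 * δ))) (hy : y ∈ ball x δ) :
    ((ball x (2 * δ)).indicator u ⋆[ContinuousLinearMap.mul ℝ ℝ, volume]
      fun z => Sd.wt δ (‖z‖ ^ 2)) y = (∫ z : E n, Sd.wt δ (‖z‖ ^ 2)) * u y := by
  obtain ⟨U, hU, hUu⟩ := lim_cut (u := u) (c := x) (ρ := 2 * δ) (R := 3 * δ)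
    (by linarith) (by linarith) fun z hz => (hu z hz).1
  have hb : ball y δ ⊆ ball x (2 * δ) := ball_subset_ball' (by linarith [mem_ball.1 hy])
  have h1 := Sd.mean_value (m := n + 1) hU hδ (c := y) (fun z hz => Sd.lap_cut
    (hu z (ball_subset_ball (by linarith) (hb hz))) (hUu z (hb hz)))
    (Sd.wt_smooth δ 0).continuous (Sd.wt_zero δ)
  rw [(hUu y (hb (mem_ball_self hδ))).eq_of_nhds] at h1
  rw [convolution_mul, ← integral_add_left_eq_self _ y, mul_comm _ (u y), ← h1]
  refine integral_congr_ae (Eventually.of_forall fun z => ?_)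
  simp only [sub_add_cancel_left, norm_neg]
  rcases lt_or_ge ‖z‖ δ with h | h
  · have h2 : y + z ∈ ball x (2 * δ) := hb (by simpa using h)
    rw [Set.indicator_of_mem h2, (hUu _ h2).eq_of_nhds]
  · rw [Sd.wt_zero δ _ (by gcongr), mul_zero, mul_zero]

theorem lim_pd {n : ℕ} {F w : E n → ℝ} (hF : LocallyIntegrable F volume) (hw : ContDiff ℝ 1 w)
    (hc : HasCompactSupport w) (i : Fin (n + 2)) :
    Sd.pd i (F ⋆[ContinuousLinearMap.mul ℝ ℝ, volume] w) =
      F ⋆[ContinuousLinearMap.mul ℝ ℝ, volume] Sd.pd i w := by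
  funext y
  unfold Sd.pd
  rw [(hc.hasFDerivAt_convolution_right _ hF hw y).fderiv,
    convolution_precompR_apply _ hF (hc.fderiv ℝ) (hw.continuous_fderiv one_ne_zero)]

theorem lim_lap {n : ℕ} {F w : E n → ℝ} (hF : LocallyIntegrable F volume) (hw : ContDiff ℝ 2 w)
    (hc : HasCompactSupport w) (y : E n) :
    Δ (F ⋆[ContinuousLinearMap.mul ℝ ℝ, volume] w) y =
      ∑ i, (F ⋆[ContinuousLinearMap.mul ℝ ℝ, volume] Sd.pd i (Sd.pd i w)) y := by
  rw [Sd.lap_eq_pd (hc.contDiff_convolution_right (n := 2) _ hF hw)]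
  refine Finset.sum_congr rfl fun i _ => ?_
  rw [lim_pd hF (hw.of_le (by norm_num)) hc, lim_pd hF (Sd.pd_contDiff i hw)]
  exact hc.fderiv_apply (𝕜 := ℝ) _

theorem lim_tend {n : ℕ} {F : ℕ → E n → ℝ} {G w : E n → ℝ} {B : ℝ}
    (hm : ∀ k, AEStronglyMeasurable (F k) volume) (hB : ∀ k t, |F k t| ≤ B)
    (hl : ∀ t, Tendsto (fun k => F k t) atTop (𝓝 (G t))) (hw : Continuous w)
    (hc : HasCompactSupport w) (y : E n) :
    Tendsto (fun k => (F k ⋆[ContinuousLinearMap.mul ℝ ℝ, volume] w) y) atTop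
      (𝓝 ((G ⋆[ContinuousLinearMap.mul ℝ ℝ, volume] w) y)) := by
  simp only [convolution_mul]
  have hi : Integrable fun t => w (y - t) :=
    (hw.integrable_of_hasCompactSupport hc).comp_sub_left y
  refine tendsto_integral_of_dominated_convergence (fun t => B * |w (y - t)|)
    (fun k => (hm k).mul hi.1) (hi.abs.const_mul B) (fun k => Eventually.of_forall fun t => ?_)
    (Eventually.of_forall fun t => (hl t).mul_const _)
  rw [norm_mul, Real.norm_eq_abs, Real.norm_eq_abs]
  exact mul_le_mul_of_nonneg_right (hB k t) (abs_nonneg _)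

theorem lim_loc {n : ℕ} {F : E n → ℝ} {B : ℝ} (hm : AEStronglyMeasurable F volume)
    (hB : ∀ t, |F t| ≤ B) : LocallyIntegrable F volume :=
  (locallyIntegrable_const B).mono hm
    (Eventually.of_forall fun t => (hB t).trans (le_abs_self B))

theorem lim (n : ℕ) : LIM n := by
  intro c R B f g hf hB hl x hx
  obtain ⟨δ, hδ, hs⟩ : ∃ δ : ℝ, 0 < δ ∧ ball x (3 * δ) ⊆ ball c R :=
    ⟨(R - dist x c) / 3, by linarith [mem_ball.1 hx], ball_subset_ball' (by linarith)⟩
  have hs2 : ball x (2 * δ) ⊆ ball c R := (ball_subset_ball (by linarith)).trans hs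
  have hB0 : 0 ≤ B := (abs_nonneg _).trans (hB 0 x hx)
  set F : ℕ → E n → ℝ := fun k => (ball x (2 * δ)).indicator (f k) with hF
  set G : E n → ℝ := (ball x (2 * δ)).indicator g with hG
  have mF : ∀ k, AEStronglyMeasurable (F k) volume := fun k =>
    (aestronglyMeasurable_indicator_iff measurableSet_ball).2
      (((hf k).mono hs2).continuousOn.aestronglyMeasurable measurableSet_ball)
  have bF : ∀ k t, |F k t| ≤ B := fun k t => by
    by_cases h : t ∈ ball x (2 * δ)
    · simp only [hF, Set.indicator_of_mem h]; exact hB k t (hs2 h)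
    · simp only [hF, Set.indicator_of_notMem h, abs_zero]; exact hB0
  have lF : ∀ t, Tendsto (fun k => F k t) atTop (𝓝 (G t)) := fun t => by
    by_cases h : t ∈ ball x (2 * δ)
    · simp only [hF, hG, Set.indicator_of_mem h]; exact hl t (hs2 h)
    · simp only [hF, hG, Set.indicator_of_notMem h]; exact tendsto_const_nhds
  have mG : AEStronglyMeasurable G volume :=
    aestronglyMeasurable_of_tendsto_ae atTop mF (Eventually.of_forall lF)
  have bG : ∀ t, |G t| ≤ B := fun t => le_of_tendsto' (lF t).abs fun k => bF k t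
  set w : E n → ℝ := fun z => Sd.wt δ (‖z‖ ^ 2) with hw
  have ws : ContDiff ℝ 2 w := (Sd.wt_smooth δ 2).comp (contDiff_norm_sq ℝ)
  have wc : HasCompactSupport w := by
    simpa using Sd.supp_weight hδ (Sd.wt_zero δ) fun _ : E n => (1 : ℝ)
  set K := ∫ z : E n, Sd.wt δ (‖z‖ ^ 2) with hK
  have hK0 : 0 < K := Sd.wt_int_pos hδ
  have eF : ∀ k, ∀ y ∈ ball x δ, (F k ⋆[ContinuousLinearMap.mul ℝ ℝ, volume] w) y = K * f k y :=
    fun k y hy => lim_mean hδ ((hf k).mono hs) hy
  have hs1 : ball x δ ⊆ ball c R := (ball_subset_ball (by linarith)).trans hs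
  have eG : ∀ y ∈ ball x δ, (G ⋆[ContinuousLinearMap.mul ℝ ℝ, volume] w) y = K * g y := by
    intro y hy
    have h1 := lim_tend mF bF lF ws.continuous wc y
    simp only [eF _ y hy] at h1
    exact tendsto_nhds_unique h1 ((hl y (hs1 hy)).const_mul K)
  have hH : HarmonicAt (G ⋆[ContinuousLinearMap.mul ℝ ℝ, volume] w) x := by
    refine ⟨(wc.contDiff_convolution_right (n := 2) _ (lim_loc mG bG) ws).contDiffAt, ?_⟩
    filter_upwards [ball_mem_nhds x hδ] with y hy
    have h0 : ∀ k, Δ (F k ⋆[ContinuousLinearMap.mul ℝ ℝ, volume] w) y = 0 := fun k => by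
      refine Sd.lap_cut ((hf k y (hs1 hy)).const_smul (c := K)) ?_
      filter_upwards [isOpen_ball.mem_nhds hy] with z hz using eF k z hz
    have h1 := tendsto_finsetSum (Finset.univ : Finset (Fin (n + 2))) fun i _ =>
      lim_tend mF bF lF (w := Sd.pd i (Sd.pd i w))
        (((Sd.pd_contDiff i ws).continuous_fderiv one_ne_zero).clm_apply continuous_const)
        ((wc.fderiv_apply (𝕜 := ℝ) _).fderiv_apply (𝕜 := ℝ) _) y
    simp only [← lim_lap (lim_loc (mF _) (bF _)) ws wc, h0] at h1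
    rw [lim_lap (lim_loc mG bG) ws wc]
    exact tendsto_nhds_unique h1 tendsto_const_nhds
  refine (harmonicAt_congr_nhds ?_).1 (hH.const_smul (c := K⁻¹))
  filter_upwards [ball_mem_nhds x hδ] with y hy
  rw [Pi.smul_apply, eG y hy, smul_eq_mul, inv_mul_cancel_left₀ hK0.ne']

end Pool.Agent.P.MP_677f70_an.Ga
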