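import Pool.Agent.P.MP_677f70_an.GxBar

set_option autoImplicit false

open InnerProductSpace Filter Pool.Agent.P.MP_677f70_an.Sh

namespace Pool.Agent.P.MP_677f70_an.Gx

variable {p : Par} {n : ℕ}

theorem no_re_le (κ : ℝ) (hκ : 0 ≤ κ) (s w : ℂ) :
    -κ * (Complex.exp s * w).re ≤ -(κ * ((Complex.exp s).re * w.re))
      + κ * (Real.exp s.re * |w.im|) := by
  have h1 : (Complex.exp s).im * w.im ≤ Real.exp s.re * |w.im| := by
    refine (le_abs_self _).trans ?_
    rw [abs_mul, ← Complex.norm_exp]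
    exact mul_le_mul_of_nonneg_right (Complex.abs_im_le_norm _) (abs_nonneg _)
  have h2 := mul_le_mul_of_nonneg_left h1 hκ
  rw [Complex.mul_re]
  linarith

theorem no_small {K U σ θ : ℝ} (hK : 0 ≤ K) (hU : 1000 ≤ U) (hKU : 6 * K ≤ U) (hσ : σ ≤ U / 6)
    (hθ : θ ≤ Real.exp (σ - U / 2)) : 4 * K / U * (Real.exp σ * θ) ≤ 1 := by
  have h1 : 4 * K / U ≤ 1 := by rw [div_le_one (by linarith)]; linarith
  have h2 : Real.exp σ * θ ≤ 1 := by
    refine (mul_le_mul_of_nonneg_left hθ (Real.exp_pos σ).le).trans ?_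
    rw [← Real.exp_add]
    exact Real.exp_le_one_iff.2 (by linarith)
  have h3 : 0 ≤ 4 * K / U := by positivity
  exact (mul_le_mul_of_nonneg_left h2 h3).trans (by linarith)

/-- the first coordinate over the lateral sides -/
theorem no_side (h : Gd p) {T : ℝ} {s : ℂ} {x : E n} (c : Cl p T s x)
    (ht : |s.im| = Real.pi / 2) : 10 * (Real.exp s.re * G1 p s) ≤ |x 0| := by
  have h1 : x 0 = (Phi p s).re := by rw [c.eq, pl_re]
  have h2 : Real.cos s.im = 0 := by rw [← Real.cos_abs, ht, Real.cos_pi_div_two]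
  have h3 : |Real.sin s.im| = 1 := by
    have := Real.sin_sq_add_cos_sq s.im
    rw [h2] at this
    have h4 : |Real.sin s.im| ^ 2 = 1 ^ 2 := by rw [sq_abs]; linarith
    exact (pow_left_inj₀ (abs_nonneg _) zero_le_one two_ne_zero).1 h4
  have h5 := (gg_im h c.st).1
  have h6 := G1_nonneg h c.st
  rw [h1, Phi_re, h2, zero_mul, zero_sub, abs_mul, abs_neg, abs_mul, h3, one_mul,
    abs_of_pos (Real.exp_pos _), abs_of_nonneg (by linarith)]
  have := mul_le_mul_of_nonneg_left h5 (Real.exp_pos s.re).le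
  linarith

theorem no_big (h : Gd p) {s : ℂ} (hs : St p s) :
    Real.exp (s.re / 2) ≤ Real.exp s.re * G1 p s := by
  have b1 := exp_ge (t := s.re / 2) (by linarith [hs.ge h])
  have b2 := G1_ge h hs
  have h4 := G1_nonneg h hs
  have b3 : Real.exp s.re = Real.exp (s.re / 2) * Real.exp (s.re / 2) := by
    rw [← Real.exp_add]; ring_nf
  have b4 := Real.exp_pos (s.re / 2)
  have b5 : 1 ≤ Real.exp (s.re / 2) * G1 p s := by
    have := mul_le_mul_of_nonneg_right b1 h4
    linarith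
  have b6 := mul_le_mul_of_nonneg_left b5 b4.le
  rw [b3]
  linarith

theorem no_lat (h : Gd p) {s : ℂ} (hs : St p s) (ht : |s.im| ≤ Real.pi / 2) {K N ε : ℝ} {k : ℕ}
    (hK : 0 ≤ K) (hN : 0 ≤ N) (hb : ε * p.u k ^ 2 ≤ p.b k) (hKN : 10000 * K ≤ ε * N) :
    4 * K / p.u k * |(Lb (p.u k) s).im| ≤ 9 * N * G1 p s := by
  have hU := h.ge k
  have hσ := hs.pos h
  obtain ⟨a1, -, a3, -⟩ := Lb_facts (U := p.u k) (by linarith) ht
  have h1 := arg_cube hU hσ.le (abs_nonneg _) a1 a3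
  have h2 : p.b k / ‖s + p.u k‖ ^ 3 ≤ G1 p s := h.okT.succ.term_le_N hσ k
  have h3 := h.okT.npos hσ k
  have h4 : ‖s + p.u k‖ ^ 3 ≤ (s.re + p.u k + 2) ^ 3 :=
    pow_le_pow_left₀ h3.le (nrm_le s (p.u k) (by linarith) hs.im) 3
  have h5 := G1_nonneg h hs
  have h6 : p.b k ≤ G1 p s * (s.re + p.u k + 2) ^ 3 := by
    rw [div_le_iff₀ (by positivity)] at h2
    exact h2.trans (mul_le_mul_of_nonneg_left h4 h5)
  obtain ⟨Q, hQ⟩ : ∃ Q, Q = (s.re + p.u k + 2) ^ 3 := ⟨_, rfl⟩
  have hQ0 : 0 < Q := by rw [hQ]; positivity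
  rw [← hQ] at h1 h6
  refine le_of_mul_le_mul_right ?_ hQ0
  have h7 : 4 * K / p.u k * (|(Lb (p.u k) s).im| * Q) ≤ 4 * K / p.u k * (729 * p.u k ^ 3) :=
    mul_le_mul_of_nonneg_left h1 (by positivity)
  have h8 : 4 * K / p.u k * (729 * p.u k ^ 3) = 2916 * (K * p.u k ^ 2) := by
    field_simp
    ring
  have h9 := mul_le_mul_of_nonneg_left (hb.trans h6) hN
  have h10 := mul_le_mul_of_nonneg_right hKN (sq_nonneg (p.u k))
  have h11 : 0 ≤ K * p.u k ^ 2 := by positivity
  nlinarith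

theorem no_major (h : Gd p) {ψ : ℝ → ℝ} (hm : MonotoneOn ψ (Set.Ici 0)) (h0 : ∀ t, 0 ≤ ψ t)
    {e : ℕ → ℝ} (hb : ∀ k, e k * p.u k ^ 2 ≤ p.b k)
    (hfr : ∀ A : ℝ, ∃ k, A ≤ p.u k ∧ A ≤ e k * ψ (Real.exp (p.u k / 12))) :
    ¬ ∃ H : E n → ℝ, HarmonicOnNhd H (Dn p n) ∧ ∀ x ∈ Dn p n, |x 0| * ψ |x 0| ≤ H x := by
  rintro ⟨H, hH, hH'⟩
  obtain ⟨G, hG, hG'⟩ := major_norm (n := n) h
  have hu0 := h.ge 0
  obtain ⟨x0, hx0⟩ : ∃ x0 : E n, Phi p (p.u 0 + 1 + 2 : ℝ) = pl 0 1 x0 :=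
    ⟨put n _ 0, (pl_put _ _).symm⟩
  obtain ⟨K, hK⟩ : ∃ K, K = |H x0 + G x0| + 3 := ⟨_, rfl⟩
  have hK0 : 0 ≤ K := by rw [hK]; positivity
  obtain ⟨k, hk1, hk2⟩ := hfr (10000 * K + 6 * (p.u 0 + 3))
  obtain ⟨U, hU⟩ : ∃ U, U = p.u k := ⟨_, rfl⟩
  obtain ⟨t, ht⟩ : ∃ t, t = Real.exp (U / 12) := ⟨_, rfl⟩
  obtain ⟨N, hN⟩ : ∃ N, N = ψ t := ⟨_, rfl⟩
  rw [← hU, ← ht, ← hN] at hk2
  rw [← hU] at hk1
  have hN0 : 0 ≤ N := by rw [hN]; exact h0 t
  have ht0 : 0 < t := by rw [ht]; exact Real.exp_pos _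
  have hU1 : 1000 ≤ U := by linarith
  obtain ⟨κ, hκ⟩ : ∃ κ, κ = 4 * K / U := ⟨_, rfl⟩
  have hκ0 : 0 ≤ κ := by rw [hκ]; positivity
  have hκK : κ ≤ K := by
    rw [hκ, div_le_iff₀ (by linarith)]
    nlinarith
  have hEU : 0 ≤ K * Real.exp U := by positivity
  obtain ⟨T, hT⟩ : ∃ T, T = K * Real.exp U + U + p.u 0 + 4 := ⟨_, rfl⟩
  have hw : ∀ s x, Cl p T s x → -κ * lift p n (fun s => Complex.exp s * Lb U s) x ≤
      -(κ * ((Complex.exp s).re * (Lb U s).re)) + κ * (Real.exp s.re * |(Lb U s).im|) := by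
    intro s x c
    rw [lift_eq h c.so c.eq]
    exact no_re_le κ hκ0 s _
  have hp : ∀ s : ℂ, |s.im| ≤ Real.pi / 2 → 0 ≤ κ * ((Complex.exp s).re * (Lb U s).re) :=
    fun s hs => mul_nonneg hκ0 (mul_nonneg (exp_re_bounds hs).1
      (Lb_facts (U := U) (by linarith) hs).2.2.2.1)
  have hM0 : ∀ x : E n, 0 ≤ N * max (|x 0| - t) 0 :=
    fun x => mul_nonneg hN0 (le_max_right _ _)
  have key := test (n := n) h (T := T) (K := K) (B := 2 * K * Real.exp T) (by linarith) hK0
    (by positivity) (H := fun x => H x + G x)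
    (w := fun x => -κ * lift p n (fun s => Complex.exp s * Lb U s) x - 1)
    (M := fun x => N * max (|x 0| - t) 0 + ‖pl 0 1 x‖) (fun x hx => (hH x hx).add (hG x hx))
    ?_ (by fun_prop) ?_ ?_ ?_ ?_ hx0
  · have hs0 := real_mem_sd (p := p) (t := p.u 0 + 1 + 2) (by linarith)
    have a1 := (Lb_facts (U := U) (by linarith) hs0.2.le).2.2.2.2.1
    rw [Complex.ofReal_re] at a1
    have a2 := no_small hK0 hU1 (by linarith) (by linarith) a1
    simp only [lift_eq h (sd_sub hs0) hx0] at key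
    rw [exp_mul_re, Complex.ofReal_re, Complex.ofReal_im, Real.cos_zero, Real.sin_zero, one_mul,
      zero_mul, sub_zero] at key
    rw [← hκ] at a2
    linarith [le_abs_self (H x0 + G x0)]
  · intro s x c
    exact (harmonicAt_mul _ (harm_lift h c.so c.eq
      (analyticAt_cexp.mul (Lb_an (by linarith) c.im)))).sub (harmonicAt_const 1)
  · intro x hx
    have a1 := hH' x hx
    have a2 := (norm_pl_le x).trans (hG' x hx)
    have a3 : N * max (|x 0| - t) 0 ≤ |x 0| * ψ |x 0| := by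
      rcases le_total |x 0| t with a | a
      · rw [max_eq_right (by linarith), mul_zero]
        exact mul_nonneg (abs_nonneg _) (h0 _)
      · rw [max_eq_left (by linarith), mul_comm]
        exact mul_le_mul (by linarith) (by rw [hN]; exact hm ht0.le (abs_nonneg (x 0)) a) hN0
          (abs_nonneg _)
    linarith
  · intro s x c
    have a1 := hw s x c
    have a2 := hp s c.im
    have a3 := hM0 x
    have a4 : Real.exp s.re * |(Lb U s).im| ≤ Real.exp T * 2 :=
      mul_le_mul (Real.exp_le_exp.2 c.hi) (Lb_facts (U := U) (by linarith) c.im).1 (abs_nonneg _)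
        (Real.exp_pos _).le
    have a5 := mul_le_mul hκK a4 (by positivity) hK0
    have a6 : 0 ≤ 2 * K * Real.exp T * ‖x‖ := by positivity
    linarith [norm_nonneg (pl 0 1 x)]
  · intro s x c hc
    have a1 := hw s x c
    have a2 := hp s c.im
    have a3 := hM0 x
    have a4 := mul_nonneg hK0 (exp_re_bounds c.im).1
    have a5 := norm_nonneg (pl 0 1 x)
    rcases le_total s.re (U / 6) with a | a
    · have a6 := no_small hK0 hU1 (by linarith) a (Lb_facts (U := U) (by linarith) c.im).2.1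
      rw [← hκ] at a6
      linarith
    · rcases hc with hc | hc
      · have a6 := no_small hK0 hU1 (by linarith) (by linarith : s.re ≤ U / 6)
          (Lb_facts (U := U) (by linarith) c.im).2.1
        rw [← hκ] at a6
        linarith
      · have b1 := no_side h c hc
        have b2 := no_big h c.st
        have b3 : t ≤ Real.exp (s.re / 2) := by rw [ht]; exact Real.exp_le_exp.2 (by linarith)
        have b4 : 9 * (Real.exp s.re * G1 p s) ≤ max (|x 0| - t) 0 :=
          le_trans (by linarith) (le_max_left _ _)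
        have b5 := mul_le_mul_of_nonneg_left b4 hN0
        have b6 := no_lat h c.st c.im hK0 hN0 (hb k) (by linarith)
        rw [← hU, ← hκ] at b6
        have b7 := mul_le_mul_of_nonneg_left b6 (Real.exp_pos s.re).le
        linarith
  · intro s x c hc
    have a1 := hw s x c
    have a3 := hM0 x
    obtain ⟨-, -, b1, -, -, b2⟩ := Lb_facts (U := U) (by linarith) c.im
    have b3 := mul_le_mul_of_nonneg_left (b2 (by linarith)) (exp_re_bounds c.im).1
    have b4 := mul_le_mul_of_nonneg_left b3 hκ0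
    have b5 : κ * ((Complex.exp s).re * (U / 4)) = K * (Complex.exp s).re := by
      rw [hκ]; field_simp
    have b6 : Real.exp s.re * |(Lb U s).im| ≤ Real.exp U := by
      have e1 : Real.exp s.re = Real.exp U * Real.exp (s.re - U) := by
        rw [← Real.exp_add]; ring_nf
      have := mul_le_mul_of_nonneg_left b1 (Real.exp_pos U).le
      rw [e1]
      linarith
    have b7 := mul_le_mul hκK b6 (by positivity) hK0
    have b8 := re_le_norm_Phi h c.st
    rw [c.eq] at b8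
    linarith

end Pool.Agent.P.MP_677f70_an.Gx
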