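import Pool.Agent.P.MP_677f70_an.GaSeq
import Pool.Agent.P.MP_677f70_an.GxNo

set_option autoImplicit false

open InnerProductSpace Metric Filter Topology

namespace Pool.Agent.P.MP_677f70_an.Ga

theorem neg_uu_ge (k : ℕ) : 1000 ≤ uu k := by
  have h1 : (1 : ℝ) ≤ 2 ^ k := one_le_pow₀ (by norm_num)
  unfold uu
  linarith

theorem neg_scale {σ : ℝ} (h : uu 0 ≤ σ) : ∃ i, uu i ≤ σ ∧ σ ≤ 2 * uu i := by
  have h0 : 1 ≤ σ / 1000 := by
    unfold uu at h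
    rw [le_div_iff₀ (by norm_num)]
    linarith
  obtain ⟨i, h1, h2⟩ := exists_nat_pow_near h0 (by norm_num : (1 : ℝ) < 2)
  rw [le_div_iff₀ (by norm_num)] at h1
  rw [div_lt_iff₀ (by norm_num), pow_succ] at h2
  unfold uu
  exact ⟨i, by linarith, by linarith⟩

theorem neg_unb (A : ℝ) : ∃ k0 : ℕ, ∀ k, k0 ≤ k → A ≤ uu k := by
  obtain ⟨k0, hk⟩ := pow_unbounded_of_one_lt A (by norm_num : (1 : ℝ) < 2)
  refine ⟨k0, fun k h => ?_⟩
  have h1 : (2 : ℝ) ^ k0 ≤ 2 ^ k := pow_le_pow_right₀ (by norm_num) h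
  have h2 : (0 : ℝ) < 2 ^ k := by positivity
  unfold uu
  linarith

theorem neg_half {p : Gx.Par} (h : Gx.Gd p) {s : ℂ} (hs : Gx.St p s) :
    Real.exp (s.re / 2) ≤ ‖Gx.Phi p s‖ := by
  have h1 := Gx.gg_norm_ge h hs
  have h2 := Gx.G0_ge h hs
  have h3 := hs.ge h
  have h4 := Sh.exp_ge (t := s.re / 2) (by linarith)
  have h5 := Gx.G0_pos h hs
  have e : Real.exp s.re = Real.exp (s.re / 2) * Real.exp (s.re / 2) := by
    rw [← Real.exp_add]; congr 1; ring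
  have h6 : 2 * s.re ^ 2 ≤ Real.exp (s.re / 2) := by
    have : 0 < s.re ^ 2 := by positivity
    nlinarith
  have h7 := mul_le_mul_of_nonneg_right h6 h5.le
  have h8 := mul_le_mul_of_nonneg_left h1 (Real.exp_pos (s.re / 2)).le
  have h9 : 1 ≤ Real.exp (s.re / 2) * ‖Gx.gg p s‖ := by linarith
  have h10 := mul_le_mul_of_nonneg_left h9 (Real.exp_pos (s.re / 2)).le
  rw [Gx.norm_Phi, e]
  linarith

theorem neg (n : ℕ) {φ ψ : ℝ → ℝ} (hφ : Monotone φ) (h1 : ∀ t, 1 ≤ φ t) (hψ : Monotone ψ)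
    (h0 : ∀ t, 0 ≤ ψ t) (hN : ∀ A : ℝ, ∃ k, A * Lam φ k < ψ (Real.exp (uu k / 12))) :
    ∃ D : Set (E n), IsOpen D ∧ IsConnected D ∧
      (∃ h : E n → ℝ, HarmonicOnNhd h D ∧ ∀ x ∈ D, ‖x‖ ≤ h x) ∧
      (∃ Ψ : E n → ℝ, HarmonicOnNhd Ψ D ∧
        ∀ x ∈ D, |x 0| ≤ Ψ x ∧ Ψ x ≤ 238 * (‖x‖ * φ ‖x‖)) ∧
      ¬ ∃ H : E n → ℝ, HarmonicOnNhd H D ∧ ∀ x ∈ D, |x 0| * ψ |x 0| ≤ H x := by
  obtain ⟨e, a, he, ha, hsum, hm, hk⟩ :=
    seq hφ h1 (N := fun k => ψ (Real.exp (uu k / 12))) hN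
  have hu := neg_uu_ge
  have heu : ∀ k, 0 ≤ e k * uu k := fun k => mul_nonneg (he k) (by linarith [hu k])
  have heu2 : ∀ k, 0 ≤ e k * uu k ^ 2 := fun k => mul_nonneg (he k) (sq_nonneg _)
  have ha0 : ∀ k, 0 ≤ a k := fun k => by linarith [ha k, heu k]
  obtain ⟨p, hp⟩ : ∃ p : Gx.Par, p = ⟨uu, a, fun k => a k + e k * uu k ^ 2⟩ := ⟨_, rfl⟩
  have pu : p.u = uu := by rw [hp]
  have pa : p.a = a := by rw [hp]
  have pb : ∀ k, p.b k = a k + e k * uu k ^ 2 := fun k => by rw [hp]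
  have h : Gx.Gd p := by
    refine ⟨fun k => ?_, fun k => ?_, fun k => ?_, ?_, ?_, fun k => ?_⟩
    · rw [pu]; exact hu k
    · rw [pa]; exact ha0 k
    · rw [pa, pb]; linarith [heu2 k]
    · rw [pa]; linarith [ha 0, heu 0]
    · rw [pa, pu]; exact hsum
    · rw [pa, pb, pu]
      have := mul_le_mul_of_nonneg_right (ha k) (by linarith [hu k] : 0 ≤ uu k)
      nlinarith [hu k]
  have ok : Sh.Ok uu (fun k => e k * uu k ^ 2) 2 := by
    refine ⟨heu2, fun k => by linarith [hu k], ?_⟩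
    have h2 := h.okT.sm
    rw [pu] at h2
    refine h2.of_nonneg_of_le (fun k => div_nonneg (heu2 k) (sq_nonneg _)) fun k => ?_
    rw [pb]
    exact div_le_div_of_nonneg_right (by linarith [ha0 k]) (sq_nonneg _)
  refine ⟨Gx.Dn p n, Gx.isOpen_dn h, Gx.isConnected_dn h, Gx.major_norm h,
    ⟨fun x => 12 * Gx.lift p n (fun s => Complex.exp s * Sh.Pm p.u p.b 2 s) x, ?_, ?_⟩,
    Gx.no_major h (hψ.monotoneOn _) h0 (e := e) (fun k => ?_) fun A => ?_⟩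
  · rintro x ⟨s, hs, hx⟩
    exact harmonicAt_mul _ (Gx.harm_lift h (Gx.sd_sub hs) hx
      (analyticAt_cexp.mul (h.okT.analyticAt ((Gx.st_of_so (Gx.sd_sub hs)).pos h))))
  · rintro x ⟨s, hs, hx⟩
    have hS := Gx.st_of_so (Gx.sd_sub hs)
    have hσ := hS.pos h
    simp only []
    rw [Gx.lift_eq h (Gx.sd_sub hs) hx]
    constructor
    · have := Gx.E2 h hS hs.2.le
      rwa [hx, pl_re] at this
    obtain ⟨i, i1, i2⟩ := neg_scale (σ := s.re) (by rw [← pu]; exact hS.re)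
    have hG := Gx.G0_pos h hS
    have hE := Real.exp_pos s.re
    have hui := hu i
    -- splitting the series
    have a1 : Gx.T0 p s = Gx.G0 p s + Sh.Nm uu (fun k => e k * uu k ^ 2) 2 s := by
      refine (h.okT.sumN hσ).unique ?_
      have b1 := (h.okA.succ.sumN hσ).add (ok.sumN hσ)
      have b2 : (fun k => p.b k / ‖s + p.u k‖ ^ 2) = fun k =>
          p.a k / ‖s + p.u k‖ ^ (1 + 1) + e k * uu k ^ 2 / ‖s + uu k‖ ^ 2 := by
        ext k
        rw [pb, pa, pu, add_div]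
      rw [b2]
      exact b1
    have a2 : a i / uu i ^ 2 ≤ 16 * Gx.G0 p s := by
      have b1 := h.okA.succ.term_le_N hσ i
      have b2 := Sh.nrm_le s (p.u i) (by rw [pu]; linarith) hS.im
      have b3 := h.okT.npos hσ i
      rw [pu] at b2 b3
      have b4 : ‖s + uu i‖ ^ 2 ≤ (4 * uu i) ^ 2 := pow_le_pow_left₀ b3.le (by linarith) 2
      have b5 : a i / (4 * uu i) ^ 2 ≤ a i / ‖s + uu i‖ ^ 2 :=
        div_le_div_of_nonneg_left (ha0 i) (by positivity) b4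
      have b6 : a i / uu i ^ 2 = 16 * (a i / (4 * uu i) ^ 2) := by field_simp; ring
      have b7 : a i / ‖s + uu i‖ ^ 2 ≤ Gx.G0 p s := by
        rw [← pa, ← pu]; exact b1
      linarith
    have a3 : ‖Gx.Phi p s‖ ≤ ‖x‖ := by rw [hx]; exact Sh.norm_pl_le x
    have a4 : φ (Real.exp (uu i / 2)) ≤ φ ‖x‖ :=
      hφ ((Real.exp_le_exp.2 (by linarith)).trans ((neg_half h hS).trans a3))
    have a5 := h1 ‖x‖
    have a6 : Gx.T0 p s ≤ 17 * (Gx.G0 p s * φ ‖x‖) := by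
      have b1 := (hm i s i1).trans (mul_le_mul a2 a4 (by linarith [h1 (Real.exp (uu i / 2))])
        (by positivity))
      have b2 := mul_le_mul_of_nonneg_left a5 hG.le
      linarith
    have a7 : (Complex.exp s * Sh.Pm p.u p.b 2 s).re ≤ Real.exp s.re * Gx.T0 p s := by
      refine (Complex.re_le_norm _).trans ?_
      rw [norm_mul, Complex.norm_exp]
      exact mul_le_mul_of_nonneg_left (h.okT.norm_le hσ) hE.le
    have a8 : Real.exp s.re * (88 / 100 * Gx.G0 p s) ≤ ‖x‖ := by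
      refine le_trans ?_ a3
      rw [Gx.norm_Phi]
      exact mul_le_mul_of_nonneg_left (Gx.gg_norm_ge h hS) hE.le
    have a9 := mul_le_mul_of_nonneg_left a6 hE.le
    have a10 := mul_le_mul_of_nonneg_right a8 (by linarith : 0 ≤ φ ‖x‖)
    have a11 : 0 ≤ ‖x‖ * φ ‖x‖ := mul_nonneg (norm_nonneg _) (by linarith)
    linarith
  · rw [pb, pu]; linarith [ha0 k]
  · obtain ⟨k0, hk0⟩ := neg_unb A
    obtain ⟨k, k1, k2⟩ := hk A k0
    rw [pu]
    exact ⟨k, hk0 k k1, k2⟩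

end Pool.Agent.P.MP_677f70_an.Ga
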