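import Pool.Agent.P.MP_677f70_an.GaLim
import Pool.Agent.P.MP_677f70_an.GaDir
import Pool.Agent.P.MP_677f70_an.GaLhm
import Pool.Agent.P.MP_677f70_an.GaFin
import Pool.Agent.P.MP_677f70_an.GaInt
import Pool.Agent.P.MP_677f70_an.GaNeg

set_option autoImplicit false

open InnerProductSpace Metric Filter Topology

namespace Pool.Agent.P.MP_677f70_an.Ga

theorem uK_nonneg {φ : ℝ → ℝ} (h1 : ∀ t, 1 ≤ φ t) (K : ℕ) (y : ℝ) : 0 ≤ uK φ K y :=
  Finset.sum_nonneg fun k _ => mul_nonneg (by have := h1 (4 ^ k); positivity) (le_max_right _ _)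

/-- the positive half, on any open set -/
theorem gain (n : ℕ) {φ ψ : ℝ → ℝ} (hφ : Monotone φ) (h1 : ∀ t, 1 ≤ φ t) (hψ : Monotone ψ)
    (h0 : ∀ t, 0 ≤ ψ t) {A : ℝ} (hA : ∀ t, 1 ≤ t → ψ t ≤ A * (1 + II φ t))
    {D : Set (E n)} (hO : IsOpen D) {h Ψ : E n → ℝ} (hh : HarmonicOnNhd h D)
    (hn : ∀ x ∈ D, ‖x‖ ≤ h x) (hΨ : HarmonicOnNhd Ψ D) (hb0 : ∀ x ∈ D, |x 0| ≤ Ψ x)
    {C R : ℝ} (hb : ∀ x ∈ D, R ≤ ‖x‖ → Ψ x ≤ C * (‖x‖ * φ ‖x‖)) :
    ∃ H : E n → ℝ, HarmonicOnNhd H D ∧ ∀ x ∈ D, |x 0| * ψ |x 0| ≤ H x := by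
  obtain ⟨L, hL, hLu⟩ := pos (lim n) (dir n (lim n)) (lhm n (lim n) (dir n (lim n))) h1 hO hh hn
    hΨ hb0 hb
  refine ⟨fun x => ψ 1 + (3 * |A| * h x + 4 * |A| * L x), fun x hx =>
    (harmonicAt_const (ψ 1)).add ((harmonicAt_mul _ (hh x hx)).add (harmonicAt_mul _ (hL x hx))),
    fun x hx => ?_⟩
  have hA0 := abs_nonneg A
  have hy : |x 0| ≤ h x := (PiLp.norm_apply_le x 0).trans (hn x hx)
  have hy0 := abs_nonneg (x 0)
  have hL0 : 0 ≤ L x := (uK_nonneg h1 0 _).trans (hLu 0 x hx)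
  have a1 : 0 ≤ |A| * h x := mul_nonneg hA0 (by linarith)
  have a2 : 0 ≤ |A| * L x := mul_nonneg hA0 hL0
  show |x 0| * ψ |x 0| ≤ ψ 1 + (3 * |A| * h x + 4 * |A| * L x)
  rcases le_total |x 0| 1 with c | c
  · have b1 := mul_le_mul c (hψ c) (h0 _) zero_le_one
    linarith
  · obtain ⟨K, hK⟩ := gauge_le hφ h1 c
    have b0 := II_nonneg hφ h1 c
    have b1 : ψ |x 0| ≤ |A| * (1 + II φ |x 0|) :=
      (hA _ c).trans (mul_le_mul_of_nonneg_right (le_abs_self A) (by linarith))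
    have b2 := mul_le_mul_of_nonneg_left b1 hy0
    have b3 : |x 0| * (1 + II φ |x 0|) ≤ 3 * h x + 4 * L x := by
      have := hLu K x hx
      linarith
    have b4 := mul_le_mul_of_nonneg_left b3 hA0
    have := h0 1
    linarith

theorem gauge (n : ℕ) (φ ψ : ℝ → ℝ) (hφ : Monotone φ) (h1 : ∀ t, 1 ≤ φ t) (hψ : Monotone ψ)
    (h0 : ∀ t, 0 ≤ ψ t) :
    (∀ D : Set (E n), IsOpen D → IsConnected D →
      (∃ h : E n → ℝ, HarmonicOnNhd h D ∧ ∀ x ∈ D, ‖x‖ ≤ h x) →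
      (∃ (Ψ : E n → ℝ) (C R : ℝ), HarmonicOnNhd Ψ D ∧
        ∀ x ∈ D, |x 0| ≤ Ψ x ∧ (R ≤ ‖x‖ → Ψ x ≤ C * (‖x‖ * φ ‖x‖))) →
      ∃ H : E n → ℝ, HarmonicOnNhd H D ∧ ∀ x ∈ D, |x 0| * ψ |x 0| ≤ H x) ↔
    ∃ A : ℝ, ∀ t, 1 ≤ t → ψ t ≤ A * (1 + ∫ s in (1 : ℝ)..t, 1 / (s * φ s)) := by
  constructor
  · intro hall
    by_contra hB
    have hN : ∀ A : ℝ, ∃ k, A * Lam φ k < ψ (Real.exp (uu k / 12)) := by
      intro A
      by_contra hc
      push Not at hc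
      exact hB (lam_le hφ h1 hψ hc)
    obtain ⟨D, d1, d2, d3, ⟨Ψ, d4, d5⟩, d6⟩ := neg n hφ h1 hψ h0 hN
    exact d6 (hall D d1 d2 d3 ⟨Ψ, 238, 0, d4, fun x hx => ⟨(d5 x hx).1, fun _ => (d5 x hx).2⟩⟩)
  · rintro ⟨A, hA⟩ D hO - ⟨h, hh, hn⟩ ⟨Ψ, C, R, hΨ, hb⟩
    exact gain n hφ h1 hψ h0 hA hO hh hn hΨ (fun x hx => (hb x hx).1) fun x hx => (hb x hx).2

theorem mono_ext {f : ℝ → ℝ} (hf : MonotoneOn f (Set.Ici 0)) : Monotone fun t => f (max t 0) :=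
  fun _ _ hab => hf (Set.mem_Ici.2 (le_max_right _ _)) (Set.mem_Ici.2 (le_max_right _ _))
    (max_le_max hab le_rfl)

theorem gauge_on (n : ℕ) (φ ψ : ℝ → ℝ) (hφ : MonotoneOn φ (Set.Ici 0))
    (h1 : ∀ t, 0 ≤ t → 1 ≤ φ t) (hψ : MonotoneOn ψ (Set.Ici 0)) (h0 : ∀ t, 0 ≤ t → 0 ≤ ψ t) :
    (∀ D : Set (E n), IsOpen D → IsConnected D →
      (∃ h : E n → ℝ, HarmonicOnNhd h D ∧ ∀ x ∈ D, ‖x‖ ≤ h x) →
      (∃ (Ψ : E n → ℝ) (C R : ℝ), HarmonicOnNhd Ψ D ∧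
        ∀ x ∈ D, |x 0| ≤ Ψ x ∧ (R ≤ ‖x‖ → Ψ x ≤ C * (‖x‖ * φ ‖x‖))) →
      ∃ H : E n → ℝ, HarmonicOnNhd H D ∧ ∀ x ∈ D, |x 0| * ψ |x 0| ≤ H x) ↔
    ∃ A : ℝ, ∀ t, 1 ≤ t → ψ t ≤ A * (1 + ∫ s in (1 : ℝ)..t, 1 / (s * φ s)) := by
  have key := gauge n (fun t => φ (max t 0)) (fun t => ψ (max t 0)) (mono_ext hφ)
    (fun t => h1 _ (le_max_right _ _)) (mono_ext hψ) (fun t => h0 _ (le_max_right _ _))
  have e1 : ∀ x : E n, max ‖x‖ 0 = ‖x‖ := fun x => max_eq_left (norm_nonneg x)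
  have e2 : ∀ y : ℝ, max |y| 0 = |y| := fun y => max_eq_left (abs_nonneg y)
  simp only [e1, e2] at key
  refine key.trans (exists_congr fun A => forall_congr' fun t => forall_congr' fun ht => ?_)
  have e3 : ∫ s in (1 : ℝ)..t, 1 / (s * φ (max s 0)) = ∫ s in (1 : ℝ)..t, 1 / (s * φ s) := by
    refine intervalIntegral.integral_congr fun s hs => ?_
    rw [Set.uIcc_of_le ht] at hs
    show 1 / (s * φ (max s 0)) = 1 / (s * φ s)
    rw [max_eq_left (by linarith [hs.1])]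
  rw [e3, max_eq_left (by linarith)]

theorem logp_mono : MonotoneOn (fun t : ℝ => max (Real.log t) 0) (Set.Ici 0) := by
  intro a ha b _ hab
  rcases le_total a 1 with c | c
  · exact max_le ((Real.log_nonpos ha c).trans (le_max_right _ _)) (le_max_right _ _)
  · exact max_le_max (Real.log_le_log (by linarith) hab) le_rfl

theorem int_one {t : ℝ} (ht : 1 ≤ t) : ∫ s in (1 : ℝ)..t, 1 / (s * 1) = Real.log t := by
  simp only [mul_one]
  rw [integral_one_div_of_pos one_pos (by linarith), div_one]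

theorem int_sq {t : ℝ} (ht : 1 ≤ t) : ∫ s in (1 : ℝ)..t, 1 / (s * max s 1) ≤ 1 := by
  have e : ∫ s in (1 : ℝ)..t, 1 / (s * max s 1) = ∫ s in (1 : ℝ)..t, 1 / (s * s) := by
    refine intervalIntegral.integral_congr fun s hs => ?_
    rw [Set.uIcc_of_le ht] at hs
    show 1 / (s * max s 1) = 1 / (s * s)
    rw [max_eq_left hs.1]
  have hd : ∀ s ∈ Set.uIcc (1 : ℝ) t, HasDerivAt (fun s : ℝ => -s⁻¹) (1 / (s * s)) s := by
    intro s hs
    rw [Set.uIcc_of_le ht] at hs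
    have hs0 : s ≠ 0 := by linarith [hs.1]
    refine (hasDerivAt_inv hs0).neg.congr_deriv ?_
    field_simp
  have hc : ContinuousOn (fun s : ℝ => 1 / (s * s)) (Set.uIcc 1 t) := by
    refine continuousOn_const.div (by fun_prop) fun s hs => ?_
    rw [Set.uIcc_of_le ht] at hs
    have : 0 < s := by linarith [hs.1]
    positivity
  rw [e, intervalIntegral.integral_eq_sub_of_hasDerivAt hd hc.intervalIntegrable]
  have : 0 ≤ t⁻¹ := by positivity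
  simp only [inv_one]
  linarith

theorem log_iff {φ : ℝ → ℝ} (hφ : MonotoneOn φ (Set.Ici 0)) (h1 : ∀ t, 0 ≤ t → 1 ≤ φ t) :
    (∃ A : ℝ, ∀ t, 1 ≤ t →
      max (Real.log t) 0 ≤ A * (1 + ∫ s in (1 : ℝ)..t, 1 / (s * φ s))) ↔
    ∃ M : ℝ, ∀ t, 0 ≤ t → φ t ≤ M := by
  have hm := mono_ext hφ
  have h1' : ∀ t, 1 ≤ φ (max t 0) := fun t => h1 _ (le_max_right _ _)
  have e3 : ∀ t, 1 ≤ t → ∫ s in (1 : ℝ)..t, 1 / (s * φ s) = II (fun t => φ (max t 0)) t := by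
    intro t ht
    refine intervalIntegral.integral_congr fun s hs => ?_
    rw [Set.uIcc_of_le ht] at hs
    show 1 / (s * φ s) = 1 / (s * φ (max s 0))
    rw [max_eq_left (by linarith [hs.1])]
  constructor
  · rintro ⟨A, hA⟩
    by_contra hc
    push Not at hc
    obtain ⟨t, ht, hM⟩ := hc (2 * |A| + 1)
    have hA0 := abs_nonneg A
    obtain ⟨a, ha1, ha2⟩ : ∃ a : ℝ, 1 ≤ a ∧ 2 * |A| + 1 ≤ φ (max a 0) :=
      ⟨max t 1, le_max_right _ _, hM.le.trans (hφ ht (Set.mem_Ici.2 (le_max_right _ _))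
        ((le_max_left _ _).trans (le_max_left _ _)))⟩
    have i0 := II_nonneg hm h1' ha1
    obtain ⟨L, hL⟩ : ∃ L, L = 2 * |A| * (1 + II (fun t => φ (max t 0)) a) + 1 := ⟨_, rfl⟩
    have hL0 : 0 ≤ L := by rw [hL]; positivity
    have hE : 1 ≤ Real.exp L := Real.one_le_exp hL0
    have hab : a ≤ a * Real.exp L := by nlinarith
    have b1 := II_le hm h1' ha1 hab
    rw [mul_div_cancel_left₀ _ (by linarith : a ≠ 0), Real.log_exp] at b1
    have b2 := hA _ (ha1.trans hab)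
    rw [e3 _ (ha1.trans hab)] at b2
    have b3 : L ≤ Real.log (a * Real.exp L) := by
      rw [Real.log_mul (by linarith) (Real.exp_pos L).ne', Real.log_exp]
      linarith [Real.log_nonneg ha1]
    have b4 := II_nonneg hm h1' (ha1.trans hab)
    have b5 := mul_le_mul_of_nonneg_right (le_abs_self A)
      (by linarith : 0 ≤ 1 + II (fun t => φ (max t 0)) (a * Real.exp L))
    have b6 : |A| * (L / φ (max a 0)) ≤ L / 2 := by
      rw [← mul_div_assoc, div_le_div_iff₀ (by linarith) two_pos]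
      nlinarith
    have b7 := mul_le_mul_of_nonneg_left b1 hA0
    have b8 := le_max_left (Real.log (a * Real.exp L)) 0
    nlinarith
  · rintro ⟨M, hM⟩
    have hM1 : 1 ≤ M := (h1 0 le_rfl).trans (hM 0 le_rfl)
    refine ⟨M, fun t ht => ?_⟩
    rw [e3 t ht]
    have b1 := II_ge hm h1' le_rfl ht
    have b0 : II (fun t => φ (max t 0)) 1 = 0 := intervalIntegral.integral_same
    rw [div_one, b0, sub_zero, div_le_iff₀ (by linarith [h1' t])] at b1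
    have b2 := II_nonneg hm h1' ht
    have b3 := mul_le_mul_of_nonneg_left (hM _ (le_max_right t 0)) b2
    exact max_le (by linarith) (by positivity)

end Pool.Agent.P.MP_677f70_an.Ga
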