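import Pool.Agent.P.MP_677f70_an.GaSub

set_option autoImplicit false

open InnerProductSpace Metric Filter Topology

namespace Pool.Agent.P.MP_677f70_an.Ga

theorem sum_log (ρ : ℝ) (hρ : 0 ≤ ρ) (K : ℕ) :
    ∑ k ∈ Finset.range K, (4 : ℝ) ^ k * max (Real.log (ρ / 4 ^ k)) 0 ≤ 4 * ρ := by
  have hσ := Real.sqrt_nonneg ρ
  have hs := Real.mul_self_sqrt hρ
  generalize √ρ = σ at hσ hs
  subst hs
  have key : ∑ k ∈ Finset.range K, (4 : ℝ) ^ k * max (Real.log (σ * σ / 4 ^ k)) 0 ≤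
      2 * σ * 2 ^ K ∧
      ∑ k ∈ Finset.range K, (4 : ℝ) ^ k * max (Real.log (σ * σ / 4 ^ k)) 0 ≤ 4 * (σ * σ) := by
    induction K with
    | zero => exact ⟨by simpa using hσ, by simpa using hρ⟩
    | succ K ih =>
      have p2 : (0 : ℝ) < 2 ^ K := by positivity
      have e4 : (4 : ℝ) ^ K = 2 ^ K * 2 ^ K := by rw [← mul_pow]; norm_num
      have e5 : σ * σ / 4 ^ K = (σ / 2 ^ K) ^ 2 := by rw [e4, div_pow, sq, sq]
      have y0 : 0 ≤ σ / 2 ^ K := div_nonneg hσ p2.le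
      rw [Finset.sum_range_succ, e5, Real.log_pow, pow_succ (2 : ℝ) K]
      have m0 := mul_nonneg hσ p2.le
      rcases le_total ((2 : ℝ) ^ K) σ with c | c
      · have t1 : max (((2 : ℕ) : ℝ) * Real.log (σ / 2 ^ K)) 0 ≤ 2 * (σ / 2 ^ K) := by
          refine max_le ?_ (by positivity)
          have := Real.log_le_self y0
          push_cast
          linarith
        have t2 : (4 : ℝ) ^ K * (2 * (σ / 2 ^ K)) = 2 * (σ * 2 ^ K) := by
          rw [e4]
          field_simp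
        have t3 := mul_le_mul_of_nonneg_left t1 (show (0 : ℝ) ≤ 4 ^ K by positivity)
        have t4 := mul_le_mul_of_nonneg_left c hσ
        rw [t2] at t3
        exact ⟨by linarith [ih.1], by linarith [ih.1]⟩
      · have t1 : max (((2 : ℕ) : ℝ) * Real.log (σ / 2 ^ K)) 0 = 0 := by
          refine max_eq_right ?_
          have := Real.log_nonpos y0 ((div_le_one p2).2 c)
          push_cast
          linarith
        rw [t1, mul_zero, add_zero]
        exact ⟨by linarith [ih.1], ih.2⟩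
  exact key.2

theorem gp_coord {n : ℕ} (x : E n) : ∃ i, ‖x‖ ≤ ((n : ℝ) + 2) * |x i| := by
  obtain ⟨i, -, hi⟩ := Finset.exists_max_image Finset.univ (fun j => |x j|) Finset.univ_nonempty
  refine ⟨i, abs_le_of_sq_le_sq' ?_ (by positivity) |>.2⟩
  rw [EuclideanSpace.norm_sq_eq]
  have h1 : ∑ j, ‖x j‖ ^ 2 ≤ ∑ _j : Fin (n + 2), |x i| ^ 2 := Finset.sum_le_sum fun j _ =>
    pow_le_pow_left₀ (norm_nonneg _) (hi j (Finset.mem_univ _)) 2
  rw [Finset.sum_const, Finset.card_univ, Fintype.card_fin, nsmul_eq_mul] at h1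
  push_cast at h1
  have h2 : (0 : ℝ) ≤ n := Nat.cast_nonneg n
  have h3 := mul_nonneg (mul_nonneg (show (0 : ℝ) ≤ n + 2 by linarith)
    (show (0 : ℝ) ≤ n + 1 by linarith)) (sq_nonneg |x i|)
  nlinarith

theorem gp_pl {n : ℕ} (i j : Fin (n + 2)) (x : E n) :
    |x i| ≤ ‖pl i j x‖ ∧ ‖pl i j x‖ ≤ 2 * ‖x‖ := by
  have h1 := Complex.abs_re_le_norm (pl i j x)
  have h2 := Complex.norm_le_abs_re_add_abs_im (pl i j x)
  rw [pl_re] at h1
  rw [pl_re, pl_im] at h2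
  have h3 : |x i| ≤ ‖x‖ := PiLp.norm_apply_le x i
  have h4 : |x j| ≤ ‖x‖ := PiLp.norm_apply_le x j
  exact ⟨h1, by linarith⟩

theorem gp_split {n : ℕ} (hD : DIR n) (hH : LHM n) {D : Set (E n)} (hO : IsOpen D) {h : E n → ℝ}
    (hh : HarmonicOnNhd h D) (hn : ∀ x ∈ D, ‖x‖ ≤ h x) (K : ℕ) :
    ∃ g : ℕ → E n → ℝ, (∀ k < K, HarmonicOnNhd (g k) D ∧
      ∀ x ∈ D, 0 ≤ g k x ∧ (‖x‖ = 4 ^ k → ‖x‖ ≤ 2 * g k x)) ∧
      ∀ x ∈ D, ∑ k ∈ Finset.range K, g k x ≤ 16 * (n + 2) ^ 2 * h x := by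
  choose nx hnx using fun i : Fin (n + 2) => exists_ne i
  have hd : (0 : ℝ) < (n : ℝ) + 2 := by positivity
  obtain ⟨g, hg, hs⟩ := split hD hH hO K
    (fun k x => (4 : ℝ) ^ k * ∑ i, max (Real.log (2 * (n + 2) / 4 ^ k * ‖pl i (nx i) x‖)) 0)
    (fun k => Sub.mul (by positivity) (Sub.sum hD Finset.univ fun i _ =>
      log_sub (hnx i).symm (by positivity)))
    (fun x => 16 * (n + 2) ^ 2 * h x) (hh.const_smul (c := (16 * (n + 2) ^ 2 : ℝ))) (by
      intro x hx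
      simp only [Finset.mul_sum]
      rw [Finset.sum_comm]
      have h1 : ∀ i, ∑ k ∈ Finset.range K, (4 : ℝ) ^ k *
          max (Real.log (2 * (n + 2) / 4 ^ k * ‖pl i (nx i) x‖)) 0 ≤ 16 * (n + 2) * h x := by
        intro i
        have h2 := sum_log (2 * (n + 2) * ‖pl i (nx i) x‖) (by positivity) K
        simp only [div_mul_eq_mul_div]
        have h3 := mul_le_mul_of_nonneg_left
          ((gp_pl i (nx i) x).2.trans (mul_le_mul_of_nonneg_left (hn x hx) zero_le_two)) hd.le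
        linarith
      refine (Finset.sum_le_sum fun i _ => h1 i).trans_eq ?_
      rw [Finset.sum_const, Finset.card_univ, Fintype.card_fin, nsmul_eq_mul]
      push_cast
      ring)
  refine ⟨g, fun k hk => ⟨(hg k hk).1, fun x hx => ⟨le_trans ?_ ((hg k hk).2 x hx), fun e => ?_⟩⟩,
    hs⟩
  · exact mul_nonneg (by positivity) (Finset.sum_nonneg fun i _ => le_max_right _ _)
  · obtain ⟨i, hi⟩ := gp_coord x
    have p4 : (0 : ℝ) < 4 ^ k := by positivity
    have h1 : 2 ≤ 2 * (n + 2) / 4 ^ k * ‖pl i (nx i) x‖ := by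
      rw [div_mul_eq_mul_div, le_div_iff₀ p4, ← e]
      have := mul_le_mul_of_nonneg_left (gp_pl i (nx i) x).1 hd.le
      linarith
    have h2 : 1 / 2 ≤ ∑ i, max (Real.log (2 * (n + 2) / 4 ^ k * ‖pl i (nx i) x‖)) 0 := by
      refine le_trans ?_ (Finset.single_le_sum
        (f := fun i => max (Real.log (2 * (n + 2) / 4 ^ k * ‖pl i (nx i) x‖)) 0)
        (fun i _ => le_max_right _ _) (Finset.mem_univ i))
      have := Real.log_le_log zero_lt_two h1
      exact le_max_of_le_left (by linarith [Real.log_two_gt_d9])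
    have h3 := mul_le_mul_of_nonneg_left h2 p4.le
    have h4 := (hg k hk).2 x hx
    linarith

theorem gp_cut {n : ℕ} (hH : LHM n) {D : Set (E n)} (hO : IsOpen D) {Ψ g : E n → ℝ}
    (hΨ : HarmonicOnNhd Ψ D) (hg : HarmonicOnNhd g D) (hb0 : ∀ x ∈ D, |x 0| ≤ Ψ x)
    (h0 : ∀ x ∈ D, 0 ≤ g x) {r : ℝ} (hr : 0 ≤ r) (hle : ∀ x ∈ D, ‖x‖ = r → Ψ x ≤ g x) :
    ∃ H : E n → ℝ, HarmonicOnNhd H D ∧
      ∀ x ∈ D, max (|x 0| - r) 0 ≤ H x ∧ H x ≤ Ψ x ∧ (‖x‖ < r → H x ≤ g x) := by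
  have h1 : ∀ x ∈ D, max (|x 0| - r) 0 ≤ if ‖x‖ < r then min (Ψ x) (g x) else Ψ x := by
    intro x hx
    have a := hb0 x hx
    have b := abs_nonneg (x 0)
    have c : |x 0| ≤ ‖x‖ := PiLp.norm_apply_le x 0
    split_ifs with e
    · rw [max_eq_right (by linarith)]
      exact le_min (by linarith) (h0 x hx)
    · exact max_le (by linarith) (by linarith)
  have h2 : ∀ x ∈ D, (if ‖x‖ < r then min (Ψ x) (g x) else Ψ x) ≤ Ψ x := by
    intro x _
    split_ifs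
    exacts [min_le_left _ _, le_rfl]
  obtain ⟨H, a, b, c⟩ := hH D hO _ _ Ψ (pos_sub r hr) (paste hΨ hg hle) h1 hΨ.continuousOn h2
  have d := c _ (paste hΨ hg hle) h1
  refine ⟨H, a, fun x hx => ⟨b x hx, (d x hx).trans (h2 x hx), fun e => ?_⟩⟩
  have := d x hx
  rw [if_pos e] at this
  exact this.trans (min_le_right _ _)

/-- one finite stage: a harmonic majorant of `uK` with a bound free of `K` -/
theorem stage {n : ℕ} (hD : DIR n) (hH : LHM n) {φ : ℝ → ℝ} (h1 : ∀ t, 1 ≤ φ t)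
    {D : Set (E n)} (hO : IsOpen D) {h Ψ : E n → ℝ} (hh : HarmonicOnNhd h D)
    (hn : ∀ x ∈ D, ‖x‖ ≤ h x) (hΨ : HarmonicOnNhd Ψ D) {C : ℝ} (hC : 0 ≤ C)
    (hb0 : ∀ x ∈ D, |x 0| ≤ Ψ x) {k0 : ℕ}
    (hb : ∀ x ∈ D, 4 ^ k0 ≤ ‖x‖ → Ψ x ≤ C * (‖x‖ * φ ‖x‖)) (K : ℕ) :
    ∃ G : E n → ℝ, HarmonicOnNhd G D ∧ ∀ x ∈ D, uK φ K |x 0| ≤ G x ∧
      ∀ m : ℕ, k0 ≤ m → ‖x‖ < 4 ^ m → G x ≤ m * Ψ x + 32 * C * (n + 2) ^ 2 * h x := by
  obtain ⟨g, hg, hs⟩ := gp_split hD hH hO hh hn K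
  have hp : ∀ t, 0 < φ t := fun t => one_pos.trans_le (h1 t)
  have key : ∀ k, ∃ H : E n → ℝ, k < K → HarmonicOnNhd H D ∧ ∀ x ∈ D,
      max (|x 0| - 4 ^ k) 0 ≤ H x ∧ H x ≤ Ψ x ∧
        (k0 ≤ k → ‖x‖ < 4 ^ k → H x ≤ 2 * C * φ (4 ^ k) * g k x) := by
    intro k
    have p4 : (0 : ℝ) < 4 ^ k := by positivity
    by_cases c : k0 ≤ k ∧ k < K
    · have q : 0 ≤ C * φ (4 ^ k) := mul_nonneg hC (hp _).le
      obtain ⟨H, a, b⟩ := gp_cut hH hO hΨ (g := fun x => 2 * C * φ (4 ^ k) * g k x)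
        ((hg k c.2).1.const_smul (c := 2 * C * φ (4 ^ k))) hb0
        (fun x hx => mul_nonneg (by linarith) ((hg k c.2).2 x hx).1) p4.le fun x hx e => by
          have t1 := hb x hx (e ▸ pow_le_pow_right₀ (by norm_num) c.1)
          have t2 := mul_le_mul_of_nonneg_left (((hg k c.2).2 x hx).2 e) q
          rw [e] at t1 t2
          linarith
      exact ⟨H, fun _ => ⟨a, fun x hx => ⟨(b x hx).1, (b x hx).2.1, fun _ => (b x hx).2.2⟩⟩⟩
    · refine ⟨Ψ, fun hk => ⟨hΨ, fun x hx => ⟨?_, le_rfl, fun e => absurd ⟨e, hk⟩ c⟩⟩⟩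
      have a := hb0 x hx
      have b := abs_nonneg (x 0)
      exact max_le (by linarith) (by linarith)
  choose H hHk using key
  refine ⟨fun x => ∑ k ∈ Finset.range K, 1 / φ (4 ^ k) * H k x, fun x hx => ?_,
    fun x hx => ⟨Finset.sum_le_sum fun k hk => ?_, fun m hm hx' => ?_⟩⟩
  · exact harmonicAt_sum _ (fun k x => 1 / φ (4 ^ k) * H k x) fun k hk =>
      ((hHk k (Finset.mem_range.1 hk)).1 x hx).const_smul (c := 1 / φ (4 ^ k))
  · exact mul_le_mul_of_nonneg_left ((hHk k (Finset.mem_range.1 hk)).2 x hx).1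
      (one_div_pos.2 (hp _)).le
  · have hΨ0 : 0 ≤ Ψ x := (abs_nonneg _).trans (hb0 x hx)
    have t1 : ∀ k ∈ Finset.range K, 1 / φ (4 ^ k) * H k x ≤
        (if k < m then Ψ x else 0) + 2 * C * g k x := by
      intro k hk
      have hk' := Finset.mem_range.1 hk
      obtain ⟨-, a, b⟩ := (hHk k hk').2 x hx
      rw [one_div, inv_mul_le_iff₀ (hp _)]
      split_ifs with e
      · have u := mul_nonneg (mul_nonneg zero_le_two hC) ((hg k hk').2 x hx).1
        exact (a.trans (le_add_of_nonneg_right u)).trans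
          (le_mul_of_one_le_left (add_nonneg hΨ0 u) (h1 _))
      · have u := b (hm.trans (not_lt.1 e))
          (hx'.trans_le (pow_le_pow_right₀ (by norm_num) (not_lt.1 e)))
        linarith
    refine (Finset.sum_le_sum t1).trans ?_
    rw [Finset.sum_add_distrib, ← Finset.mul_sum, ← Finset.sum_filter, Finset.sum_const,
      nsmul_eq_mul]
    have t2 : ((Finset.range K).filter (· < m)).card ≤ m := by
      refine (Finset.card_le_card fun k hk => ?_).trans_eq (Finset.card_range m)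
      exact Finset.mem_range.2 (Finset.mem_filter.1 hk).2
    have t3 := mul_le_mul_of_nonneg_right (Nat.cast_le (α := ℝ).2 t2) hΨ0
    have t4 := mul_le_mul_of_nonneg_left (hs x hx) (mul_nonneg zero_le_two hC)
    linarith

end Pool.Agent.P.MP_677f70_an.Ga
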