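import Pool.Agent.P.MP_677f70_an.GaDefs

set_option autoImplicit false

open InnerProductSpace Metric Filter Topology

namespace Pool.Agent.P.MP_677f70_an.Ga

theorem seq_uu_pos (k : ℕ) : 0 < uu k := by
  unfold uu
  positivity

theorem seq_uu_mono : Monotone uu := fun i j h => by
  unfold uu
  exact mul_le_mul_of_nonneg_left (pow_le_pow_right₀ (by norm_num) h) (by norm_num)

theorem seq_tail {p : ℕ → ℝ} (hp : Monotone p) (h1 : ∀ i, 1 ≤ p i) (k j : ℕ) :
    ∑ i ∈ Finset.range (k + 1 + j), uu i / p i * min 1 ((uu k / uu i) ^ 2) ≤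
      ∑ i ∈ Finset.range (k + 1), uu i / p i + uu k / p k * (1 - 1 / 2 ^ j) := by
  have h0 : ∀ i, 0 < p i := fun i => lt_of_lt_of_le one_pos (h1 i)
  induction j with
  | zero =>
    simp only [add_zero, pow_zero, div_one, sub_self, mul_zero]
    exact Finset.sum_le_sum fun i _ =>
      mul_le_of_le_one_right (div_pos (seq_uu_pos i) (h0 i)).le (min_le_left _ _)
  | succ j ih =>
    rw [← add_assoc, Finset.sum_range_succ]
    have hk := seq_uu_pos k
    have hi := seq_uu_pos (k + 1 + j)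
    have hpk := h0 k
    have e : uu (k + 1 + j) = uu k * 2 ^ (j + 1) := by
      unfold uu
      ring
    have h2 : uu (k + 1 + j) / p (k + 1 + j) * min 1 ((uu k / uu (k + 1 + j)) ^ 2) ≤
        uu (k + 1 + j) / p k * (uu k / uu (k + 1 + j)) ^ 2 :=
      mul_le_mul (div_le_div_of_nonneg_left hi.le hpk (hp (by omega))) (min_le_right _ _)
        (le_min zero_le_one (sq_nonneg _)) (div_pos hi hpk).le
    have h3 : uu k / p k * (1 - 1 / 2 ^ j) + uu (k + 1 + j) / p k * (uu k / uu (k + 1 + j)) ^ 2 =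
        uu k / p k * (1 - 1 / 2 ^ (j + 1)) := by
      rw [e]
      field_simp
      ring
    linarith

theorem seq_row {p : ℕ → ℝ} (hp : Monotone p) (h1 : ∀ i, 1 ≤ p i) (k n : ℕ) :
    ∑ i ∈ Finset.range n, uu i / p i * min 1 ((uu k / uu i) ^ 2) ≤
      2 * ∑ i ∈ Finset.range (k + 1), uu i / p i := by
  have h0 : ∀ i, 0 < uu i / p i := fun i => div_pos (seq_uu_pos i) (lt_of_lt_of_le one_pos (h1 i))
  have h2 : ∑ i ∈ Finset.range n, uu i / p i * min 1 ((uu k / uu i) ^ 2) ≤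
      ∑ i ∈ Finset.range (k + 1 + n), uu i / p i * min 1 ((uu k / uu i) ^ 2) :=
    Finset.sum_le_sum_of_subset_of_nonneg (Finset.range_subset_range.2 (by omega))
      fun i _ _ => mul_nonneg (h0 i).le (le_min zero_le_one (sq_nonneg _))
  have h3 := seq_tail hp h1 k n
  have h4 : uu k / p k ≤ ∑ i ∈ Finset.range (k + 1), uu i / p i :=
    Finset.single_le_sum (f := fun i => uu i / p i) (fun i _ => (h0 i).le)
      (Finset.self_mem_range_succ k)
  have h5 : uu k / p k * (1 - 1 / 2 ^ n) ≤ uu k / p k :=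
    mul_le_of_le_one_right (h0 k).le (sub_le_self _ (by positivity))
  linarith

theorem seq_weights {L N : ℕ → ℝ} (hL : ∀ k, 0 < L k) (hN : ∀ A : ℝ, ∃ k, A * L k < N k) :
    ∃ w : ℕ → ℝ, (∀ k, 0 ≤ w k) ∧ Summable w ∧
      ∀ (A : ℝ) (k0 : ℕ), ∃ k, k0 ≤ k ∧ A ≤ w k / L k * N k := by
  have hf : ∀ J : ℕ, ∃ᶠ k in atTop, (4 : ℝ) ^ J * L k < N k := by
    intro J
    rw [frequently_atTop]
    intro k0
    have hs : 0 ≤ ∑ i ∈ Finset.range k0, |N i / L i| :=
      Finset.sum_nonneg fun i _ => abs_nonneg _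
    obtain ⟨k, hk⟩ := hN (4 ^ J + ∑ i ∈ Finset.range k0, |N i / L i|)
    have hJ : (0 : ℝ) < 4 ^ J := by positivity
    refine ⟨k, ?_, ?_⟩
    · by_contra hlt
      have h2 : |N k / L k| ≤ ∑ i ∈ Finset.range k0, |N i / L i| :=
        Finset.single_le_sum (f := fun i => |N i / L i|) (fun i _ => abs_nonneg _)
          (Finset.mem_range.2 (by omega))
      have h3 := (lt_div_iff₀ (hL k)).2 hk
      have h4 := le_abs_self (N k / L k)
      linarith
    · have := mul_nonneg hs (hL k).le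
      rw [add_mul] at hk
      linarith
  obtain ⟨g, hg, hP⟩ := extraction_forall_of_frequently hf
  refine ⟨Function.extend g (fun J => (1 / 2 : ℝ) ^ J) 0, fun k => ?_, ?_, fun A k0 => ?_⟩
  · by_cases h : ∃ J, g J = k
    · obtain ⟨J, rfl⟩ := h
      rw [hg.injective.extend_apply]
      positivity
    · rw [Function.extend_apply' _ _ _ h]
      exact le_rfl
  · exact (summable_extend_zero hg.injective).2 summable_geometric_two
  · obtain ⟨J0, hJ0⟩ := pow_unbounded_of_one_lt A (by norm_num : (1 : ℝ) < 2)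
    refine ⟨g (J0 + k0), (Nat.le_add_left k0 J0).trans (hg.id_le (J0 + k0)), ?_⟩
    rw [hg.injective.extend_apply]
    have h2 := (lt_div_iff₀ (hL _)).2 (hP (J0 + k0))
    have h3 : (2 : ℝ) ^ J0 ≤ 2 ^ (J0 + k0) := pow_le_pow_right₀ (by norm_num) (by omega)
    have h4 : (1 / 2 : ℝ) ^ (J0 + k0) * 4 ^ (J0 + k0) = 2 ^ (J0 + k0) := by
      rw [← mul_pow]
      norm_num
    have h5 := mul_le_mul_of_nonneg_left h2.le (by positivity : (0 : ℝ) ≤ (1 / 2) ^ (J0 + k0))
    rw [div_mul_eq_mul_div, mul_div_assoc]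
    linarith

theorem seq {φ : ℝ → ℝ} (hφ : Monotone φ) (h1 : ∀ t, 1 ≤ φ t) {N : ℕ → ℝ}
    (hN : ∀ A : ℝ, ∃ k, A * Lam φ k < N k) :
    ∃ e a : ℕ → ℝ, (∀ k, 0 ≤ e k) ∧ (∀ k, 27 + 1000 * e k * uu k ≤ a k) ∧
      (Summable fun k => a k / uu k) ∧
      (∀ (i : ℕ) (z : ℂ), uu i ≤ z.re → Sh.Nm uu (fun k => e k * uu k ^ 2) 2 z
        ≤ a i / uu i ^ 2 * φ (Real.exp (uu i / 2))) ∧
      ∀ (A : ℝ) (k0 : ℕ), ∃ k, k0 ≤ k ∧ A ≤ e k * N k := by
  obtain ⟨p, hpd⟩ : ∃ p : ℕ → ℝ, ∀ i, p i = φ (Real.exp (uu i / 2)) := ⟨_, fun _ => rfl⟩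
  have hp : Monotone p := fun i j h => by
    rw [hpd, hpd]
    exact hφ (Real.exp_le_exp.2 (by linarith [seq_uu_mono h]))
  have hp1 : ∀ i, 1 ≤ p i := fun i => by
    rw [hpd]
    exact h1 _
  have hp0 : ∀ i, 0 < p i := fun i => lt_of_lt_of_le one_pos (hp1 i)
  have hq : ∀ i, 0 < uu i / p i := fun i => div_pos (seq_uu_pos i) (hp0 i)
  have hLd : ∀ k, Lam φ k = ∑ i ∈ Finset.range (k + 1), uu i / p i := fun k => by
    simp only [Lam, hpd]
  have hL0 : ∀ k, uu 0 / p 0 ≤ Lam φ k := fun k => by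
    rw [hLd]
    exact Finset.single_le_sum (f := fun i => uu i / p i) (fun i _ => (hq i).le)
      (Finset.mem_range.2 (by omega))
  have hL : ∀ k, 0 < Lam φ k := fun k => (hq 0).trans_le (hL0 k)
  obtain ⟨w, hw0, hw, hwN⟩ := seq_weights hL hN
  obtain ⟨e, hed⟩ : ∃ e : ℕ → ℝ, ∀ k, e k = w k / Lam φ k := ⟨_, fun _ => rfl⟩
  have he0 : ∀ k, 0 ≤ e k := fun k => by
    rw [hed]
    exact div_nonneg (hw0 k) (hL k).le
  have he : Summable e := (hw.div_const (uu 0 / p 0)).of_nonneg_of_le he0 fun k => by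
    rw [hed]
    exact div_le_div_of_nonneg_left (hw0 k) (hq 0) (hL0 k)
  have hc0 : ∀ k i, 0 ≤ e k * min 1 ((uu k / uu i) ^ 2) := fun k i =>
    mul_nonneg (he0 k) (le_min zero_le_one (sq_nonneg _))
  have hm : ∀ i, Summable fun k => e k * min 1 ((uu k / uu i) ^ 2) := fun i =>
    he.of_nonneg_of_le (fun k => hc0 k i) fun k =>
      mul_le_of_le_one_right (he0 k) (min_le_left _ _)
  obtain ⟨m, hmd⟩ : ∃ m : ℕ → ℝ, ∀ i, HasSum (fun k => e k * min 1 ((uu k / uu i) ^ 2)) (m i) :=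
    ⟨_, fun i => (hm i).hasSum⟩
  have hm0 : ∀ i, 0 ≤ m i := fun i => (hmd i).nonneg fun k => hc0 k i
  have hs : Summable fun i => uu i / p i * m i := by
    refine summable_of_sum_range_le (c := 2 * ∑' k, w k)
      (fun i => mul_nonneg (hq i).le (hm0 i)) fun n => ?_
    refine hasSum_le (fun k => ?_)
      (hasSum_sum fun i (_ : i ∈ Finset.range n) => (hmd i).mul_left (uu i / p i))
      (hw.hasSum.mul_left 2)
    have h2 := mul_le_mul_of_nonneg_left (seq_row hp hp1 k n) (he0 k)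
    rw [← hLd, Finset.mul_sum] at h2
    have h3 : e k * (2 * Lam φ k) = 2 * w k := by
      have := hL k
      rw [hed]
      field_simp
    rw [← h3]
    exact le_trans (le_of_eq (Finset.sum_congr rfl fun i _ => by ring)) h2
  have hx : ∀ i, 0 ≤ uu i ^ 2 * m i / p i := fun i =>
    div_nonneg (mul_nonneg (sq_nonneg _) (hm0 i)) (hp0 i).le
  refine ⟨e, fun i => 27 + 1000 * e i * uu i + uu i ^ 2 * m i / p i, he0,
    fun k => le_add_of_nonneg_right (hx k), ?_, fun i z hz => ?_, fun A k0 => ?_⟩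
  · refine (((summable_geometric_two.mul_left (27 / 1000)).add (he.mul_left 1000)).add hs).congr
      fun i => ?_
    have h2 := seq_uu_pos i
    have h3 := hp0 i
    have h4 : (27 / 1000 : ℝ) * (1 / 2) ^ i = 27 / uu i := by
      unfold uu
      rw [one_div, inv_pow]
      field_simp
    rw [h4]
    field_simp
  · have hi := seq_uu_pos i
    have ht : ∀ k, e k * uu k ^ 2 / ‖z + uu k‖ ^ 2 ≤ e k * min 1 ((uu k / uu i) ^ 2) := by
      intro k
      have hk := seq_uu_pos k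
      have h2 := Sh.add_le_norm z (uu k)
      have h3 : 0 < ‖z + uu k‖ := by linarith
      rw [mul_div_assoc, ← div_pow]
      refine mul_le_mul_of_nonneg_left (le_min ?_ ?_) (he0 k)
      · exact pow_le_one₀ (div_pos hk h3).le ((div_le_one h3).2 (by linarith))
      · exact pow_le_pow_left₀ (div_pos hk h3).le
          (div_le_div_of_nonneg_left hk.le hi (by linarith)) 2
    have h5 : Summable fun k => e k * uu k ^ 2 / ‖z + uu k‖ ^ 2 :=
      (hm i).of_nonneg_of_le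
        (fun k => div_nonneg (mul_nonneg (he0 k) (sq_nonneg _)) (sq_nonneg _)) ht
    have h6 : Sh.Nm uu (fun k => e k * uu k ^ 2) 2 z ≤ m i := hasSum_le ht h5.hasSum (hmd i)
    have h7 := hp0 i
    have h8 : m i = uu i ^ 2 * m i / p i / uu i ^ 2 * p i := by field_simp
    have h9 : 0 ≤ 27 + 1000 * e i * uu i := by
      have := he0 i
      positivity
    rw [← hpd]
    refine h6.trans (h8.le.trans (mul_le_mul_of_nonneg_right ?_ h7.le))
    exact div_le_div_of_nonneg_right (le_add_of_nonneg_left h9) (sq_nonneg _)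
  · obtain ⟨k, hk, hA⟩ := hwN A k0
    exact ⟨k, hk, by rw [hed]; exact hA⟩

end Pool.Agent.P.MP_677f70_an.Ga
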