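import Pool.Agent.P.MP_677f70_an.GaDefs

set_option autoImplicit false

open InnerProductSpace Metric Filter Topology

namespace Pool.Agent.P.MP_677f70_an.Ga

variable {n : ℕ} {D : Set (E n)}

theorem sb_cont {h : E n → ℝ} (hh : HarmonicOnNhd h D) : ContinuousOn h D :=
  fun x hx => (hh x hx).1.continuousAt.continuousWithinAt

theorem sb_minus {u g : E n → ℝ} (hu : HarmonicOnNhd u D) (hg : HarmonicOnNhd g D) :
    HarmonicOnNhd (fun x => u x - g x) D := by
  intro x hx
  have h := (hu x hx).add (harmonicAt_mul (-1) (hg x hx))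
  have e : (fun x => u x - g x) = u + fun z => -1 * g z := by
    funext y
    simp only [Pi.add_apply]
    ring
  rwa [e]

theorem sb_const (a : ℝ) : HarmonicOnNhd (fun _ : E n => a) D := fun _ _ => harmonicAt_const a

theorem sb_cmp {Ω F : Set (E n)} (hΩ : IsOpen Ω) (hF : IsClosed F) (hb : Bornology.IsBounded F)
    (hΩF : Ω ⊆ F) {u g : E n → ℝ} (hu : HarmonicOnNhd u Ω) (hg : HarmonicOnNhd g Ω)
    (cu : ContinuousOn u F) (cg : ContinuousOn g F) (h0 : ∀ x ∈ F, x ∉ Ω → u x ≤ g x) :
    ∀ x ∈ Ω, u x ≤ g x := fun x hx =>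
  sub_nonpos.1 (mp hΩ hF hb hΩF (sb_minus hu hg) (cu.sub cg)
    (fun y hy hy' => sub_nonpos.2 (h0 y hy hy')) x hx)

theorem sb_sph {c x : E n} {r : ℝ} (h : x ∈ closedBall c r) (h' : x ∉ ball c r) :
    x ∈ sphere c r := le_antisymm h (not_lt.1 h')

theorem sb_ball {c : E n} {r : ℝ} {u g : E n → ℝ} (hu : HarmonicOnNhd u (ball c r))
    (hg : HarmonicOnNhd g (ball c r)) (cu : ContinuousOn u (closedBall c r))
    (cg : ContinuousOn g (closedBall c r)) (h0 : ∀ x ∈ sphere c r, u x ≤ g x) :
    ∀ x ∈ ball c r, u x ≤ g x :=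
  sb_cmp isOpen_ball isClosed_closedBall isBounded_closedBall ball_subset_closedBall hu hg cu cg
    fun x hx hx' => h0 x (sb_sph hx hx')

theorem sb_mono {h : E n → ℝ} {D' : Set (E n)} (hh : HarmonicOnNhd h D) (hD : D' ⊆ D) :
    HarmonicOnNhd h D' := fun x hx => hh x (hD hx)

/-- a nonnegative function that is harmonic on an open set and zero outside -/
theorem sb_loc {s : E n → ℝ} {O : Set (E n)} (hO : IsOpen O) (hc : Continuous s)
    (h0 : ∀ x, 0 ≤ s x) (h1 : HarmonicOnNhd s O) (h2 : ∀ x, x ∉ O → s x = 0) : Sub D s := by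
  refine ⟨hc.continuousOn, fun c r _ _ g cg hg hle x hx => ?_⟩
  have p : ∀ y ∈ ball c r, (0 : ℝ) ≤ g y := sb_ball (sb_const 0) hg continuousOn_const cg
    fun y hy => (h0 y).trans (hle y hy)
  by_cases hxO : x ∈ O
  · refine sb_cmp (isOpen_ball.inter hO) isClosed_closedBall isBounded_closedBall
      (Set.inter_subset_left.trans ball_subset_closedBall) (sb_mono h1 Set.inter_subset_right)
      (sb_mono hg Set.inter_subset_left) hc.continuousOn cg (fun y hy hy' => ?_) x ⟨hx, hxO⟩
    by_cases hb : y ∈ ball c r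
    · rw [h2 y fun h => hy' ⟨hb, h⟩]
      exact p y hb
    · exact hle y (sb_sph hy hb)
  · rw [h2 x hxO]
    exact p x hx

theorem harm_sub {h : E n → ℝ} (hh : HarmonicOnNhd h D) : Sub D h := by
  exact ⟨sb_cont hh, fun c r _ hB g cg hg hle =>
    sb_ball (sb_mono hh (ball_subset_closedBall.trans hB)) hg ((sb_cont hh).mono hB) cg hle⟩

theorem harm_sup {h : E n → ℝ} (hh : HarmonicOnNhd h D) : Sup D h := by
  exact fun c r _ hB g cg hg hle =>
    sb_ball hg (sb_mono hh (ball_subset_closedBall.trans hB)) cg ((sb_cont hh).mono hB) hle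

theorem Sub.add (hD : DIR n) {s t : E n → ℝ} (hs : Sub D s) (ht : Sub D t) :
    Sub D fun x => s x + t x := by
  refine ⟨hs.1.add ht.1, fun c r hr hB g cg hg hle x hx => ?_⟩
  obtain ⟨U, cU, hU, eU⟩ := hD c r hr s (hs.1.mono (sphere_subset_closedBall.trans hB))
  have a := hs.2 c r hr hB U cU hU (fun y hy => (eU y hy).ge) x hx
  have b := ht.2 c r hr hB (fun y => g y - U y) (cg.sub cU) (sb_minus hg hU) (fun y hy => by
    have := hle y hy
    rw [eU y hy]
    linarith) x hx
  linarith

theorem Sub.mul {c : ℝ} (hc : 0 ≤ c) {s : E n → ℝ} (hs : Sub D s) : Sub D fun x => c * s x := by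
  rcases hc.eq_or_lt with rfl | hc
  · simpa only [zero_mul] using harm_sub (D := D) (sb_const 0)
  refine ⟨continuousOn_const.mul hs.1, fun o r hr hB g cg hg hle x hx => ?_⟩
  have a := hs.2 o r hr hB (fun y => c⁻¹ * g y) (continuousOn_const.mul cg)
    (fun y hy => harmonicAt_mul _ (hg y hy)) (fun y hy => (le_inv_mul_iff₀ hc).2 (hle y hy)) x hx
  exact (le_inv_mul_iff₀ hc).1 a

theorem Sub.max {s t : E n → ℝ} (hs : Sub D s) (ht : Sub D t) :
    Sub D fun x => max (s x) (t x) := by
  exact ⟨hs.1.sup ht.1, fun c r hr hB g cg hg hle x hx =>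
    max_le (hs.2 c r hr hB g cg hg (fun y hy => (le_max_left _ _).trans (hle y hy)) x hx)
      (ht.2 c r hr hB g cg hg (fun y hy => (le_max_right _ _).trans (hle y hy)) x hx)⟩

theorem Sub.sum (hD : DIR n) {ι : Type} (S : Finset ι) {s : ι → E n → ℝ}
    (hs : ∀ k ∈ S, Sub D (s k)) : Sub D fun x => ∑ k ∈ S, s k x := by
  classical
  induction S using Finset.induction_on with
  | empty => simpa only [Finset.sum_empty] using harm_sub (D := D) (sb_const 0)
  | insert a S ha ih =>
    simp only [Finset.sum_insert ha]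
    exact Sub.add hD (hs a (Finset.mem_insert_self _ _))
      (ih fun k hk => hs k (Finset.mem_insert_of_mem hk))

theorem sup_sub {h s : E n → ℝ} (hh : HarmonicOnNhd h D) (hs : Sub D s) :
    Sup D fun x => h x - s x := by
  intro c r hr hB g cg hg hle x hx
  have a := hs.2 c r hr hB (fun y => h y - g y) (((sb_cont hh).mono hB).sub cg)
    (sb_minus (sb_mono hh (ball_subset_closedBall.trans hB)) hg) (fun y hy => by
      have := hle y hy
      linarith) x hx
  linarith

theorem log_sub {i j : Fin (n + 2)} (hij : i ≠ j) {c : ℝ} (hc : 0 < c) :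
    Sub D fun x => max (Real.log (c * ‖pl i j x‖)) 0 := by
  have cc : Continuous fun x : E n => c * ‖pl i j x‖ := by fun_prop
  have e : ∀ y : ℝ, 0 ≤ y → max (Real.log y) 0 = Real.log (max y 1) := fun y hy => by
    rcases le_total y 1 with h | h
    · rw [max_eq_right h, Real.log_one, max_eq_right (Real.log_nonpos hy h)]
    · rw [max_eq_left h, max_eq_left (Real.log_nonneg h)]
  have hO : IsOpen {x : E n | 1 < c * ‖pl i j x‖} := isOpen_lt continuous_const cc
  refine sb_loc hO ?_ (fun _ => le_max_right _ _) (fun x hx => ?_) fun x hx => ?_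
  · have e' : (fun x : E n => max (Real.log (c * ‖pl i j x‖)) 0) =
        fun x => Real.log (max (c * ‖pl i j x‖) 1) := funext fun x => e _ (by positivity)
    rw [e']
    exact (cc.max continuous_const).log fun x => (one_pos.trans_le (le_max_right _ _)).ne'
  · have hne : (c : ℂ) * pl i j x ≠ 0 := fun h0 => by
      have h1 : 1 < c * ‖pl i j x‖ := hx
      rcases mul_eq_zero.1 h0 with h2 | h2
      · exact hc.ne' (by exact_mod_cast h2)
      · rw [h2, norm_zero, mul_zero] at h1
        linarith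
    have a : HarmonicAt (fun w : ℂ => Real.log ‖(c : ℂ) * w‖) (pl i j x) :=
      AnalyticAt.harmonicAt_log_norm (f := fun w => (c : ℂ) * w) (by fun_prop) hne
    refine (harmonicAt_congr_nhds ?_).1 (harmonicAt_comp_pl hij a)
    filter_upwards [hO.mem_nhds hx] with y hy
    rw [norm_mul, Complex.norm_real, Real.norm_of_nonneg hc.le,
      max_eq_left (Real.log_nonneg (le_of_lt hy))]
  · exact max_eq_right (Real.log_nonpos (by positivity) (not_lt.1 hx))

theorem pos_sub (r : ℝ) (hr : 0 ≤ r) : Sub D fun x => max (|x 0| - r) 0 := by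
  have a : HarmonicOnNhd (fun x : E n => x 0) D := fun x _ => by
    simpa only [pl_re] using harmonicAt_re_pl (i := (0 : Fin (n + 2))) (j := 1) Fin.zero_ne_one
      (g := fun w => w) (x := x) analyticAt_id
  have e : (fun x : E n => max (|x 0| - r) 0) =
      fun x => max (max (x 0 - r) (-r - x 0)) 0 := funext fun x => by
    rcases le_total 0 (x 0) with h | h
    · rw [abs_of_nonneg h, max_eq_left (show -r - x 0 ≤ x 0 - r by linarith)]
    · rw [abs_of_nonpos h, max_eq_right (show x 0 - r ≤ -r - x 0 by linarith)]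
      congr 1
      ring
  rw [e]
  exact ((harm_sub (sb_minus a (sb_const r))).max (harm_sub (sb_minus (sb_const (-r)) a))).max
    (harm_sub (sb_const 0))

theorem split (hD : DIR n) (hH : LHM n) (hO : IsOpen D) (K : ℕ) (s : ℕ → E n → ℝ)
    (hs : ∀ k, Sub D (s k)) (h : E n → ℝ) (hh : HarmonicOnNhd h D)
    (hle : ∀ x ∈ D, ∑ k ∈ Finset.range K, s k x ≤ h x) :
    ∃ g : ℕ → E n → ℝ, (∀ k < K, HarmonicOnNhd (g k) D ∧ ∀ x ∈ D, s k x ≤ g k x) ∧
      ∀ x ∈ D, ∑ k ∈ Finset.range K, g k x ≤ h x := by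
  induction K generalizing h with
  | zero => exact ⟨s, fun k hk => absurd hk (Nat.not_lt_zero k), hle⟩
  | succ K ih =>
    have S := Sub.sum hD (Finset.range K) fun k _ => hs k
    have l0 : ∀ x ∈ D, s K x ≤ h x - ∑ k ∈ Finset.range K, s k x := fun x hx => by
      have := hle x hx
      rw [Finset.sum_range_succ] at this
      linarith
    obtain ⟨H, hH1, hH2, hH3⟩ := hH D hO (s K) _ _ (hs K) (sup_sub hh S) l0
      ((sb_cont hh).sub S.1) fun _ _ => le_rfl
    obtain ⟨g, g1, g2⟩ := ih (fun x => h x - H x) (sb_minus hh hH1) fun x hx => by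
      have := hH3 _ (sup_sub hh S) l0 x hx
      linarith
    refine ⟨fun k => if k = K then H else g k, fun k hk => ?_, fun x hx => ?_⟩
    · by_cases e : k = K
      · simp only [e, if_true]
        exact ⟨hH1, hH2⟩
      · simp only [e, if_false]
        exact g1 k (by omega)
    · rw [Finset.sum_range_succ, Finset.sum_congr rfl fun k hk =>
        (by rw [if_neg (Finset.mem_range.1 hk).ne] : (if k = K then H else g k) x = g k x)]
      simp only [if_true]
      linarith [g2 x hx]

theorem paste {Ψ g : E n → ℝ} (hΨ : HarmonicOnNhd Ψ D) (hg : HarmonicOnNhd g D) {r : ℝ}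
    (hle : ∀ x ∈ D, ‖x‖ = r → Ψ x ≤ g x) :
    Sup D fun x => if ‖x‖ < r then min (Ψ x) (g x) else Ψ x := by
  intro c ρ _ hB f cf hf h0 x hx
  have hb := ball_subset_closedBall.trans hB
  have s1 : ∀ y ∈ sphere c ρ, f y ≤ Ψ y := fun y hy => (h0 y hy).trans (by
    show (if ‖y‖ < r then min (Ψ y) (g y) else Ψ y) ≤ Ψ y
    split_ifs
    exacts [min_le_left _ _, le_rfl])
  have s2 := sb_ball hf (sb_mono hΨ hb) cf ((sb_cont hΨ).mono hB) s1
  show f x ≤ if ‖x‖ < r then min (Ψ x) (g x) else Ψ x
  split_ifs with hr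
  · refine le_min (s2 x hx) (sb_cmp (isOpen_ball.inter (isOpen_ball (x := (0 : E n)) (ε := r)))
      (isClosed_closedBall.inter (isClosed_closedBall (x := (0 : E n)) (ε := r)))
      (isBounded_closedBall.subset Set.inter_subset_left)
      (Set.inter_subset_inter ball_subset_closedBall ball_subset_closedBall)
      (sb_mono hf Set.inter_subset_left) (sb_mono hg (Set.inter_subset_left.trans hb))
      (cf.mono Set.inter_subset_left) ((sb_cont hg).mono (Set.inter_subset_left.trans hB))
      (fun y hy hy' => ?_) x ⟨hx, mem_ball_zero_iff.2 hr⟩)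
    by_cases h1 : ‖y‖ < r
    · have h2 := h0 y (sb_sph hy.1 fun h => hy' ⟨h, mem_ball_zero_iff.2 h1⟩)
      simp only [if_pos h1] at h2
      exact h2.trans (min_le_right _ _)
    · refine le_trans ?_ (hle y (hB hy.1)
        (le_antisymm (mem_closedBall_zero_iff.1 hy.2) (not_lt.1 h1)))
      by_cases h2 : y ∈ ball c ρ
      exacts [s2 y h2, s1 y (sb_sph hy.1 h2)]
  · exact s2 x hx

end Pool.Agent.P.MP_677f70_an.Ga
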