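import Pool.Agent.P.MP_677f70_an.GxCyl

set_option autoImplicit false

open Complex

namespace Pool.Agent.P.MP_677f70_an.Gx

theorem abs_arg_mul {z : ℂ} (hz : 0 < z.re) : |arg z| * z.re ≤ |z.im| := by
  have h1 : |arg z| < Real.pi / 2 := abs_arg_lt_pi_div_two_iff.2 (Or.inl hz)
  have h2 := Real.le_tan (abs_nonneg _) h1
  have h3 : Real.tan |arg z| ≤ |z.im| / z.re := by
    rcases le_total 0 (arg z) with h | h
    · rw [abs_of_nonneg h, tan_arg]
      exact div_le_div_of_nonneg_right (le_abs_self _) hz.le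
    · rw [abs_of_nonpos h, Real.tan_neg, tan_arg, ← neg_div]
      exact div_le_div_of_nonneg_right (neg_le_abs _) hz.le
  exact (le_div_iff₀ hz).1 (h2.trans h3)

/-- the quotient under the logarithm -/
noncomputable def zq (la : ℝ) (v : ℂ) : ℂ := (1 + la * v) / (1 + v)

theorem zq_arg {la : ℝ} (hl : 1 ≤ la) {v : ℂ} (hv : 0 ≤ v.re) :
    0 < (zq la v).re ∧ |arg (zq la v)| ≤ 2 ∧ |arg (zq la v)| ≤ la * ‖v‖ ∧
      ‖v‖ * |arg (zq la v)| ≤ 1 := by
  obtain ⟨N, hN⟩ : ∃ N, N = normSq (1 + v) := ⟨_, rfl⟩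
  have hN0 : 0 < N := by
    rw [hN, normSq_apply]
    simp only [add_re, one_re, add_im, one_im, zero_add]
    nlinarith [mul_self_nonneg v.im]
  have hr : ‖v‖ ^ 2 = v.re ^ 2 + v.im ^ 2 := by rw [Complex.sq_norm, normSq_apply]; ring
  have e1 : (zq la v).re = (1 + la * ‖v‖ ^ 2 + (la + 1) * v.re) / N := by
    rw [zq, div_re, ← hN, hr]
    simp only [add_re, one_re, add_im, one_im, zero_add, re_ofReal_mul, im_ofReal_mul]
    ring
  have e2 : (zq la v).im = (la - 1) * v.im / N := by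
    rw [zq, div_im, ← hN]
    simp only [add_re, one_re, add_im, one_im, zero_add, re_ofReal_mul, im_ofReal_mul]
    ring
  have a1 : 0 ≤ la * ‖v‖ ^ 2 := by positivity
  have a2 : 0 ≤ (la + 1) * v.re := by positivity
  have h1 : 0 < (zq la v).re := by rw [e1]; positivity
  have h2 := abs_arg_mul h1
  have h3 : |arg (zq la v)| < Real.pi / 2 := abs_arg_lt_pi_div_two_iff.2 (Or.inl h1)
  rw [e1, e2, abs_div, abs_of_pos hN0, ← mul_div_assoc, div_le_div_iff_of_pos_right hN0, abs_mul,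
    abs_of_nonneg (by linarith : 0 ≤ la - 1)] at h2
  obtain ⟨θ, hθ⟩ : ∃ θ, θ = |arg (zq la v)| := ⟨_, rfl⟩
  have θ0 : 0 ≤ θ := by rw [hθ]; exact abs_nonneg _
  rw [← hθ] at h2 h3 ⊢
  have h4 : (la - 1) * |v.im| ≤ la * ‖v‖ :=
    mul_le_mul (by linarith) (abs_im_le_norm v) (abs_nonneg _) (by linarith)
  have a3 := mul_nonneg θ0 a1
  have a4 := mul_nonneg θ0 a2
  refine ⟨h1, by linarith [Real.pi_lt_four], by linarith, ?_⟩
  rcases (norm_nonneg v).eq_or_lt with h | h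
  · rw [← h]; simp
  · have a5 : la * ‖v‖ * (‖v‖ * θ) ≤ la * ‖v‖ * 1 := by linarith
    exact le_of_mul_le_mul_left a5 (by positivity)

theorem zq_norm {la : ℝ} (hl : 1 ≤ la) {v : ℂ} (hv : 0 ≤ v.re) :
    0 ≤ Real.log ‖zq la v‖ ∧ Real.log ‖zq la v‖ ≤ la * ‖v‖ ∧ (1 ≤ ‖v‖ → la / 2 ≤ ‖zq la v‖) := by
  have h1 : 1 ≤ ‖1 + v‖ := by
    have := re_le_norm (1 + v)
    simp only [add_re, one_re] at this
    linarith
  have hq : ∀ w : ℂ, ‖w‖ ^ 2 = w.re ^ 2 + w.im ^ 2 := fun w => by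
    rw [Complex.sq_norm, normSq_apply]; ring
  have a1 := mul_nonneg (by linarith : 0 ≤ la - 1) hv
  have a2 : 0 ≤ la ^ 2 - 1 := by nlinarith
  have h2 : ‖1 + v‖ ≤ ‖1 + la * v‖ := by
    refine le_of_sq_le_sq ?_ (norm_nonneg _)
    rw [hq, hq]
    simp only [add_re, one_re, add_im, one_im, zero_add, re_ofReal_mul, im_ofReal_mul]
    nlinarith [mul_nonneg a2 (sq_nonneg v.re), mul_nonneg a2 (sq_nonneg v.im)]
  have h3 : ‖(la : ℂ) * v‖ = la * ‖v‖ := by
    rw [norm_mul, norm_real, Real.norm_of_nonneg (by linarith)]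
  have h4 : ‖1 + la * v‖ ≤ 1 + la * ‖v‖ := by
    have := norm_add_le (1 : ℂ) (la * v)
    rwa [norm_one, h3] at this
  have h5 : la * ‖v‖ ≤ ‖1 + la * v‖ := by
    rw [← h3]
    refine le_of_sq_le_sq ?_ (norm_nonneg _)
    rw [hq, hq]
    simp only [add_re, one_re, add_im, one_im, zero_add, re_ofReal_mul, im_ofReal_mul]
    nlinarith
  have h6 : ‖1 + v‖ ≤ 1 + ‖v‖ := by
    have := norm_add_le (1 : ℂ) v
    rwa [norm_one] at this
  have h7 : 1 ≤ ‖zq la v‖ := by rw [zq, norm_div, le_div_iff₀ (by linarith)]; linarith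
  have h8 : ‖zq la v‖ ≤ 1 + la * ‖v‖ := by
    rw [zq, norm_div]
    exact (div_le_self (norm_nonneg _) h1).trans h4
  refine ⟨Real.log_nonneg h7, ?_, fun h => ?_⟩
  · linarith [Real.log_le_sub_one_of_pos (by linarith : 0 < ‖zq la v‖)]
  · rw [zq, norm_div, le_div_iff₀ (by linarith)]
    nlinarith

/-- the barrier at the scale `U` -/
noncomputable def Lb (U : ℝ) (s : ℂ) : ℂ := log (zq (Real.exp (U / 2)) (exp (s - U)))

theorem v_re {U : ℝ} {s : ℂ} (hs : |s.im| ≤ Real.pi / 2) : 0 ≤ (exp (s - U)).re :=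
  (exp_re_bounds (s := s - U) (by simpa using hs)).1

theorem v_norm (U : ℝ) (s : ℂ) : ‖exp (s - U)‖ = Real.exp (s.re - U) := by
  rw [norm_exp]; simp

theorem Lb_an {U : ℝ} (hU : 0 ≤ U) {s : ℂ} (hs : |s.im| ≤ Real.pi / 2) :
    AnalyticAt ℂ (Lb U) s := by
  have h1 : AnalyticAt ℂ (fun s : ℂ => exp (s - U)) s :=
    (analyticAt_id.sub analyticAt_const).cexp'
  have h2 : (1 : ℂ) + exp (s - U) ≠ 0 := by
    intro h
    have := congrArg re h
    simp only [add_re, one_re, zero_re] at this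
    linarith [v_re (U := U) hs]
  have h3 : AnalyticAt ℂ (fun s : ℂ => zq (Real.exp (U / 2)) (exp (s - U))) s :=
    (analyticAt_const.add (analyticAt_const.mul h1)).div (analyticAt_const.add h1) h2
  exact h3.clog (Or.inl (zq_arg (Real.one_le_exp (by linarith)) (v_re hs)).1)

theorem Lb_facts {U : ℝ} (hU : 4 ≤ U) {s : ℂ} (hs : |s.im| ≤ Real.pi / 2) :
    |(Lb U s).im| ≤ 2 ∧ |(Lb U s).im| ≤ Real.exp (s.re - U / 2) ∧
      Real.exp (s.re - U) * |(Lb U s).im| ≤ 1 ∧ 0 ≤ (Lb U s).re ∧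
      (Lb U s).re ≤ Real.exp (s.re - U / 2) ∧ (U ≤ s.re → U / 4 ≤ (Lb U s).re) := by
  have hl : 1 ≤ Real.exp (U / 2) := Real.one_le_exp (by linarith)
  obtain ⟨-, a1, a2, a3⟩ := zq_arg hl (v_re (U := U) hs)
  obtain ⟨b1, b2, b3⟩ := zq_norm hl (v_re (U := U) hs)
  have e : Real.exp (U / 2) * Real.exp (s.re - U) = Real.exp (s.re - U / 2) := by
    rw [← Real.exp_add]; ring_nf
  rw [v_norm] at a2 a3 b2 b3
  rw [e] at a2 b2
  simp only [Lb, log_re, log_im]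
  refine ⟨a1, a2, a3, b1, b2, fun h => ?_⟩
  have c1 := Real.log_le_log (by positivity) (b3 (Real.one_le_exp (by linarith)))
  rw [Real.log_div (by positivity) (by norm_num), Real.log_exp] at c1
  linarith [Real.log_two_lt_d9]

theorem arg_cube {U σ θ : ℝ} (hU : 1000 ≤ U) (hσ : 0 ≤ σ) (h0 : 0 ≤ θ) (h2 : θ ≤ 2)
    (h1 : Real.exp (σ - U) * θ ≤ 1) : θ * (σ + U + 2) ^ 3 ≤ 729 * U ^ 3 := by
  have hU3 : 0 < U ^ 3 := by positivity
  rcases le_total σ U with h | h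
  · have a1 : (σ + U + 2) ^ 3 ≤ (3 * U) ^ 3 := pow_le_pow_left₀ (by linarith) (by linarith) 3
    have a2 := mul_le_mul h2 a1 (by positivity) (by norm_num)
    nlinarith
  · have a1 := Real.add_one_le_exp ((σ - U) / 3)
    have a2 : σ + U + 2 ≤ 9 * U * Real.exp ((σ - U) / 3) := by nlinarith
    have a3 := pow_le_pow_left₀ (by linarith) a2 3
    have a4 : (9 * U * Real.exp ((σ - U) / 3)) ^ 3 = 729 * U ^ 3 * Real.exp (σ - U) := by
      rw [mul_pow, ← Real.exp_nat_mul]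
      have : ((3 : ℕ) : ℝ) * ((σ - U) / 3) = σ - U := by push_cast; ring
      rw [this]; ring
    rw [a4] at a3
    have a5 := mul_le_mul_of_nonneg_left a3 h0
    have a6 := mul_le_mul_of_nonneg_left h1 (by positivity : 0 ≤ 729 * U ^ 3)
    linarith

end Pool.Agent.P.MP_677f70_an.Gx
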