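import Pool.Agent.P.MP_677f70_an.GxDom

set_option autoImplicit false

open InnerProductSpace Filter Pool.Agent.P.MP_677f70_an.Sh

namespace Pool.Agent.P.MP_677f70_an.Gx

/-- the half strip -/
def Sd (p : Par) : Set ℂ := {s | p.u 0 + 1 < s.re ∧ |s.im| < Real.pi / 2}

/-- the domain -/
def Dn (p : Par) (n : ℕ) : Set (E n) := {x | pl 0 1 x ∈ Phi p '' Sd p}

/-- real part of a function of the strip variable -/
noncomputable def lift (p : Par) (n : ℕ) (f : ℂ → ℂ) (x : E n) : ℝ := (f (Inv p (pl 0 1 x))).re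

variable {p : Par} {n : ℕ}

theorem mem_so {s : ℂ} (h1 : p.u 0 + 1 ≤ s.re) (h2 : |s.im| ≤ Real.pi / 2) : s ∈ So p :=
  ⟨by linarith, by linarith [Real.pi_lt_four]⟩

theorem sd_sub : Sd p ⊆ So p := fun _ hs => mem_so hs.1.le hs.2.le

theorem isOpen_sd : IsOpen (Sd p) :=
  (isOpen_lt continuous_const Complex.continuous_re).inter
    (isOpen_lt Complex.continuous_im.abs continuous_const)

theorem convex_sd : Convex ℝ (Sd p) := by
  have e : Sd p = {s : ℂ | p.u 0 + 1 < s.re} ∩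
      ({s : ℂ | -(Real.pi / 2) < s.im} ∩ {s : ℂ | s.im < Real.pi / 2}) := by
    ext s; simp [Sd, abs_lt]
  rw [e]
  exact (convex_halfSpace_re_gt _).inter
    ((convex_halfSpace_im_gt _).inter (convex_halfSpace_im_lt _))

theorem real_mem_sd {t : ℝ} (ht : p.u 0 + 1 < t) : (t : ℂ) ∈ Sd p :=
  ⟨by simpa using ht, by simp [Real.pi_pos]⟩

theorem lift_eq (h : Gd p) {s : ℂ} (hs : s ∈ So p) {x : E n} (hx : Phi p s = pl 0 1 x)
    (f : ℂ → ℂ) : lift p n f x = (f s).re := by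
  rw [lift, ← hx, inv_Phi h hs]

theorem harm_lift (h : Gd p) {s : ℂ} (hs : s ∈ So p) {x : E n} (hx : Phi p s = pl 0 1 x)
    {f : ℂ → ℂ} (hf : AnalyticAt ℂ f s) : HarmonicAt (lift p n f) x :=
  harmonicAt_re_pl (one_ne_zero' n).symm (g := fun w => f (Inv p w))
    (by rw [← hx]; exact analyticAt_comp_inv h hs hf)

theorem isOpen_dn (h : Gd p) : IsOpen (Dn p n) :=
  (isOpen_image h isOpen_sd sd_sub).preimage (pl (0 : Fin (n + 2)) 1).continuous

theorem contOn_Phi (h : Gd p) : ContinuousOn (Phi p) (So p) :=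
  fun _ hs => (analyticAt_Phi h (st_of_so hs)).continuousAt.continuousWithinAt

theorem isConnected_dn (h : Gd p) : IsConnected (Dn p n) := by
  have h1 : IsConnected (Phi p '' Sd p) :=
    (convex_sd.isConnected ⟨_, real_mem_sd (t := p.u 0 + 2) (by linarith)⟩).image _
      ((contOn_Phi h).mono sd_sub)
  have h2 := (h1.prod (isConnected_univ (α := E n))).image (fun p => put n p.1 p.2)
    (Continuous.continuousOn (by unfold put; fun_prop))
  have e : (fun p : ℂ × E n => put n p.1 p.2) '' ((Phi p '' Sd p) ×ˢ Set.univ) = Dn p n := by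
    ext x
    constructor
    · rintro ⟨⟨w, y⟩, hp, rfl⟩
      show pl 0 1 (put n w y) ∈ Phi p '' Sd p
      rw [pl_put]
      exact hp.1
    · exact fun hx => ⟨(pl 0 1 x, x), ⟨hx, trivial⟩, put_pl x⟩
  rwa [e] at h2

theorem not_bounded_dn (h : Gd p) : ¬ Bornology.IsBounded (Dn p n) := by
  intro hb
  obtain ⟨R, hR⟩ := hb.exists_norm_le
  have h0 := h.ge 0
  have hs := real_mem_sd (p := p) (t := p.u 0 + 2 + |R|) (by linarith [abs_nonneg R])
  have h1 := hR (put n (Phi p (p.u 0 + 2 + |R| : ℝ)) 0) ⟨_, hs, (pl_put _ _).symm⟩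
  have h2 := norm_pl_le (put n (Phi p (p.u 0 + 2 + |R| : ℝ)) 0)
  rw [pl_put] at h2
  have h3 := re_le_norm_Phi h (st_of_so (sd_sub hs))
  rw [Complex.ofReal_re] at h3
  linarith [le_abs_self R]

theorem major_norm (h : Gd p) :
    ∃ H : E n → ℝ, HarmonicOnNhd H (Dn p n) ∧ ∀ x ∈ Dn p n, ‖x‖ ≤ H x := by
  classical
  have key : ∀ x ∈ Dn p n, ∀ k : Fin (n + 2), ‖pl 0 1 x‖ ≤ √(x 0 ^ 2 + x 1 ^ 2 + x k ^ 2) ∧
      0 < ‖pl 0 1 x‖ ∧ -(‖pl 0 1 x‖ / 2) ≤ x 0 := by
    rintro x ⟨s, hs, hx⟩ k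
    have hS := st_of_so (sd_sub hs)
    refine ⟨Real.le_sqrt_of_sq_le (by rw [norm_pl_sq]; linarith [sq_nonneg (x k)]), ?_, ?_⟩
    · rw [← hx]; linarith [re_le_norm_Phi h hS, hS.pos h]
    · have := E4 h hS hs.2.le
      rwa [hx, pl_re] at this
  refine ⟨fun x => ∑ k : Fin (n + 2),
    ((if k = 0 ∨ k = 1 then 0 else 2 * WW 0 1 k x + 2 * lift p n (fun s => Phi p s * Lg p s) x)
      + 28 * lift p n (fun s => Complex.exp s * Pm p.u p.a 1 s) x), ?_, ?_⟩
  · intro x hx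
    obtain ⟨s, hs, hx'⟩ := id hx
    have hS := st_of_so (sd_sub hs)
    apply harmonicAt_sum Finset.univ (fun k x =>
      (if k = 0 ∨ k = 1 then 0 else 2 * WW 0 1 k x + 2 * lift p n (fun s => Phi p s * Lg p s) x)
        + 28 * lift p n (fun s => Complex.exp s * Pm p.u p.a 1 s) x)
    intro k _
    apply HarmonicAt.add (f₁ := fun x => if k = 0 ∨ k = 1 then 0 else
      2 * WW 0 1 k x + 2 * lift p n (fun s => Phi p s * Lg p s) x)
      (f₂ := fun x => 28 * lift p n (fun s => Complex.exp s * Pm p.u p.a 1 s) x)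
    · by_cases hk : k = 0 ∨ k = 1
      · simp [hk]
      · simp only [hk, if_false]
        rw [not_or] at hk
        obtain ⟨k1, k2, k3⟩ := key x hx k
        exact (harmonicAt_mul 2 (harmonicAt_WW (one_ne_zero' n).symm (Ne.symm hk.1) (Ne.symm hk.2)
          (by linarith))).add (harmonicAt_mul 2 (harm_lift h (sd_sub hs) hx'
            ((analyticAt_Phi h hS).mul (analyticAt_Lg h hS))))
    · exact harmonicAt_mul _ (harm_lift h (sd_sub hs) hx'
        (analyticAt_cexp.mul (h.okA.analyticAt (hS.pos h))))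
  · intro x hx
    obtain ⟨s, hs, hx'⟩ := id hx
    have hS := st_of_so (sd_sub hs)
    refine (norm_le_sum x).trans (Finset.sum_le_sum fun k _ => ?_)
    rw [lift_eq h (sd_sub hs) hx', lift_eq h (sd_sub hs) hx']
    have h1 := E1 h hS hs.2.le
    have h2 := E5 h hS
    have h3 := Complex.abs_re_le_norm (pl 0 1 x)
    have h4 := Complex.abs_im_le_norm (pl 0 1 x)
    obtain ⟨k1, k2, k3⟩ := key x hx k
    rw [pl_re] at h3
    rw [pl_im] at h4
    by_cases hk : k = 0 ∨ k = 1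
    · simp only [hk, if_true]
      rw [hx'] at h1
      rcases hk with rfl | rfl <;> linarith
    · simp only [hk, if_false]
      have h5 := rho_le k2 k3 ((le_abs_self _).trans h3) k1
      have h6 : |x k| ≤ √(x 0 ^ 2 + x 1 ^ 2 + x k ^ 2) :=
        Real.abs_le_sqrt (by linarith [sq_nonneg (x 0), sq_nonneg (x 1)])
      have h7 : (Phi p s).re = x 0 := by rw [hx', pl_re]
      have h8 : ‖Phi p s‖ = ‖pl 0 1 x‖ := by rw [hx']
      rw [h7, h8] at h2
      rw [h8] at h1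
      unfold WW
      linarith

/-- `x` lies over the point `s` of the closed rectangle -/
structure Cl (p : Par) (T : ℝ) (s : ℂ) (x : E n) : Prop where
  lo : p.u 0 + 1 ≤ s.re
  hi : s.re ≤ T
  im : |s.im| ≤ Real.pi / 2
  eq : Phi p s = pl 0 1 x

theorem Cl.so {T : ℝ} {s : ℂ} {x : E n} (c : Cl p T s x) : s ∈ So p := mem_so c.lo c.im

theorem Cl.st {T : ℝ} {s : ℂ} {x : E n} (c : Cl p T s x) : St p s := st_of_so c.so

theorem exp_re_bounds {s : ℂ} (ht : |s.im| ≤ Real.pi / 2) :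
    0 ≤ (Complex.exp s).re ∧ (Complex.exp s).re ≤ Real.exp s.re := by
  constructor
  · rw [Complex.exp_re]
    exact mul_nonneg (Real.exp_pos _).le (trig ht).1
  · rw [← Complex.norm_exp]; exact Complex.re_le_norm _

theorem test (h : Gd p) {T K B : ℝ} (hT : p.u 0 + 4 ≤ T) (hK : 0 ≤ K) (hB0 : 0 ≤ B)
    {H w M : E n → ℝ} (hH : HarmonicOnNhd H (Dn p n))
    (hw : ∀ s x, Cl p T s x → HarmonicAt w x) (hM : Continuous M)
    (hMH : ∀ x ∈ Dn p n, M x ≤ H x)
    (hB : ∀ s x, Cl p T s x → w x - M x ≤ B + B * ‖x‖)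
    (hl : ∀ s x, Cl p T s x → (s.re = p.u 0 + 1 ∨ |s.im| = Real.pi / 2) →
      w x - M x ≤ K * (Complex.exp s).re)
    (hr : ∀ s x, Cl p T s x → s.re = T → w x - M x ≤ -(K * (Complex.exp s).re))
    {x0 : E n} (hx0 : Phi p (p.u 0 + 1 + 2 : ℝ) = pl 0 1 x0) : K + w x0 ≤ H x0 := by
  have hu0 := h.ge 0
  have hs0 := real_mem_sd (p := p) (t := p.u 0 + 1 + 2) (by linarith)
  obtain ⟨C, hC⟩ : ∃ C, C = Real.exp (p.u 0 + 1) := ⟨_, rfl⟩
  have hC1 : 1 ≤ C := by rw [hC]; exact Real.one_le_exp (by linarith)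
  set Ro : Set ℂ := {s | s ∈ Sd p ∧ s.re < T} with hRo
  set Rc : Set ℂ := Set.Icc (p.u 0 + 1) T ×ℂ Set.Icc (-(Real.pi / 2)) (Real.pi / 2) with hRc
  have hmem : ∀ s ∈ Rc, ∀ x : E n, Phi p s = pl 0 1 x → Cl p T s x :=
    fun s hs x hx => ⟨hs.1.1, hs.1.2, abs_le.2 hs.2, hx⟩
  have hRcS : Rc ⊆ So p := fun s hs => mem_so hs.1.1 (abs_le.2 hs.2)
  have hRoc : Ro ⊆ Rc := fun s hs => ⟨⟨hs.1.1.le, hs.2.le⟩, abs_le.1 hs.1.2.le⟩
  have hcomp : IsCompact (Phi p '' Rc) :=
    (isCompact_Icc.reProdIm isCompact_Icc).image_of_continuousOn ((contOn_Phi h).mono hRcS)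
  obtain ⟨R, hR⟩ := hcomp.isBounded.exists_norm_le
  obtain ⟨P, hPh, hP⟩ := exists_P (n := n) R
  set Ω : Set (E n) := {x | pl 0 1 x ∈ Phi p '' Ro} with hΩ
  set F : Set (E n) := {x | pl 0 1 x ∈ Phi p '' Rc} with hF
  have hΩo : IsOpen Ω := (isOpen_image h
    (isOpen_sd.inter (isOpen_lt Complex.continuous_re continuous_const))
    (hRoc.trans hRcS)).preimage (pl (0 : Fin (n + 2)) 1).continuous
  have hFc : IsClosed F := hcomp.isClosed.preimage (pl (0 : Fin (n + 2)) 1).continuous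
  have hΩF : Ω ⊆ F := fun x hx => Set.image_mono hRoc hx
  have hΩD : Ω ⊆ Dn p n := fun x hx => Set.image_mono (fun s hs => hs.1) hx
  have hx0Ω : x0 ∈ Ω := ⟨_, ⟨hs0, by rw [Complex.ofReal_re]; linarith⟩, hx0⟩
  have hFR : ∀ x ∈ F, x 0 ^ 2 ≤ R ^ 2 := by
    intro x hx
    have h1 := (Complex.abs_re_le_norm _).trans (hR _ hx)
    rw [pl_re] at h1
    rw [← sq_abs]
    exact pow_le_pow_left₀ (abs_nonneg _) h1 2
  obtain ⟨v, hv⟩ : ∃ v : E n → ℝ, v = fun x => K * (lift p n Complex.exp x - 2 * C) + w x :=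
    ⟨_, rfl⟩
  have hvh : ∀ x ∈ F, HarmonicAt v x := by
    rintro x ⟨s, hs, hx⟩
    rw [hv]
    exact (harmonicAt_mul K ((harm_lift h (hRcS hs) hx analyticAt_cexp).sub
      (harmonicAt_const (2 * C)))).add (hw s x (hmem s hs x hx))
  have hve : ∀ s ∈ Rc, ∀ x : E n, Phi p s = pl 0 1 x →
      v x = K * ((Complex.exp s).re - 2 * C) + w x := by
    intro s hs x hx
    simp only [hv, lift_eq h (hRcS hs) hx]
  have hKC : 0 ≤ K * C := by positivity
  have hbdry : ∀ x ∈ F, x ∉ Ω → v x - M x ≤ 0 := by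
    rintro x ⟨s, hs, hx⟩ hxΩ
    have c := hmem s hs x hx
    obtain ⟨h2, h3⟩ := exp_re_bounds c.im
    rw [hve s hs x hx]
    by_cases c1 : s.re = p.u 0 + 1
    · have a0 := hl s x c (Or.inl c1)
      rw [c1, ← hC] at h3
      have a2 := mul_le_mul_of_nonneg_left h3 hK
      linarith
    by_cases c2 : s.re = T
    · have a0 := hr s x c c2
      linarith
    · have a1 : |s.im| = Real.pi / 2 := by
        by_contra hne
        exact hxΩ ⟨s, ⟨⟨lt_of_le_of_ne c.lo (Ne.symm c1), lt_of_le_of_ne c.im hne⟩,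
          lt_of_le_of_ne c.hi c2⟩, hx⟩
      have a0 := hl s x c (Or.inr a1)
      have a2 : (Complex.exp s).re = 0 := by
        rw [Complex.exp_re, ← Real.cos_abs, a1, Real.cos_pi_div_two, mul_zero]
      rw [a2] at a0 ⊢
      linarith
  have hbound : ∀ x ∈ F, v x - M x ≤ K * Real.exp T + B + B * ‖x‖ := by
    rintro x ⟨s, hs, hx⟩
    have c := hmem s hs x hx
    obtain ⟨h2, h3⟩ := exp_re_bounds c.im
    have a2 := mul_le_mul_of_nonneg_left (h3.trans (Real.exp_le_exp.2 c.hi)) hK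
    have a3 := hB s x c
    rw [hve s hs x hx]
    linarith
  have main : ∀ ε > 0, v x0 - H x0 - ε * P x0 ≤ 0 := by
    intro ε hε
    refine max_principle (0 : Fin (n + 2)) hΩo hFc hΩF (R := R ^ 2)
      (u := fun x => v x - H x - ε * P x)
      (ψ := fun x => v x - M x - ε * P x) ?_ ?_ ?_ ?_ ?_ ?_ x0 hx0Ω
    · exact fun x hx => hFR x (hΩF hx)
    · intro x hx
      exact ((hvh x (hΩF hx)).sub (hH x (hΩD hx))).sub (harmonicAt_mul ε (hPh x))
    · intro x hx
      apply ContinuousAt.continuousWithinAt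
      exact ((hvh x hx).1.continuousAt.sub hM.continuousAt).sub
        (harmonicAt_mul ε (hPh x)).1.continuousAt
    · intro x hx
      linarith [hMH x (hΩD hx)]
    · intro x hx hxΩ
      have := mul_nonneg hε.le (hP x (hFR x hx)).2
      linarith [hbdry x hx hxΩ]
    · intro η hη
      rw [isBounded_iff_forall_norm_le]
      refine ⟨(K * Real.exp T + B) / ε + R ^ 2 + B / ε + 1, fun x hx => ?_⟩
      have h1 := hbound x hx.1
      have h2 := mul_le_mul_of_nonneg_left (hP x (hFR x hx.1)).1 hε.le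
      have h3 : ε * (‖x‖ ^ 2 - R ^ 2) ≤ K * Real.exp T + B + B * ‖x‖ := by linarith [hx.2]
      have h4 : ‖x‖ ^ 2 - R ^ 2 ≤ (K * Real.exp T + B) / ε + B / ε * ‖x‖ := by
        rw [div_mul_eq_mul_div, ← add_div, le_div_iff₀ hε]; linarith
      have h5 : 0 ≤ (K * Real.exp T + B) / ε := by have := Real.exp_pos T; positivity
      have h6 : 0 ≤ B / ε := by positivity
      by_contra hlt
      push Not at hlt
      have h7 := sq_nonneg R
      have h8 : 1 ≤ ‖x‖ := by linarith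
      nlinarith
  have hP0 := (hP x0 (hFR x0 (hΩF hx0Ω))).2
  have hle : v x0 ≤ H x0 := by
    by_contra hlt
    push Not at hlt
    have h1 := main ((v x0 - H x0) / (P x0 + 1)) (div_pos (by linarith) (by linarith))
    have h2 : (v x0 - H x0) / (P x0 + 1) * P x0 < v x0 - H x0 := by
      rw [div_mul_eq_mul_div, div_lt_iff₀ (by linarith)]
      nlinarith
    linarith
  have hM3 : 3 * C ≤ lift p n Complex.exp x0 := by
    rw [lift_eq h (sd_sub hs0) hx0, Complex.exp_ofReal_re, Real.exp_add, ← hC]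
    have := Real.add_one_le_exp 2
    nlinarith
  have h1 : K * 1 ≤ K * (lift p n Complex.exp x0 - 2 * C) :=
    mul_le_mul_of_nonneg_left (by linarith) hK
  simp only [hv] at hle
  linarith

end Pool.Agent.P.MP_677f70_an.Gx
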