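import Pool.Agent.P.MP_677f70_an.GxFacts

set_option autoImplicit false

open Complex Topology Filter Pool.Agent.P.MP_677f70_an.Sh

namespace Pool.Agent.P.MP_677f70_an.Gx

noncomputable def gg (p : Par) (s : ℂ) : ℂ := Pm p.u p.a 2 s + 16 * I * Pm p.u p.b 3 s
noncomputable def Phi (p : Par) (s : ℂ) : ℂ := exp s * gg p s
noncomputable def Lg (p : Par) (s : ℂ) : ℂ := s + log (gg p s)

/-- the open large strip -/
def So (p : Par) : Set ℂ := {s | p.u 0 < s.re ∧ |s.im| < 2}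

noncomputable def Inv (p : Par) : ℂ → ℂ := Function.invFunOn (Phi p) (So p)

variable {p : Par} {s : ℂ}

theorem st_of_so (hs : s ∈ So p) : St p s := ⟨hs.1.le, hs.2.le⟩

theorem isOpen_so : IsOpen (So p) :=
  (isOpen_lt continuous_const continuous_re).inter (isOpen_lt continuous_im.abs continuous_const)

theorem convex_so : Convex ℝ (So p) := by
  have e : So p = {s : ℂ | p.u 0 < s.re} ∩ ({s : ℂ | -2 < s.im} ∩ {s : ℂ | s.im < 2}) := by
    ext s; simp [So, abs_lt]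
  rw [e]
  exact (convex_halfSpace_re_gt _).inter
    ((convex_halfSpace_im_gt _).inter (convex_halfSpace_im_lt _))

theorem G0_pos (h : Gd p) (hs : St p s) : 0 < G0 p s := by
  have h1 := G0_ge h hs
  by_contra h2
  have := mul_nonpos_of_nonneg_of_nonpos (sq_nonneg s.re) (not_lt.1 h2)
  linarith

theorem g1_norm (h : Gd p) (hs : St p s) : ‖Pm p.u p.b 3 s‖ ≤ G1 p s :=
  h.okT.succ.norm_le (hs.pos h)

theorem gg_re (h : Gd p) (hs : St p s) : 88 / 100 * G0 p s ≤ (gg p s).re := by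
  have h1 := g0_re h hs
  have h2 := (abs_le.1 ((abs_im_le_norm _).trans (g1_norm h hs))).2
  have h3 := G1_le h hs
  have h4 := G0_pos h hs
  have e : (gg p s).re = (Pm p.u p.a 2 s).re - 16 * (Pm p.u p.b 3 s).im := by simp [gg]; ring
  linarith

theorem gg_norm (h : Gd p) (hs : St p s) : ‖gg p s‖ ≤ 102 / 100 * G0 p s := by
  have h1 : ‖Pm p.u p.a 2 s‖ ≤ G0 p s := h.okA.succ.norm_le (hs.pos h)
  have h2 := g1_norm h hs
  have h3 := G1_le h hs
  have h4 := G0_pos h hs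
  have h5 := norm_add_le (Pm p.u p.a 2 s) (16 * I * Pm p.u p.b 3 s)
  have e : ‖16 * I * Pm p.u p.b 3 s‖ = 16 * ‖Pm p.u p.b 3 s‖ := by simp
  unfold gg
  linarith

theorem gg_im (h : Gd p) (hs : St p s) :
    10 * G1 p s ≤ (gg p s).im ∧ (gg p s).im ≤ 20 * G1 p s := by
  have h1 := abs_le.1 (g0_im h hs)
  have h2 := g1_re h hs
  have h3 := (re_le_norm _).trans (g1_norm h hs)
  have h4 := G1_nonneg h hs
  have e : (gg p s).im = (Pm p.u p.a 2 s).im + 16 * (Pm p.u p.b 3 s).re := by simp [gg]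
  constructor <;> linarith [h1.1, h1.2]

theorem gg_norm_ge (h : Gd p) (hs : St p s) : 88 / 100 * G0 p s ≤ ‖gg p s‖ :=
  (gg_re h hs).trans (re_le_norm _)

theorem gg_slit (h : Gd p) (hs : St p s) : gg p s ∈ slitPlane :=
  Or.inl (by linarith [gg_re h hs, G0_pos h hs])

theorem gg_ne (h : Gd p) (hs : St p s) : gg p s ≠ 0 := slitPlane_ne_zero (gg_slit h hs)

theorem gg_deriv (h : Gd p) (hs : St p s) :
    ∃ g' : ℂ, HasDerivAt (gg p) g' s ∧ ‖g'‖ ≤ 1 / 10 * ‖gg p s‖ := by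
  have hp := hs.pos h
  refine ⟨_, (h.okA.succ.hasDerivAt hp).add ((h.okT.succ.hasDerivAt hp).const_mul (16 * I)), ?_⟩
  have h1 := h.okA.succ.succ.norm_le hp
  have h2 := h.okT.succ.succ.norm_le hp
  have h3 : s.re * Nm p.u p.a (1 + 1 + 1) s ≤ G0 p s := h.okA.succ.N_succ hp
  have h4 : s.re * Nm p.u p.b (2 + 1 + 1) s ≤ G1 p s := h.okT.succ.N_succ hp
  have h5 := mul_le_mul_of_nonneg_right (hs.ge h) (h.okA.succ.succ.N_nonneg hp)
  have h6 := mul_le_mul_of_nonneg_right (hs.ge h) (h.okT.succ.succ.N_nonneg hp)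
  have h7 := G1_le h hs
  have h8 := gg_norm_ge h hs
  have h9 := G0_pos h hs
  refine (norm_add_le _ _).trans ?_
  have e1 : ‖-((1 + 1 : ℕ) : ℂ) * Pm p.u p.a (1 + 1 + 1) s‖ = 2 * ‖Pm p.u p.a (1 + 1 + 1) s‖ := by
    simp
  have e2 : ‖16 * I * (-((2 + 1 : ℕ) : ℂ) * Pm p.u p.b (2 + 1 + 1) s)‖
      = 48 * ‖Pm p.u p.b (2 + 1 + 1) s‖ := by
    simp; ring
  rw [e1, e2]
  linarith

theorem analyticAt_gg (h : Gd p) (hs : St p s) : AnalyticAt ℂ (gg p) s :=
  (h.okA.succ.analyticAt (hs.pos h)).add (analyticAt_const.mul (h.okT.succ.analyticAt (hs.pos h)))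

theorem analyticAt_Phi (h : Gd p) (hs : St p s) : AnalyticAt ℂ (Phi p) s :=
  analyticAt_cexp.mul (analyticAt_gg h hs)

theorem analyticAt_Lg (h : Gd p) (hs : St p s) : AnalyticAt ℂ (Lg p) s :=
  analyticAt_id.add ((analyticAt_gg h hs).clog (gg_slit h hs))

theorem exp_Lg (h : Gd p) (hs : St p s) : exp (Lg p s) = Phi p s := by
  rw [Lg, exp_add, exp_log (gg_ne h hs), Phi]

theorem log_lip (h : Gd p) {s t : ℂ} (hs : s ∈ So p) (ht : t ∈ So p) :
    ‖log (gg p t) - log (gg p s)‖ ≤ 1 / 10 * ‖t - s‖ := by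
  refine Convex.norm_image_sub_le_of_norm_deriv_le (𝕜 := ℂ) (f := fun z => log (gg p z))
    (fun z hz => ?_) (fun z hz => ?_) convex_so hs ht
  · exact ((analyticAt_gg h (st_of_so hz)).clog (gg_slit h (st_of_so hz))).differentiableAt
  · obtain ⟨g', h1, h2⟩ := gg_deriv h (st_of_so hz)
    rw [(h1.clog (gg_slit h (st_of_so hz))).deriv, norm_div,
      div_le_iff₀ (norm_pos_iff.2 (gg_ne h (st_of_so hz)))]
    exact h2

theorem injOn_Phi (h : Gd p) : Set.InjOn (Phi p) (So p) := by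
  intro s hs t ht hst
  rw [← exp_Lg h (st_of_so hs), ← exp_Lg h (st_of_so ht)] at hst
  obtain ⟨n, hn⟩ := exp_eq_exp_iff_exists_int.1 hst
  have h1 := log_lip h hs ht
  obtain ⟨e, he⟩ : ∃ e, e = log (gg p t) - log (gg p s) := ⟨_, rfl⟩
  obtain ⟨d, hd⟩ : ∃ d, d = t - s := ⟨_, rfl⟩
  rw [← he, ← hd] at h1
  have h2 : d + e = -(n * (2 * Real.pi * I)) := by
    rw [he, hd]; unfold Lg at hn; linear_combination -hn
  have h3 : d.re = -e.re := by
    have := congrArg re h2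
    simp at this
    linarith
  have h4 : |d.im| ≤ 4 := by
    have a1 := abs_lt.1 hs.2
    have a2 := abs_lt.1 ht.2
    rw [hd, sub_im, abs_le]
    constructor <;> linarith [a1.1, a1.2, a2.1, a2.2]
  have h5 := norm_le_abs_re_add_abs_im d
  have h6 := abs_re_le_norm e
  rw [h3, abs_neg] at h5
  have h7 : ‖d + e‖ = |(n : ℝ)| * (2 * Real.pi) := by
    rw [h2]; simp [abs_of_pos Real.pi_pos]
  have h8 := norm_add_le d e
  have h9 : |(n : ℝ)| < 1 := by
    by_contra hh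
    have := mul_le_mul_of_nonneg_right (not_lt.1 hh) (by positivity : 0 ≤ 2 * Real.pi)
    linarith [Real.pi_gt_three]
  have h10 : n = 0 := by
    have : |n| < 1 := by exact_mod_cast h9
    exact Int.abs_lt_one_iff.1 this
  have h11 : d = -e := by rw [h10] at h2; simp at h2; linear_combination h2
  have h12 : ‖d‖ = ‖e‖ := by rw [h11, norm_neg]
  have h13 : ‖d‖ = 0 := by linarith [norm_nonneg d]
  rw [norm_eq_zero, hd, sub_eq_zero] at h13
  exact h13.symm

theorem Phi_strict (h : Gd p) (hs : St p s) :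
    ∃ f' : ℂ, f' ≠ 0 ∧ HasStrictDerivAt (Phi p) f' s := by
  obtain ⟨g', h1, h2⟩ := gg_deriv h hs
  have h3 : HasDerivAt (Phi p) (exp s * gg p s + exp s * g') s := (hasDerivAt_exp s).mul h1
  refine ⟨_, ?_, h3.deriv ▸ (analyticAt_Phi h hs).hasStrictDerivAt⟩
  rw [← mul_add]
  refine mul_ne_zero (exp_ne_zero s) fun h4 => ?_
  have h5 : g' = -gg p s := by linear_combination h4
  rw [h5, norm_neg] at h2
  linarith [norm_pos_iff.2 (gg_ne h hs)]

theorem inv_Phi (h : Gd p) (hs : s ∈ So p) : Inv p (Phi p s) = s :=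
  (injOn_Phi h).leftInvOn_invFunOn hs

theorem isOpen_image (h : Gd p) {V : Set ℂ} (hV : IsOpen V) (hVS : V ⊆ So p) :
    IsOpen (Phi p '' V) := by
  rw [isOpen_iff_mem_nhds]
  rintro _ ⟨s, hs, rfl⟩
  obtain ⟨f', h1, h2⟩ := Phi_strict h (st_of_so (hVS hs))
  rw [← h2.map_nhds_eq h1]
  exact image_mem_map (hV.mem_nhds hs)

theorem analyticAt_inv (h : Gd p) (hs : s ∈ So p) : AnalyticAt ℂ (Inv p) (Phi p s) := by
  have hO := isOpen_image h isOpen_so subset_rfl
  refine DifferentiableOn.analyticAt (s := Phi p '' So p) ?_ (hO.mem_nhds ⟨s, hs, rfl⟩)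
  rintro _ ⟨t, ht, rfl⟩
  obtain ⟨f', h1, h2⟩ := Phi_strict h (st_of_so ht)
  have h3 := h2.to_local_left_inverse h1 (g := Inv p)
    (by filter_upwards [isOpen_so.mem_nhds ht] with x hx using inv_Phi h hx)
  exact h3.hasDerivAt.differentiableAt.differentiableWithinAt

theorem analyticAt_comp_inv (h : Gd p) (hs : s ∈ So p) {f : ℂ → ℂ} (hf : AnalyticAt ℂ f s) :
    AnalyticAt ℂ (fun w => f (Inv p w)) (Phi p s) :=
  AnalyticAt.comp (g := f) (by rwa [inv_Phi h hs]) (analyticAt_inv h hs)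

theorem norm_Phi (p : Par) (s : ℂ) : ‖Phi p s‖ = Real.exp s.re * ‖gg p s‖ := by
  rw [Phi, norm_mul, norm_exp]

theorem re_le_norm_Phi (h : Gd p) (hs : St p s) : s.re ≤ ‖Phi p s‖ := by
  have h1 := gg_norm_ge h hs
  have h2 := G0_ge h hs
  have h3 := exp_ge (t := s.re) (by linarith [hs.ge h])
  have h4 := G0_pos h hs
  have h5 := hs.pos h
  rw [norm_Phi]
  calc s.re ≤ 8 * s.re * (88 / 100) * (s.re ^ 2 * G0 p s) := by nlinarith
    _ = 8 * s.re ^ 3 * (88 / 100 * G0 p s) := by ring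
    _ ≤ _ := by gcongr

theorem E1 (h : Gd p) (hs : St p s) (ht : |s.im| ≤ Real.pi / 2) :
    ‖Phi p s‖ ≤ 2 * (exp s * Pm p.u p.a 1 s).re := by
  have h1 := A_re h hs ht
  have h2 := mul_le_mul_of_nonneg_left (gg_norm h hs) (Real.exp_pos s.re).le
  have h3 := mul_pos (Real.exp_pos s.re) (G0_pos h hs)
  rw [norm_Phi]
  linarith

theorem Phi_re (p : Par) (s : ℂ) : (Phi p s).re
    = Real.exp s.re * (Real.cos s.im * (gg p s).re - Real.sin s.im * (gg p s).im) :=
  exp_mul_re _ _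

theorem E2 (h : Gd p) (hs : St p s) (ht : |s.im| ≤ Real.pi / 2) :
    |(Phi p s).re| ≤ 12 * (exp s * Pm p.u p.b 2 s).re := by
  have h1 := T_re h hs ht
  obtain ⟨t1, t2, t3⟩ := trig ht
  have h2 := (abs_re_le_norm _).trans (gg_norm h hs)
  have h3 := gg_im h hs
  have h4 := G1_nonneg h hs
  have h5 := G0_le_T0 h hs
  have h6 := G1_le h hs
  have h7 : |Real.cos s.im * (gg p s).re - Real.sin s.im * (gg p s).im|
      ≤ Real.cos s.im * (102 / 100 * T0 p s) + |Real.sin s.im| * (20 * G1 p s) := by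
    refine (abs_sub _ _).trans ?_
    rw [abs_mul, abs_mul, abs_of_nonneg t1, abs_of_nonneg (by linarith [h3.1] : 0 ≤ (gg p s).im)]
    gcongr
    · linarith
    · exact h3.2
  have h8 : 0 ≤ Real.cos s.im * T0 p s := mul_nonneg t1 (by linarith)
  have h9 : 0 ≤ s.im * Real.sin s.im * G1 p s := mul_nonneg t2 h4
  have h10 : |Real.sin s.im| * (20 * G1 p s) ≤ Real.cos s.im * T0 p s
      + 20 * (s.im * Real.sin s.im * G1 p s) := by
    rcases t3 with t3 | t3
    · have a1 := mul_le_mul_of_nonneg_right (Real.abs_sin_le_one s.im) h4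
      have a2 := mul_le_mul_of_nonneg_right t3 (by linarith : 0 ≤ T0 p s)
      linarith
    · have a1 := mul_le_mul_of_nonneg_right t3.1 h4
      linarith
  rw [Phi_re, abs_mul, abs_of_pos (Real.exp_pos _)]
  refine le_trans ?_ (mul_le_mul_of_nonneg_left h1 (by norm_num))
  have h11 : |Real.cos s.im * (gg p s).re - Real.sin s.im * (gg p s).im|
      ≤ 12 * (9 / 10 * Real.cos s.im * T0 p s + 9 / 5 * (s.im * Real.sin s.im) * G1 p s) := by
    linarith
  have := mul_le_mul_of_nonneg_left h11 (Real.exp_pos s.re).le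
  linarith

theorem E4 (h : Gd p) (hs : St p s) (ht : |s.im| ≤ Real.pi / 2) :
    -(‖Phi p s‖ / 2) ≤ (Phi p s).re := by
  obtain ⟨t1, -, -⟩ := trig ht
  have h1 := gg_re h hs
  have h2 := gg_norm_ge h hs
  have h3 := gg_im h hs
  have h4 := G1_nonneg h hs
  have h5 := G1_le h hs
  have h6 : 0 ≤ Real.cos s.im * (gg p s).re := mul_nonneg t1 (by linarith)
  have h7 := mul_le_mul_of_nonneg_right (Real.sin_le_one s.im)
    (by linarith [h3.1] : 0 ≤ (gg p s).im)
  have h8 : -(‖gg p s‖ / 2) ≤ Real.cos s.im * (gg p s).re - Real.sin s.im * (gg p s).im := by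
    linarith [h3.2]
  have := mul_le_mul_of_nonneg_left h8 (Real.exp_pos s.re).le
  rw [norm_Phi, Phi_re]
  linarith

theorem E5 (h : Gd p) (hs : St p s) :
    (Phi p s).re * Real.log ‖Phi p s‖ ≤ (Phi p s * Lg p s).re + 6 * ‖Phi p s‖ := by
  have h1 : (Lg p s).re = Real.log ‖Phi p s‖ := by
    rw [← exp_Lg h hs, norm_exp, Real.log_exp]
  have h2 : |(Lg p s).im| ≤ 6 := by
    have a1 := abs_arg_le_pi (gg p s)
    have a2 := hs.im
    have a3 := abs_add_le s.im (arg (gg p s))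
    rw [Lg, add_im, log_im]
    linarith [Real.pi_lt_four]
  have h3 : (Phi p s).im * (Lg p s).im ≤ ‖Phi p s‖ * 6 := by
    refine (le_abs_self _).trans ?_
    rw [abs_mul]
    exact mul_le_mul (abs_im_le_norm _) h2 (abs_nonneg _) (norm_nonneg _)
  rw [mul_re, h1]
  linarith

end Pool.Agent.P.MP_677f70_an.Gx
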