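import Pool.Agent.P.MP_677f70_an.ShMain

set_option autoImplicit false

open Complex Pool.Agent.P.MP_677f70_an.Sh

namespace Pool.Agent.P.MP_677f70_an.Gx

/-- nodes `u` and two coefficient sequences -/
structure Par where
  u : ℕ → ℝ
  a : ℕ → ℝ
  b : ℕ → ℝ

structure Gd (p : Par) : Prop where
  ge : ∀ k, 1000 ≤ p.u k
  a0 : ∀ k, 0 ≤ p.a k
  ab : ∀ k, p.a k ≤ p.b k
  a27 : 27 ≤ p.a 0
  sa : Summable fun k => p.a k / p.u k
  bl : ∀ k, 1000 * p.b k ≤ p.a k * (1000 + p.u k)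

variable {p : Par} {s : ℂ}

theorem Gd.b0 (h : Gd p) (k : ℕ) : 0 ≤ p.b k := (h.a0 k).trans (h.ab k)

theorem Gd.okA (h : Gd p) : Ok p.u p.a 1 :=
  ⟨h.a0, fun k => by linarith [h.ge k], by simpa using h.sa⟩

theorem Gd.okT (h : Gd p) : Ok p.u p.b 2 := by
  refine ⟨h.b0, fun k => by linarith [h.ge k], ?_⟩
  refine h.sa.of_nonneg_of_le (fun k => ?_) fun k => ?_
  · have := h.b0 k
    positivity
  · have h1 := h.ge k
    have h2 := h.bl k
    have h3 := h.a0 k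
    have h4 := mul_le_mul_of_nonneg_left h1 h3
    have h5 : p.b k ≤ p.a k * p.u k := by nlinarith
    rw [div_le_div_iff₀ (by positivity) (by positivity)]
    have h6 := mul_le_mul_of_nonneg_right h5 (by linarith : 0 ≤ p.u k)
    nlinarith

noncomputable def G0 (p : Par) (s : ℂ) : ℝ := Nm p.u p.a 2 s
noncomputable def G1 (p : Par) (s : ℂ) : ℝ := Nm p.u p.b 3 s
noncomputable def T0 (p : Par) (s : ℂ) : ℝ := Nm p.u p.b 2 s

/-- the closed large strip -/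
structure St (p : Par) (s : ℂ) : Prop where
  re : p.u 0 ≤ s.re
  im : |s.im| ≤ 2

theorem St.ge (h : Gd p) (hs : St p s) : 1000 ≤ s.re := (h.ge 0).trans hs.re

theorem St.pos (h : Gd p) (hs : St p s) : 0 < s.re := by linarith [hs.ge h]

theorem St.polar (h : Gd p) (hs : St p s) (k : ℕ) :
    ∃ α β n : ℝ, n = ‖s + p.u k‖ ∧ α ^ 2 + β ^ 2 = 1 ∧ 99 / 100 ≤ α ∧ α ≤ 1 ∧ β * n = s.im ∧
      α * n = s.re + p.u k ∧ |β| ≤ 1 / 500 ∧ 1000 ≤ n ∧
      ∀ (c : ℝ) (m : ℕ), (c : ℂ) / (s + p.u k) ^ m = ((c / n ^ m : ℝ) : ℂ) * (α - β * I) ^ m := by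
  obtain ⟨α, β, h1, h2, h3, h4, h5, h6, h7, h8⟩ := Sh.polar (z := s + p.u k)
    (by have := hs.ge h; have := h.ge k; simp; linarith) (by simpa using hs.im)
  exact ⟨α, β, _, rfl, h1, h2, h3, by simpa using h4, by simpa using h5, h6, h7, h8⟩

theorem G1_nonneg (h : Gd p) (hs : St p s) : 0 ≤ G1 p s := h.okT.succ.N_nonneg (hs.pos h)

theorem G1_le_T0 (h : Gd p) (hs : St p s) : s.re * G1 p s ≤ T0 p s := h.okT.N_succ (hs.pos h)

theorem G1_le (h : Gd p) (hs : St p s) : 1000 * G1 p s ≤ G0 p s := by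
  refine hasSum_le (fun k => ?_) ((h.okT.succ.sumN (hs.pos h)).mul_left _)
    (h.okA.succ.sumN (hs.pos h))
  have h1 := add_le_norm s (p.u k)
  have h2 := hs.ge h
  have h3 := h.okT.npos (hs.pos h) k
  have h4 := h.bl k
  have h5 := mul_le_mul_of_nonneg_left (by linarith : 1000 + p.u k ≤ ‖s + p.u k‖) (h.a0 k)
  rw [← mul_div_assoc, pow_succ' _ 2, ← div_div]
  refine div_le_div_of_nonneg_right ?_ (by positivity)
  rw [div_le_iff₀ h3]
  linarith

theorem G0_le_T0 (h : Gd p) (hs : St p s) : G0 p s ≤ T0 p s :=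
  hasSum_le (fun k => div_le_div_of_nonneg_right (h.ab k) (by positivity))
    (h.okA.succ.sumN (hs.pos h)) (h.okT.sumN (hs.pos h))

theorem n0_le (h : Gd p) (hs : St p s) : ‖s + p.u 0‖ ≤ 3 * s.re := by
  have := nrm_le s (p.u 0) (by linarith [hs.pos h, h.ge 0]) hs.im
  linarith [hs.re, hs.ge h]

theorem G0_ge (h : Gd p) (hs : St p s) : 1 ≤ s.re ^ 2 * G0 p s := by
  have h1 := h.okA.succ.term_le_N (hs.pos h) 0
  have h2 := n0_le h hs
  have h3 := h.okT.npos (hs.pos h) 0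
  have h4 := h.a27
  have h5 := hs.pos h
  have h6 : ‖s + p.u 0‖ ^ 2 ≤ (3 * s.re) ^ 2 := pow_le_pow_left₀ h3.le h2 2
  refine le_trans ?_ (mul_le_mul_of_nonneg_left h1 (by positivity))
  rw [← mul_div_assoc, le_div_iff₀ (by positivity)]
  have h7 := mul_le_mul_of_nonneg_left h4 (sq_nonneg s.re)
  have h8 := sq_nonneg s.re
  norm_num only
  linarith

theorem G1_ge (h : Gd p) (hs : St p s) : 1 ≤ s.re ^ 3 * G1 p s := by
  have h1 := h.okT.succ.term_le_N (hs.pos h) 0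
  have h2 := n0_le h hs
  have h3 := h.okT.npos (hs.pos h) 0
  have h4 := h.a27.trans (h.ab 0)
  have h5 := hs.pos h
  have h6 : ‖s + p.u 0‖ ^ 3 ≤ (3 * s.re) ^ 3 := pow_le_pow_left₀ h3.le h2 3
  refine le_trans ?_ (mul_le_mul_of_nonneg_left h1 (by positivity))
  rw [← mul_div_assoc, le_div_iff₀ (by positivity)]
  have h7 : 0 < s.re ^ 3 := by positivity
  have h8 := mul_le_mul_of_nonneg_left h4 h7.le
  norm_num only
  linarith

theorem g0_re (h : Gd p) (hs : St p s) : 9 / 10 * G0 p s ≤ (Pm p.u p.a 2 s).re := by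
  refine hasSum_le (fun k => ?_) ((h.okA.succ.sumN (hs.pos h)).mul_left _)
    (hasSum_re (h.okA.succ.sumP (hs.pos h)))
  obtain ⟨α, β, n, hn, h1, h2, h3, h4, h5, h6, h7, h8⟩ := hs.polar h k
  have h9 := h.okA.succ.term_nonneg s k
  rw [h8, ← hn] at *
  have e : ((α - β * I : ℂ) ^ (1 + 1)).re = α ^ 2 - β ^ 2 := by simp [pow_succ]
  rw [re_ofReal_mul, e]
  have : 9 / 10 ≤ α ^ 2 - β ^ 2 := by nlinarith
  nlinarith

theorem g0_im (h : Gd p) (hs : St p s) : |(Pm p.u p.a 2 s).im| ≤ 4 * G1 p s := by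
  refine (hasSum_im (h.okA.succ.sumP (hs.pos h))).norm_le_of_bounded
    ((h.okT.succ.sumN (hs.pos h)).mul_left _) fun k => ?_
  obtain ⟨α, β, n, hn, h1, h2, h3, h4, h5, h6, h7, h8⟩ := hs.polar h k
  rw [h8, ← hn]
  have e : ((α - β * I : ℂ) ^ (1 + 1)).im = -(2 * α * β) := by simp [pow_succ]; ring
  have h10 := h.ab k
  have h9 := h.b0 k
  have h11 := h.okA.a0 k
  have h12 : |β| * n ≤ 2 := by
    have := hs.im
    rwa [← h4, abs_mul, abs_of_pos (by linarith : 0 < n)] at this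
  rw [im_ofReal_mul, e, Real.norm_eq_abs, abs_mul, abs_neg, abs_mul, abs_of_nonneg (by positivity),
    abs_of_nonneg (by linarith : 0 ≤ 2 * α)]
  have h13 : 2 * α * |β| ≤ 4 / n := by
    rw [le_div_iff₀ (by linarith)]
    nlinarith [abs_nonneg β]
  calc p.a k / n ^ (1 + 1) * (2 * α * |β|) ≤ p.b k / n ^ (1 + 1) * (4 / n) := by
        gcongr
    _ = 4 * (p.b k / n ^ (2 + 1)) := by field_simp; ring

theorem g1_re (h : Gd p) (hs : St p s) : 9 / 10 * G1 p s ≤ (Pm p.u p.b 3 s).re := by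
  refine hasSum_le (fun k => ?_) ((h.okT.succ.sumN (hs.pos h)).mul_left _)
    (hasSum_re (h.okT.succ.sumP (hs.pos h)))
  obtain ⟨α, β, n, hn, h1, h2, h3, h4, h5, h6, h7, h8⟩ := hs.polar h k
  have h9 := h.okT.succ.term_nonneg s k
  rw [h8, ← hn] at *
  have e : ((α - β * I : ℂ) ^ (2 + 1)).re = α * (α ^ 2 - 3 * β ^ 2) := by simp [pow_succ]; ring
  rw [re_ofReal_mul, e]
  have h10 : 92 / 100 ≤ α ^ 2 - 3 * β ^ 2 := by nlinarith
  have : 9 / 10 ≤ α * (α ^ 2 - 3 * β ^ 2) := by nlinarith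
  nlinarith

theorem A_re (h : Gd p) (hs : St p s) (ht : |s.im| ≤ Real.pi / 2) :
    Real.exp s.re * (3 / 5) * G0 p s ≤ (exp s * Pm p.u p.a 1 s).re := by
  refine hasSum_le (fun k => ?_) ((h.okA.succ.sumN (hs.pos h)).mul_left _)
    (h.okA.sumRe (hs.pos h) _)
  obtain ⟨α, β, n, hn, h1, h2, h3, h4, h5, h6, h7, h8⟩ := hs.polar h k
  obtain ⟨t1, t2, t3⟩ := trig ht
  have h9 := h.okA.a0 k
  rw [h8, ← hn, exp_mul_re, re_ofReal_mul, im_ofReal_mul, mul_assoc]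
  refine mul_le_mul_of_nonneg_left ?_ (Real.exp_pos _).le
  have e1 : ((α - β * I : ℂ) ^ 1).re = α := by simp
  have e2 : ((α - β * I : ℂ) ^ 1).im = -β := by simp
  have e3 : Real.cos s.im * (p.a k / n ^ 1 * α) - Real.sin s.im * (p.a k / n ^ 1 * -β)
      = (Real.cos s.im * (α * n) + (β * n) * Real.sin s.im) * (p.a k / n ^ (1 + 1)) := by
    have : n ≠ 0 := by linarith
    field_simp
    ring
  rw [e1, e2, e3, h4]
  refine mul_le_mul_of_nonneg_right ?_ (by positivity)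
  have h10 : 2 ≤ α * n := by nlinarith
  rcases t3 with t3 | t3
  · nlinarith
  · nlinarith [t3.2]

theorem T_re (h : Gd p) (hs : St p s) (ht : |s.im| ≤ Real.pi / 2) :
    Real.exp s.re * (9 / 10 * Real.cos s.im) * T0 p s
      + Real.exp s.re * (9 / 5 * (s.im * Real.sin s.im)) * G1 p s
      ≤ (exp s * Pm p.u p.b 2 s).re := by
  refine hasSum_le (fun k => ?_) (((h.okT.sumN (hs.pos h)).mul_left _).add
    ((h.okT.succ.sumN (hs.pos h)).mul_left _)) (h.okT.sumRe (hs.pos h) _)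
  obtain ⟨α, β, n, hn, h1, h2, h3, h4, h5, h6, h7, h8⟩ := hs.polar h k
  obtain ⟨t1, t2, -⟩ := trig ht
  have h9 := h.b0 k
  rw [h8, ← hn, exp_mul_re, re_ofReal_mul, im_ofReal_mul, mul_assoc, mul_assoc (Real.exp s.re),
    ← mul_add]
  refine mul_le_mul_of_nonneg_left ?_ (Real.exp_pos _).le
  have e1 : ((α - β * I : ℂ) ^ 2).re = α ^ 2 - β ^ 2 := by simp [pow_succ]
  have e2 : ((α - β * I : ℂ) ^ 2).im = -(2 * α * β) := by simp [pow_succ]; ring
  have e3 : Real.cos s.im * (p.b k / n ^ 2 * (α ^ 2 - β ^ 2))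
      - Real.sin s.im * (p.b k / n ^ 2 * -(2 * α * β))
      = (α ^ 2 - β ^ 2) * Real.cos s.im * (p.b k / n ^ 2)
        + 2 * α * ((β * n) * Real.sin s.im) * (p.b k / n ^ (2 + 1)) := by
    have : n ≠ 0 := by linarith
    field_simp
    ring
  rw [e1, e2, e3, h4]
  have h10 : 9 / 10 ≤ α ^ 2 - β ^ 2 := by nlinarith
  have h11 : 9 / 5 ≤ 2 * α := by linarith
  gcongr

end Pool.Agent.P.MP_677f70_an.Gx
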