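import Mathlib

set_option autoImplicit false

open Topology Laplacian InnerProductSpace Filter

namespace Pool.Agent.P.MP_677f70_an

/-- second derivative of a composition with a continuous linear map, local version -/
theorem iter2_comp {E G : Type*} [NormedAddCommGroup E] [NormedSpace ℝ E]
    [NormedAddCommGroup G] [NormedSpace ℝ G] (L : G →L[ℝ] E) (f : E → ℝ) (y : G)
    (hf : ContDiffAt ℝ 2 f (L y)) (a b : G) :
    iteratedFDeriv ℝ 2 (fun z => f (L z)) y ![a, b] = iteratedFDeriv ℝ 2 f (L y) ![L a, L b] := by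
  rw [iteratedFDeriv_two_apply, iteratedFDeriv_two_apply]
  have h1 : ∀ᶠ z in 𝓝 y, ContDiffAt ℝ 2 f (L z) :=
    L.continuous.continuousAt.eventually (hf.eventually (by simp))
  have h2 : fderiv ℝ (fun z => f (L z)) =ᶠ[𝓝 y] fun z => (fderiv ℝ f (L z)).comp L := by
    filter_upwards [h1] with z hz
    exact ((hz.differentiableAt (by simp)).hasFDerivAt.comp z L.hasFDerivAt).fderiv
  rw [h2.fderiv_eq]
  have h3 : DifferentiableAt ℝ (fderiv ℝ f) (L y) :=
    (hf.fderiv_right (m := 1) (by norm_num)).differentiableAt (by simp)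
  have h4 : HasFDerivAt (fun z => fderiv ℝ f (L z)) ((fderiv ℝ (fderiv ℝ f) (L y)).comp L) y :=
    h3.hasFDerivAt.comp y L.hasFDerivAt
  have h5 := (h4.clm_comp (hasFDerivAt_const L y)).fderiv
  rw [h5]
  simp

/-- one-dimensional necessary second-order condition -/
theorem deriv2_nonpos_of_isLocalMax {g : ℝ → ℝ} (hc : ContinuousAt g 0) (h : IsLocalMax g 0) :
    deriv (deriv g) 0 ≤ 0 := by
  by_contra hpos
  push Not at hpos
  have hmin := isLocalMin_of_deriv_deriv_pos hpos h.deriv_eq_zero hc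
  have hconst : g =ᶠ[𝓝 0] fun _ => g 0 := by
    filter_upwards [h, hmin] with x h1 h2
    exact le_antisymm h1 h2
  have : deriv (deriv g) 0 = 0 := by
    rw [hconst.deriv.deriv_eq]
    simp
  linarith

theorem iter2_nonpos_of_isLocalMax {E : Type*} [NormedAddCommGroup E] [NormedSpace ℝ E]
    {f : E → ℝ} {x : E} (hf : ContDiffAt ℝ 2 f x) (h : IsLocalMax f x) (a : E) :
    iteratedFDeriv ℝ 2 f x ![a, a] ≤ 0 := by
  set L : ℝ →L[ℝ] E := ContinuousLinearMap.toSpanSingleton ℝ a with hL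
  have hf' : ContDiffAt ℝ 2 (fun z => f (z + x)) (L 0) := by
    have : ContDiffAt ℝ 2 f (L 0 + x) := by simpa using hf
    exact this.comp (L 0) (by fun_prop)
  have h1 := iter2_comp L (fun z => f (z + x)) 0 hf' 1 1
  have h2 : iteratedFDeriv ℝ 2 (fun z => f (z + x)) (L 0) = iteratedFDeriv ℝ 2 f x := by
    rw [iteratedFDeriv_comp_add_right]
    simp
  have hL1 : L 1 = a := by simp [hL]
  rw [h2, hL1] at h1
  rw [← h1]
  have h3 : iteratedFDeriv ℝ 2 (fun z : ℝ => f (L z + x)) 0 ![1, 1]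
      = deriv (deriv (fun z : ℝ => f (L z + x))) 0 := by
    have e : deriv (deriv (fun z : ℝ => f (L z + x))) = iteratedDeriv 2 (fun z : ℝ => f (L z + x)) := by
      rw [iteratedDeriv_succ, iteratedDeriv_one]
    rw [e, iteratedDeriv_eq_iteratedFDeriv]
    congr 1
    ext i
    fin_cases i <;> rfl
  rw [h3]
  have hcont : ContinuousAt (fun z : ℝ => L z + x) 0 := by fun_prop
  apply deriv2_nonpos_of_isLocalMax
  · exact ContinuousAt.comp (f := fun z : ℝ => L z + x) (by simpa using hf.continuousAt) hcont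
  · have h' : IsLocalMax f ((fun z : ℝ => L z + x) 0) := by simpa using h
    exact IsLocalMax.comp_continuous (g := fun z : ℝ => L z + x) h' hcont

/-- the linear map `x ↦ x i + (x j) I` -/
noncomputable def pl {m : ℕ} (i j : Fin m) : EuclideanSpace ℝ (Fin m) →L[ℝ] ℂ :=
  Complex.ofRealCLM.comp (EuclideanSpace.proj i) +
    (Complex.I • Complex.ofRealCLM).comp (EuclideanSpace.proj j)

theorem pl_re {m : ℕ} (i j : Fin m) (x : EuclideanSpace ℝ (Fin m)) : (pl i j x).re = x i := by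
  simp [pl]

theorem pl_im {m : ℕ} (i j : Fin m) (x : EuclideanSpace ℝ (Fin m)) : (pl i j x).im = x j := by
  simp [pl]

theorem harmonicAt_comp_pl {m : ℕ} {i j : Fin m} (hij : i ≠ j) {f : ℂ → ℝ}
    {x : EuclideanSpace ℝ (Fin m)} (hf : HarmonicAt f (pl i j x)) :
    HarmonicAt (fun z => f (pl i j z)) x := by
  refine ⟨hf.1.comp x (pl i j).contDiff.contDiffAt, ?_⟩
  have h1 : ∀ᶠ z in 𝓝 x, HarmonicAt f (pl i j z) :=
    (pl i j).continuous.continuousAt.eventually hf.eventually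
  filter_upwards [h1] with z hz
  rw [laplacian_eq_iteratedFDeriv_orthonormalBasis _ (EuclideanSpace.basisFun (Fin m) ℝ)]
  have h0 := hz.2.self_of_nhds
  rw [laplacian_eq_iteratedFDeriv_complexPlane] at h0
  simp only [Pi.zero_apply] at h0 ⊢
  simp_rw [iter2_comp (pl i j) f z hz.1]
  have hi : pl i j (EuclideanSpace.basisFun (Fin m) ℝ i) = 1 := by
    apply Complex.ext
    · rw [pl_re]; simp
    · rw [pl_im]; simp [hij.symm]
  have hj : pl i j (EuclideanSpace.basisFun (Fin m) ℝ j) = Complex.I := by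
    apply Complex.ext
    · rw [pl_re]; simp [hij]
    · rw [pl_im]; simp
  have hk : ∀ k, k ≠ i → k ≠ j → pl i j (EuclideanSpace.basisFun (Fin m) ℝ k) = 0 := by
    intro k h1 h2
    apply Complex.ext
    · rw [pl_re]; simp [h1.symm]
    · rw [pl_im]; simp [h2.symm]
  rw [← Finset.sum_subset (Finset.subset_univ {i, j})]
  · rw [Finset.sum_pair hij, hi, hj]
    exact h0
  · intro k _ hk'
    simp only [Finset.mem_insert, Finset.mem_singleton, not_or] at hk'
    rw [hk k hk'.1 hk'.2]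
    exact (iteratedFDeriv ℝ 2 f (pl i j z)).map_coord_zero 0 (by simp)

theorem harmonicAt_re_pl {m : ℕ} {i j : Fin m} (hij : i ≠ j) {g : ℂ → ℂ}
    {x : EuclideanSpace ℝ (Fin m)} (hg : AnalyticAt ℂ g (pl i j x)) :
    HarmonicAt (fun z => (g (pl i j z)).re) x :=
  harmonicAt_comp_pl hij (f := fun w => (g w).re) hg.harmonicAt_re

theorem harmonicAt_sum {m : ℕ} {ι : Type*} (s : Finset ι) (f : ι → EuclideanSpace ℝ (Fin m) → ℝ)
    {x : EuclideanSpace ℝ (Fin m)} (h : ∀ k ∈ s, HarmonicAt (f k) x) :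
    HarmonicAt (fun z => ∑ k ∈ s, f k z) x := by
  classical
  induction s using Finset.induction_on with
  | empty => simp
  | insert a s ha ih =>
    have h1 := (h a (Finset.mem_insert_self a s)).add
      (ih fun k hk => h k (Finset.mem_insert_of_mem hk))
    simp only [Finset.sum_insert ha]
    exact h1

theorem harmonicAt_mul {m : ℕ} (c : ℝ) {f : EuclideanSpace ℝ (Fin m) → ℝ}
    {x : EuclideanSpace ℝ (Fin m)} (h : HarmonicAt f x) : HarmonicAt (fun z => c * f z) x :=
  h.const_smul (c := c)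

theorem laplacian_sq {m : ℕ} (i : Fin m) (x : EuclideanSpace ℝ (Fin m)) :
    Δ (fun z : EuclideanSpace ℝ (Fin m) => (z i) ^ 2) x = 2 := by
  rw [laplacian_eq_iteratedFDeriv_orthonormalBasis _ (EuclideanSpace.basisFun (Fin m) ℝ)]
  have hsq : ContDiffAt ℝ 2 (fun t : ℝ => t ^ 2) ((EuclideanSpace.proj i : _ →L[ℝ] ℝ) x) := by
    fun_prop
  have key : ∀ a : ℝ, iteratedFDeriv ℝ 2 (fun t : ℝ => t ^ 2) (x i) ![a, a] = 2 * (a * a) := by
    intro a
    have e1 : (![a, a] : Fin 2 → ℝ) = fun _ => a := by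
      ext k; fin_cases k <;> rfl
    have e2 : iteratedDeriv 2 (fun t : ℝ => t ^ 2) (x i) = 2 := by
      rw [iteratedDeriv_succ, iteratedDeriv_one]
      have : deriv (fun t : ℝ => t ^ 2) = fun t => 2 * t := by
        ext t; simp
      rw [this]
      simp
    rw [e1, iteratedFDeriv_apply_eq_iteratedDeriv_mul_prod, e2]
    simp
    ring
  have h := fun a b => iter2_comp (EuclideanSpace.proj i : _ →L[ℝ] ℝ) (fun t : ℝ => t ^ 2) x hsq a b
  simp only [EuclideanSpace.coe_proj] at h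
  simp only [h, key]
  rw [Finset.sum_eq_single i]
  · simp
  · intro k _ hk
    simp [hk.symm]
  · simp

/-- maximum principle with a Phragmen-Lindelof type condition -/
theorem max_principle {m : ℕ} (i : Fin m) {Ω F : Set (EuclideanSpace ℝ (Fin m))} (hΩ : IsOpen Ω)
    (hF : IsClosed F) (hΩF : Ω ⊆ F) {R : ℝ} (hR : ∀ x ∈ Ω, (x i) ^ 2 ≤ R)
    {u ψ : EuclideanSpace ℝ (Fin m) → ℝ} (hu : HarmonicOnNhd u Ω) (hψ : ContinuousOn ψ F)
    (huψ : ∀ x ∈ Ω, u x ≤ ψ x) (hb : ∀ x ∈ F, x ∉ Ω → ψ x ≤ 0)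
    (hbd : ∀ η > 0, Bornology.IsBounded {x | x ∈ F ∧ η ≤ ψ x}) :
    ∀ x ∈ Ω, u x ≤ 0 := by
  intro x0 hx0
  by_contra hpos
  push Not at hpos
  set δ := u x0 with hδ
  have hR0 : 0 ≤ R := (sq_nonneg _).trans (hR x0 hx0)
  set ε := δ / (2 * (R + 1)) with hε
  have hεpos : 0 < ε := by positivity
  have hεR : ε * R < δ / 2 := by
    rw [hε, div_mul_eq_mul_div, div_lt_div_iff₀ (by positivity) (by norm_num)]
    nlinarith
  set K := {x | x ∈ F ∧ δ / 2 ≤ ψ x} with hK
  have hKc : IsCompact K := by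
    apply Metric.isCompact_of_isClosed_isBounded _ (hbd _ (by positivity))
    exact hψ.preimage_isClosed_of_isClosed hF isClosed_Ici
  have hKΩ : K ⊆ Ω := by
    intro x hx
    by_contra hx'
    have := hb x hx.1 hx'
    linarith [hx.2]
  have hx0K : x0 ∈ K := ⟨hΩF hx0, by linarith [huψ x0 hx0]⟩
  set w : EuclideanSpace ℝ (Fin m) → ℝ := fun x => u x + ε * (x i) ^ 2 with hw
  have hwc : ContinuousOn w K := by
    apply ContinuousOn.add (hu.continuousOn.mono hKΩ)
    fun_prop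
  obtain ⟨x1, hx1K, hx1⟩ := hKc.exists_isMaxOn ⟨x0, hx0K⟩ hwc
  have hx1Ω := hKΩ hx1K
  have hw0 : δ ≤ w x1 := by
    have h1 : w x0 ≤ w x1 := hx1 hx0K
    have h2 : δ ≤ w x0 := by
      simp only [hw]
      nlinarith [sq_nonneg (x0 i)]
    linarith
  have hmax : IsLocalMax w x1 := by
    filter_upwards [hΩ.mem_nhds hx1Ω] with x hx
    by_cases hxK : x ∈ K
    · exact hx1 hxK
    · have h1 : ψ x < δ / 2 := by
        by_contra h
        exact hxK ⟨hΩF hx, not_lt.1 h⟩
      have h2 := huψ x hx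
      have h3 : ε * (x i) ^ 2 ≤ ε * R := mul_le_mul_of_nonneg_left (hR x hx) hεpos.le
      simp only [hw]
      linarith
  have hq : ContDiffAt ℝ 2 (fun z : EuclideanSpace ℝ (Fin m) => (z i) ^ 2) x1 := by fun_prop
  have hwC : ContDiffAt ℝ 2 w x1 := (hu x1 hx1Ω).1.add (by fun_prop)
  have hL : Δ w x1 ≤ 0 := by
    rw [laplacian_eq_iteratedFDeriv_orthonormalBasis _ (EuclideanSpace.basisFun (Fin m) ℝ)]
    exact Finset.sum_nonpos fun k _ => iter2_nonpos_of_isLocalMax hwC hmax _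
  have hL2 : Δ w x1 = 2 * ε := by
    have e : w = u + ε • (fun z : EuclideanSpace ℝ (Fin m) => (z i) ^ 2) := by
      ext z; simp [hw]
    have hq' : ContDiffAt ℝ 2 (ε • fun z : EuclideanSpace ℝ (Fin m) => (z i) ^ 2) x1 :=
      hq.const_smul ε
    rw [e, (hu x1 hx1Ω).1.laplacian_add hq', laplacian_smul ε hq, laplacian_sq,
      (hu x1 hx1Ω).2.self_of_nhds]
    simp
    ring
  linarith

end Pool.Agent.P.MP_677f70_an
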