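import Pool.Agent.P.MP_677f70_an.Harm
import Pool.Agent.P.MP_677f70_an.Est

set_option autoImplicit false

open Real InnerProductSpace

namespace Pool.Agent.P.MP_677f70_an

abbrev E (n : ℕ) := EuclideanSpace ℝ (Fin (n + 2))

/-- the domain -/
def Dom (n : ℕ) : Set (E n) := {x | exp 10000 < x 1 ∧ 2 * |x 0| < x 1 * log (x 1)}

theorem log_ge {t : ℝ} (h : exp 10000 ≤ t) : 10000 ≤ log t := by
  have := log_le_log (exp_pos _) h
  rwa [log_exp] at this

theorem one_lt_of {t : ℝ} (h : exp 10000 ≤ t) : 1 < t :=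
  lt_of_lt_of_le (by have := add_one_lt_exp (show (10000 : ℝ) ≠ 0 by norm_num); linarith) h

theorem cont_mul_log (n : ℕ) : Continuous fun x : E n => x 1 * log (x 1) :=
  continuous_mul_log.comp (by fun_prop)

theorem cont1 (n : ℕ) : Continuous fun x : E n => x 1 := by fun_prop

theorem cont0 (n : ℕ) : Continuous fun x : E n => 2 * |x 0| := by fun_prop

theorem isOpen_dom (n : ℕ) : IsOpen (Dom n) :=
  (isOpen_lt continuous_const (cont1 n)).inter (isOpen_lt (cont0 n) (cont_mul_log n))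

theorem isConnected_dom (n : ℕ) : IsConnected (Dom n) := by
  set C : Set (E n) := {x | exp 10000 < x 1 ∧ |x 0| < 1} with hC
  have hconv : Convex ℝ C := by
    intro x hx y hy a b ha hb hab
    have e1 : (a • x + b • y) 1 = a * x 1 + b * y 1 := by simp
    have e0 : (a • x + b • y) 0 = a * x 0 + b * y 0 := by simp
    refine ⟨?_, ?_⟩
    · rw [e1]
      exact (convex_Ioi (exp 10000 : ℝ)) hx.1 hy.1 ha hb hab
    · rw [e0, abs_lt]
      exact (convex_Ioo (-1 : ℝ) 1) (abs_lt.1 hx.2) (abs_lt.1 hy.2) ha hb hab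
  have hne : C.Nonempty := ⟨EuclideanSpace.single 1 (exp 10000 + 1), by simp [hC]⟩
  set Φ : E n → E n := fun x =>
    x + ((x 1 * log (x 1) / 2 - 1) * x 0) • EuclideanSpace.single 0 1 with hΦ
  have hΦc : Continuous Φ := by
    have := cont_mul_log n
    fun_prop
  have h1 : ∀ x, Φ x 1 = x 1 := by intro x; simp [hΦ]
  have h0 : ∀ x, Φ x 0 = x 1 * log (x 1) / 2 * x 0 := by intro x; simp [hΦ]; ring
  have himg : Φ '' C = Dom n := by
    ext z
    constructor
    · rintro ⟨x, hx, rfl⟩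
      have hl := log_ge hx.1.le
      have ht := one_lt_of hx.1.le
      have hpos : 0 < x 1 * log (x 1) := by positivity
      refine ⟨by rw [h1]; exact hx.1, ?_⟩
      rw [h1, h0, abs_mul, abs_of_pos (by linarith)]
      nlinarith [hx.2]
    · intro hz
      have hl := log_ge hz.1.le
      have ht := one_lt_of hz.1.le
      have hpos : 0 < z 1 * log (z 1) := by positivity
      refine ⟨z + (z 0 / (z 1 * log (z 1) / 2) - z 0) • EuclideanSpace.single 0 1, ⟨?_, ?_⟩, ?_⟩
      · simpa using hz.1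
      · have : (z + (z 0 / (z 1 * log (z 1) / 2) - z 0) • EuclideanSpace.single 0 1 : E n) 0
            = z 0 / (z 1 * log (z 1) / 2) := by simp
        rw [this, abs_div, abs_of_pos (show 0 < z 1 * log (z 1) / 2 by linarith),
          div_lt_one (by linarith)]
        linarith [hz.2]
      · ext k
        by_cases hk : k = 0
        · subst hk
          rw [h0]
          simp
          field_simp
        · simp [hΦ, hk]
  rw [← himg]
  exact (hconv.isConnected hne).image Φ hΦc.continuousOn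

theorem not_bounded_dom (n : ℕ) : ¬ Bornology.IsBounded (Dom n) := by
  intro h
  obtain ⟨R, hR⟩ := h.exists_norm_le
  set t := exp 10000 + |R| + 1 with ht
  have h1 : exp 10000 < t := by linarith [abs_nonneg R]
  have hmem : (EuclideanSpace.single 1 t : E n) ∈ Dom n := by
    have hl := log_ge h1.le
    have ht1 := one_lt_of h1.le
    refine ⟨by simpa using h1, ?_⟩
    have : 0 < t * log t := by positivity
    simpa using this
  have := hR _ hmem
  rw [PiLp.norm_single, Real.norm_eq_abs] at this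
  have h2 := le_abs_self t
  have h3 := le_abs_self R
  linarith [exp_pos (10000 : ℝ)]

theorem norm_le_sum {m : ℕ} (x : EuclideanSpace ℝ (Fin m)) : ‖x‖ ≤ ∑ k, |x k| := by
  rw [EuclideanSpace.norm_eq]
  apply sqrt_le_iff.2 ⟨Finset.sum_nonneg fun k _ => abs_nonneg _, ?_⟩
  simp only [Real.norm_eq_abs]
  exact Finset.sum_sq_le_sq_sum_of_nonneg fun k _ => abs_nonneg _

theorem one_ne_zero' (n : ℕ) : (1 : Fin (n + 2)) ≠ 0 := by simp

theorem exists_majorant (n : ℕ) :
    ∃ h : E n → ℝ, HarmonicOnNhd h (Dom n) ∧ ∀ x ∈ Dom n, ‖x‖ ≤ h x := by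
  classical
  refine ⟨fun x => ∑ k : Fin (n + 2),
    ((if k = 1 then 0 else -2 * (fA (pl 1 k x)).re) + 60 * (fA (pl 1 0 x)).re), ?_, ?_⟩
  · intro x hx
    have ht := one_lt_of hx.1.le
    apply harmonicAt_sum Finset.univ
      (fun k x => (if k = 1 then 0 else -2 * (fA (pl 1 k x)).re) + 60 * (fA (pl 1 0 x)).re)
    intro k _
    apply HarmonicAt.add (f₁ := fun x => if k = 1 then 0 else -2 * (fA (pl 1 k x)).re)
      (f₂ := fun x => 60 * (fA (pl 1 0 x)).re)
    · by_cases hk : k = 1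
      · simp [hk]
      · simp only [hk, if_false]
        exact harmonicAt_mul _ (harmonicAt_re_pl (Ne.symm hk)
          (analyticAt_fA (by rw [pl_re]; linarith)))
    · exact harmonicAt_mul _ (harmonicAt_re_pl (one_ne_zero' n)
          (analyticAt_fA (by rw [pl_re]; linarith)))
  · intro x hx
    have ht := one_lt_of hx.1.le
    have hl := log_ge hx.1.le
    refine (norm_le_sum x).trans (Finset.sum_le_sum fun k _ => ?_)
    have h1 := fA_lower (w := pl 1 0 x) (by rw [pl_re]; linarith)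
      (by rw [pl_re, pl_im]; exact hx.2.le)
    rw [pl_re] at h1
    by_cases hk : k = 1
    · subst hk
      simp only [if_true]
      rw [abs_of_pos (by linarith)]
      nlinarith
    · simp only [hk, if_false]
      have h2 := abs_im_le_fA (w := pl 1 k x) (by rw [pl_re]; linarith) (by rw [pl_re]; linarith)
      rw [pl_re, pl_im] at h2
      linarith

theorem continuous_phi : Continuous fun s : ℝ => |s| * max (log |s|) 0 := by
  have e : (fun s : ℝ => |s| * max (log |s|) 0) = fun s => max (|s| * log |s|) 0 := by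
    ext s
    rw [mul_max_of_nonneg _ _ (abs_nonneg s), mul_zero]
  rw [e]
  exact (continuous_mul_log.comp continuous_abs).max continuous_const

theorem sq_re (w : ℂ) : (w ^ 2).re = w.re ^ 2 - w.im ^ 2 := by
  simp [pow_two]

theorem no_majorant (n : ℕ) :
    ¬ ∃ h : E n → ℝ, HarmonicOnNhd h (Dom n) ∧
      ∀ x ∈ Dom n, |x 0| * max (log |x 0|) 0 ≤ h x := by
  classical
  rintro ⟨H, hH, hHφ⟩
  set T : ℝ := exp 10000 with hT
  have hT1 : 1 < T := one_lt_of le_rfl
  set C0 : ℝ := T * 20000 ^ 3 with hC0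
  set t0 : ℝ := C0 + 1 with ht0
  have hTt0 : T < t0 := by nlinarith
  set x0 : E n := EuclideanSpace.single 1 t0 with hx0
  have hx01 : x0 1 = t0 := by simp [hx0]
  have hx00 : x0 0 = 0 := by simp [hx0]
  set K : ℝ := |H x0 + (fQ (pl 1 0 x0)).re / 8| + t0 + 1 with hK
  have hK1 : 1 ≤ K := by linarith [abs_nonneg (H x0 + (fQ (pl 1 0 x0)).re / 8)]
  have hKt : t0 ≤ K := by linarith [abs_nonneg (H x0 + (fQ (pl 1 0 x0)).re / 8)]
  set r : ℝ := 64 * K with hr
  set R : ℝ := exp (r ^ 2) with hR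
  have hRt : t0 < R := by
    have := add_one_le_exp (r ^ 2)
    nlinarith
  set Ω : Set (E n) := {x | x ∈ Dom n ∧ x 1 < R} with hΩ
  set F : Set (E n) := {x | T ≤ x 1 ∧ x 1 ≤ R ∧ 2 * |x 0| ≤ x 1 * log (x 1)} with hF
  have hΩo : IsOpen Ω := (isOpen_dom n).inter (isOpen_lt (cont1 n) continuous_const)
  have hFc : IsClosed F := (isClosed_le continuous_const (cont1 n)).inter
    ((isClosed_le (cont1 n) continuous_const).inter
      (isClosed_le (cont0 n) (cont_mul_log n)))
  have hΩF : Ω ⊆ F := fun x hx => ⟨hx.1.1.le, hx.2.le, hx.1.2.le⟩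
  have hx0Ω : x0 ∈ Ω := by
    have hl := log_ge hTt0.le
    refine ⟨⟨by rw [hx01]; exact hTt0, ?_⟩, by rw [hx01]; exact hRt⟩
    rw [hx00, hx01]
    have : 0 < t0 * log t0 := by
      have : 0 < t0 := by linarith
      positivity
    simpa using this
  set v : E n → ℝ := fun x => K * ((fM (pl 1 0 x)).re - C0) - (1 / 8) * (fQ (pl 1 0 x)).re with hv
  set P : E n → ℝ := fun x => ∑ k : Fin (n + 2),
    (if k = 1 then 0 else (R ^ 2 + (-1) * ((pl 1 k x) ^ 2).re)) with hP
  have hvh : ∀ x ∈ F, HarmonicAt v x := by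
    intro x hx
    have h1 : 1 < (pl 1 0 x).re := by rw [pl_re]; linarith [hx.1]
    exact (harmonicAt_mul K ((harmonicAt_re_pl (one_ne_zero' n) (analyticAt_fM h1)).sub
      (harmonicAt_const C0))).sub
      (harmonicAt_mul (1 / 8) (harmonicAt_re_pl (one_ne_zero' n) (analyticAt_fQ (by linarith))))
  have hPh : ∀ x, HarmonicAt P x := by
    intro x
    apply harmonicAt_sum Finset.univ
      (fun k x => if k = 1 then 0 else (R ^ 2 + (-1) * ((pl 1 k x) ^ 2).re))
    intro k _
    by_cases hk : k = 1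
    · simp [hk]
    · simp only [hk, if_false]
      exact (harmonicAt_const (R ^ 2)).add (harmonicAt_mul _ (harmonicAt_re_pl (Ne.symm hk)
        (g := fun w => w ^ 2) (analyticAt_id.pow 2)))
  have hPge : ∀ x ∈ F, ‖x‖ ^ 2 - R ^ 2 ≤ P x ∧ 0 ≤ P x := by
    intro x hx
    have h1 : x 1 ^ 2 ≤ R ^ 2 := by
      have := hx.1
      have := hx.2.1
      nlinarith
    have h2 : ∀ k : Fin (n + 2), x k ^ 2 - (if k = 1 then R ^ 2 else 0) ≤
        (if k = 1 then 0 else (R ^ 2 + (-1) * ((pl 1 k x) ^ 2).re)) := by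
      intro k
      by_cases hk : k = 1
      · subst hk
        simp only [if_true]
        linarith
      · simp only [hk, if_false]
        rw [sq_re, pl_re, pl_im]
        linarith
    constructor
    · have h3 := Finset.sum_le_sum (s := Finset.univ) fun k _ => h2 k
      rw [Finset.sum_sub_distrib] at h3
      simp only [Finset.sum_ite_eq', Finset.mem_univ, if_true] at h3
      rw [EuclideanSpace.real_norm_sq_eq]
      exact h3
    · apply Finset.sum_nonneg
      intro k _
      by_cases hk : k = 1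
      · simp [hk]
      · simp only [hk, if_false]
        rw [sq_re, pl_re, pl_im]
        nlinarith [sq_nonneg (x k)]
  -- basic bounds on F
  have hb1 : ∀ x ∈ F, v x - |x 0| * max (log |x 0|) 0 ≤
      K * ((fM (pl 1 0 x)).re - C0) - x 1 * log (x 1) ^ 2 / 16 := by
    intro x hx
    have hl := log_ge hx.1
    have h1 := neg_fQ_le (w := pl 1 0 x) (by rw [pl_re]; linarith [hx.1]) (by rw [pl_re]; linarith)
    rw [pl_re, pl_im] at h1
    simp only [hv]
    linarith
  have hb2 : ∀ x ∈ F, (fM (pl 1 0 x)).re ≤ x 1 * (fS (pl 1 0 x)).re ^ 3 ∧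
      1 ≤ (fS (pl 1 0 x)).re ∧ (fS (pl 1 0 x)).re ^ 2 ≤ 2 * log (x 1) := by
    intro x hx
    have hl := log_ge hx.1
    have h0 : 0 < (pl 1 0 x).re := by rw [pl_re]; linarith [hx.1]
    have h1 := fM_le h0 (by rw [pl_re]; linarith)
    have h2 := fS_facts h0 (by rw [pl_re]; linarith)
    have h3 := fS_re_sq_le h0 (by rw [pl_re]; linarith) (by rw [pl_re, pl_im]; exact hx.2.2)
    rw [pl_re] at h1 h3
    exact ⟨h1, h2.1, by linarith⟩
  have hC0pos : 0 ≤ C0 := by positivity
  have hb3 : ∀ x ∈ F, (fS (pl 1 0 x)).re ^ 3 ≤ 4 * r ^ 3 := by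
    intro x hx
    obtain ⟨-, h2, h3⟩ := hb2 x hx
    have h4 : log (x 1) ≤ r ^ 2 := by
      have := log_le_log (by linarith [hx.1]) hx.2.1
      rwa [hR, log_exp] at this
    have hr0 : 0 < r := by linarith
    have h5 : (fS (pl 1 0 x)).re ≤ 2 * r := by nlinarith
    calc (fS (pl 1 0 x)).re ^ 3 = (fS (pl 1 0 x)).re * (fS (pl 1 0 x)).re ^ 2 := by ring
      _ ≤ (2 * r) * (2 * r ^ 2) := mul_le_mul h5 (by linarith) (by positivity) (by positivity)
      _ = 4 * r ^ 3 := by ring
  have hbdry : ∀ x ∈ F, x ∉ Ω → v x - |x 0| * max (log |x 0|) 0 ≤ 0 := by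
    intro x hx hxΩ
    have hl := log_ge hx.1
    have hx1 : 0 < x 1 := by linarith [hx.1]
    have h1 := hb1 x hx
    obtain ⟨h2, h3, h4⟩ := hb2 x hx
    have h5 : 0 ≤ x 1 * log (x 1) ^ 2 := by positivity
    by_cases c1 : x 1 = T
    · have h6 : log (x 1) = 10000 := by rw [c1, hT, log_exp]
      have h7 : (fS (pl 1 0 x)).re ≤ 20000 := by nlinarith
      have h8 : (fS (pl 1 0 x)).re ^ 3 ≤ 20000 ^ 3 := pow_le_pow_left₀ (by linarith) h7 3
      have h9 : (fM (pl 1 0 x)).re ≤ C0 := by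
        rw [hC0, ← c1]
        exact h2.trans (mul_le_mul_of_nonneg_left h8 hx1.le)
      have h10 : K * ((fM (pl 1 0 x)).re - C0) ≤ 0 :=
        mul_nonpos_of_nonneg_of_nonpos (by linarith) (by linarith)
      linarith
    by_cases c2 : x 1 = R
    · have h6 : log (x 1) = r ^ 2 := by rw [c2, hR, log_exp]
      have h7 := hb3 x hx
      have h8 : (fM (pl 1 0 x)).re - C0 ≤ x 1 * (4 * r ^ 3) := by
        have := mul_le_mul_of_nonneg_left h7 hx1.le
        linarith
      have h9 : K * ((fM (pl 1 0 x)).re - C0) ≤ K * (x 1 * (4 * r ^ 3)) :=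
        mul_le_mul_of_nonneg_left h8 (by linarith)
      have h10 : K * (x 1 * (4 * r ^ 3)) = x 1 * log (x 1) ^ 2 / 16 := by
        rw [h6, hr]; ring
      linarith
    · have h6 : 2 * |x 0| = x 1 * log (x 1) := by
        by_contra hne
        exact hxΩ ⟨⟨lt_of_le_of_ne hx.1 (Ne.symm c1), lt_of_le_of_ne hx.2.2 hne⟩,
          lt_of_le_of_ne hx.2.1 c2⟩
      have h7 := fM_lateral (w := pl 1 0 x) (by rw [pl_re]; exact hx1) (by rw [pl_re]; exact hl)
        (by rw [pl_re, pl_im]; exact h6)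
      have h10 : K * ((fM (pl 1 0 x)).re - C0) ≤ 0 :=
        mul_nonpos_of_nonneg_of_nonpos (by linarith) (by linarith)
      linarith
  have hbound : ∀ x ∈ F, v x - |x 0| * max (log |x 0|) 0 ≤ K * (R * (4 * r ^ 3)) := by
    intro x hx
    have hx1 : 0 < x 1 := by linarith [hx.1]
    have h1 := hb1 x hx
    obtain ⟨h2, h3, h4⟩ := hb2 x hx
    have h5 : 0 ≤ x 1 * log (x 1) ^ 2 := by positivity
    have h7 := hb3 x hx
    have h8 : (fM (pl 1 0 x)).re - C0 ≤ R * (4 * r ^ 3) := by
      have a1 := mul_le_mul_of_nonneg_left h7 hx1.le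
      have hr0 : 0 < r := by linarith
      have a2 : x 1 * (4 * r ^ 3) ≤ R * (4 * r ^ 3) :=
        mul_le_mul_of_nonneg_right hx.2.1 (by positivity)
      linarith
    have h9 := mul_le_mul_of_nonneg_left h8 (show 0 ≤ K by linarith)
    linarith
  have main : ∀ ε > 0, v x0 - H x0 - ε * P x0 ≤ 0 := by
    intro ε hε
    refine max_principle (1 : Fin (n + 2)) hΩo hFc hΩF (R := R ^ 2)
      (u := fun x => v x - H x - ε * P x)
      (ψ := fun x => v x - |x 0| * max (log |x 0|) 0 - ε * P x) ?_ ?_ ?_ ?_ ?_ ?_ x0 hx0Ω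
    · intro x hx
      have := (hΩF hx).1
      have := (hΩF hx).2.1
      nlinarith
    · intro x hx
      exact ((hvh x (hΩF hx)).sub (hH x hx.1)).sub (harmonicAt_mul ε (hPh x))
    · intro x hx
      apply ContinuousAt.continuousWithinAt
      refine ((hvh x hx).1.continuousAt.sub ?_).sub (harmonicAt_mul ε (hPh x)).1.continuousAt
      exact (continuous_phi.comp (by fun_prop : Continuous fun x : E n => x 0)).continuousAt
    · intro x hx
      linarith [hHφ x hx.1]
    · intro x hx hxΩ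
      have := mul_nonneg hε.le (hPge x hx).2
      linarith [hbdry x hx hxΩ]
    · intro η hη
      rw [isBounded_iff_forall_norm_le]
      refine ⟨K * (R * (4 * r ^ 3)) / ε + R ^ 2 + 1, fun x hx => ?_⟩
      have h1 := hbound x hx.1
      have h2 := mul_le_mul_of_nonneg_left (hPge x hx.1).1 hε.le
      have h3 : ε * (‖x‖ ^ 2 - R ^ 2) ≤ K * (R * (4 * r ^ 3)) := by linarith [hx.2]
      have h4 : ‖x‖ ^ 2 - R ^ 2 ≤ K * (R * (4 * r ^ 3)) / ε := by
        rw [le_div_iff₀ hε]; linarith
      nlinarith [sq_nonneg (‖x‖ - 1)]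
  have hP0 := (hPge x0 (hΩF hx0Ω)).2
  have hle : v x0 ≤ H x0 := by
    by_contra hlt
    push Not at hlt
    have h1 := main ((v x0 - H x0) / (P x0 + 1)) (div_pos (by linarith) (by linarith))
    have h2 : (v x0 - H x0) / (P x0 + 1) * P x0 < v x0 - H x0 := by
      rw [div_mul_eq_mul_div, div_lt_iff₀ (by linarith)]
      nlinarith
    linarith
  have hM := fM_axis (w := pl 1 0 x0) (by rw [pl_re, hx01]; linarith)
    (by rw [pl_re, hx01]; linarith [log_ge hTt0.le]) (by rw [pl_im, hx00])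
  rw [pl_re, hx01] at hM
  have h1 : K * 1 ≤ K * ((fM (pl 1 0 x0)).re - C0) :=
    mul_le_mul_of_nonneg_left (by linarith) (by linarith)
  simp only [hv] at hle
  have h2 := le_abs_self (H x0 + (fQ (pl 1 0 x0)).re / 8)
  linarith

theorem main (n : ℕ) :
    ∃ D : Set (EuclideanSpace ℝ (Fin (n + 2))),
      IsOpen D ∧ IsConnected D ∧ ¬ Bornology.IsBounded D ∧
      (∃ h : EuclideanSpace ℝ (Fin (n + 2)) → ℝ,
        InnerProductSpace.HarmonicOnNhd h D ∧ ∀ x ∈ D, ‖x‖ ≤ h x) ∧
      ¬ (∃ h : EuclideanSpace ℝ (Fin (n + 2)) → ℝ,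
        InnerProductSpace.HarmonicOnNhd h D ∧
          ∀ x ∈ D, |x 0| * max (Real.log |x 0|) 0 ≤ h x) :=
  ⟨Dom n, isOpen_dom n, isConnected_dom n, not_bounded_dom n, exists_majorant n, no_majorant n⟩

end Pool.Agent.P.MP_677f70_an
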