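import Pool.Agent.P.MP_677f70_an.ShMain

set_option autoImplicit false

open InnerProductSpace Filter Topology Laplacian

namespace Pool.Agent.P.MP_677f70_an.Ng

open Sh

variable {u : ℕ → ℝ} {n : ℕ} {s : ℂ}

theorem im_ge (h : Gd u) (hs : St u s) (ht : |s.im| ≤ Real.pi / 2) (hc : Real.cos s.im ≤ 1 / 2) :
    7 / 10 * (Real.exp s.re * G0 u s) ≤ |(Phi u s).im| := by
  have e : (Phi u s).im = Real.exp s.re *
      (Real.sin s.im * (gg u s).re + Real.cos s.im * (gg u s).im) := by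
    simp only [Phi, Complex.mul_im, Complex.exp_re, Complex.exp_im]
    ring
  have c0 := (trig ht).1
  have g1 := gg_re h hs
  obtain ⟨g2, g3⟩ := gg_im h hs
  have g4 := G1_le h hs
  have g5 := G1_nonneg h hs
  have g6 := G0_pos h hs
  have s1 : 85 / 100 ≤ |Real.sin s.im| := by
    refine le_of_sq_le_sq ?_ (abs_nonneg _)
    rw [sq_abs, Real.sin_sq]
    nlinarith
  have a1 : 85 / 100 * (88 / 100 * G0 u s) ≤ |Real.sin s.im * (gg u s).re| := by
    rw [abs_mul, abs_of_nonneg (show 0 ≤ (gg u s).re by linarith)]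
    exact mul_le_mul s1 g1 (by linarith) (abs_nonneg _)
  have a2 : |Real.cos s.im * (gg u s).im| ≤ 1 / 2 * (20 * G1 u s) := by
    rw [abs_of_nonneg (mul_nonneg c0 (by linarith))]
    exact mul_le_mul hc g3 (by linarith) (by norm_num)
  have a3 := abs_sub_abs_le_abs_add (Real.sin s.im * (gg u s).re) (Real.cos s.im * (gg u s).im)
  rw [e, abs_mul, abs_of_pos (Real.exp_pos _)]
  have a4 : 7 / 10 * G0 u s ≤ |Real.sin s.im * (gg u s).re + Real.cos s.im * (gg u s).im| := by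
    linarith
  nlinarith [Real.exp_pos s.re]

/-- the building block of the barrier -/
noncomputable def AA (u : ℕ → ℝ) (j : ℕ) (s : ℂ) : ℂ := u j / (s + u j)

noncomputable def bar (u : ℕ → ℝ) (j : ℕ) (s : ℂ) : ℂ := Complex.exp s * (AA u j s - 1 / 10)

theorem nrm_ge (s : ℂ) (t : ℝ) : s.re + t ≤ ‖s + t‖ := add_le_norm s t

theorem analyticAt_bar (h : Gd u) (hs : St u s) (j : ℕ) : AnalyticAt ℂ (bar u j) s := by
  have h1 := nrm_ge s (u j)
  have h2 := hs.ge h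
  have h3 := h.ge j
  have h4 : s + u j ≠ 0 := norm_pos_iff.1 (by linarith)
  exact analyticAt_cexp.mul
    ((analyticAt_const.div (analyticAt_id.add analyticAt_const) h4).sub analyticAt_const)

theorem AA_norm (h : Gd u) (hs : St u s) (j : ℕ) : ‖AA u j s‖ ≤ u j / (s.re + u j) := by
  have h1 := nrm_ge s (u j)
  have h2 := hs.ge h
  have h3 := h.ge j
  rw [AA, norm_div, Complex.norm_real, Real.norm_eq_abs, abs_of_pos (by linarith)]
  exact div_le_div_of_nonneg_left (by linarith) (by linarith) h1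

theorem AA_re (h : Gd u) (hs : St u s) (j : ℕ) : 0 ≤ (AA u j s).re := by
  have h2 := hs.ge h
  have h3 := h.ge j
  have h4 := Complex.normSq_nonneg (s + u j)
  rw [AA, Complex.div_re]
  simp only [Complex.ofReal_re, Complex.ofReal_im, Complex.add_re, zero_mul, zero_div, add_zero]
  exact div_nonneg (mul_nonneg (by linarith) (by linarith)) h4

theorem AA_im (h : Gd u) (hs : St u s) (j : ℕ) :
    |(AA u j s).im| ≤ 2 * (u j / ‖s + u j‖ ^ 2) := by
  have h3 := h.ge j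
  have h5 := hs.im
  rw [AA, Complex.div_im, Complex.sq_norm]
  simp only [Complex.ofReal_re, Complex.ofReal_im, Complex.add_im, zero_mul, zero_div, add_zero,
    zero_sub, abs_neg]
  rw [abs_div, abs_of_nonneg (Complex.normSq_nonneg _), abs_mul, abs_of_pos (by linarith),
    ← mul_div_assoc]
  exact div_le_div_of_nonneg_right (by nlinarith) (Complex.normSq_nonneg _)

theorem q_le (h : Gd u) (hs : St u s) (j : ℕ) : u j / ‖s + u j‖ ^ 2 ≤ 1 / u j := by
  have h1 := nrm_ge s (u j)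
  have h2 := hs.ge h
  have h3 := h.ge j
  have h4 : 0 < ‖s + u j‖ := by linarith
  rw [div_le_div_iff₀ (by positivity) (by linarith)]
  nlinarith

theorem q_le_G0 (h : Gd u) (hs : St u s) (j : ℕ) : u j / ‖s + u j‖ ^ 2 ≤ 2 ^ j * G0 u s := by
  have h1 := h.okA.succ.term_le_N (hs.pos h) j
  have e : u j / ‖s + u j‖ ^ 2 = 2 ^ j * (ca u j / ‖s + u j‖ ^ (1 + 1)) := by
    rw [ca, ← mul_div_assoc, ← mul_assoc, ← mul_pow]
    norm_num
  rw [e]
  exact mul_le_mul_of_nonneg_left h1 (by positivity)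

theorem bar_re (j : ℕ) (s : ℂ) : (bar u j s).re = Real.exp s.re *
    (Real.cos s.im * ((AA u j s).re - 1 / 10) - Real.sin s.im * (AA u j s).im) := by
  rw [bar, exp_mul_re]
  simp

theorem sin_term (h : Gd u) (hs : St u s) (j : ℕ) :
    -(Real.sin s.im * (AA u j s).im) ≤ 2 * (u j / ‖s + u j‖ ^ 2) := by
  refine (neg_le_abs _).trans ?_
  rw [abs_mul]
  have := mul_le_mul (Real.abs_sin_le_one s.im) (AA_im h hs j) (abs_nonneg _) zero_le_one
  linarith

theorem bar_le (h : Gd u) (hs : St u s) (ht : |s.im| ≤ Real.pi / 2) (j : ℕ) :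
    (bar u j s).re ≤ Real.exp s.re := by
  have h1 := AA_norm h hs j
  have h2 := hs.ge h
  have h3 := h.ge j
  have h4 : u j / (s.re + u j) ≤ 1 := (div_le_one (by linarith)).2 (by linarith)
  have h5 : (Complex.exp s * AA u j s).re ≤ Real.exp s.re := by
    refine (Complex.re_le_norm _).trans ?_
    rw [norm_mul, Complex.norm_exp]
    exact mul_le_of_le_one_right (Real.exp_pos _).le (h1.trans h4)
  rw [exp_mul_re] at h5
  rw [bar_re]
  nlinarith [mul_nonneg (Real.exp_pos s.re).le (trig ht).1]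

/-- where the cosine is small and the first term has a sign -/
theorem bar_side (h : Gd u) (hs : St u s) (ht : |s.im| ≤ Real.pi / 2) (j : ℕ) {a : ℝ}
    (ha : 6 * a ^ 3 ≤ u j) (hc : Real.cos s.im ≤ 1 / 2)
    (h0 : Real.cos s.im * ((AA u j s).re - 1 / 10) ≤ 0) :
    (bar u j s).re ≤ 1 + 6 * 2 ^ j * max (|(Phi u s).im| - a) 0 := by
  have e0 := Real.exp_pos s.re
  have h1 : (bar u j s).re ≤ Real.exp s.re * (2 * (u j / ‖s + u j‖ ^ 2)) := by
    rw [bar_re]
    exact mul_le_mul_of_nonneg_left (by linarith [sin_term h hs j]) e0.le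
  have h2 := im_ge h hs ht hc
  have p2 : (0 : ℝ) < 2 ^ j := by positivity
  have hm0 : 0 ≤ max (|(Phi u s).im| - a) 0 := le_max_right _ _
  by_cases hy : 2 * a ≤ |(Phi u s).im|
  · have h3 := mul_le_mul_of_nonneg_left (q_le_G0 h hs j) e0.le
    have h4 : |(Phi u s).im| ≤ 2 * max (|(Phi u s).im| - a) 0 := by
      linarith [le_max_left (|(Phi u s).im| - a) 0]
    have h5 : Real.exp s.re * G0 u s ≤ 3 * max (|(Phi u s).im| - a) 0 := by linarith
    nlinarith [mul_le_mul_of_nonneg_left h5 p2.le]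
  · have g1 := G0_ge h hs
    have g2 := hs.ge h
    have g3 := exp_ge (t := s.re) (by linarith)
    have g4 : Real.exp s.re * G0 u s ≤ 3 * a := by nlinarith [abs_nonneg (Phi u s).im]
    have g5 : Real.exp s.re ≤ 3 * a * s.re ^ 2 := by
      have := mul_le_mul_of_nonneg_left g1 e0.le
      have := mul_le_mul_of_nonneg_right g4 (sq_nonneg s.re)
      nlinarith
    have g6 : s.re ≤ a := by
      by_contra hlt
      push Not at hlt
      have q : 0 < s.re ^ 2 := by positivity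
      nlinarith
    have g7 : Real.exp s.re ≤ 3 * a ^ 3 := by
      have : s.re ^ 2 ≤ a ^ 2 := pow_le_pow_left₀ (by linarith) g6 2
      have := mul_le_mul_of_nonneg_left this (show 0 ≤ 3 * a by linarith)
      nlinarith
    have g8 := mul_le_mul_of_nonneg_left (q_le h hs j) e0.le
    have g9 : Real.exp s.re * (1 / u j) ≤ 1 / 2 := by
      have := h.ge j
      rw [mul_one_div, div_le_iff₀ (by linarith)]
      linarith
    nlinarith [mul_nonneg p2.le hm0]

theorem bar_right (h : Gd u) (hs : St u s) (ht : |s.im| ≤ Real.pi / 2) (j : ℕ) {a : ℝ}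
    (ha : 6 * a ^ 3 ≤ u j) (hT : 40 * u j ≤ s.re) :
    (bar u j s).re ≤ 1 + 6 * 2 ^ j * max (|(Phi u s).im| - a) 0 := by
  have h3 := h.ge j
  have h1 : (AA u j s).re ≤ 1 / 40 := by
    refine (Complex.re_le_norm _).trans ((AA_norm h hs j).trans ?_)
    rw [div_le_iff₀ (by linarith)]
    linarith
  have c0 := (trig ht).1
  by_cases hc : Real.cos s.im ≤ 1 / 2
  · exact bar_side h hs ht j ha hc (mul_nonpos_of_nonneg_of_nonpos c0 (by linarith))
  · have h4 := sin_term h hs j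
    have h5 := q_le h hs j
    have h6 : 1 / u j ≤ 1 / 1000 := one_div_le_one_div_of_le (by norm_num) h3
    have h7 : Real.cos s.im * ((AA u j s).re - 1 / 10) - Real.sin s.im * (AA u j s).im ≤ 0 := by
      nlinarith
    have h8 : (0 : ℝ) ≤ 6 * 2 ^ j * max (|(Phi u s).im| - a) 0 := by positivity
    rw [bar_re]
    nlinarith [Real.exp_pos s.re]

theorem bar_base (h : Gd u) (j : ℕ) :
    Real.exp (u 0 + 1) + 1 / 10 ≤ (bar u j (u 0 + 1 + 2 : ℝ)).re := by
  have h0 := h.ge 0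
  have h1 := h.mono (Nat.zero_le j)
  have e : (AA u j (u 0 + 1 + 2 : ℝ)).re = u j / (u 0 + 1 + 2 + u j) := by
    rw [AA, ← Complex.ofReal_add, ← Complex.ofReal_div, Complex.ofReal_re]
  have h2 : 49 / 100 ≤ u j / (u 0 + 1 + 2 + u j) := by
    rw [le_div_iff₀ (by linarith)]
    linarith
  have h3 : 1 ≤ Real.exp (u 0 + 1) := Real.one_le_exp (by linarith)
  have h4 : 3 * Real.exp (u 0 + 1) ≤ Real.exp (u 0 + 1 + 2) := by
    rw [Real.exp_add (u 0 + 1)]
    nlinarith [Real.add_one_le_exp 2]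
  rw [bar_re, e, Complex.ofReal_re, Complex.ofReal_im, Real.cos_zero, Real.sin_zero]
  nlinarith

/-- a continuous minorant -/
noncomputable def mino (a : ℕ → ℝ) (J : ℕ) (r : ℝ) : ℝ :=
  ∑ j ∈ Finset.range J, 6 * 2 ^ j * max (r - a j) 0

theorem mino_le {a : ℕ → ℝ} {ψ : ℝ → ℝ} (ha : ∀ j, 0 ≤ a j) (h0 : ∀ t, 0 ≤ ψ t)
    (hψ : ∀ j t, a j ≤ t → 12 * 2 ^ j ≤ ψ t) {r : ℝ} (hr : 0 ≤ r) (J : ℕ) :
    mino a J r ≤ 6 * 2 ^ J * r ∧ mino a J r ≤ r * ψ r := by
  induction J with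
  | zero => simpa [mino] using ⟨hr, mul_nonneg hr (h0 r)⟩
  | succ J ih =>
    have p2 : (0 : ℝ) < 2 ^ J := by positivity
    have e : mino a (J + 1) r = mino a J r + 6 * 2 ^ J * max (r - a J) 0 :=
      Finset.sum_range_succ _ _
    have m1 : max (r - a J) 0 ≤ r := max_le (by linarith [ha J]) hr
    have m2 := mul_le_mul_of_nonneg_left m1 (show 0 ≤ 6 * (2 : ℝ) ^ J by positivity)
    have m3 : mino a (J + 1) r ≤ 6 * 2 ^ (J + 1) * r := by
      rw [e, pow_succ]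
      linarith [ih.1]
    refine ⟨m3, ?_⟩
    by_cases hc : a J ≤ r
    · have := mul_le_mul_of_nonneg_left (hψ J r hc) hr
      rw [pow_succ] at m3
      linarith
    · rw [e, max_eq_right (by linarith), mul_zero, add_zero]
      exact ih.2

theorem mino_cont (a : ℕ → ℝ) (J : ℕ) : Continuous (mino a J) := by
  unfold mino
  fun_prop

theorem mino_nonneg (a : ℕ → ℝ) (J : ℕ) (r : ℝ) : 0 ≤ mino a J r :=
  Finset.sum_nonneg fun _ _ => by positivity

theorem no_major (h : Gd u) {a : ℕ → ℝ} (ha : ∀ j, 6 * a j ^ 3 ≤ u j) :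
    ¬ ∃ H : E n → ℝ, HarmonicOnNhd H (Dn u n) ∧ ∀ x ∈ Dn u n, ∀ J, mino a J |x 1| ≤ H x := by
  rintro ⟨H, hH, hHφ⟩
  have hu0 := h.ge 0
  have hs0 := real_mem_sd (u := u) (t := u 0 + 1 + 2) (by linarith)
  obtain ⟨x0, hx0⟩ : ∃ x0 : E n, Phi u (u 0 + 1 + 2 : ℝ) = pl 0 1 x0 := ⟨_, (pl_put _ 0).symm⟩
  obtain ⟨C, hC⟩ : ∃ C, C = Real.exp (u 0 + 1) := ⟨_, rfl⟩
  have hC1 : 1 ≤ C := by rw [hC]; exact Real.one_le_exp (by linarith)
  obtain ⟨J, hJ⟩ := exists_nat_gt (10 * H x0)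
  have huJ := h.ge J
  obtain ⟨T, hT⟩ : ∃ T, T = 40 * u J + u 0 + 4 := ⟨_, rfl⟩
  set Ro : Set ℂ := {s | s ∈ Sd u ∧ s.re < T} with hRo
  set Rc : Set ℂ := Set.Icc (u 0 + 1) T ×ℂ Set.Icc (-(Real.pi / 2)) (Real.pi / 2) with hRc
  have hmem : ∀ s ∈ Rc, u 0 + 1 ≤ s.re ∧ s.re ≤ T ∧ |s.im| ≤ Real.pi / 2 :=
    fun s hs => ⟨hs.1.1, hs.1.2, abs_le.2 hs.2⟩
  have hRcS : Rc ⊆ So u := fun s hs => mem_so (hmem s hs).1 (hmem s hs).2.2
  have hRoc : Ro ⊆ Rc := fun s hs => ⟨⟨hs.1.1.le, hs.2.le⟩, abs_le.1 hs.1.2.le⟩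
  have hcomp : IsCompact (Phi u '' Rc) :=
    (isCompact_Icc.reProdIm isCompact_Icc).image_of_continuousOn ((contOn_Phi h).mono hRcS)
  obtain ⟨R, hR⟩ := hcomp.isBounded.exists_norm_le
  obtain ⟨P, hPh, hP⟩ := exists_P (n := n) R
  set Ω : Set (E n) := {x | pl 0 1 x ∈ Phi u '' Ro} with hΩ
  set F : Set (E n) := {x | pl 0 1 x ∈ Phi u '' Rc} with hF
  have hΩo : IsOpen Ω := (isOpen_image h
    (isOpen_sd.inter (isOpen_lt Complex.continuous_re continuous_const))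
    (hRoc.trans hRcS)).preimage (pl (0 : Fin (n + 2)) 1).continuous
  have hFc : IsClosed F := hcomp.isClosed.preimage (pl (0 : Fin (n + 2)) 1).continuous
  have hΩF : Ω ⊆ F := fun x hx => Set.image_mono hRoc hx
  have hΩD : Ω ⊆ Dn u n := fun x hx => Set.image_mono (fun s hs => hs.1) hx
  have hx0Ω : x0 ∈ Ω := ⟨_, ⟨hs0, by rw [Complex.ofReal_re]; linarith⟩, hx0⟩
  have hFR : ∀ x ∈ F, x 0 ^ 2 ≤ R ^ 2 := by
    intro x hx
    have h1 := (Complex.abs_re_le_norm _).trans (hR _ hx)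
    rw [pl_re] at h1
    rw [← sq_abs]
    exact pow_le_pow_left₀ (abs_nonneg _) h1 2
  obtain ⟨v, hv⟩ : ∃ v : E n → ℝ, v = fun x =>
    ∑ j ∈ Finset.range J, (lift u n (bar u j) x - C) := ⟨_, rfl⟩
  have hvh : ∀ x ∈ F, HarmonicAt v x := by
    rintro x ⟨s, hs, hx⟩
    rw [hv]
    exact harmonicAt_sum _ (fun j x => lift u n (bar u j) x - C) fun j _ =>
      (harm_lift h (hRcS hs) hx (analyticAt_bar h (st_of_so (hRcS hs)) j)).sub
        (harmonicAt_const C)
  have hbdry : ∀ x ∈ F, x ∉ Ω → v x - mino a J |x 1| ≤ 0 := by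
    rintro x ⟨s, hs, hx⟩ hxΩ
    obtain ⟨m1, m2, m3⟩ := hmem s hs
    have hS := st_of_so (hRcS hs)
    rw [sub_nonpos, hv, mino]
    refine Finset.sum_le_sum fun j hj => ?_
    rw [lift_eq h (hRcS hs) hx, ← pl_im 0 1 x, ← hx]
    have h8 : (0 : ℝ) ≤ 6 * 2 ^ j * max (|(Phi u s).im| - a j) 0 := by positivity
    by_cases c1 : s.re = u 0 + 1
    · have := bar_le h hS m3 j
      rw [c1, ← hC] at this
      linarith
    by_cases c2 : s.re = T
    · have := h.mono (Finset.mem_range.1 hj).le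
      linarith [bar_right h hS m3 j (ha j) (by linarith)]
    · have a1 : |s.im| = Real.pi / 2 := by
        by_contra hne
        exact hxΩ ⟨s, ⟨⟨lt_of_le_of_ne m1 (Ne.symm c1), lt_of_le_of_ne m3 hne⟩,
          lt_of_le_of_ne m2 c2⟩, hx⟩
      have a2 : Real.cos s.im = 0 := by rw [← Real.cos_abs, a1, Real.cos_pi_div_two]
      linarith [bar_side h hS m3 j (ha j) (by linarith) (by rw [a2, zero_mul])]
  have hbound : ∀ x ∈ F, v x - mino a J |x 1| ≤ J * Real.exp T := by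
    rintro x ⟨s, hs, hx⟩
    obtain ⟨m1, m2, m3⟩ := hmem s hs
    have a1 : v x ≤ ∑ _j ∈ Finset.range J, Real.exp T := by
      rw [hv]
      refine Finset.sum_le_sum fun j _ => ?_
      rw [lift_eq h (hRcS hs) hx]
      linarith [bar_le h (st_of_so (hRcS hs)) m3 j, Real.exp_le_exp.2 m2]
    rw [Finset.sum_const, Finset.card_range, nsmul_eq_mul] at a1
    linarith [mino_nonneg a J |x 1|]
  have main : ∀ ε > 0, v x0 - H x0 - ε * P x0 ≤ 0 := by
    intro ε hε
    refine max_principle (0 : Fin (n + 2)) hΩo hFc hΩF (R := R ^ 2)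
      (u := fun x => v x - H x - ε * P x)
      (ψ := fun x => v x - mino a J |x 1| - ε * P x) ?_ ?_ ?_ ?_ ?_ ?_ x0 hx0Ω
    · exact fun x hx => hFR x (hΩF hx)
    · intro x hx
      exact ((hvh x (hΩF hx)).sub (hH x (hΩD hx))).sub (harmonicAt_mul ε (hPh x))
    · intro x hx
      apply ContinuousAt.continuousWithinAt
      refine ((hvh x hx).1.continuousAt.sub ?_).sub (harmonicAt_mul ε (hPh x)).1.continuousAt
      exact ((mino_cont a J).comp (by fun_prop : Continuous fun x : E n => |x 1|)).continuousAt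
    · intro x hx
      linarith [hHφ x (hΩD hx) J]
    · intro x hx hxΩ
      have := mul_nonneg hε.le (hP x (hFR x hx)).2
      linarith [hbdry x hx hxΩ]
    · intro η hη
      rw [isBounded_iff_forall_norm_le]
      refine ⟨J * Real.exp T / ε + R ^ 2 + 1, fun x hx => ?_⟩
      have h1 := hbound x hx.1
      have h2 := mul_le_mul_of_nonneg_left (hP x (hFR x hx.1)).1 hε.le
      have h3 : ε * (‖x‖ ^ 2 - R ^ 2) ≤ J * Real.exp T := by linarith [hx.2]
      have h4 : ‖x‖ ^ 2 - R ^ 2 ≤ J * Real.exp T / ε := by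
        rw [le_div_iff₀ hε]; linarith
      nlinarith [sq_nonneg (‖x‖ - 1)]
  have hP0 := (hP x0 (hFR x0 (hΩF hx0Ω))).2
  have hle : v x0 ≤ H x0 := by
    by_contra hlt
    push Not at hlt
    have h1 := main ((v x0 - H x0) / (P x0 + 1)) (div_pos (by linarith) (by linarith))
    have h2 : (v x0 - H x0) / (P x0 + 1) * P x0 < v x0 - H x0 := by
      rw [div_mul_eq_mul_div, div_lt_iff₀ (by linarith)]
      nlinarith
    linarith
  have hM : ∑ _j ∈ Finset.range J, (1 / 10 : ℝ) ≤ v x0 := by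
    rw [hv]
    refine Finset.sum_le_sum fun j _ => ?_
    rw [lift_eq h (sd_sub hs0) hx0, hC]
    linarith [bar_base h j]
  rw [Finset.sum_const, Finset.card_range, nsmul_eq_mul] at hM
  linarith

theorem harmonicAt_iso (L : E n ≃ₗᵢ[ℝ] E n) {f : E n → ℝ} {x : E n} (hf : HarmonicAt f (L x)) :
    HarmonicAt (fun z => f (L z)) x := by
  have hL : ContDiff ℝ 2 L := L.contDiff
  refine ⟨hf.1.comp x hL.contDiffAt, ?_⟩
  have h1 : ∀ᶠ z in 𝓝 x, HarmonicAt f (L z) := L.continuous.continuousAt.eventually hf.eventually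
  filter_upwards [h1] with z hz
  have h0 := hz.2.self_of_nhds
  rw [laplacian_eq_iteratedFDeriv_orthonormalBasis _
    ((EuclideanSpace.basisFun (Fin (n + 2)) ℝ).map L)] at h0
  rw [laplacian_eq_iteratedFDeriv_orthonormalBasis _ (EuclideanSpace.basisFun (Fin (n + 2)) ℝ)]
  simp only [Pi.zero_apply] at h0 ⊢
  rw [← h0]
  exact Finset.sum_congr rfl fun k _ =>
    iter2_comp (L.toContinuousLinearEquiv : E n →L[ℝ] E n) f z hz.1 _ _

theorem exists_seq {ψ : ℝ → ℝ} (hψ : Tendsto ψ atTop atTop) :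
    ∃ u a : ℕ → ℝ, Gd u ∧ (∀ j, 0 ≤ a j) ∧ (∀ j, 6 * a j ^ 3 ≤ u j) ∧
      ∀ j t, a j ≤ t → 12 * 2 ^ j ≤ ψ t := by
  have h1 : ∀ j : ℕ, ∃ a : ℝ, 0 ≤ a ∧ ∀ t, a ≤ t → 12 * 2 ^ j ≤ ψ t := by
    intro j
    obtain ⟨a, ha⟩ := eventually_atTop.1 (hψ.eventually_ge_atTop (12 * 2 ^ j))
    exact ⟨max a 0, le_max_right _ _, fun t ht => ha t ((le_max_left _ _).trans ht)⟩
  choose a ha1 ha2 using h1
  let b : ℕ → ℝ := fun j => max (1000 * bb j) (6 * a j ^ 3)
  let u : ℕ → ℝ := fun j => Nat.rec (b 0) (fun j x => max (2 * x) (b (j + 1))) j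
  have h2 : ∀ j, b j ≤ u j := by
    intro j
    cases j with
    | zero => exact le_rfl
    | succ j => exact le_max_right _ _
  exact ⟨u, a, ⟨fun j => (le_max_left _ _).trans (h2 j), fun j => le_max_left _ _⟩, ha1,
    fun j => (le_max_right _ _).trans (h2 j), ha2⟩

theorem noGain (n : ℕ) (ψ : ℝ → ℝ) (h0 : ∀ t, 0 ≤ ψ t) (hψ : Tendsto ψ atTop atTop) :
    ∃ D : Set (EuclideanSpace ℝ (Fin (n + 2))),
      IsOpen D ∧ IsConnected D ∧ ¬ Bornology.IsBounded D ∧
      (∃ h : EuclideanSpace ℝ (Fin (n + 2)) → ℝ,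
        InnerProductSpace.HarmonicOnNhd h D ∧ ∀ x ∈ D, ‖x‖ ≤ h x) ∧
      ¬ (∃ h : EuclideanSpace ℝ (Fin (n + 2)) → ℝ,
        InnerProductSpace.HarmonicOnNhd h D ∧ ∀ x ∈ D, |x 0| * ψ |x 0| ≤ h x) := by
  obtain ⟨u, a, h, ha0, ha, ha2⟩ := exists_seq hψ
  let L : E n ≃ₗᵢ[ℝ] E n := LinearIsometryEquiv.piLpCongrLeft 2 ℝ ℝ (Equiv.swap 0 1)
  have hL : ∀ y : E n, L y 0 = y 1 := fun y => by simp [L]
  refine ⟨L '' Dn u n, L.toHomeomorph.isOpenMap _ (isOpen_dn h),
    (isConnected_dn h).image L L.continuous.continuousOn, fun hb => ?_, ?_, ?_⟩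
  · obtain ⟨R, hR⟩ := hb.exists_norm_le
    refine not_bounded_dn (n := n) h (isBounded_iff_forall_norm_le.2 ⟨R, fun y hy => ?_⟩)
    simpa using hR (L y) ⟨y, hy, rfl⟩
  · obtain ⟨H, hH, hle⟩ := major_norm (n := n) h
    refine ⟨fun z => H (L.symm z), ?_, ?_⟩
    · rintro _ ⟨y, hy, rfl⟩
      exact harmonicAt_iso L.symm (by simpa using hH y hy)
    · rintro _ ⟨y, hy, rfl⟩
      simpa using hle y hy
  · rintro ⟨H, hH, hle⟩
    refine no_major (n := n) h ha ⟨fun z => H (L z), fun y hy =>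
      harmonicAt_iso L (hH _ ⟨y, hy, rfl⟩), fun y hy J => ?_⟩
    have := hle _ ⟨y, hy, rfl⟩
    rw [hL] at this
    exact (mino_le ha0 h0 ha2 (abs_nonneg _) J).2.trans this

theorem convex_iff (n : ℕ) (F : ℝ → ℝ) (h0 : ∀ t, 0 ≤ t → 0 ≤ F t)
    (hc : ∀ s t c : ℝ, 0 ≤ s → 0 ≤ t → 0 ≤ c → c ≤ 1 →
      F (c * s + (1 - c) * t) ≤ c * F s + (1 - c) * F t) :
    (∀ D : Set (EuclideanSpace ℝ (Fin (n + 2))), IsOpen D → IsConnected D →
      (∃ h : EuclideanSpace ℝ (Fin (n + 2)) → ℝ,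
        InnerProductSpace.HarmonicOnNhd h D ∧ ∀ x ∈ D, ‖x‖ ≤ h x) →
      ∃ h : EuclideanSpace ℝ (Fin (n + 2)) → ℝ,
        InnerProductSpace.HarmonicOnNhd h D ∧ ∀ x ∈ D, F |x 0| ≤ h x) ↔
    ∃ C : ℝ, ∀ t, 0 ≤ t → F t ≤ C * (1 + t) := by
  constructor
  · intro hall
    by_contra hC
    push Not at hC
    have hF0 := h0 0 le_rfl
    have hψ : Tendsto (fun t => if 0 < t then F t / t else 0) atTop atTop := by
      refine tendsto_atTop_atTop.2 fun M => ?_
      obtain ⟨t0, ht0, h1⟩ := hC (|M| + F 0)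
      have hM := abs_nonneg M
      have h2 : 0 < t0 := by
        rcases ht0.eq_or_lt with rfl | h2
        · linarith
        · exact h2
      refine ⟨t0, fun t ht => ?_⟩
      have h3 : 0 < t := h2.trans_le ht
      have h4 := hc t 0 (t0 / t) h3.le le_rfl (by positivity) ((div_le_one h3).2 ht)
      rw [mul_zero, add_zero, div_mul_cancel₀ _ h3.ne'] at h4
      have h5 : 0 ≤ t0 / t * F 0 := by positivity
      have h6 : t0 / t * F t = t0 * (F t / t) := by ring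
      have h7 : t0 * |M| ≤ t0 * (F t / t) := by nlinarith [mul_nonneg ht0 hF0]
      rw [if_pos h3]
      exact (le_abs_self M).trans (le_of_mul_le_mul_left h7 h2)
    obtain ⟨D, h1, h2, -, h3, h4⟩ := noGain n _ (fun t => by
      split_ifs with ht
      exacts [div_nonneg (h0 t ht.le) ht.le, le_rfl]) hψ
    obtain ⟨H, hH, hle⟩ := hall D h1 h2 h3
    refine h4 ⟨H, hH, fun x hx => le_trans ?_ (hle x hx)⟩
    split_ifs with ht
    · rw [mul_div_cancel₀ _ ht.ne']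
    · rw [mul_zero]
      exact h0 _ (abs_nonneg _)
  · rintro ⟨C, hC⟩ D _ _ ⟨H, hH, hle⟩
    have hC0 : 0 ≤ C := by linarith [hC 0 le_rfl, h0 0 le_rfl]
    refine ⟨fun x => C + C * H x, fun x hx =>
      (harmonicAt_const C).add (harmonicAt_mul C (hH x hx)), fun x hx => ?_⟩
    have h1 : |x 0| ≤ ‖x‖ := by simpa using PiLp.norm_apply_le x 0
    have h2 := mul_le_mul_of_nonneg_left (h1.trans (hle x hx)) hC0
    linarith [hC _ (abs_nonneg (x 0))]

end Pool.Agent.P.MP_677f70_an.Ng
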