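import Pool.Agent.P.MP_677f70_an.ShFacts

set_option autoImplicit false

open Complex Topology Filter

namespace Pool.Agent.P.MP_677f70_an.Sh

noncomputable def gg (u : ℕ → ℝ) (s : ℂ) : ℂ := Pm u (ca u) 2 s + 16 * I * Pm u u 3 s
noncomputable def Phi (u : ℕ → ℝ) (s : ℂ) : ℂ := exp s * gg u s
noncomputable def Lg (u : ℕ → ℝ) (s : ℂ) : ℂ := s + log (gg u s)

/-- the open large strip -/
def So (u : ℕ → ℝ) : Set ℂ := {s | u 0 < s.re ∧ |s.im| < 2}

noncomputable def Inv (u : ℕ → ℝ) : ℂ → ℂ := Function.invFunOn (Phi u) (So u)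

variable {u : ℕ → ℝ} {s : ℂ}

theorem st_of_so (hs : s ∈ So u) : St u s := ⟨hs.1.le, hs.2.le⟩

theorem isOpen_so : IsOpen (So u) :=
  (isOpen_lt continuous_const continuous_re).inter (isOpen_lt continuous_im.abs continuous_const)

theorem convex_so : Convex ℝ (So u) := by
  have e : So u = {s : ℂ | u 0 < s.re} ∩ ({s : ℂ | -2 < s.im} ∩ {s : ℂ | s.im < 2}) := by
    ext s; simp [So, abs_lt]
  rw [e]
  exact (convex_halfSpace_re_gt _).inter
    ((convex_halfSpace_im_gt _).inter (convex_halfSpace_im_lt _))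

theorem G0_pos (h : Gd u) (hs : St u s) : 0 < G0 u s := by
  have h1 := G0_ge h hs
  by_contra h2
  have := mul_nonpos_of_nonneg_of_nonpos (sq_nonneg s.re) (not_lt.1 h2)
  linarith

theorem g1_norm (h : Gd u) (hs : St u s) : ‖Pm u u 3 s‖ ≤ G1 u s := h.okT.succ.norm_le (hs.pos h)

theorem gg_re (h : Gd u) (hs : St u s) : 88 / 100 * G0 u s ≤ (gg u s).re := by
  have h1 := g0_re h hs
  have h2 := (abs_le.1 ((abs_im_le_norm _).trans (g1_norm h hs))).2
  have h3 := G1_le h hs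
  have h4 := G0_pos h hs
  have e : (gg u s).re = (Pm u (ca u) 2 s).re - 16 * (Pm u u 3 s).im := by simp [gg]; ring
  linarith

theorem gg_norm (h : Gd u) (hs : St u s) : ‖gg u s‖ ≤ 102 / 100 * G0 u s := by
  have h1 : ‖Pm u (ca u) 2 s‖ ≤ G0 u s := h.okA.succ.norm_le (hs.pos h)
  have h2 := g1_norm h hs
  have h3 := G1_le h hs
  have h4 := G0_pos h hs
  have h5 := norm_add_le (Pm u (ca u) 2 s) (16 * I * Pm u u 3 s)
  have e : ‖16 * I * Pm u u 3 s‖ = 16 * ‖Pm u u 3 s‖ := by simp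
  unfold gg
  linarith

theorem gg_im (h : Gd u) (hs : St u s) :
    10 * G1 u s ≤ (gg u s).im ∧ (gg u s).im ≤ 20 * G1 u s := by
  have h1 := abs_le.1 (g0_im h hs)
  have h2 := g1_re h hs
  have h3 := (re_le_norm _).trans (g1_norm h hs)
  have h4 := G1_nonneg h hs
  have e : (gg u s).im = (Pm u (ca u) 2 s).im + 16 * (Pm u u 3 s).re := by simp [gg]
  constructor <;> linarith [h1.1, h1.2]

theorem gg_norm_ge (h : Gd u) (hs : St u s) : 88 / 100 * G0 u s ≤ ‖gg u s‖ :=
  (gg_re h hs).trans (re_le_norm _)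

theorem gg_slit (h : Gd u) (hs : St u s) : gg u s ∈ slitPlane :=
  Or.inl (by linarith [gg_re h hs, G0_pos h hs])

theorem gg_ne (h : Gd u) (hs : St u s) : gg u s ≠ 0 := slitPlane_ne_zero (gg_slit h hs)

theorem gg_deriv (h : Gd u) (hs : St u s) :
    ∃ g' : ℂ, HasDerivAt (gg u) g' s ∧ ‖g'‖ ≤ 1 / 10 * ‖gg u s‖ := by
  have hp := hs.pos h
  refine ⟨_, (h.okA.succ.hasDerivAt hp).add ((h.okT.succ.hasDerivAt hp).const_mul (16 * I)), ?_⟩
  have h1 := h.okA.succ.succ.norm_le hp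
  have h2 := h.okT.succ.succ.norm_le hp
  have h3 : s.re * Nm u (ca u) (1 + 1 + 1) s ≤ G0 u s := h.okA.succ.N_succ hp
  have h4 : s.re * Nm u u (2 + 1 + 1) s ≤ G1 u s := h.okT.succ.N_succ hp
  have h5 := mul_le_mul_of_nonneg_right (hs.ge h) (h.okA.succ.succ.N_nonneg hp)
  have h6 := mul_le_mul_of_nonneg_right (hs.ge h) (h.okT.succ.succ.N_nonneg hp)
  have h7 := G1_le h hs
  have h8 := gg_norm_ge h hs
  have h9 := G0_pos h hs
  refine (norm_add_le _ _).trans ?_
  have e1 : ‖-((1 + 1 : ℕ) : ℂ) * Pm u (ca u) (1 + 1 + 1) s‖ = 2 * ‖Pm u (ca u) (1 + 1 + 1) s‖ := by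
    simp
  have e2 : ‖16 * I * (-((2 + 1 : ℕ) : ℂ) * Pm u u (2 + 1 + 1) s)‖
      = 48 * ‖Pm u u (2 + 1 + 1) s‖ := by
    simp; ring
  rw [e1, e2]
  linarith

theorem analyticAt_gg (h : Gd u) (hs : St u s) : AnalyticAt ℂ (gg u) s :=
  (h.okA.succ.analyticAt (hs.pos h)).add (analyticAt_const.mul (h.okT.succ.analyticAt (hs.pos h)))

theorem analyticAt_Phi (h : Gd u) (hs : St u s) : AnalyticAt ℂ (Phi u) s :=
  analyticAt_cexp.mul (analyticAt_gg h hs)

theorem analyticAt_Lg (h : Gd u) (hs : St u s) : AnalyticAt ℂ (Lg u) s :=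
  analyticAt_id.add ((analyticAt_gg h hs).clog (gg_slit h hs))

theorem exp_Lg (h : Gd u) (hs : St u s) : exp (Lg u s) = Phi u s := by
  rw [Lg, exp_add, exp_log (gg_ne h hs), Phi]

theorem log_lip (h : Gd u) {s t : ℂ} (hs : s ∈ So u) (ht : t ∈ So u) :
    ‖log (gg u t) - log (gg u s)‖ ≤ 1 / 10 * ‖t - s‖ := by
  refine Convex.norm_image_sub_le_of_norm_deriv_le (𝕜 := ℂ) (f := fun z => log (gg u z))
    (fun z hz => ?_) (fun z hz => ?_) convex_so hs ht
  · exact ((analyticAt_gg h (st_of_so hz)).clog (gg_slit h (st_of_so hz))).differentiableAt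
  · obtain ⟨g', h1, h2⟩ := gg_deriv h (st_of_so hz)
    rw [(h1.clog (gg_slit h (st_of_so hz))).deriv, norm_div,
      div_le_iff₀ (norm_pos_iff.2 (gg_ne h (st_of_so hz)))]
    exact h2

theorem injOn_Phi (h : Gd u) : Set.InjOn (Phi u) (So u) := by
  intro s hs t ht hst
  rw [← exp_Lg h (st_of_so hs), ← exp_Lg h (st_of_so ht)] at hst
  obtain ⟨n, hn⟩ := exp_eq_exp_iff_exists_int.1 hst
  have h1 := log_lip h hs ht
  obtain ⟨e, he⟩ : ∃ e, e = log (gg u t) - log (gg u s) := ⟨_, rfl⟩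
  obtain ⟨d, hd⟩ : ∃ d, d = t - s := ⟨_, rfl⟩
  rw [← he, ← hd] at h1
  have h2 : d + e = -(n * (2 * Real.pi * I)) := by
    rw [he, hd]; unfold Lg at hn; linear_combination -hn
  have h3 : d.re = -e.re := by
    have := congrArg re h2
    simp at this
    linarith
  have h4 : |d.im| ≤ 4 := by
    have a1 := abs_lt.1 hs.2
    have a2 := abs_lt.1 ht.2
    rw [hd, sub_im, abs_le]
    constructor <;> linarith [a1.1, a1.2, a2.1, a2.2]
  have h5 := norm_le_abs_re_add_abs_im d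
  have h6 := abs_re_le_norm e
  rw [h3, abs_neg] at h5
  have h7 : ‖d + e‖ = |(n : ℝ)| * (2 * Real.pi) := by
    rw [h2]; simp [abs_of_pos Real.pi_pos]
  have h8 := norm_add_le d e
  have h9 : |(n : ℝ)| < 1 := by
    by_contra hh
    have := mul_le_mul_of_nonneg_right (not_lt.1 hh) (by positivity : 0 ≤ 2 * Real.pi)
    linarith [Real.pi_gt_three]
  have h10 : n = 0 := by
    have : |n| < 1 := by exact_mod_cast h9
    exact Int.abs_lt_one_iff.1 this
  have h11 : d = -e := by rw [h10] at h2; simp at h2; linear_combination h2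
  have h12 : ‖d‖ = ‖e‖ := by rw [h11, norm_neg]
  have h13 : ‖d‖ = 0 := by linarith [norm_nonneg d]
  rw [norm_eq_zero, hd, sub_eq_zero] at h13
  exact h13.symm

theorem Phi_strict (h : Gd u) (hs : St u s) :
    ∃ f' : ℂ, f' ≠ 0 ∧ HasStrictDerivAt (Phi u) f' s := by
  obtain ⟨g', h1, h2⟩ := gg_deriv h hs
  have h3 : HasDerivAt (Phi u) (exp s * gg u s + exp s * g') s := (hasDerivAt_exp s).mul h1
  refine ⟨_, ?_, h3.deriv ▸ (analyticAt_Phi h hs).hasStrictDerivAt⟩
  rw [← mul_add]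
  refine mul_ne_zero (exp_ne_zero s) fun h4 => ?_
  have h5 : g' = -gg u s := by linear_combination h4
  rw [h5, norm_neg] at h2
  linarith [norm_pos_iff.2 (gg_ne h hs)]

theorem inv_Phi (h : Gd u) (hs : s ∈ So u) : Inv u (Phi u s) = s :=
  (injOn_Phi h).leftInvOn_invFunOn hs

theorem isOpen_image (h : Gd u) {V : Set ℂ} (hV : IsOpen V) (hVS : V ⊆ So u) :
    IsOpen (Phi u '' V) := by
  rw [isOpen_iff_mem_nhds]
  rintro _ ⟨s, hs, rfl⟩
  obtain ⟨f', h1, h2⟩ := Phi_strict h (st_of_so (hVS hs))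
  rw [← h2.map_nhds_eq h1]
  exact image_mem_map (hV.mem_nhds hs)

theorem analyticAt_inv (h : Gd u) (hs : s ∈ So u) : AnalyticAt ℂ (Inv u) (Phi u s) := by
  have hO := isOpen_image h isOpen_so subset_rfl
  refine DifferentiableOn.analyticAt (s := Phi u '' So u) ?_ (hO.mem_nhds ⟨s, hs, rfl⟩)
  rintro _ ⟨t, ht, rfl⟩
  obtain ⟨f', h1, h2⟩ := Phi_strict h (st_of_so ht)
  have h3 := h2.to_local_left_inverse h1 (g := Inv u)
    (by filter_upwards [isOpen_so.mem_nhds ht] with x hx using inv_Phi h hx)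
  exact h3.hasDerivAt.differentiableAt.differentiableWithinAt

theorem analyticAt_comp_inv (h : Gd u) (hs : s ∈ So u) {f : ℂ → ℂ} (hf : AnalyticAt ℂ f s) :
    AnalyticAt ℂ (fun w => f (Inv u w)) (Phi u s) :=
  AnalyticAt.comp (g := f) (by rwa [inv_Phi h hs]) (analyticAt_inv h hs)

theorem norm_Phi (u : ℕ → ℝ) (s : ℂ) : ‖Phi u s‖ = Real.exp s.re * ‖gg u s‖ := by
  rw [Phi, norm_mul, norm_exp]

theorem exp_ge {t : ℝ} (ht : 500 ≤ t) : 8 * t ^ 3 ≤ Real.exp t := by
  have h1 := Real.pow_div_factorial_le_exp t (by linarith) 4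
  have h2 : 0 < t ^ 3 := by positivity
  have h3 := mul_le_mul_of_nonneg_right ht h2.le
  norm_num [Nat.factorial] at h1
  have : t ^ 4 = t * t ^ 3 := by ring
  linarith

theorem re_le_norm_Phi (h : Gd u) (hs : St u s) : s.re ≤ ‖Phi u s‖ := by
  have h1 := gg_norm_ge h hs
  have h2 := G0_ge h hs
  have h3 := exp_ge (t := s.re) (by linarith [hs.ge h])
  have h4 := G0_pos h hs
  have h5 := hs.pos h
  rw [norm_Phi]
  calc s.re ≤ 8 * s.re * (88 / 100) * (s.re ^ 2 * G0 u s) := by nlinarith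
    _ = 8 * s.re ^ 3 * (88 / 100 * G0 u s) := by ring
    _ ≤ _ := by gcongr

theorem E1 (h : Gd u) (hs : St u s) (ht : |s.im| ≤ Real.pi / 2) :
    ‖Phi u s‖ ≤ 2 * (exp s * Pm u (ca u) 1 s).re := by
  have h1 := A_re h hs ht
  have h2 := mul_le_mul_of_nonneg_left (gg_norm h hs) (Real.exp_pos s.re).le
  have h3 := mul_pos (Real.exp_pos s.re) (G0_pos h hs)
  rw [norm_Phi]
  linarith

theorem Phi_re (u : ℕ → ℝ) (s : ℂ) : (Phi u s).re
    = Real.exp s.re * (Real.cos s.im * (gg u s).re - Real.sin s.im * (gg u s).im) :=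
  exp_mul_re _ _

theorem E2 (h : Gd u) (hs : St u s) (ht : |s.im| ≤ Real.pi / 2) :
    |(Phi u s).re| ≤ 12 * (exp s * Pm u u 2 s).re := by
  have h1 := T_re h hs ht
  obtain ⟨t1, t2, t3⟩ := trig ht
  have h2 := (abs_re_le_norm _).trans (gg_norm h hs)
  have h3 := gg_im h hs
  have h4 := G1_nonneg h hs
  have h5 := G0_le_T0 h hs
  have h6 := G1_le h hs
  have h7 : |Real.cos s.im * (gg u s).re - Real.sin s.im * (gg u s).im|
      ≤ Real.cos s.im * (102 / 100 * T0 u s) + |Real.sin s.im| * (20 * G1 u s) := by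
    refine (abs_sub _ _).trans ?_
    rw [abs_mul, abs_mul, abs_of_nonneg t1, abs_of_nonneg (by linarith [h3.1] : 0 ≤ (gg u s).im)]
    gcongr
    · linarith
    · exact h3.2
  have h8 : 0 ≤ Real.cos s.im * T0 u s := mul_nonneg t1 (by linarith)
  have h9 : 0 ≤ s.im * Real.sin s.im * G1 u s := mul_nonneg t2 h4
  have h10 : |Real.sin s.im| * (20 * G1 u s) ≤ Real.cos s.im * T0 u s
      + 20 * (s.im * Real.sin s.im * G1 u s) := by
    rcases t3 with t3 | t3
    · have a1 := mul_le_mul_of_nonneg_right (Real.abs_sin_le_one s.im) h4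
      have a2 := mul_le_mul_of_nonneg_right t3 (by linarith : 0 ≤ T0 u s)
      linarith
    · have a1 := mul_le_mul_of_nonneg_right t3.1 h4
      linarith
  rw [Phi_re, abs_mul, abs_of_pos (Real.exp_pos _)]
  refine le_trans ?_ (mul_le_mul_of_nonneg_left h1 (by norm_num))
  have h11 : |Real.cos s.im * (gg u s).re - Real.sin s.im * (gg u s).im|
      ≤ 12 * (9 / 10 * Real.cos s.im * T0 u s + 9 / 5 * (s.im * Real.sin s.im) * G1 u s) := by
    linarith
  have := mul_le_mul_of_nonneg_left h11 (Real.exp_pos s.re).le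
  linarith

theorem E3 (h : Gd u) (hs : St u s) :
    ∃ j, u j ≤ ‖Phi u s‖ ∧ 12 * (exp s * Pm u u 2 s).re ≤ ‖Phi u s‖ * (14 * bb j) := by
  obtain ⟨j, h1, h2⟩ := scale h hs
  refine ⟨j, h1.trans (re_le_norm_Phi h hs), ?_⟩
  have h3 := re_le_norm (exp s * Pm u u 2 s)
  rw [norm_mul, norm_exp] at h3
  have h4 : ‖Pm u u 2 s‖ ≤ T0 u s := h.okT.norm_le (hs.pos h)
  have h5 := gg_norm_ge h hs
  have h6 : 0 < bb j := by unfold bb; positivity
  have h7 := mul_le_mul_of_nonneg_left h5 h6.le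
  have h8 := mul_pos h6 (G0_pos h hs)
  have h9 : 12 * ‖Pm u u 2 s‖ ≤ ‖gg u s‖ * (14 * bb j) := by linarith
  have := mul_le_mul_of_nonneg_left h9 (Real.exp_pos s.re).le
  rw [norm_Phi]
  linarith

theorem E4 (h : Gd u) (hs : St u s) (ht : |s.im| ≤ Real.pi / 2) :
    -(‖Phi u s‖ / 2) ≤ (Phi u s).re := by
  obtain ⟨t1, -, -⟩ := trig ht
  have h1 := gg_re h hs
  have h2 := gg_norm_ge h hs
  have h3 := gg_im h hs
  have h4 := G1_nonneg h hs
  have h5 := G1_le h hs
  have h6 : 0 ≤ Real.cos s.im * (gg u s).re := mul_nonneg t1 (by linarith)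
  have h7 := mul_le_mul_of_nonneg_right (Real.sin_le_one s.im) (by linarith [h3.1] : 0 ≤ (gg u s).im)
  have h8 : -(‖gg u s‖ / 2) ≤ Real.cos s.im * (gg u s).re - Real.sin s.im * (gg u s).im := by
    linarith [h3.2]
  have := mul_le_mul_of_nonneg_left h8 (Real.exp_pos s.re).le
  rw [norm_Phi, Phi_re]
  linarith

theorem E5 (h : Gd u) (hs : St u s) :
    (Phi u s).re * Real.log ‖Phi u s‖ ≤ (Phi u s * Lg u s).re + 6 * ‖Phi u s‖ := by
  have h1 : (Lg u s).re = Real.log ‖Phi u s‖ := by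
    rw [← exp_Lg h hs, norm_exp, Real.log_exp]
  have h2 : |(Lg u s).im| ≤ 6 := by
    have a1 := abs_arg_le_pi (gg u s)
    have a2 := hs.im
    have a3 := abs_add_le s.im (arg (gg u s))
    rw [Lg, add_im, log_im]
    linarith [Real.pi_lt_four]
  have h3 : (Phi u s).im * (Lg u s).im ≤ ‖Phi u s‖ * 6 := by
    refine (le_abs_self _).trans ?_
    rw [abs_mul]
    exact mul_le_mul (abs_im_le_norm _) h2 (abs_nonneg _) (norm_nonneg _)
  rw [mul_re, h1]
  linarith

noncomputable def qq (u : ℕ → ℝ) (s : ℂ) : ℂ := s ^ 2 * Pm u (fun _ => 1) 2 s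

theorem analyticAt_qq (h : Gd u) (hs : St u s) : AnalyticAt ℂ (qq u) s :=
  (analyticAt_id.pow 2).mul (h.okO.succ.analyticAt (hs.pos h))

theorem E6 (h : Gd u) (hs : St u s) (ht : |s.im| ≤ Real.pi / 2) :
    -(exp s * qq u s).re ≤ 4 * (|(Phi u s).re| * max (Real.log |(Phi u s).re|) 0)
      - (exp s).re * ((qq u s).re - 16) := by
  obtain ⟨t1, -, -⟩ := trig ht
  have hσ := hs.ge h
  have hE := Real.exp_pos s.re
  have h1 : |(qq u s).im| ≤ 8 * s.re * G1 u s := q_im h hs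
  have h2 : Real.sin s.im * (qq u s).im ≤ 8 * s.re * G1 u s := by
    refine (le_abs_self _).trans ?_
    rw [abs_mul]
    have := mul_le_mul_of_nonneg_right (Real.abs_sin_le_one s.im) (abs_nonneg (qq u s).im)
    linarith
  have h3 := mul_le_mul_of_nonneg_left h2 hE.le
  have h4 := G1_nonneg h hs
  have h5 : 0 ≤ Real.exp s.re * Real.cos s.im := mul_nonneg hE.le t1
  rw [exp_mul_re, exp_re]
  rcases le_total (G1 u s) (Real.cos s.im * G0 u s) with hc | hc
  · have a1 : 0 ≤ |(Phi u s).re| * max (Real.log |(Phi u s).re|) 0 :=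
      mul_nonneg (abs_nonneg _) (le_max_right _ _)
    have a2 := mul_le_mul_of_nonneg_left hc (by linarith : 0 ≤ s.re)
    have a3 := mul_le_mul_of_nonneg_left (mul_G0_le h hs) t1
    have a4 : 8 * s.re * G1 u s ≤ 16 * Real.cos s.im := by linarith
    have a5 := mul_le_mul_of_nonneg_left a4 hE.le
    linarith
  · have a1 := G1_le h hs
    have a2 := G0_pos h hs
    have a3 : Real.cos s.im ≤ 1 / 1000 := le_of_mul_le_mul_right (by linarith) a2
    have a4 : 9 / 10 ≤ |Real.sin s.im| := by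
      have b1 := Real.sin_sq_add_cos_sq s.im
      have b2 : Real.cos s.im ^ 2 ≤ (1 / 1000) ^ 2 := pow_le_pow_left₀ t1 a3 2
      refine le_of_sq_le_sq ?_ (abs_nonneg _)
      rw [sq_abs]
      linarith
    have a5 := gg_im h hs
    have a6 := (abs_re_le_norm _).trans (gg_norm h hs)
    have a7 : 7 * G1 u s ≤ |Real.cos s.im * (gg u s).re - Real.sin s.im * (gg u s).im| := by
      have b1 := abs_sub_abs_le_abs_sub (Real.sin s.im * (gg u s).im) (Real.cos s.im * (gg u s).re)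
      rw [abs_sub_comm, abs_mul, abs_mul, abs_of_nonneg t1,
        abs_of_nonneg (by linarith [a5.1] : 0 ≤ (gg u s).im)] at b1
      have b2 := mul_le_mul a4 a5.1 (by linarith) (abs_nonneg _)
      have b3 := mul_le_mul_of_nonneg_left a6 t1
      linarith
    have a8 : Real.exp s.re * (7 * G1 u s) ≤ |(Phi u s).re| := by
      rw [Phi_re, abs_mul, abs_of_pos hE]
      exact mul_le_mul_of_nonneg_left a7 hE.le
    have a9 : Real.exp (s.re / 2) ≤ |(Phi u s).re| := by
      have b1 := exp_ge (t := s.re / 2) (by linarith)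
      have b2 := G1_ge h hs
      have b3 : Real.exp s.re = Real.exp (s.re / 2) * Real.exp (s.re / 2) := by
        rw [← Real.exp_add]; ring_nf
      have b4 := Real.exp_pos (s.re / 2)
      have b5 : 1 ≤ Real.exp (s.re / 2) * G1 u s := by
        have := mul_le_mul_of_nonneg_right b1 h4
        linarith
      have b6 := mul_le_mul_of_nonneg_left b5 b4.le
      have b7 := mul_nonneg hE.le h4
      rw [b3] at a8 b7
      linarith
    have a10 : s.re / 2 ≤ max (Real.log |(Phi u s).re|) 0 := by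
      refine le_trans ?_ (le_max_left _ _)
      have := Real.log_le_log (Real.exp_pos _) a9
      rwa [Real.log_exp] at this
    have a11 := mul_le_mul a8 a10 (by linarith) (abs_nonneg _)
    have a12 : 0 ≤ Real.exp s.re * (s.re * G1 u s) := by positivity
    linarith

end Pool.Agent.P.MP_677f70_an.Sh
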