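import Pool.Agent.P.MP_677f70_an.ShSer

set_option autoImplicit false

open Complex

namespace Pool.Agent.P.MP_677f70_an.Sh

noncomputable def bb (j : ℕ) : ℝ := 11 * 4 ^ (j + 1)

structure Gd (u : ℕ → ℝ) : Prop where
  big : ∀ j, 1000 * bb j ≤ u j
  dbl : ∀ j, 2 * u j ≤ u (j + 1)

noncomputable def ca (u : ℕ → ℝ) (k : ℕ) : ℝ := (1 / 2) ^ k * u k

variable {u : ℕ → ℝ} {s : ℂ}

theorem Gd.pow_le (h : Gd u) (k : ℕ) : 1000 * 2 ^ k ≤ u k := by
  refine le_trans ?_ (h.big k)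
  have h1 : (2 : ℝ) ^ k ≤ 4 ^ k := pow_le_pow_left₀ (by norm_num) (by norm_num) k
  have h2 : (0 : ℝ) < 4 ^ k := by positivity
  rw [bb, pow_succ]
  linarith

theorem Gd.ge (h : Gd u) (k : ℕ) : 1000 ≤ u k := by
  have h1 : (1 : ℝ) ≤ 2 ^ k := one_le_pow₀ (by norm_num)
  linarith [h.pow_le k]

theorem Gd.grow (h : Gd u) (j i : ℕ) : 2 ^ i * u j ≤ u (j + i) := by
  induction i with
  | zero => simp
  | succ i ih =>
    have := h.dbl (j + i)
    rw [pow_succ, ← add_assoc]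
    linarith

theorem Gd.mono (h : Gd u) {j k : ℕ} (hjk : j ≤ k) : u j ≤ u k := by
  obtain ⟨i, rfl⟩ := Nat.exists_eq_add_of_le hjk
  have h1 : (1 : ℝ) ≤ 2 ^ i := one_le_pow₀ (by norm_num)
  have := h.grow j i
  nlinarith [h.ge j]

theorem Gd.okA (h : Gd u) : Ok u (ca u) 1 := by
  refine ⟨fun k => ?_, fun k => by linarith [h.ge k], ?_⟩
  · have := h.ge k
    unfold ca
    positivity
  · refine summable_geometric_two.congr fun k => ?_
    have := h.ge k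
    unfold ca
    field_simp

theorem Gd.inv_le (h : Gd u) (k : ℕ) : 1 / u k ≤ (1 / 2) ^ k := by
  have h1 := h.pow_le k
  have h2 : (0 : ℝ) < 2 ^ k := by positivity
  rw [one_div_pow]
  exact one_div_le_one_div_of_le h2 (by linarith)

theorem Gd.okO (h : Gd u) : Ok u (fun _ => 1) 1 := by
  refine ⟨fun _ => zero_le_one, fun k => by linarith [h.ge k], ?_⟩
  refine summable_geometric_two.of_nonneg_of_le (fun k => ?_) fun k => ?_
  · have := h.ge k
    positivity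
  · simpa using h.inv_le k

theorem Gd.okT (h : Gd u) : Ok u u 2 := by
  refine ⟨fun k => by linarith [h.ge k], fun k => by linarith [h.ge k], ?_⟩
  refine h.okO.sm.congr fun k => ?_
  have := h.ge k
  field_simp

noncomputable def G0 (u : ℕ → ℝ) (s : ℂ) : ℝ := Nm u (ca u) 2 s
noncomputable def G1 (u : ℕ → ℝ) (s : ℂ) : ℝ := Nm u u 3 s
noncomputable def T0 (u : ℕ → ℝ) (s : ℂ) : ℝ := Nm u u 2 s

/-- the closed large strip -/
structure St (u : ℕ → ℝ) (s : ℂ) : Prop where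
  re : u 0 ≤ s.re
  im : |s.im| ≤ 2

theorem St.ge (h : Gd u) (hs : St u s) : 1000 ≤ s.re := (h.ge 0).trans hs.re

theorem St.pos (h : Gd u) (hs : St u s) : 0 < s.re := by linarith [hs.ge h]

theorem nrm_le (s : ℂ) (t : ℝ) (h0 : 0 ≤ s.re + t) (hs : |s.im| ≤ 2) :
    ‖s + t‖ ≤ s.re + t + 2 := by
  have := norm_le_abs_re_add_abs_im (s + t)
  simp only [add_re, ofReal_re, add_im, ofReal_im, add_zero] at this
  rw [abs_of_nonneg h0] at this
  linarith

theorem St.polar (h : Gd u) (hs : St u s) (k : ℕ) :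
    ∃ α β n : ℝ, n = ‖s + u k‖ ∧ α ^ 2 + β ^ 2 = 1 ∧ 99 / 100 ≤ α ∧ α ≤ 1 ∧ β * n = s.im ∧
      α * n = s.re + u k ∧ |β| ≤ 1 / 500 ∧ 1000 ≤ n ∧
      ∀ (c : ℝ) (m : ℕ), (c : ℂ) / (s + u k) ^ m = ((c / n ^ m : ℝ) : ℂ) * (α - β * I) ^ m := by
  obtain ⟨α, β, h1, h2, h3, h4, h5, h6, h7, h8⟩ := Sh.polar (z := s + u k)
    (by have := hs.ge h; have := h.ge k; simp; linarith) (by simpa using hs.im)
  exact ⟨α, β, _, rfl, h1, h2, h3, by simpa using h4, by simpa using h5, h6, h7, h8⟩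

theorem exists_scale (h : Gd u) {t : ℝ} (ht : u 0 ≤ t) : ∃ j, u j ≤ t ∧ t < u (j + 1) := by
  have hex : ∃ j, t < u (j + 1) := by
    obtain ⟨j, hj⟩ := pow_unbounded_of_one_lt t (show (1 : ℝ) < 2 by norm_num)
    refine ⟨j, ?_⟩
    have h1 := h.pow_le j
    have h2 := h.mono (Nat.le_succ j)
    have h3 : (0 : ℝ) < 2 ^ j := by positivity
    simp only [Nat.succ_eq_add_one] at h2
    linarith
  classical
  refine ⟨Nat.find hex, ?_, Nat.find_spec hex⟩
  rcases hj : Nat.find hex with _ | j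
  · exact ht
  · exact not_lt.1 (Nat.find_min hex (by omega : j < Nat.find hex))

theorem scale (h : Gd u) (hs : St u s) : ∃ j, u j ≤ s.re ∧ T0 u s ≤ bb j * G0 u s := by
  obtain ⟨j, hj1, hj2⟩ := exists_scale h hs.re
  refine ⟨j, hj1, ?_⟩
  have hp := hs.pos h
  have hu := h.ge (j + 1)
  have h2 : (0 : ℝ) < 2 ^ (j + 1) := by positivity
  have hA := (h.okA.succ.sumN hp).mul_left (2 ^ (j + 1))
  have hB := hasSum_geometric_two.mul_left (2 ^ (j + 1) / u (j + 1))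
  have h3 : T0 u s ≤ 2 ^ (j + 1) * G0 u s + 2 ^ (j + 1) / u (j + 1) * 2 := by
    refine hasSum_le (fun k => ?_) (h.okT.sumN hp) (hA.add hB)
    have hk := h.ge k
    have hn := h.okT.npos hp k
    have e1 : 0 ≤ 2 ^ (j + 1) * (ca u k / ‖s + u k‖ ^ (1 + 1)) :=
      mul_nonneg h2.le (h.okA.succ.term_nonneg s k)
    have e2 : 0 ≤ 2 ^ (j + 1) / u (j + 1) * (1 / 2 : ℝ) ^ k := by positivity
    rcases le_total k (j + 1) with hkj | hkj
    · have e3 : (1 : ℝ) ≤ 2 ^ (j + 1) * (1 / 2) ^ k := by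
        rw [one_div_pow, mul_one_div, le_div_iff₀ (by positivity), one_mul]
        exact pow_le_pow_right₀ (by norm_num) hkj
      have e4 : 2 ^ (j + 1) * (ca u k / ‖s + u k‖ ^ (1 + 1))
          = (2 ^ (j + 1) * (1 / 2) ^ k) * (u k / ‖s + u k‖ ^ 2) := by
        unfold ca; ring
      have e5 : 0 ≤ u k / ‖s + u k‖ ^ 2 := by positivity
      nlinarith
    · obtain ⟨i, rfl⟩ := Nat.exists_eq_add_of_le hkj
      have e3 := h.okT.term_le hp (j + 1 + i)
      have e4 := h.grow (j + 1) i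
      have e5 : u (j + 1 + i) / u (j + 1 + i) ^ 2 = 1 / u (j + 1 + i) := by field_simp
      have e6 : 2 ^ (j + 1) / u (j + 1) * (1 / 2 : ℝ) ^ (j + 1 + i) = 1 / (2 ^ i * u (j + 1)) := by
        rw [one_div_pow, pow_add _ (j + 1) i]; field_simp
      have e7 : 1 / u (j + 1 + i) ≤ 1 / (2 ^ i * u (j + 1)) :=
        one_div_le_one_div_of_le (by positivity) e4
      linarith
  have h4 := h.okA.succ.term_le_N hp (j + 1)
  have hn := h.okT.npos hp (j + 1)
  have h5 := nrm_le s (u (j + 1)) (by linarith) hs.im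
  have h6 : ‖s + u (j + 1)‖ ^ 2 ≤ 5 * u (j + 1) ^ 2 := by nlinarith
  have h7 : 1 / u (j + 1) ≤ 5 * 2 ^ (j + 1) * (ca u (j + 1) / ‖s + u (j + 1)‖ ^ (1 + 1)) := by
    have e : 5 * 2 ^ (j + 1) * (ca u (j + 1) / ‖s + u (j + 1)‖ ^ (1 + 1))
        = 5 * u (j + 1) / ‖s + u (j + 1)‖ ^ 2 := by
      unfold ca; rw [one_div_pow]; field_simp
    rw [e, div_le_div_iff₀ (by linarith) (by positivity)]
    nlinarith
  have h8 : (4 : ℝ) ^ (j + 1) = 2 ^ (j + 1) * 2 ^ (j + 1) := by rw [← mul_pow]; norm_num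
  have h9 : (1 : ℝ) ≤ 2 ^ (j + 1) := one_le_pow₀ (by norm_num)
  have hG : 0 ≤ G0 u s := h.okA.succ.N_nonneg hp
  have h10 : 1 / u (j + 1) ≤ 5 * 2 ^ (j + 1) * G0 u s :=
    h7.trans (mul_le_mul_of_nonneg_left h4 (by positivity))
  have h11 : 2 ^ (j + 1) / u (j + 1) * 2 ≤ 10 * (2 ^ (j + 1) * 2 ^ (j + 1)) * G0 u s := by
    have := mul_le_mul_of_nonneg_left h10 h2.le
    rw [mul_one_div] at this
    linarith
  have h12 : 2 ^ (j + 1) * G0 u s ≤ (2 ^ (j + 1) * 2 ^ (j + 1)) * G0 u s :=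
    mul_le_mul_of_nonneg_right (by nlinarith) hG
  rw [bb, h8]
  linarith

theorem G1_nonneg (h : Gd u) (hs : St u s) : 0 ≤ G1 u s := h.okT.succ.N_nonneg (hs.pos h)

theorem G1_le_T0 (h : Gd u) (hs : St u s) : s.re * G1 u s ≤ T0 u s := h.okT.N_succ (hs.pos h)

theorem G1_le (h : Gd u) (hs : St u s) : 1000 * G1 u s ≤ G0 u s := by
  obtain ⟨j, h1, h2⟩ := scale h hs
  have h3 := G1_le_T0 h hs
  have h4 := h.big j
  have h5 := G1_nonneg h hs
  have h6 : 0 < bb j := by unfold bb; positivity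
  have h7 : bb j * (1000 * G1 u s) ≤ bb j * G0 u s := by nlinarith
  exact le_of_mul_le_mul_left h7 h6

theorem G0_le_T0 (h : Gd u) (hs : St u s) : G0 u s ≤ T0 u s := by
  refine hasSum_le (fun k => ?_) (h.okA.succ.sumN (hs.pos h)) (h.okT.sumN (hs.pos h))
  have h1 : (1 / 2 : ℝ) ^ k ≤ 1 := pow_le_one₀ (by norm_num) (by norm_num)
  have h2 := h.ge k
  refine div_le_div_of_nonneg_right ?_ (by positivity)
  unfold ca
  nlinarith

theorem mul_G0_le (h : Gd u) (hs : St u s) : s.re * G0 u s ≤ 2 := by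
  refine (h.okA.N_succ (hs.pos h)).trans ?_
  refine hasSum_le (fun k => ?_) (h.okA.sumN (hs.pos h)) hasSum_geometric_two
  refine (h.okA.term_le (hs.pos h) k).trans (le_of_eq ?_)
  have := h.ge k
  unfold ca
  field_simp

theorem n0_le (h : Gd u) (hs : St u s) : ‖s + u 0‖ ≤ 3 * s.re := by
  have := nrm_le s (u 0) (by linarith [hs.pos h, h.ge 0]) hs.im
  linarith [hs.re, hs.ge h]

theorem G0_ge (h : Gd u) (hs : St u s) : 1 ≤ s.re ^ 2 * G0 u s := by
  have h1 := h.okA.succ.term_le_N (hs.pos h) 0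
  have h2 := n0_le h hs
  have h3 := h.okT.npos (hs.pos h) 0
  have h4 := h.ge 0
  have h5 := hs.pos h
  have h6 : ‖s + u 0‖ ^ 2 ≤ (3 * s.re) ^ 2 := pow_le_pow_left₀ h3.le h2 2
  refine le_trans ?_ (mul_le_mul_of_nonneg_left h1 (by positivity))
  rw [← mul_div_assoc, le_div_iff₀ (by positivity)]
  simp only [ca, pow_zero, one_mul]
  have h7 := mul_le_mul_of_nonneg_left h4 (sq_nonneg s.re)
  have h8 := sq_nonneg s.re
  norm_num only
  linarith

theorem G1_ge (h : Gd u) (hs : St u s) : 1 ≤ s.re ^ 3 * G1 u s := by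
  have h1 := h.okT.succ.term_le_N (hs.pos h) 0
  have h2 := n0_le h hs
  have h3 := h.okT.npos (hs.pos h) 0
  have h4 := h.ge 0
  have h5 := hs.pos h
  have h6 : ‖s + u 0‖ ^ 3 ≤ (3 * s.re) ^ 3 := pow_le_pow_left₀ h3.le h2 3
  refine le_trans ?_ (mul_le_mul_of_nonneg_left h1 (by positivity))
  rw [← mul_div_assoc, le_div_iff₀ (by positivity)]
  have h7 : 0 < s.re ^ 3 := by positivity
  have h8 := mul_le_mul_of_nonneg_left h4 h7.le
  norm_num only
  linarith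

theorem g0_re (h : Gd u) (hs : St u s) : 9 / 10 * G0 u s ≤ (Pm u (ca u) 2 s).re := by
  refine hasSum_le (fun k => ?_) ((h.okA.succ.sumN (hs.pos h)).mul_left _)
    (hasSum_re (h.okA.succ.sumP (hs.pos h)))
  obtain ⟨α, β, n, hn, h1, h2, h3, h4, h5, h6, h7, h8⟩ := hs.polar h k
  have h9 := h.okA.succ.term_nonneg s k
  rw [h8, ← hn] at *
  have e : ((α - β * I : ℂ) ^ (1 + 1)).re = α ^ 2 - β ^ 2 := by simp [pow_succ]
  rw [re_ofReal_mul, e]
  have : 9 / 10 ≤ α ^ 2 - β ^ 2 := by nlinarith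
  nlinarith

theorem g0_im (h : Gd u) (hs : St u s) : |(Pm u (ca u) 2 s).im| ≤ 4 * G1 u s := by
  refine (hasSum_im (h.okA.succ.sumP (hs.pos h))).norm_le_of_bounded
    ((h.okT.succ.sumN (hs.pos h)).mul_left _) fun k => ?_
  obtain ⟨α, β, n, hn, h1, h2, h3, h4, h5, h6, h7, h8⟩ := hs.polar h k
  rw [h8, ← hn]
  have e : ((α - β * I : ℂ) ^ (1 + 1)).im = -(2 * α * β) := by simp [pow_succ]; ring
  have hk := h.ge k
  have h9 : (1 / 2 : ℝ) ^ k ≤ 1 := pow_le_one₀ (by norm_num) (by norm_num)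
  have h10 : ca u k ≤ u k := by unfold ca; nlinarith
  have h11 := h.okA.a0 k
  have h12 : |β| * n ≤ 2 := by
    have := hs.im
    rwa [← h4, abs_mul, abs_of_pos (by linarith : 0 < n)] at this
  rw [im_ofReal_mul, e, Real.norm_eq_abs, abs_mul, abs_neg, abs_mul, abs_of_nonneg (by positivity),
    abs_of_nonneg (by linarith : 0 ≤ 2 * α)]
  have h13 : 2 * α * |β| ≤ 4 / n := by
    rw [le_div_iff₀ (by linarith)]
    nlinarith [abs_nonneg β]
  calc ca u k / n ^ (1 + 1) * (2 * α * |β|) ≤ u k / n ^ (1 + 1) * (4 / n) := by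
        gcongr
    _ = 4 * (u k / n ^ (2 + 1)) := by field_simp; ring

theorem g1_re (h : Gd u) (hs : St u s) : 9 / 10 * G1 u s ≤ (Pm u u 3 s).re := by
  refine hasSum_le (fun k => ?_) ((h.okT.succ.sumN (hs.pos h)).mul_left _)
    (hasSum_re (h.okT.succ.sumP (hs.pos h)))
  obtain ⟨α, β, n, hn, h1, h2, h3, h4, h5, h6, h7, h8⟩ := hs.polar h k
  have h9 := h.okT.succ.term_nonneg s k
  rw [h8, ← hn] at *
  have e : ((α - β * I : ℂ) ^ (2 + 1)).re = α * (α ^ 2 - 3 * β ^ 2) := by simp [pow_succ]; ring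
  rw [re_ofReal_mul, e]
  have h10 : 92 / 100 ≤ α ^ 2 - 3 * β ^ 2 := by nlinarith
  have : 9 / 10 ≤ α * (α ^ 2 - 3 * β ^ 2) := by nlinarith
  nlinarith

theorem exp_mul_re (s w : ℂ) :
    (exp s * w).re = Real.exp s.re * (Real.cos s.im * w.re - Real.sin s.im * w.im) := by
  rw [mul_re, exp_re, exp_im]; ring

theorem mul_sin_eq {t : ℝ} : t * Real.sin t = |t| * Real.sin |t| := by
  rcases le_total 0 t with h | h
  · rw [abs_of_nonneg h]
  · rw [abs_of_nonpos h, Real.sin_neg]; ring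

theorem trig {t : ℝ} (ht : |t| ≤ Real.pi / 2) :
    0 ≤ Real.cos t ∧ 0 ≤ t * Real.sin t ∧
      (1 / 2 ≤ Real.cos t ∨ (|Real.sin t| ≤ t * Real.sin t ∧ 3 / 5 ≤ t * Real.sin t)) := by
  have h0 := abs_nonneg t
  have h1 := Real.mul_le_sin h0 ht
  have h2 : 3 / 5 ≤ 2 / Real.pi := by
    rw [le_div_iff₀ Real.pi_pos]; linarith [Real.pi_lt_d2]
  have h3 : 0 ≤ Real.sin |t| := le_trans (by positivity) h1
  have h4 : |Real.sin t| = Real.sin |t| := by
    rcases le_total 0 t with h | h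
    · rw [abs_of_nonneg h] at h3 ⊢
      exact abs_of_nonneg h3
    · rw [abs_of_nonpos h] at h3 ⊢
      rw [← abs_neg, ← Real.sin_neg]
      exact abs_of_nonneg h3
  refine ⟨Real.cos_nonneg_of_neg_pi_div_two_le_of_le (abs_le.1 ht).1 (abs_le.1 ht).2,
    by rw [mul_sin_eq]; positivity, ?_⟩
  rcases le_total |t| 1 with h | h
  · left
    have := Real.one_sub_sq_div_two_le_cos (x := t)
    have h5 : t ^ 2 ≤ 1 := by rw [← sq_abs]; nlinarith
    linarith
  · right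
    rw [mul_sin_eq, h4]
    have h5 : 3 / 5 ≤ Real.sin |t| := by nlinarith
    constructor <;> nlinarith

theorem A_re (h : Gd u) (hs : St u s) (ht : |s.im| ≤ Real.pi / 2) :
    Real.exp s.re * (3 / 5) * G0 u s ≤ (exp s * Pm u (ca u) 1 s).re := by
  refine hasSum_le (fun k => ?_) ((h.okA.succ.sumN (hs.pos h)).mul_left _)
    (h.okA.sumRe (hs.pos h) _)
  obtain ⟨α, β, n, hn, h1, h2, h3, h4, h5, h6, h7, h8⟩ := hs.polar h k
  obtain ⟨t1, t2, t3⟩ := trig ht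
  have h9 := h.okA.a0 k
  rw [h8, ← hn, exp_mul_re, re_ofReal_mul, im_ofReal_mul, mul_assoc]
  refine mul_le_mul_of_nonneg_left ?_ (Real.exp_pos _).le
  have e1 : ((α - β * I : ℂ) ^ 1).re = α := by simp
  have e2 : ((α - β * I : ℂ) ^ 1).im = -β := by simp
  have e3 : Real.cos s.im * (ca u k / n ^ 1 * α) - Real.sin s.im * (ca u k / n ^ 1 * -β)
      = (Real.cos s.im * (α * n) + (β * n) * Real.sin s.im) * (ca u k / n ^ (1 + 1)) := by
    have : n ≠ 0 := by linarith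
    field_simp
    ring
  rw [e1, e2, e3, h4]
  refine mul_le_mul_of_nonneg_right ?_ (by positivity)
  have h10 : 2 ≤ α * n := by nlinarith
  rcases t3 with t3 | t3
  · nlinarith
  · nlinarith [t3.2]

theorem T_re (h : Gd u) (hs : St u s) (ht : |s.im| ≤ Real.pi / 2) :
    Real.exp s.re * (9 / 10 * Real.cos s.im) * T0 u s
      + Real.exp s.re * (9 / 5 * (s.im * Real.sin s.im)) * G1 u s ≤ (exp s * Pm u u 2 s).re := by
  refine hasSum_le (fun k => ?_) (((h.okT.sumN (hs.pos h)).mul_left _).add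
    ((h.okT.succ.sumN (hs.pos h)).mul_left _)) (h.okT.sumRe (hs.pos h) _)
  obtain ⟨α, β, n, hn, h1, h2, h3, h4, h5, h6, h7, h8⟩ := hs.polar h k
  obtain ⟨t1, t2, -⟩ := trig ht
  have h9 := h.ge k
  rw [h8, ← hn, exp_mul_re, re_ofReal_mul, im_ofReal_mul, mul_assoc, mul_assoc (Real.exp s.re),
    ← mul_add]
  refine mul_le_mul_of_nonneg_left ?_ (Real.exp_pos _).le
  have e1 : ((α - β * I : ℂ) ^ 2).re = α ^ 2 - β ^ 2 := by simp [pow_succ]
  have e2 : ((α - β * I : ℂ) ^ 2).im = -(2 * α * β) := by simp [pow_succ]; ring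
  have e3 : Real.cos s.im * (u k / n ^ 2 * (α ^ 2 - β ^ 2))
      - Real.sin s.im * (u k / n ^ 2 * -(2 * α * β))
      = (α ^ 2 - β ^ 2) * Real.cos s.im * (u k / n ^ 2)
        + 2 * α * ((β * n) * Real.sin s.im) * (u k / n ^ (2 + 1)) := by
    have : n ≠ 0 := by linarith
    field_simp
    ring
  rw [e1, e2, e3, h4]
  have h10 : 9 / 10 ≤ α ^ 2 - β ^ 2 := by nlinarith
  have h11 : 9 / 5 ≤ 2 * α := by linarith
  gcongr

theorem q_term (h : Gd u) (hs : St u s) (k : ℕ) :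
    0 ≤ (s ^ 2 * (((1 : ℝ) : ℂ) / (s + u k) ^ 2)).re ∧
    (u k ≤ s.re → 1 / 5 ≤ (s ^ 2 * (((1 : ℝ) : ℂ) / (s + u k) ^ 2)).re) ∧
    |(s ^ 2 * (((1 : ℝ) : ℂ) / (s + u k) ^ 2)).im| ≤ 8 * s.re * (u k / ‖s + u k‖ ^ 3) := by
  obtain ⟨α, β, n, hn, h1, h2, h3, h4, h5, h6, h7, h8⟩ := hs.polar h k
  have hk := h.ge k
  have hσ := hs.ge h
  have hτ := hs.im
  have hn0 : 0 < n := by linarith
  obtain ⟨p, hp⟩ : ∃ p, p = s.re * α + s.im * β := ⟨_, rfl⟩
  obtain ⟨q, hq⟩ : ∃ q, q = s.im * α - s.re * β := ⟨_, rfl⟩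
  have e : s ^ 2 * (((1 / n ^ 2 : ℝ) : ℂ) * (α - β * I) ^ 2)
      = ((1 / n ^ 2 : ℝ) : ℂ) * (p + q * I) ^ 2 := by
    have e1 : s * (α - β * I) = p + q * I := by
      apply Complex.ext
      · simp [hp]
      · simp [hq]; ring
    rw [← e1]; ring
  have e1 : ((p + q * I : ℂ) ^ 2).re = p ^ 2 - q ^ 2 := by simp [pow_succ]
  have e2 : ((p + q * I : ℂ) ^ 2).im = 2 * p * q := by simp [pow_succ]; ring
  rw [h8, e, re_ofReal_mul, im_ofReal_mul, e1, e2, ← hn]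
  have q1 : q * n = s.im * u k := by
    rw [hq]; linear_combination s.im * h5 - s.re * h4
  have q2 : |q| * n ≤ 2 * u k := by
    rw [← abs_of_pos hn0, ← abs_mul, q1, abs_mul, abs_of_pos (by linarith : 0 < u k)]
    exact mul_le_mul_of_nonneg_right hτ (by linarith)
  have q3 : u k ≤ n := by
    have := mul_le_mul_of_nonneg_right h3 hn0.le
    linarith
  have q4 : |q| ≤ 2 := le_of_mul_le_mul_right (by linarith) hn0
  have q5 : q ^ 2 ≤ 2 ^ 2 := by rw [← sq_abs]; exact pow_le_pow_left₀ (abs_nonneg _) q4 2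
  have p0 : 0 ≤ s.im * β := by
    rw [← h4, mul_right_comm]
    exact mul_nonneg (mul_self_nonneg β) hn0.le
  have p1 : 99 / 100 * s.re ≤ p := by
    have := mul_le_mul_of_nonneg_left h2 (by linarith : 0 ≤ s.re)
    linarith
  have p2 : p ≤ 2 * s.re := by
    have a1 : s.im * β ≤ 2 * (1 / 500) := by
      refine (le_abs_self _).trans ?_
      rw [abs_mul]
      exact mul_le_mul hτ h6 (abs_nonneg _) (by norm_num)
    have := mul_le_mul_of_nonneg_left h3 (by linarith : 0 ≤ s.re)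
    linarith
  have p3 : 9 / 10 * s.re ^ 2 ≤ p ^ 2 - q ^ 2 := by
    have a1 : (99 / 100 * s.re) ^ 2 ≤ p ^ 2 := pow_le_pow_left₀ (by linarith) p1 2
    have a2 : 1000 ^ 2 ≤ s.re ^ 2 := pow_le_pow_left₀ (by norm_num) hσ 2
    linarith
  refine ⟨mul_nonneg (by positivity) (le_trans (by positivity) p3), fun hu => ?_, ?_⟩
  · have n1 := nrm_le s (u k) (by linarith) hτ
    rw [← hn] at n1
    have n2 : n ^ 2 ≤ (21 / 10 * s.re) ^ 2 := pow_le_pow_left₀ hn0.le (by linarith) 2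
    have n3 := sq_nonneg s.re
    rw [one_div_mul_eq_div, le_div_iff₀ (by positivity)]
    linarith
  · rw [abs_mul, abs_mul, abs_of_nonneg (by positivity), abs_of_nonneg (by linarith : 0 ≤ 2 * p)]
    have q6 : |q| ≤ 2 * u k / n := by rwa [le_div_iff₀ hn0]
    calc 1 / n ^ 2 * (2 * p * |q|) ≤ 1 / n ^ 2 * (2 * (2 * s.re) * (2 * u k / n)) := by gcongr
      _ = 8 * s.re * (u k / n ^ 3) := by field_simp; ring

theorem q_re (h : Gd u) (hs : St u s) (J : ℕ) (hJ : u J ≤ s.re) :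
    (J : ℝ) / 5 ≤ (s ^ 2 * Pm u (fun _ => 1) 2 s).re := by
  have h1 := sum_le_hasSum (Finset.range J) (fun k _ => (q_term h hs k).1)
    (h.okO.succ.sumRe (hs.pos h) (s ^ 2))
  refine le_trans ?_ h1
  have h2 := Finset.card_nsmul_le_sum (Finset.range J)
    (fun k => (s ^ 2 * (((1 : ℝ) : ℂ) / (s + u k) ^ 2)).re) (1 / 5) fun k hk =>
      (q_term h hs k).2.1 ((h.mono (Finset.mem_range.1 hk).le).trans hJ)
  rw [Finset.card_range, nsmul_eq_mul] at h2
  linarith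

theorem q_im (h : Gd u) (hs : St u s) :
    |(s ^ 2 * Pm u (fun _ => 1) 2 s).im| ≤ 8 * s.re * G1 u s :=
  (h.okO.succ.sumIm (hs.pos h) (s ^ 2)).norm_le_of_bounded
    ((h.okT.succ.sumN (hs.pos h)).mul_left _) fun k => (q_term h hs k).2.2

end Pool.Agent.P.MP_677f70_an.Sh
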