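import Pool.Agent.P.MP_677f70_an.Harm

set_option autoImplicit false

open Topology Laplacian InnerProductSpace Filter

namespace Pool.Agent.P.MP_677f70_an.Sh

theorem iter2_line {E : Type*} [NormedAddCommGroup E] [NormedSpace ℝ E]
    {f : E → ℝ} {x : E} (hf : ContDiffAt ℝ 2 f x) (a : E) :
    iteratedFDeriv ℝ 2 f x ![a, a] = deriv (deriv fun t : ℝ => f (t • a + x)) 0 := by
  set L : ℝ →L[ℝ] E := ContinuousLinearMap.toSpanSingleton ℝ a with hL
  have hf' : ContDiffAt ℝ 2 (fun z => f (z + x)) (L 0) := by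
    have : ContDiffAt ℝ 2 f (L 0 + x) := by simpa using hf
    exact this.comp (L 0) (by fun_prop)
  have h1 := iter2_comp L (fun z => f (z + x)) 0 hf' 1 1
  have h2 : iteratedFDeriv ℝ 2 (fun z => f (z + x)) (L 0) = iteratedFDeriv ℝ 2 f x := by
    rw [iteratedFDeriv_comp_add_right]
    simp
  have hL1 : L 1 = a := by simp [hL]
  rw [h2, hL1] at h1
  rw [← h1]
  have e : deriv (deriv (fun z : ℝ => f (L z + x))) = iteratedDeriv 2 (fun z : ℝ => f (L z + x)) := by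
    rw [iteratedDeriv_succ, iteratedDeriv_one]
  have e2 : (fun t : ℝ => f (t • a + x)) = fun z : ℝ => f (L z + x) := by
    ext t; simp [hL]
  rw [e2, e, iteratedDeriv_eq_iteratedFDeriv]
  congr 1
  ext i
  fin_cases i <;> rfl

theorem deriv2_shift (F : ℝ → ℝ) (y : ℝ) :
    deriv (deriv fun t => F (t + y)) 0 = deriv (deriv F) y := by
  have e : (deriv fun t => F (t + y)) = fun t => deriv F (t + y) := by
    ext t; exact deriv_comp_add_const F y t
  rw [e, deriv_comp_add_const, zero_add]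

theorem hasDerivAt_rt {c y : ℝ} (h : 0 < y ^ 2 + c) :
    HasDerivAt (fun y : ℝ => √(y ^ 2 + c)) (y / √(y ^ 2 + c)) y := by
  have h1 : HasDerivAt (fun y : ℝ => y ^ 2 + c) (2 * y) y := by
    simpa using (hasDerivAt_pow 2 y).add_const c
  refine (h1.sqrt h.ne').congr_deriv ?_
  have := Real.sqrt_pos.2 h
  field_simp

theorem d0 {c y : ℝ} (h0 : 0 < y ^ 2 + c) (h : 0 < √(y ^ 2 + c) + y) :
    deriv (deriv fun y : ℝ => √(y ^ 2 + c) - y * Real.log (√(y ^ 2 + c) + y)) y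
      = -(1 / √(y ^ 2 + c)) := by
  have hl : ∀ z : ℝ, 0 < z ^ 2 + c → 0 < √(z ^ 2 + c) + z →
      HasDerivAt (fun y : ℝ => Real.log (√(y ^ 2 + c) + y)) (1 / √(z ^ 2 + c)) z := by
    intro z a b
    refine (((hasDerivAt_rt a).add (hasDerivAt_id z)).log b.ne').congr_deriv ?_
    have := Real.sqrt_pos.2 a
    simp only [Pi.add_apply, id]
    field_simp
    ring
  have e1 : ∀ᶠ z in 𝓝 y, 0 < z ^ 2 + c :=
    (by fun_prop : Continuous fun z : ℝ => z ^ 2 + c).continuousAt.eventually (lt_mem_nhds h0)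
  have e2 : ∀ᶠ z in 𝓝 y, 0 < √(z ^ 2 + c) + z :=
    (by fun_prop : Continuous fun z : ℝ => √(z ^ 2 + c) + z).continuousAt.eventually
      (lt_mem_nhds h)
  have e3 : (deriv fun y : ℝ => √(y ^ 2 + c) - y * Real.log (√(y ^ 2 + c) + y))
      =ᶠ[𝓝 y] fun z => -Real.log (√(z ^ 2 + c) + z) := by
    filter_upwards [e1, e2] with z a b
    refine (((hasDerivAt_rt a).sub ((hasDerivAt_id z).mul (hl z a b))).congr_deriv ?_).deriv
    simp only [id]
    ring
  rw [e3.deriv_eq]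
  exact (hl y h0 h).neg.deriv

theorem d1 {c a y : ℝ} (h0 : 0 < y ^ 2 + c) (h : 0 < √(y ^ 2 + c) + a) :
    deriv (deriv fun y : ℝ => √(y ^ 2 + c) - a * Real.log (√(y ^ 2 + c) + a)) y
      = 1 / (√(y ^ 2 + c) + a) - y ^ 2 / (√(y ^ 2 + c) * (√(y ^ 2 + c) + a) ^ 2) := by
  have e1 : ∀ᶠ z in 𝓝 y, 0 < z ^ 2 + c :=
    (by fun_prop : Continuous fun z : ℝ => z ^ 2 + c).continuousAt.eventually (lt_mem_nhds h0)
  have e2 : ∀ᶠ z in 𝓝 y, 0 < √(z ^ 2 + c) + a :=
    (by fun_prop : Continuous fun z : ℝ => √(z ^ 2 + c) + a).continuousAt.eventually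
      (lt_mem_nhds h)
  have e3 : (deriv fun y : ℝ => √(y ^ 2 + c) - a * Real.log (√(y ^ 2 + c) + a))
      =ᶠ[𝓝 y] fun z => z / (√(z ^ 2 + c) + a) := by
    filter_upwards [e1, e2] with z b1 b2
    refine (((hasDerivAt_rt b1).sub
      ((((hasDerivAt_rt b1).add_const a).log b2.ne').const_mul a)).congr_deriv ?_).deriv
    have := Real.sqrt_pos.2 b1
    field_simp
    ring
  rw [e3.deriv_eq]
  refine (((hasDerivAt_id y).div ((hasDerivAt_rt h0).add_const a) h.ne').congr_deriv ?_).deriv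
  have := Real.sqrt_pos.2 h0
  simp only [id]
  field_simp

/-- a harmonic function of three coordinates -/
noncomputable def WW {m : ℕ} (i j k : Fin m) (x : EuclideanSpace ℝ (Fin m)) : ℝ :=
  √(x i ^ 2 + x j ^ 2 + x k ^ 2) - x i * Real.log (√(x i ^ 2 + x j ^ 2 + x k ^ 2) + x i)

theorem sq_pos_of {a b c : ℝ} (h : 0 < √(a ^ 2 + b ^ 2 + c ^ 2) + a) : 0 < a ^ 2 + b ^ 2 + c ^ 2 := by
  by_contra hh
  have h1 : a ^ 2 + b ^ 2 + c ^ 2 = 0 := le_antisymm (not_lt.1 hh) (by positivity)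
  have h2 : a = 0 := by nlinarith [sq_nonneg a, sq_nonneg b, sq_nonneg c]
  rw [h1, h2] at h
  simp at h

theorem contDiffAt_WW {m : ℕ} (i j k : Fin m) {x : EuclideanSpace ℝ (Fin m)}
    (h : 0 < √(x i ^ 2 + x j ^ 2 + x k ^ 2) + x i) : ContDiffAt ℝ 2 (WW i j k) x := by
  have h1 : ContDiffAt ℝ 2 (fun x : EuclideanSpace ℝ (Fin m) => √(x i ^ 2 + x j ^ 2 + x k ^ 2)) x :=
    ContDiffAt.sqrt (by fun_prop) (sq_pos_of h).ne'
  have h2 : ContDiffAt ℝ 2 (fun x : EuclideanSpace ℝ (Fin m) => x i) x := by fun_prop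
  exact h1.sub (h2.mul ((h1.add h2).log h.ne'))

theorem laplacian_WW {m : ℕ} {i j k : Fin m} (hij : i ≠ j) (hik : i ≠ k) (hjk : j ≠ k)
    {x : EuclideanSpace ℝ (Fin m)} (h : 0 < √(x i ^ 2 + x j ^ 2 + x k ^ 2) + x i) :
    Δ (WW i j k) x = 0 := by
  rw [laplacian_eq_iteratedFDeriv_orthonormalBasis _ (EuclideanSpace.basisFun (Fin m) ℝ)]
  simp only [iter2_line (contDiffAt_WW i j k h)]
  have h0 := sq_pos_of h
  have hi : deriv (deriv fun t : ℝ => WW i j k (t • EuclideanSpace.basisFun (Fin m) ℝ i + x)) 0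
      = -(1 / √(x i ^ 2 + x j ^ 2 + x k ^ 2)) := by
    have a := d0 (c := x j ^ 2 + x k ^ 2) (y := x i) (by linarith) (by rwa [← add_assoc])
    rw [← deriv2_shift, ← add_assoc] at a
    rw [← a]
    congr 2
    ext t
    simp [WW, hij.symm, hik.symm, add_assoc]
  have hj : deriv (deriv fun t : ℝ => WW i j k (t • EuclideanSpace.basisFun (Fin m) ℝ j + x)) 0
      = 1 / (√(x i ^ 2 + x j ^ 2 + x k ^ 2) + x i) - x j ^ 2 / (√(x i ^ 2 + x j ^ 2 + x k ^ 2)
        * (√(x i ^ 2 + x j ^ 2 + x k ^ 2) + x i) ^ 2) := by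
    have e : x j ^ 2 + (x i ^ 2 + x k ^ 2) = x i ^ 2 + x j ^ 2 + x k ^ 2 := by ring
    have a := d1 (c := x i ^ 2 + x k ^ 2) (y := x j) (a := x i) (by linarith) (by rwa [e])
    rw [← deriv2_shift, e] at a
    rw [← a]
    congr 2
    ext t
    have e2 : (t + x j) ^ 2 + (x i ^ 2 + x k ^ 2) = x i ^ 2 + (t + x j) ^ 2 + x k ^ 2 := by ring
    simp [WW, hij, hjk.symm, e2]
  have hk : deriv (deriv fun t : ℝ => WW i j k (t • EuclideanSpace.basisFun (Fin m) ℝ k + x)) 0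
      = 1 / (√(x i ^ 2 + x j ^ 2 + x k ^ 2) + x i) - x k ^ 2 / (√(x i ^ 2 + x j ^ 2 + x k ^ 2)
        * (√(x i ^ 2 + x j ^ 2 + x k ^ 2) + x i) ^ 2) := by
    have e : x k ^ 2 + (x i ^ 2 + x j ^ 2) = x i ^ 2 + x j ^ 2 + x k ^ 2 := by ring
    have a := d1 (c := x i ^ 2 + x j ^ 2) (y := x k) (a := x i) (by linarith) (by rwa [e])
    rw [← deriv2_shift, e] at a
    rw [← a]
    congr 2
    ext t
    have e2 : (t + x k) ^ 2 + (x i ^ 2 + x j ^ 2) = x i ^ 2 + x j ^ 2 + (t + x k) ^ 2 := by ring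
    simp [WW, hik, hjk, e2]
  rw [← Finset.sum_subset (Finset.subset_univ {i, j, k})]
  · rw [Finset.sum_insert (by simp [hij, hik]), Finset.sum_pair hjk, hi, hj, hk]
    have h1 := Real.sqrt_pos.2 h0
    have h2 := Real.sq_sqrt h0.le
    obtain ⟨r, hr⟩ : ∃ r, r = √(x i ^ 2 + x j ^ 2 + x k ^ 2) := ⟨_, rfl⟩
    rw [← hr] at h h1 h2 ⊢
    field_simp
    linear_combination h2
  · intro l _ hl
    simp only [Finset.mem_insert, Finset.mem_singleton, not_or] at hl
    have e : (fun t : ℝ => WW i j k (t • EuclideanSpace.basisFun (Fin m) ℝ l + x))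
        = fun _ => WW i j k x := by
      ext t
      simp [WW, Ne.symm hl.1, Ne.symm hl.2.1, Ne.symm hl.2.2]
    rw [e]
    simp

theorem harmonicAt_WW {m : ℕ} {i j k : Fin m} (hij : i ≠ j) (hik : i ≠ k) (hjk : j ≠ k)
    {x : EuclideanSpace ℝ (Fin m)} (h : 0 < √(x i ^ 2 + x j ^ 2 + x k ^ 2) + x i) :
    HarmonicAt (WW i j k) x := by
  refine ⟨contDiffAt_WW i j k h, ?_⟩
  have e : ∀ᶠ z : EuclideanSpace ℝ (Fin m) in 𝓝 x, 0 < √(z i ^ 2 + z j ^ 2 + z k ^ 2) + z i :=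
    (by fun_prop : Continuous fun z : EuclideanSpace ℝ (Fin m) =>
      √(z i ^ 2 + z j ^ 2 + z k ^ 2) + z i).continuousAt.eventually (lt_mem_nhds h)
  filter_upwards [e] with z hz using laplacian_WW hij hik hjk hz

/-- the elementary estimate behind the majorant of the other coordinates -/
theorem rho_le {a r ρ : ℝ} (hr : 0 < r) (ha : -(r / 2) ≤ a) (ha' : a ≤ r) (hρ : r ≤ ρ) :
    ρ ≤ 2 * (ρ - a * Real.log (ρ + a)) + 2 * (a * Real.log r) + 2 * r := by
  have h0 : 0 < (ρ + a) / r := div_pos (by linarith) hr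
  have h1 : Real.log (ρ + a) = Real.log r + Real.log ((ρ + a) / r) := by
    rw [Real.log_div (by linarith) hr.ne']; ring
  have h2 : a * Real.log ((ρ + a) / r) ≤ ρ / 2 + r := by
    rcases le_total 0 a with h | h
    · have b1 := Real.log_le_sub_one_of_pos (show 0 < (ρ + a) / r / 4 by positivity)
      rw [Real.log_div h0.ne' (by norm_num)] at b1
      have b2 : Real.log 4 ≤ 2 := by
        have : Real.log 4 = 2 * Real.log 2 := by
          rw [show (4 : ℝ) = 2 ^ 2 by norm_num, Real.log_pow]; norm_num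
        linarith [Real.log_two_lt_d9]
      have b3 : a * Real.log ((ρ + a) / r) ≤ a * ((ρ + a) / r / 4 + 1) :=
        mul_le_mul_of_nonneg_left (by linarith) h
      have b4 : a * ((ρ + a) / r / 4 + 1) ≤ r * ((ρ + a) / r / 4 + 1) :=
        mul_le_mul_of_nonneg_right ha' (by positivity)
      have b5 : r * ((ρ + a) / r / 4 + 1) = (ρ + a) / 4 + r := by field_simp
      linarith
    · have b1 : 1 / 2 ≤ (ρ + a) / r := by rw [le_div_iff₀ hr]; linarith
      have b2 := Real.log_le_log (by norm_num) b1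
      rw [one_div, Real.log_inv] at b2
      have b3 : -1 ≤ Real.log ((ρ + a) / r) := by linarith [Real.log_two_lt_d9]
      nlinarith
  rw [h1]
  linarith

end Pool.Agent.P.MP_677f70_an.Sh
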