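import Pool.Agent.P.MP_677f70_an.Main
import Pool.Agent.P.MP_677f70_an.ShDom
import Pool.Agent.P.MP_677f70_an.ShW

set_option autoImplicit false

open InnerProductSpace Filter

namespace Pool.Agent.P.MP_677f70_an.Sh

/-- the half strip -/
def Sd (u : ℕ → ℝ) : Set ℂ := {s | u 0 + 1 < s.re ∧ |s.im| < Real.pi / 2}

/-- the domain -/
def Dn (u : ℕ → ℝ) (n : ℕ) : Set (E n) := {x | pl 0 1 x ∈ Phi u '' Sd u}

/-- real part of a function of the strip variable -/
noncomputable def lift (u : ℕ → ℝ) (n : ℕ) (f : ℂ → ℂ) (x : E n) : ℝ := (f (Inv u (pl 0 1 x))).re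

variable {u : ℕ → ℝ} {n : ℕ}

theorem mem_so {s : ℂ} (h1 : u 0 + 1 ≤ s.re) (h2 : |s.im| ≤ Real.pi / 2) : s ∈ So u :=
  ⟨by linarith, by linarith [Real.pi_lt_four]⟩

theorem sd_sub : Sd u ⊆ So u := fun _ hs => mem_so hs.1.le hs.2.le

theorem isOpen_sd : IsOpen (Sd u) :=
  (isOpen_lt continuous_const Complex.continuous_re).inter
    (isOpen_lt Complex.continuous_im.abs continuous_const)

theorem convex_sd : Convex ℝ (Sd u) := by
  have e : Sd u = {s : ℂ | u 0 + 1 < s.re} ∩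
      ({s : ℂ | -(Real.pi / 2) < s.im} ∩ {s : ℂ | s.im < Real.pi / 2}) := by
    ext s; simp [Sd, abs_lt]
  rw [e]
  exact (convex_halfSpace_re_gt _).inter
    ((convex_halfSpace_im_gt _).inter (convex_halfSpace_im_lt _))

theorem real_mem_sd {t : ℝ} (ht : u 0 + 1 < t) : (t : ℂ) ∈ Sd u :=
  ⟨by simpa using ht, by simp [Real.pi_pos]⟩

theorem lift_eq (h : Gd u) {s : ℂ} (hs : s ∈ So u) {x : E n} (hx : Phi u s = pl 0 1 x)
    (f : ℂ → ℂ) : lift u n f x = (f s).re := by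
  rw [lift, ← hx, inv_Phi h hs]

theorem harm_lift (h : Gd u) {s : ℂ} (hs : s ∈ So u) {x : E n} (hx : Phi u s = pl 0 1 x)
    {f : ℂ → ℂ} (hf : AnalyticAt ℂ f s) : HarmonicAt (lift u n f) x :=
  harmonicAt_re_pl (one_ne_zero' n).symm (g := fun w => f (Inv u w))
    (by rw [← hx]; exact analyticAt_comp_inv h hs hf)

theorem norm_pl_sq (x : E n) : ‖pl 0 1 x‖ ^ 2 = x 0 ^ 2 + x 1 ^ 2 := by
  rw [Complex.sq_norm, Complex.normSq_apply, pl_re, pl_im]; ring

theorem norm_pl_le (x : E n) : ‖pl 0 1 x‖ ≤ ‖x‖ := by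
  refine le_of_sq_le_sq ?_ (norm_nonneg _)
  rw [norm_pl_sq, EuclideanSpace.real_norm_sq_eq, ← Finset.sum_pair (f := fun k => x k ^ 2)
    (one_ne_zero' n).symm]
  exact Finset.sum_le_sum_of_subset_of_nonneg (Finset.subset_univ _) fun _ _ _ => sq_nonneg _

/-- replace the first two coordinates -/
noncomputable def put (n : ℕ) (w : ℂ) (y : E n) : E n :=
  y + (w.re - y 0) • EuclideanSpace.single 0 1 + (w.im - y 1) • EuclideanSpace.single 1 1

theorem pl_put (w : ℂ) (y : E n) : pl 0 1 (put n w y) = w := by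
  apply Complex.ext
  · rw [pl_re]; simp [put]
  · rw [pl_im]; simp [put]

theorem put_pl (y : E n) : put n (pl 0 1 y) y = y := by
  simp [put, pl_re, pl_im]

theorem isOpen_dn (h : Gd u) : IsOpen (Dn u n) :=
  (isOpen_image h isOpen_sd sd_sub).preimage (pl (0 : Fin (n + 2)) 1).continuous

theorem contOn_Phi (h : Gd u) : ContinuousOn (Phi u) (So u) :=
  fun _ hs => (analyticAt_Phi h (st_of_so hs)).continuousAt.continuousWithinAt

theorem isConnected_dn (h : Gd u) : IsConnected (Dn u n) := by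
  have h1 : IsConnected (Phi u '' Sd u) :=
    (convex_sd.isConnected ⟨_, real_mem_sd (t := u 0 + 2) (by linarith)⟩).image _
      ((contOn_Phi h).mono sd_sub)
  have h2 := (h1.prod (isConnected_univ (α := E n))).image (fun p => put n p.1 p.2)
    (Continuous.continuousOn (by unfold put; fun_prop))
  have e : (fun p : ℂ × E n => put n p.1 p.2) '' ((Phi u '' Sd u) ×ˢ Set.univ) = Dn u n := by
    ext x
    constructor
    · rintro ⟨⟨w, y⟩, hp, rfl⟩
      show pl 0 1 (put n w y) ∈ Phi u '' Sd u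
      rw [pl_put]
      exact hp.1
    · exact fun hx => ⟨(pl 0 1 x, x), ⟨hx, trivial⟩, put_pl x⟩
  rwa [e] at h2

theorem not_bounded_dn (h : Gd u) : ¬ Bornology.IsBounded (Dn u n) := by
  intro hb
  obtain ⟨R, hR⟩ := hb.exists_norm_le
  have h0 := h.ge 0
  have hs := real_mem_sd (u := u) (t := u 0 + 2 + |R|) (by linarith [abs_nonneg R])
  have h1 := hR (put n (Phi u (u 0 + 2 + |R| : ℝ)) 0) ⟨_, hs, (pl_put _ _).symm⟩
  have h2 := norm_pl_le (put n (Phi u (u 0 + 2 + |R| : ℝ)) 0)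
  rw [pl_put] at h2
  have h3 := re_le_norm_Phi h (st_of_so (sd_sub hs))
  rw [Complex.ofReal_re] at h3
  linarith [le_abs_self R]

theorem major_norm (h : Gd u) :
    ∃ H : E n → ℝ, HarmonicOnNhd H (Dn u n) ∧ ∀ x ∈ Dn u n, ‖x‖ ≤ H x := by
  classical
  have key : ∀ x ∈ Dn u n, ∀ k : Fin (n + 2), ‖pl 0 1 x‖ ≤ √(x 0 ^ 2 + x 1 ^ 2 + x k ^ 2) ∧
      0 < ‖pl 0 1 x‖ ∧ -(‖pl 0 1 x‖ / 2) ≤ x 0 := by
    rintro x ⟨s, hs, hx⟩ k
    have hS := st_of_so (sd_sub hs)
    refine ⟨Real.le_sqrt_of_sq_le (by rw [norm_pl_sq]; linarith [sq_nonneg (x k)]), ?_, ?_⟩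
    · rw [← hx]; linarith [re_le_norm_Phi h hS, hS.pos h]
    · have := E4 h hS hs.2.le
      rwa [hx, pl_re] at this
  refine ⟨fun x => ∑ k : Fin (n + 2),
    ((if k = 0 ∨ k = 1 then 0 else 2 * WW 0 1 k x + 2 * lift u n (fun s => Phi u s * Lg u s) x)
      + 28 * lift u n (fun s => Complex.exp s * Pm u (ca u) 1 s) x), ?_, ?_⟩
  · intro x hx
    obtain ⟨s, hs, hx'⟩ := id hx
    have hS := st_of_so (sd_sub hs)
    apply harmonicAt_sum Finset.univ (fun k x =>
      (if k = 0 ∨ k = 1 then 0 else 2 * WW 0 1 k x + 2 * lift u n (fun s => Phi u s * Lg u s) x)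
        + 28 * lift u n (fun s => Complex.exp s * Pm u (ca u) 1 s) x)
    intro k _
    apply HarmonicAt.add (f₁ := fun x => if k = 0 ∨ k = 1 then 0 else
      2 * WW 0 1 k x + 2 * lift u n (fun s => Phi u s * Lg u s) x)
      (f₂ := fun x => 28 * lift u n (fun s => Complex.exp s * Pm u (ca u) 1 s) x)
    · by_cases hk : k = 0 ∨ k = 1
      · simp [hk]
      · simp only [hk, if_false]
        rw [not_or] at hk
        obtain ⟨k1, k2, k3⟩ := key x hx k
        exact (harmonicAt_mul 2 (harmonicAt_WW (one_ne_zero' n).symm (Ne.symm hk.1) (Ne.symm hk.2)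
          (by linarith))).add (harmonicAt_mul 2 (harm_lift h (sd_sub hs) hx'
            ((analyticAt_Phi h hS).mul (analyticAt_Lg h hS))))
    · exact harmonicAt_mul _ (harm_lift h (sd_sub hs) hx'
        (analyticAt_cexp.mul (h.okA.analyticAt (hS.pos h))))
  · intro x hx
    obtain ⟨s, hs, hx'⟩ := id hx
    have hS := st_of_so (sd_sub hs)
    refine (norm_le_sum x).trans (Finset.sum_le_sum fun k _ => ?_)
    rw [lift_eq h (sd_sub hs) hx', lift_eq h (sd_sub hs) hx']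
    have h1 := E1 h hS hs.2.le
    have h2 := E5 h hS
    have h3 := Complex.abs_re_le_norm (pl 0 1 x)
    have h4 := Complex.abs_im_le_norm (pl 0 1 x)
    obtain ⟨k1, k2, k3⟩ := key x hx k
    rw [pl_re] at h3
    rw [pl_im] at h4
    by_cases hk : k = 0 ∨ k = 1
    · simp only [hk, if_true]
      rw [hx'] at h1
      rcases hk with rfl | rfl <;> linarith
    · simp only [hk, if_false]
      have h5 := rho_le k2 k3 ((le_abs_self _).trans h3) k1
      have h6 : |x k| ≤ √(x 0 ^ 2 + x 1 ^ 2 + x k ^ 2) :=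
        Real.abs_le_sqrt (by linarith [sq_nonneg (x 0), sq_nonneg (x 1)])
      have h7 : (Phi u s).re = x 0 := by rw [hx', pl_re]
      have h8 : ‖Phi u s‖ = ‖pl 0 1 x‖ := by rw [hx']
      rw [h7, h8] at h2
      rw [h8] at h1
      unfold WW
      linarith

theorem major_first (h : Gd u) {φ : ℝ → ℝ} (hφ : ∀ j t, u j ≤ t → 14 * bb j ≤ φ t) :
    ∃ Ψ : E n → ℝ, HarmonicOnNhd Ψ (Dn u n) ∧
      ∀ x ∈ Dn u n, |x 0| ≤ Ψ x ∧ Ψ x ≤ ‖x‖ * φ ‖x‖ := by
  refine ⟨fun x => 12 * lift u n (fun s => Complex.exp s * Pm u u 2 s) x, ?_, ?_⟩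
  · rintro x ⟨s, hs, hx⟩
    exact harmonicAt_mul _ (harm_lift h (sd_sub hs) hx
      (analyticAt_cexp.mul (h.okT.analyticAt ((st_of_so (sd_sub hs)).pos h))))
  · rintro x ⟨s, hs, hx⟩
    have hS := st_of_so (sd_sub hs)
    have h1 := E2 h hS hs.2.le
    obtain ⟨j, h2, h3⟩ := E3 h hS
    rw [hx] at h1 h2 h3
    rw [pl_re] at h1
    simp only [lift_eq h (sd_sub hs) hx]
    refine ⟨h1, h3.trans ?_⟩
    exact mul_le_mul (norm_pl_le x) (hφ j _ (h2.trans (norm_pl_le x))) (by unfold bb; positivity)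
      (norm_nonneg _)

theorem exists_P (R : ℝ) : ∃ P : E n → ℝ, (∀ x, HarmonicAt P x) ∧
    ∀ x : E n, x 0 ^ 2 ≤ R ^ 2 → ‖x‖ ^ 2 - R ^ 2 ≤ P x ∧ 0 ≤ P x := by
  classical
  refine ⟨fun x => ∑ k : Fin (n + 2),
    (if k = 0 then 0 else (R ^ 2 + (-1) * ((pl 0 k x) ^ 2).re)), fun x => ?_, fun x h1 => ?_⟩
  · apply harmonicAt_sum Finset.univ
      (fun k x => if k = 0 then 0 else (R ^ 2 + (-1) * ((pl 0 k x) ^ 2).re))
    intro k _
    by_cases hk : k = 0
    · simp [hk]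
    · simp only [hk, if_false]
      exact (harmonicAt_const (R ^ 2)).add (harmonicAt_mul _ (harmonicAt_re_pl (Ne.symm hk)
        (g := fun w => w ^ 2) (analyticAt_id.pow 2)))
  · have h2 : ∀ k : Fin (n + 2), x k ^ 2 - (if k = 0 then R ^ 2 else 0) ≤
        (if k = 0 then 0 else (R ^ 2 + (-1) * ((pl 0 k x) ^ 2).re)) := by
      intro k
      by_cases hk : k = 0
      · subst hk
        simp only [if_true]
        linarith
      · simp only [hk, if_false]
        rw [sq_re, pl_re, pl_im]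
        linarith
    constructor
    · have h3 := Finset.sum_le_sum (s := Finset.univ) fun k _ => h2 k
      rw [Finset.sum_sub_distrib] at h3
      simp only [Finset.sum_ite_eq', Finset.mem_univ, if_true] at h3
      rw [EuclideanSpace.real_norm_sq_eq]
      exact h3
    · apply Finset.sum_nonneg
      intro k _
      by_cases hk : k = 0
      · simp [hk]
      · simp only [hk, if_false]
        rw [sq_re, pl_re, pl_im]
        linarith [sq_nonneg (x k)]

theorem no_major (h : Gd u) : ¬ ∃ H : E n → ℝ, HarmonicOnNhd H (Dn u n) ∧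
    ∀ x ∈ Dn u n, |x 0| * max (Real.log |x 0|) 0 ≤ H x := by
  rintro ⟨H, hH, hHφ⟩
  have hu0 := h.ge 0
  have hs0 := real_mem_sd (u := u) (t := u 0 + 1 + 2) (by linarith)
  obtain ⟨x0, hx0⟩ : ∃ x0 : E n, Phi u (u 0 + 1 + 2 : ℝ) = pl 0 1 x0 := ⟨_, (pl_put _ 0).symm⟩
  obtain ⟨C, hC⟩ : ∃ C, C = Real.exp (u 0 + 1) := ⟨_, rfl⟩
  have hC1 : 1 ≤ C := by rw [hC]; exact Real.one_le_exp (by linarith)
  obtain ⟨K, hK⟩ : ∃ K, K = |H x0 + 1 / 4 * lift u n (fun s => Complex.exp s * qq u s) x0| + 4 :=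
    ⟨_, rfl⟩
  have hK4 : 4 ≤ K := by
    linarith [abs_nonneg (H x0 + 1 / 4 * lift u n (fun s => Complex.exp s * qq u s) x0)]
  obtain ⟨J, hJ⟩ := exists_nat_ge (20 * K + 80)
  have huJ := h.ge J
  obtain ⟨T, hT⟩ : ∃ T, T = u J + u 0 + 4 := ⟨_, rfl⟩
  set Ro : Set ℂ := {s | s ∈ Sd u ∧ s.re < T} with hRo
  set Rc : Set ℂ := Set.Icc (u 0 + 1) T ×ℂ Set.Icc (-(Real.pi / 2)) (Real.pi / 2) with hRc
  have hmem : ∀ s ∈ Rc, u 0 + 1 ≤ s.re ∧ s.re ≤ T ∧ |s.im| ≤ Real.pi / 2 :=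
    fun s hs => ⟨hs.1.1, hs.1.2, abs_le.2 hs.2⟩
  have hRcS : Rc ⊆ So u := fun s hs => mem_so (hmem s hs).1 (hmem s hs).2.2
  have hRoc : Ro ⊆ Rc := fun s hs => ⟨⟨hs.1.1.le, hs.2.le⟩, abs_le.1 hs.1.2.le⟩
  have hcomp : IsCompact (Phi u '' Rc) :=
    (isCompact_Icc.reProdIm isCompact_Icc).image_of_continuousOn ((contOn_Phi h).mono hRcS)
  obtain ⟨R, hR⟩ := hcomp.isBounded.exists_norm_le
  obtain ⟨P, hPh, hP⟩ := exists_P (n := n) R
  set Ω : Set (E n) := {x | pl 0 1 x ∈ Phi u '' Ro} with hΩ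
  set F : Set (E n) := {x | pl 0 1 x ∈ Phi u '' Rc} with hF
  have hΩo : IsOpen Ω := (isOpen_image h
    (isOpen_sd.inter (isOpen_lt Complex.continuous_re continuous_const))
    (hRoc.trans hRcS)).preimage (pl (0 : Fin (n + 2)) 1).continuous
  have hFc : IsClosed F := hcomp.isClosed.preimage (pl (0 : Fin (n + 2)) 1).continuous
  have hΩF : Ω ⊆ F := fun x hx => Set.image_mono hRoc hx
  have hΩD : Ω ⊆ Dn u n := fun x hx => Set.image_mono (fun s hs => hs.1) hx
  have hx0Ω : x0 ∈ Ω := ⟨_, ⟨hs0, by rw [Complex.ofReal_re]; linarith⟩, hx0⟩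
  have hFR : ∀ x ∈ F, x 0 ^ 2 ≤ R ^ 2 := by
    intro x hx
    have h1 := (Complex.abs_re_le_norm _).trans (hR _ hx)
    rw [pl_re] at h1
    rw [← sq_abs]
    exact pow_le_pow_left₀ (abs_nonneg _) h1 2
  obtain ⟨v, hv⟩ : ∃ v : E n → ℝ, v = fun x => K * (lift u n Complex.exp x - 2 * C)
    - 1 / 4 * lift u n (fun s => Complex.exp s * qq u s) x := ⟨_, rfl⟩
  have hvh : ∀ x ∈ F, HarmonicAt v x := by
    rintro x ⟨s, hs, hx⟩
    rw [hv]
    exact (harmonicAt_mul K ((harm_lift h (hRcS hs) hx analyticAt_cexp).sub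
      (harmonicAt_const (2 * C)))).sub (harmonicAt_mul (1 / 4) (harm_lift h (hRcS hs) hx
        (analyticAt_cexp.mul (analyticAt_qq h (st_of_so (hRcS hs))))))
  have hb1 : ∀ s ∈ Rc, ∀ x : E n, Phi u s = pl 0 1 x →
      v x - |x 0| * max (Real.log |x 0|) 0 ≤ K * ((Complex.exp s).re - 2 * C)
        - (Complex.exp s).re * ((qq u s).re - 16) / 4 ∧ 0 ≤ (Complex.exp s).re ∧
        (Complex.exp s).re ≤ Real.exp s.re ∧ 0 ≤ (qq u s).re := by
    intro s hs x hx
    have hS := st_of_so (hRcS hs)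
    have h1 := E6 h hS (hmem s hs).2.2
    rw [hx, pl_re] at h1
    refine ⟨?_, ?_, ?_, ?_⟩
    · simp only [hv, lift_eq h (hRcS hs) hx]
      linarith
    · rw [Complex.exp_re]
      exact mul_nonneg (Real.exp_pos _).le (trig (hmem s hs).2.2).1
    · rw [← Complex.norm_exp]; exact Complex.re_le_norm _
    · have := q_re h hS 0 hS.re
      rw [Nat.cast_zero, zero_div] at this
      exact this
  have hKC : 0 ≤ K * C := by positivity
  have hbdry : ∀ x ∈ F, x ∉ Ω → v x - |x 0| * max (Real.log |x 0|) 0 ≤ 0 := by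
    rintro x ⟨s, hs, hx⟩ hxΩ
    obtain ⟨h1, h2, h3, h4⟩ := hb1 s hs x hx
    obtain ⟨m1, m2, m3⟩ := hmem s hs
    by_cases c1 : s.re = u 0 + 1
    · rw [c1, ← hC] at h3
      have a1 := mul_nonneg h2 h4
      have a2 := mul_le_mul_of_nonneg_left h3 (by linarith : 0 ≤ K)
      have a3 := mul_le_mul_of_nonneg_right hK4 (by linarith : 0 ≤ C)
      linarith
    by_cases c2 : s.re = T
    · have a1 : (J : ℝ) / 5 ≤ (qq u s).re := q_re h (st_of_so (hRcS hs)) J (by linarith)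
      have a2 := mul_le_mul_of_nonneg_left (show 4 * K ≤ (qq u s).re - 16 by linarith) h2
      linarith
    · have a1 : |s.im| = Real.pi / 2 := by
        by_contra hne
        exact hxΩ ⟨s, ⟨⟨lt_of_le_of_ne m1 (Ne.symm c1), lt_of_le_of_ne m3 hne⟩,
          lt_of_le_of_ne m2 c2⟩, hx⟩
      have a2 : (Complex.exp s).re = 0 := by
        rw [Complex.exp_re, ← Real.cos_abs, a1, Real.cos_pi_div_two, mul_zero]
      rw [a2] at h1
      linarith
  have hbound : ∀ x ∈ F, v x - |x 0| * max (Real.log |x 0|) 0 ≤ (K + 4) * Real.exp T := by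
    rintro x ⟨s, hs, hx⟩
    obtain ⟨h1, h2, h3, h4⟩ := hb1 s hs x hx
    have a1 := mul_nonneg h2 h4
    have a2 := mul_le_mul_of_nonneg_left (h3.trans (Real.exp_le_exp.2 (hmem s hs).2.1))
      (by linarith : 0 ≤ K + 4)
    linarith
  have main : ∀ ε > 0, v x0 - H x0 - ε * P x0 ≤ 0 := by
    intro ε hε
    refine max_principle (0 : Fin (n + 2)) hΩo hFc hΩF (R := R ^ 2)
      (u := fun x => v x - H x - ε * P x)
      (ψ := fun x => v x - |x 0| * max (Real.log |x 0|) 0 - ε * P x) ?_ ?_ ?_ ?_ ?_ ?_ x0 hx0Ω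
    · exact fun x hx => hFR x (hΩF hx)
    · intro x hx
      exact ((hvh x (hΩF hx)).sub (hH x (hΩD hx))).sub (harmonicAt_mul ε (hPh x))
    · intro x hx
      apply ContinuousAt.continuousWithinAt
      refine ((hvh x hx).1.continuousAt.sub ?_).sub (harmonicAt_mul ε (hPh x)).1.continuousAt
      exact (continuous_phi.comp (by fun_prop : Continuous fun x : E n => x 0)).continuousAt
    · intro x hx
      linarith [hHφ x (hΩD hx)]
    · intro x hx hxΩ
      have := mul_nonneg hε.le (hP x (hFR x hx)).2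
      linarith [hbdry x hx hxΩ]
    · intro η hη
      rw [isBounded_iff_forall_norm_le]
      refine ⟨(K + 4) * Real.exp T / ε + R ^ 2 + 1, fun x hx => ?_⟩
      have h1 := hbound x hx.1
      have h2 := mul_le_mul_of_nonneg_left (hP x (hFR x hx.1)).1 hε.le
      have h3 : ε * (‖x‖ ^ 2 - R ^ 2) ≤ (K + 4) * Real.exp T := by linarith [hx.2]
      have h4 : ‖x‖ ^ 2 - R ^ 2 ≤ (K + 4) * Real.exp T / ε := by
        rw [le_div_iff₀ hε]; linarith
      nlinarith [sq_nonneg (‖x‖ - 1)]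
  have hP0 := (hP x0 (hFR x0 (hΩF hx0Ω))).2
  have hle : v x0 ≤ H x0 := by
    by_contra hlt
    push Not at hlt
    have h1 := main ((v x0 - H x0) / (P x0 + 1)) (div_pos (by linarith) (by linarith))
    have h2 : (v x0 - H x0) / (P x0 + 1) * P x0 < v x0 - H x0 := by
      rw [div_mul_eq_mul_div, div_lt_iff₀ (by linarith)]
      nlinarith
    linarith
  have hM : 3 * C ≤ lift u n Complex.exp x0 := by
    rw [lift_eq h (sd_sub hs0) hx0, Complex.exp_ofReal_re, Real.exp_add, ← hC]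
    have := Real.add_one_le_exp 2
    nlinarith
  have h1 : K * 1 ≤ K * (lift u n Complex.exp x0 - 2 * C) :=
    mul_le_mul_of_nonneg_left (by linarith) (by linarith)
  simp only [hv] at hle
  have h2 := le_abs_self (H x0 + 1 / 4 * lift u n (fun s => Complex.exp s * qq u s) x0)
  linarith

theorem exists_seq {φ : ℝ → ℝ} (hφ : Tendsto φ atTop atTop) :
    ∃ u : ℕ → ℝ, Gd u ∧ ∀ j t, u j ≤ t → 14 * bb j ≤ φ t := by
  have h1 : ∀ j, ∃ a : ℝ, 1000 * bb j ≤ a ∧ ∀ t, a ≤ t → 14 * bb j ≤ φ t := by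
    intro j
    obtain ⟨a, ha⟩ := eventually_atTop.1 (hφ.eventually_ge_atTop (14 * bb j))
    exact ⟨max a (1000 * bb j), le_max_right _ _, fun t ht => ha t ((le_max_left _ _).trans ht)⟩
  choose a ha1 ha2 using h1
  let u : ℕ → ℝ := fun j => Nat.rec (a 0) (fun j x => max (2 * x) (a (j + 1))) j
  have h2 : ∀ j, a j ≤ u j := by
    intro j
    cases j with
    | zero => exact le_rfl
    | succ j => exact le_max_right _ _
  exact ⟨u, ⟨fun j => (ha1 j).trans (h2 j), fun j => le_max_left _ _⟩,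
    fun j t ht => ha2 j t ((h2 j).trans ht)⟩

theorem sharp (n : ℕ) (φ : ℝ → ℝ) (hφ : Tendsto φ atTop atTop) :
    ∃ D : Set (EuclideanSpace ℝ (Fin (n + 2))),
      IsOpen D ∧ IsConnected D ∧ ¬ Bornology.IsBounded D ∧
      (∃ h : EuclideanSpace ℝ (Fin (n + 2)) → ℝ,
        InnerProductSpace.HarmonicOnNhd h D ∧ ∀ x ∈ D, ‖x‖ ≤ h x) ∧
      (∃ Ψ : EuclideanSpace ℝ (Fin (n + 2)) → ℝ,
        InnerProductSpace.HarmonicOnNhd Ψ D ∧ ∀ x ∈ D, |x 0| ≤ Ψ x ∧ Ψ x ≤ ‖x‖ * φ ‖x‖) ∧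
      ¬ (∃ h : EuclideanSpace ℝ (Fin (n + 2)) → ℝ,
        InnerProductSpace.HarmonicOnNhd h D ∧
          ∀ x ∈ D, |x 0| * max (Real.log |x 0|) 0 ≤ h x) := by
  obtain ⟨u, h, hu⟩ := exists_seq hφ
  exact ⟨Dn u n, isOpen_dn h, isConnected_dn h, not_bounded_dn h, major_norm h, major_first h hu,
    no_major h⟩

end Pool.Agent.P.MP_677f70_an.Sh
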