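import Pool.Agent.P.MP_677f70_an.NgMain

set_option autoImplicit false

namespace Pool.Agent.P.MP_677f70_an.VariantNoGain

/-- A harmonic majorant of the norm gives nothing beyond linear growth in the first coordinate. -/
theorem result (n : ℕ) (ψ : ℝ → ℝ) (h0 : ∀ t, 0 ≤ ψ t)
    (hψ : Filter.Tendsto ψ Filter.atTop Filter.atTop) :
    ∃ D : Set (EuclideanSpace ℝ (Fin (n + 2))),
      IsOpen D ∧ IsConnected D ∧ ¬ Bornology.IsBounded D ∧
      (∃ h : EuclideanSpace ℝ (Fin (n + 2)) → ℝ,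
        InnerProductSpace.HarmonicOnNhd h D ∧ ∀ x ∈ D, ‖x‖ ≤ h x) ∧
      ¬ (∃ h : EuclideanSpace ℝ (Fin (n + 2)) → ℝ,
        InnerProductSpace.HarmonicOnNhd h D ∧ ∀ x ∈ D, |x 0| * ψ |x 0| ≤ h x) :=
  Pool.Agent.P.MP_677f70_an.Ng.noGain n ψ h0 hψ

/-- The posed question: the case of the positive part of the logarithm. -/
theorem posed (n : ℕ) :
    ∃ D : Set (EuclideanSpace ℝ (Fin (n + 2))),
      IsOpen D ∧ IsConnected D ∧ ¬ Bornology.IsBounded D ∧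
      (∃ h : EuclideanSpace ℝ (Fin (n + 2)) → ℝ,
        InnerProductSpace.HarmonicOnNhd h D ∧ ∀ x ∈ D, ‖x‖ ≤ h x) ∧
      ¬ (∃ h : EuclideanSpace ℝ (Fin (n + 2)) → ℝ,
        InnerProductSpace.HarmonicOnNhd h D ∧
          ∀ x ∈ D, |x 0| * max (Real.log |x 0|) 0 ≤ h x) :=
  result n (fun t => max (Real.log t) 0) (fun _ => le_max_right _ _)
    (Filter.tendsto_atTop_mono (fun _ => le_max_left _ _) Real.tendsto_log_atTop)

/-- Convex gauges: exactly those of at most linear growth inherit a majorant on every domain. -/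
theorem convex_iff (n : ℕ) (F : ℝ → ℝ) (h0 : ∀ t, 0 ≤ t → 0 ≤ F t)
    (hc : ∀ s t c : ℝ, 0 ≤ s → 0 ≤ t → 0 ≤ c → c ≤ 1 →
      F (c * s + (1 - c) * t) ≤ c * F s + (1 - c) * F t) :
    (∀ D : Set (EuclideanSpace ℝ (Fin (n + 2))), IsOpen D → IsConnected D →
      (∃ h : EuclideanSpace ℝ (Fin (n + 2)) → ℝ,
        InnerProductSpace.HarmonicOnNhd h D ∧ ∀ x ∈ D, ‖x‖ ≤ h x) →
      ∃ h : EuclideanSpace ℝ (Fin (n + 2)) → ℝ,
        InnerProductSpace.HarmonicOnNhd h D ∧ ∀ x ∈ D, F |x 0| ≤ h x) ↔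
    ∃ C : ℝ, ∀ t, 0 ≤ t → F t ≤ C * (1 + t) :=
  Pool.Agent.P.MP_677f70_an.Ng.convex_iff n F h0 hc

end Pool.Agent.P.MP_677f70_an.VariantNoGain
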