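import Pool.Agent.P.MP_677f70_an.ShMain

set_option autoImplicit false

theorem Pool.Agent.P.MP_677f70_an.VariantSharpGrowth.result (n : ℕ) (φ : ℝ → ℝ)
    (hφ : Filter.Tendsto φ Filter.atTop Filter.atTop) :
    ∃ D : Set (EuclideanSpace ℝ (Fin (n + 2))),
      IsOpen D ∧ IsConnected D ∧ ¬ Bornology.IsBounded D ∧
      (∃ h : EuclideanSpace ℝ (Fin (n + 2)) → ℝ,
        InnerProductSpace.HarmonicOnNhd h D ∧ ∀ x ∈ D, ‖x‖ ≤ h x) ∧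
      (∃ Ψ : EuclideanSpace ℝ (Fin (n + 2)) → ℝ,
        InnerProductSpace.HarmonicOnNhd Ψ D ∧ ∀ x ∈ D, |x 0| ≤ Ψ x ∧ Ψ x ≤ ‖x‖ * φ ‖x‖) ∧
      ¬ (∃ h : EuclideanSpace ℝ (Fin (n + 2)) → ℝ,
        InnerProductSpace.HarmonicOnNhd h D ∧
          ∀ x ∈ D, |x 0| * max (Real.log |x 0|) 0 ≤ h x) :=
  Pool.Agent.P.MP_677f70_an.Sh.sharp n φ hφ
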